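import Pool.Agent.P.MP_aef18a_nt.TW.Iface
import Pool.Agent.P.MP_aef18a_nt.OW.GrowT

namespace Pool.Agent.P.MP_aef18a_nt.TW

open Polynomial Matrix LaurentPolynomial OW

namespace Bigy

lemma l1p_cast (S : ℤ[X]) {s : Finset ℕ} (h : S.support ⊆ s) :
    (l1p S : ℝ) = ∑ i ∈ s, ‖(S.coeff i : ℂ)‖ := by
  rw [l1p_eq S h]
  simp only [Nat.cast_sum, Nat.cast_natAbs, Int.cast_abs, Complex.norm_intCast]

lemma quo_le {p q : ℂ[X]} {β : ℂ} (h : p = (X - Polynomial.C β) * q) (hβ : 1 ≤ ‖β‖) (i : ℕ) :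
    ‖q.coeff i‖ ≤ ∑ l ∈ Finset.range (i + 1), ‖p.coeff l‖ := by
  have k : ∀ z : ℂ, ‖z‖ ≤ ‖β * z‖ := fun z => by
    rw [norm_mul]
    exact le_mul_of_one_le_left (norm_nonneg _) hβ
  induction i with
  | zero =>
    have e : p.coeff 0 = -(β * q.coeff 0) := by rw [h]; simp
    rw [Finset.sum_range_one, e, norm_neg]
    exact k _
  | succ i ih =>
    have e : β * q.coeff (i + 1) = q.coeff i - p.coeff (i + 1) := by
      rw [h, sub_mul, coeff_sub, coeff_X_mul, coeff_C_mul]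
      ring
    rw [Finset.sum_range_succ]
    refine (k _).trans ?_
    rw [e]
    exact (norm_sub_le _ _).trans (add_le_add ih le_rfl)

lemma der_le {S : ℤ[X]} {L : ℕ} (h : l1p S ≤ L) {β : ℂ} {A : ℝ}
    (hA : ∀ i ≤ S.natDegree, ‖β‖ ^ i ≤ A) :
    ‖β * aeval β (derivative S)‖ ≤ L * S.natDegree * A := by
  have A0 : 0 ≤ A := (pow_nonneg (norm_nonneg β) 0).trans (hA 0 (Nat.zero_le _))
  rw [GrowTx.aeval_der]
  refine (norm_sum_le _ _).trans ((Finset.sum_le_sum
    (g := fun i => ‖(S.coeff i : ℂ)‖ * (S.natDegree * A)) fun i hi => ?_).trans ?_)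
  · have hi' := le_natDegree_of_mem_supp i hi
    have h1 : (i : ℝ) ≤ S.natDegree := Nat.cast_le.2 hi'
    have h2 := hA i hi'
    rw [norm_mul, norm_mul, norm_pow, Complex.norm_natCast]
    calc _ ≤ S.natDegree * ‖(S.coeff i : ℂ)‖ * A := by gcongr
      _ = _ := by ring
  · rw [← Finset.sum_mul, ← l1p_cast S subset_rfl, mul_assoc]
    exact mul_le_mul_of_nonneg_right (Nat.cast_le.2 h) (by positivity)

lemma coeff_Qs (hN : S_NS) {S : ℤ[X]} (h0 : S ≠ 0) {ψ : PowerSeries ℂ}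
    (h : ((S.reverse.map (Int.castRingHom ℂ) : ℂ[X]) : PowerSeries ℂ) * ψ =
      ((X * derivative (S.reverse.map (Int.castRingHom ℂ)) : ℂ[X]) : PowerSeries ℂ) ^ 2) {j : ℕ}
    (hj : 0 < j) : Qs S j = PowerSeries.coeff (j + S.natDegree) ψ := by
  have e1 : ∑ i ∈ S.support, (S.coeff i : ℂ) * ps S (j + i) = 0 := by
    unfold ps
    rw [GrowTx.swap]
    refine Multiset.sum_eq_zero fun x hx => ?_
    obtain ⟨β, hβ, rfl⟩ := Multiset.mem_map.mp hx
    rw [← GrowTx.aeval_sum, (mem_aroots.mp hβ).2, mul_zero]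
  have e2 : Qs S j = ∑ i ∈ S.support, ((i : ℂ) * S.coeff i) * ps S (j + i) := by
    unfold ps Qs
    rw [GrowTx.swap]
    simp only [GrowTx.aeval_der]
  rw [GrowTx.coeff_psi hN h0 h, e2, ← sub_eq_zero, sub_neg_eq_add, ← Finset.sum_add_distrib,
    ← mul_zero (S.natDegree : ℂ), ← e1, Finset.mul_sum]
  refine Finset.sum_congr rfl fun i hi => ?_
  have hi' := le_natDegree_of_mem_supp i hi
  rw [if_pos (by omega), show j + S.natDegree - (S.natDegree - i) = j + i by omega,
    Nat.cast_sub hi']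
  ring

lemma term_le {L N J T g j R₀ : ℕ} {x D v la : ℝ} (x0 : 0 ≤ x) (D0 : 0 ≤ D) (la1 : 1 ≤ la)
    (hN : N ≤ J * g) (hj : j ≤ T * N) (h1 : x ≤ 1 → D ≤ L * N) (h2 : 1 < x → D ≤ L * N * x ^ N)
    (h3 : 1 < x → x ^ (R₀ * g) * D ≤ L * (N : ℝ) ^ 2 * x ^ N) (h4 : (N : ℝ) ≤ v)
    (h5 : x ^ g ≤ v) (h6 : v ^ ((T + 1) * J + 1) ≤ la ^ (R₀ + 1)) :
    x ^ j * D ≤ L * N * la ^ ((T + 1) * J + 1) := by
  have a1 : 1 ≤ la ^ ((T + 1) * J + 1) := one_le_pow₀ la1
  have a0 : (0 : ℝ) ≤ L * N := by positivity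
  rcases le_or_gt x 1 with hx | hx
  · exact ((mul_le_of_le_one_left D0 (pow_le_one₀ x0 hx)).trans (h1 hx)).trans
      (le_mul_of_one_le_right a0 a1)
  have a2 : x ^ j * x ^ N ≤ (x ^ g) ^ ((T + 1) * J) := by
    rw [← pow_add, ← pow_mul]
    refine pow_le_pow_right₀ hx.le ?_
    calc j + N ≤ (T + 1) * N := by rw [add_one_mul]; omega
      _ ≤ (T + 1) * (J * g) := Nat.mul_le_mul_left _ hN
      _ = _ := by ring
  have b0 : 0 < x ^ g := by positivity
  rcases le_or_gt (x ^ g) la with hb | hb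
  · calc _ ≤ x ^ j * (L * N * x ^ N) := mul_le_mul_of_nonneg_left (h2 hx) (by positivity)
      _ = L * N * (x ^ j * x ^ N) := by ring
      _ ≤ L * N * la ^ ((T + 1) * J) :=
        mul_le_mul_of_nonneg_left (a2.trans (pow_le_pow_left₀ b0.le hb _)) a0
      _ ≤ _ := mul_le_mul_of_nonneg_left (pow_le_pow_right₀ la1 (by omega)) a0
  · have v0 : 0 ≤ v := b0.le.trans h5
    have a3 : x ^ j * D ≤ L * N * la := by
      refine le_of_mul_le_mul_right ?_ (pow_pos b0 R₀)
      calc _ = x ^ j * (x ^ (R₀ * g) * D) := by rw [mul_comm R₀, pow_mul]; ring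
        _ ≤ x ^ j * (L * (N : ℝ) ^ 2 * x ^ N) := mul_le_mul_of_nonneg_left (h3 hx) (by positivity)
        _ = L * N * (x ^ j * x ^ N * N) := by ring
        _ ≤ L * N * (v ^ ((T + 1) * J) * v) := mul_le_mul_of_nonneg_left
          (mul_le_mul (a2.trans (pow_le_pow_left₀ b0.le h5 _)) h4 (by positivity)
            (by positivity)) a0
        _ ≤ L * N * (la * (x ^ g) ^ R₀) := by
          refine mul_le_mul_of_nonneg_left ?_ a0
          rw [← pow_succ]
          refine h6.trans ?_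
          rw [pow_succ']
          exact mul_le_mul_of_nonneg_left (pow_le_pow_left₀ (by linarith) hb.le _) (by linarith)
        _ = _ := by ring
    exact a3.trans (mul_le_mul_of_nonneg_left (le_self_pow₀ la1 (by omega)) a0)

end Bigy

open Bigy in
theorem p_Big : S_Big := by
  classical
  intro S g St L K r s Bd hS hL hd hg hn hr hs hK hB β hβ h1
  have root : ∀ γ ∈ St.aroots ℂ, (S.map (Int.castRingHom ℂ)).IsRoot γ := fun γ hγ => by
    have := aeval_eq_zero_of_dvd_aeval_eq_zero hd (mem_aroots.1 hγ).2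
    rwa [← eval_map_algebraMap] at this
  obtain ⟨q, hq⟩ := dvd_iff_isRoot.2 (root β hβ)
  have p0 : S.map (Int.castRingHom ℂ) ≠ 0 :=
    (Polynomial.map_ne_zero_iff (RingHom.injective_int _)).2 hS
  have q0 : q ≠ 0 := by
    rintro rfl
    exact p0 (by rw [hq, mul_zero])
  have hN : S.natDegree = q.natDegree + 1 := by
    rw [← natDegree_map_eq_of_injective (RingHom.injective_int (Int.castRingHom ℂ)) S, hq,
      natDegree_mul (X_sub_C_ne_zero β) q0, natDegree_X_sub_C, add_comm]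
  have hqβ : q.eval β = aeval β (derivative S) := by
    rw [← eval_map_algebraMap, ← derivative_map, show algebraMap ℤ ℂ = Int.castRingHom ℂ from rfl,
      hq, derivative_mul]
    simp
  have hqc : ∀ i, ‖q.coeff i‖ ≤ L := fun i => by
    refine (quo_le hq h1 i).trans (le_trans ?_ (Nat.cast_le.2 hL))
    rw [l1p_cast S (s := S.support ∪ Finset.range (i + 1)) Finset.subset_union_left]
    simp only [coeff_map, eq_intCast]
    exact Finset.sum_le_sum_of_subset_of_nonneg Finset.subset_union_right fun _ _ _ => norm_nonneg _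
  obtain ⟨j, hj⟩ : ∃ j, K + 1 = j + S.natDegree := ⟨K + 1 - S.natDegree, by omega⟩
  have key : ∀ R ≤ St.aroots ℂ, ∑ i ∈ Finset.range S.natDegree,
      q.coeff i * (R.map (· ^ (j + i))).sum = R.count β * (β ^ j * aeval β (derivative S)) := by
    intro R hR
    rw [GrowTx.swap, Multiset.sum_map_eq_nsmul_single β fun γ h2 h3 => ?_, nsmul_eq_mul, hN,
      ← eval_eq_sum_range, hqβ]
    have := root γ (Multiset.mem_of_le hR h3)
    rw [hq, IsRoot, eval_mul, eval_sub, eval_X, eval_C, mul_eq_zero, sub_eq_zero] at this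
    rw [hN, ← eval_eq_sum_range, this.resolve_left h2, mul_zero]
  have c1 : (St.aroots ℂ).count β = 1 := Multiset.count_eq_one_of_mem hn hβ
  have c2 : (g.aroots ℂ).count β ≤ 1 := c1 ▸ Multiset.count_le_of_le β hg
  have e : ∑ i ∈ Finset.range S.natDegree, q.coeff i * (s * ps g (j + i) - r * ps St (j + i)) =
      ((s * (g.aroots ℂ).count β - r : ℤ) : ℂ) * (β ^ j * aeval β (derivative S)) := by
    have k1 := key _ hg
    have k2 := key _ le_rfl
    rw [c1] at k2
    simp only [ps, mul_sub, Finset.sum_sub_distrib, mul_left_comm (q.coeff _), ← Finset.mul_sum,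
      k1, k2]
    push_cast
    ring
  have w1 : (1 : ℝ) ≤ ‖((s * (g.aroots ℂ).count β - r : ℤ) : ℂ)‖ := by
    rw [Complex.norm_intCast, ← Int.cast_abs, ← Int.cast_one, Int.cast_le]
    refine Int.one_le_abs ?_
    rcases Nat.le_one_iff_eq_zero_or_eq_one.1 c2 with a | a <;> rw [a] <;> omega
  have b1 : ‖β ^ j * aeval β (derivative S)‖ ≤ S.natDegree * (L * Bd) := by
    refine (le_mul_of_one_le_left (norm_nonneg _) w1).trans ?_
    rw [← norm_mul, ← e]
    refine (norm_sum_le _ _).trans ((Finset.sum_le_card_nsmul _ _ (L * Bd) fun i hi => ?_).trans ?_)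
    · have := Finset.mem_range.1 hi
      rw [norm_mul]
      exact mul_le_mul (hqc i) (hB _ (by omega) (by omega)) (norm_nonneg _) (Nat.cast_nonneg _)
    · rw [Finset.card_range, nsmul_eq_mul]
  rw [norm_mul, norm_pow] at b1
  calc _ = ‖β‖ ^ j * ‖aeval β (derivative S)‖ * ‖β‖ ^ S.natDegree := by
        rw [norm_mul, ← mul_assoc, ← pow_succ, hj]
        ring
    _ ≤ S.natDegree * (L * Bd) * ‖β‖ ^ S.natDegree :=
        mul_le_mul_of_nonneg_right b1 (by positivity)
    _ = _ := by ring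

open Bigy in
theorem p_End : S_End := by
  intro L J E T₀
  obtain ⟨la, hla⟩ : ∃ la : ℝ, la = (2 ^ L * L : ℝ) ^ (E * ((T₀ + 1) * J + 1)) := ⟨_, rfl⟩
  refine ⟨L * la ^ ((T₀ + 1) * J + 1) + 1, ?_⟩
  intro S g u R₀ m G L1 hL N1 hN hu _ hR hβ hT hG hm
  have L1' : (1 : ℝ) ≤ L := Nat.one_le_cast.2 L1
  have la1 : 1 ≤ la :=
    hla ▸ one_le_pow₀ (one_le_mul_of_one_le_of_one_le (one_le_pow₀ one_le_two) L1')
  have h6 : ((u : ℝ) ^ E) ^ ((T₀ + 1) * J + 1) ≤ la ^ (R₀ + 1) := by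
    rw [hla, ← pow_mul, ← pow_mul, mul_comm _ (R₀ + 1), pow_mul _ (R₀ + 1)]
    refine pow_le_pow_left₀ (Nat.cast_nonneg _) ?_ _
    exact_mod_cast hR.le
  obtain ⟨A, hA⟩ : ∃ A : ℝ, A = L * la ^ ((T₀ + 1) * J + 1) := ⟨_, rfl⟩
  have A0 : 0 ≤ A := by rw [hA]; positivity
  have hQ : ∀ j ≤ T₀ * S.natDegree, ‖Qs S j‖ ≤ A * (S.natDegree : ℝ) ^ 2 := fun j hj => by
    refine (norm_multiset_sum_le _).trans ((Multiset.sum_le_card_nsmul _
      (L * S.natDegree * la ^ ((T₀ + 1) * J + 1)) fun x hx => ?_).trans (le_of_eq ?_))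
    · rw [Multiset.map_map] at hx
      obtain ⟨β, h1, rfl⟩ := Multiset.mem_map.1 hx
      have h2 := (mem_aroots.1 h1).2
      rw [Function.comp, norm_mul, norm_pow]
      refine term_le (norm_nonneg _) (norm_nonneg _) la1 hN hj (fun a => ?_) (fun a => ?_)
        (hT β h2) (by exact_mod_cast hu) (hβ β h2) h6
      · simpa using der_le hL (A := 1) fun i _ => pow_le_one₀ (norm_nonneg β) a
      · exact der_le hL fun i hi => pow_le_pow_right₀ a.le hi
    · rw [Multiset.card_map, Multiset.card_map, card_aroots, nsmul_eq_mul, hA]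
      ring
  have hG' : ∑ i ∈ Finset.range m, ‖G.coeff i‖ ≤ 1 := by
    refine le_trans ?_ hG
    rw [l1c, Finset.sum_subset (s₂ := G.support ∪ Finset.range m) Finset.subset_union_left
      fun i _ hi => by rw [notMem_support_iff.1 hi, norm_zero]]
    exact Finset.sum_le_sum_of_subset_of_nonneg Finset.subset_union_right fun _ _ _ => norm_nonneg _
  have N0 : (0 : ℝ) < (S.natDegree : ℝ) ^ 2 := by positivity
  rw [← hA, tq]
  calc _ ≤ _ := norm_sum_le _ _
    _ ≤ ∑ i ∈ Finset.range m, ‖G.coeff i‖ * (A * (S.natDegree : ℝ) ^ 2) :=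
        Finset.sum_le_sum fun i _ => by
          rw [norm_mul]
          exact mul_le_mul_of_nonneg_left (hQ _ (by omega)) (norm_nonneg _)
    _ ≤ A * (S.natDegree : ℝ) ^ 2 := by
        rw [← Finset.sum_mul]
        exact mul_le_of_le_one_left (by positivity) hG'
    _ < _ := by linarith

open Bigy in
theorem p_Qc2 (hN : S_NS) : S_Qc2 := by
  intro S ψ G m h0 h hm
  rw [tq, PowerSeries.coeff_mul, Finset.Nat.sum_antidiagonal_eq_sum_range_succ
    (fun i l => PowerSeries.coeff i (G : PowerSeries ℂ) * PowerSeries.coeff l ψ)]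
  simp only [Polynomial.coeff_coe]
  refine Eq.trans (Finset.sum_congr rfl fun i hi => ?_) (Finset.sum_subset
    (s₁ := Finset.range m) (Finset.range_subset_range.2 (by omega)) fun i _ hi => ?_)
  · have := Finset.mem_range.1 hi
    rw [coeff_Qs hN h0 h (by omega), show m - i + S.natDegree = m + S.natDegree - i by omega]
  · rw [coeff_eq_zero_of_natDegree_lt (by rw [Finset.mem_range] at hi; omega), zero_mul]

end Pool.Agent.P.MP_aef18a_nt.TW
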