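import Pool.Agent.P.MP_aef18a_nt.TW.Iface

namespace Pool.Agent.P.MP_aef18a_nt.TW

open Polynomial Matrix LaurentPolynomial OW

namespace Cfgy

variable {k : ℕ}

lemma dat (hD : S_DatU) {F : LQ ℤ k} {U₀ : Finset (Fin k → ℤ)} (h0 : F.coeff 0 ≠ 0)
    (hT : Tp (toQ (res U₀ F))) (U : Finset (Fin k → ℤ)) :
    ∃ (𝒟 : Finset (FDat k)) (C B : ℕ), (∀ D ∈ 𝒟, Fc F D ∧ D.φ = res U F ∧ D.W = F - res U F) ∧
      ∀ a₀ : Fin k → ℤ, 0 ∈ U → U ⊆ U₀ → (∀ u ∈ U, u ⬝ᵥ a₀ = 0) →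
        (∀ u ∈ F.coeff.support, u ∉ U → u ⬝ᵥ a₀ < 0) → (∃ u ∈ F.coeff.support, u ∉ U) →
        ∀ (a : Fin k → ℤ) (X : ℕ), NoRel B a → Top F a → (∀ u ∈ U, |u ⬝ᵥ a| ≤ X) →
          ∃ D ∈ 𝒟, (∀ v ∈ D.V, v ⬝ᵥ a < 0) ∧ (sg D.V a).sum ≤ C * X ∧ Ng a D.T ∧
            ∀ u ∈ D.T.coeff.support, -(u ⬝ᵥ a) ≤ (C * X : ℕ) := by
  by_cases h : ∃ a₀ : Fin k → ℤ, 0 ∈ U ∧ U ⊆ U₀ ∧ (∀ u ∈ U, u ⬝ᵥ a₀ = 0) ∧
      (∀ u ∈ F.coeff.support, u ∉ U → u ⬝ᵥ a₀ < 0) ∧ ∃ u ∈ F.coeff.support, u ∉ U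
  · obtain ⟨a₀, h1, h2, h3, h4, h5⟩ := h
    obtain ⟨𝒟, C, B, e1, e2⟩ := hD k F U₀ U a₀ h0 hT h1 h2 h3 h4 h5
    exact ⟨𝒟, C, B, e1, fun _ _ _ _ _ _ => e2⟩
  · exact ⟨∅, 0, 0, by simp, fun a₀ h1 h2 h3 h4 h5 => absurd ⟨a₀, h1, h2, h3, h4, h5⟩ h⟩

lemma neg {U : Finset (Fin k → ℤ)} {f : (Fin k → ℤ) → Fin k → ℤ} {n J Y C ν : ℕ}
    {a z : Fin k → ℤ} (hn : 0 < n) (hν : 0 < ν) (hC : ∑ u ∈ U, (z ⬝ᵥ f u).natAbs ≤ C)
    (hY : C < Y) (h1 : ∀ u ∈ U, (J * Y : ℤ) * |u ⬝ᵥ a| ≤ ν) (h2 : (ν : ℤ) ≤ J * -(z ⬝ᵥ a)) :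
    z ⬝ᵥ ((n : ℤ) • a - ∑ u ∈ U, (u ⬝ᵥ a) • f u) < 0 := by
  rw [dotProduct_sub, dotProduct_smul, dotProduct_sum, smul_eq_mul]
  have a1 : (J * Y : ℤ) * -∑ u ∈ U, z ⬝ᵥ (u ⬝ᵥ a) • f u ≤ ν * C := by
    rw [← Finset.sum_neg_distrib, Finset.mul_sum]
    refine (Finset.sum_le_sum (g := fun u => (ν : ℤ) * ((z ⬝ᵥ f u).natAbs : ℕ))
      fun u hu => ?_).trans ?_
    · rw [dotProduct_smul, smul_eq_mul, Int.natCast_natAbs]
      refine (mul_le_mul_of_nonneg_left (neg_le_abs _) (by positivity)).trans ?_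
      rw [abs_mul, ← mul_assoc]
      exact mul_le_mul_of_nonneg_right (h1 u hu) (abs_nonneg _)
    · rw [← Finset.mul_sum]
      exact mul_le_mul_of_nonneg_left (by exact_mod_cast hC) (by positivity)
  have n1 : (1 : ℤ) ≤ n := by exact_mod_cast hn
  have ν1 : (0 : ℤ) < ν := by exact_mod_cast hν
  have Y1 : (C : ℤ) < Y := by exact_mod_cast hY
  have C0 : (0 : ℤ) ≤ C := by positivity
  have J0 : (0 : ℤ) ≤ J := by positivity
  generalize ∑ u ∈ U, z ⬝ᵥ (u ⬝ᵥ a) • f u = s at a1 ⊢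
  generalize z ⬝ᵥ a = y at h2 ⊢
  by_contra hc
  push Not at hc
  have a2 : (ν : ℤ) ≤ n * (J * -y) := h2.trans (le_mul_of_one_le_left (by linarith) n1)
  have a3 := mul_le_mul_of_nonneg_left a2 (show (0 : ℤ) ≤ Y by linarith)
  have a4 := mul_nonneg (show (0 : ℤ) ≤ J * Y by positivity) hc
  nlinarith

lemma far {κ : ℝ} {ν J : ℕ} {y : ℤ} (hκ : 0 < κ) (hν : ⌈(20 / κ) ^ 2⌉₊ < ν) (hJ : ⌈4 / κ⌉₊ ≤ J)
    (h : κ * ν - 10 * √(ν : ℝ) ≤ y) : (ν : ℤ) < J * y := by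
  have c1 : (20 / κ) ^ 2 ≤ ν := (Nat.le_ceil _).trans (by exact_mod_cast hν.le)
  have c2 : 4 / κ ≤ J := (Nat.le_ceil _).trans (by exact_mod_cast hJ)
  have ν0 : (0 : ℝ) < ν := by exact_mod_cast (by omega : 0 < ν)
  have h2 : 20 ≤ κ * √(ν : ℝ) := by
    have : 20 / κ ≤ √(ν : ℝ) := Real.le_sqrt_of_sq_le c1
    rwa [div_le_iff₀' hκ] at this
  have h3 := mul_le_mul_of_nonneg_right h2 (Real.sqrt_nonneg (ν : ℝ))
  rw [mul_assoc, Real.mul_self_sqrt ν0.le] at h3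
  rw [div_le_iff₀ hκ] at c2
  have h4 := mul_le_mul_of_nonneg_left (show κ * ν / 2 ≤ y by linarith) (J.cast_nonneg (α := ℝ))
  have : (ν : ℝ) < J * y := by nlinarith
  exact_mod_cast this

end Cfgy

open Cfgy in
theorem p_Cfg (hP : S_Proj) (hD : S_DatU) (hG : S_Pig2) : S_Cfg := by
  classical
  intro k F U₀ κ C hF hT hκ hS
  choose 𝒟 Cu Bu h1 h2 using dat hD hF.c0 hT
  choose n f hn hf using hP k
  obtain ⟨De, -, hDe⟩ := exists_bx F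
  obtain ⟨i, j, hij⟩ := hF.nc.exists_ne
  set P := F.coeff.support.powerset with hPd
  refine ⟨P.biUnion 𝒟, fun D hD' => ?_, fun Yf => ?_⟩
  · obtain ⟨U, -, h⟩ := Finset.mem_biUnion.1 hD'
    exact (h1 U D h).1
  obtain ⟨C', hC'⟩ : ∃ C', C' = ∑ U ∈ P, ∑ z ∈ F.coeff.support, ∑ u ∈ U, (z ⬝ᵥ f U u).natAbs :=
    ⟨_, rfl⟩
  obtain ⟨Cm, hCm⟩ : ∃ Cm, Cm = ∑ U ∈ P, Cu U + 1 := ⟨_, rfl⟩
  obtain ⟨Jm, hJm⟩ := hG F.coeff.support.card (⌈4 / κ⌉₊ + C + 1)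
    fun J => Cm * Yf (J * (k * De + 1)) + C' + 1
  refine ⟨Jm * (k * De + 1), ∑ U ∈ P, Bu U + ⌈(20 / κ) ^ 2⌉₊ + 1, fun a hr ht hg => ?_⟩
  have hν := hr.lt_nu (by omega) hij
  obtain ⟨J, J1, J2, hJ⟩ := hJm _ F.coeff.support (fun u => (-(u ⬝ᵥ a)).toNat) (nu a) le_rfl
  obtain ⟨Y, hY⟩ : ∃ Y, Y = Cm * Yf (J * (k * De + 1)) + C' + 1 := ⟨_, rfl⟩
  simp only [← hY] at hJ
  have J0 : 0 < J := by omega
  have Y0 : 0 < Y := by omega
  have cast : ∀ u ∈ F.coeff.support, (((-(u ⬝ᵥ a)).toNat : ℕ) : ℤ) = -(u ⬝ᵥ a) := fun u hu =>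
    Int.toNat_of_nonneg (neg_nonneg.2 (ht.ng u hu))
  set U := F.coeff.support.filter fun u => J * Y * (-(u ⬝ᵥ a)).toNat ≤ nu a with hU
  have UP : U ∈ P := Finset.mem_powerset.2 (Finset.filter_subset _ _)
  have inU : ∀ u ∈ U, u ∈ F.coeff.support ∧ (J * Y : ℤ) * |u ⬝ᵥ a| ≤ nu a := fun u hu => by
    obtain ⟨e1, e2⟩ := Finset.mem_filter.1 hu
    refine ⟨e1, ?_⟩
    rw [abs_of_nonpos (ht.ng u e1), ← cast u e1]
    exact_mod_cast e2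
  have outU : ∀ u ∈ F.coeff.support, u ∉ U → (nu a : ℤ) ≤ J * -(u ⬝ᵥ a) := fun u hu e => by
    have := (hJ u hu).resolve_left fun e' => e (Finset.mem_filter.2 ⟨hu, e'⟩)
    rw [← cast u hu]
    exact_mod_cast this
  have notU : ∀ u, (nu a : ℤ) < J * -(u ⬝ᵥ a) → u ∉ U := fun u e hu => by
    obtain ⟨e1, e2⟩ := inU u hu
    rw [abs_of_nonpos (ht.ng u e1)] at e2
    have := mul_le_mul_of_nonneg_right
      (le_mul_of_one_le_right (Int.natCast_nonneg J) (show (1 : ℤ) ≤ Y by exact_mod_cast Y0))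
      (neg_nonneg.2 (ht.ng u e1))
    linarith
  have hX : ∀ u ∈ U, |u ⬝ᵥ a| ≤ (nu a / (J * Y) : ℕ) := fun u hu => by
    rw [Int.natCast_div, Int.le_ediv_iff_mul_le (by exact_mod_cast Nat.mul_pos J0 Y0), mul_comm]
    exact_mod_cast (inU u hu).2
  obtain ⟨D, hD1, d1, d2, d3, d4⟩ := h2 U ((n U : ℤ) • a - ∑ u ∈ U, (u ⬝ᵥ a) • f U u)
    (Finset.mem_filter.2 ⟨Finsupp.mem_support_iff.2 hF.c0, by simp⟩)
    (fun u hu => by
      by_contra e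
      obtain ⟨u', hu', e'⟩ := hg u (inU u hu).1 e
      have := far hκ (by omega) (J := J) (by omega) e'
      refine notU u (this.trans_le (mul_le_mul_of_nonneg_left ?_ (Int.natCast_nonneg J))) hu
      rw [sub_dotProduct]
      linarith [ht.ng u' hu'])
    (hf U a)
    (fun z hz e => neg (C := C') (Y := Y) (hn U) (by omega) (by
      rw [hC']
      exact (Finset.single_le_sum (f := fun z => ∑ u ∈ U, (z ⬝ᵥ f U u).natAbs)
        (fun _ _ => Nat.zero_le _) hz).trans (Finset.single_le_sum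
        (f := fun U => ∑ z ∈ F.coeff.support, ∑ u ∈ U, (z ⬝ᵥ f U u).natAbs)
        (fun _ _ => Nat.zero_le _) UP)) (by omega) (fun u hu => (inU u hu).2) (outU z hz e))
    (by
      obtain ⟨u, hu, u', hu', e⟩ := hS a
      refine ⟨u', hu', notU u' ?_⟩
      rw [sub_dotProduct] at e
      have b1 := ht.ng u hu
      have b2 := ht.ng u' hu'
      have b3 : (C : ℤ) + 1 ≤ J := by exact_mod_cast (by omega : C + 1 ≤ J)
      have b4 : (0 : ℤ) < nu a := by exact_mod_cast (by omega : 0 < nu a)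
      have b5 : (0 : ℤ) ≤ C := by positivity
      have b6 : (nu a : ℤ) ≤ C * -(u' ⬝ᵥ a) := by nlinarith
      have b7 : 0 < -(u' ⬝ᵥ a) := by
        by_contra b
        nlinarith
      nlinarith)
    a _ (hr.mono (le_trans (Finset.single_le_sum (fun _ _ => Nat.zero_le _) UP) (by omega))) ht hX
  obtain ⟨-, eφ, eW⟩ := h1 U D hD1
  have hCu : Cu U + 1 ≤ Cm := by
    rw [hCm]
    exact Nat.succ_le_succ (Finset.single_le_sum (fun _ _ => Nat.zero_le _) UP)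
  have g1 : nu a ≤ J * ((nu a + J - 1) / J) := by
    have := Nat.div_add_mod (nu a + J - 1) J
    have := Nat.mod_lt (nu a + J - 1) J0
    omega
  have g2 : J * ((nu a + J - 1) / J) ≤ nu a + J - 1 := Nat.mul_div_le _ _
  have x1 : J * Y * (nu a / (J * Y)) ≤ nu a := Nat.mul_div_le _ _
  generalize (nu a + J - 1) / J = g at g1 g2
  generalize nu a / (J * Y) = X at hX d2 d4 x1
  have w1 : Cu U * X ≤ Cm * X := Nat.mul_le_mul_right _ (by omega)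
  have w2 : X ≤ Cm * X := Nat.le_mul_of_pos_left _ (by omega)
  refine ⟨D, Finset.mem_biUnion.2 ⟨U, UP, hD1⟩, J * (k * De + 1), g, Cm * X,
    Nat.mul_le_mul_right _ J2, ⟨?_, ht, d1, d2.trans w1, d3, fun u hu => (d4 u hu).trans
      (by exact_mod_cast w1), fun u hu => ?_, fun u hu => ?_, ?_, fun u hu => ?_⟩, ?_⟩
  · rcases Nat.eq_zero_or_pos g with rfl | h
    · omega
    · exact h
  · rw [eφ, mem_res] at hu
    exact ((neg_le_abs _).trans (hX u hu.1)).trans (by exact_mod_cast w2)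
  · rw [eW, mem_sub_res] at hu
    have b1 := outU u hu.2 hu.1
    have b2 : (J : ℤ) * g < nu a + J := by exact_mod_cast (by omega : J * g < nu a + J)
    have b3 : (J : ℤ) * g < J * (-(u ⬝ᵥ a) + 1) := by linarith
    have := lt_of_mul_lt_mul_left b3 (Int.natCast_nonneg J)
    omega
  · exact g1.trans (Nat.mul_le_mul_right _ (Nat.le_mul_of_pos_right _ (Nat.succ_pos _)))
  · have b1 := (neg_le_abs _).trans (abs_dot_le (hDe u hu)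
      fun i => (le_nu a i).trans (Int.ofNat_le.2 g1))
    have b2 : (0 : ℤ) ≤ (J : ℤ) * g := by positivity
    push_cast at b1 ⊢
    linarith
  · refine Nat.le_of_mul_le_mul_left (le_trans ?_ (x1.trans g1)) J0
    rw [mul_assoc J Y]
    refine Nat.mul_le_mul_left _ ?_
    rw [← mul_assoc, mul_comm _ Cm]
    exact Nat.mul_le_mul_right _ (by omega)

end Pool.Agent.P.MP_aef18a_nt.TW
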