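import Pool.Agent.P.MP_aef18a_nt.TW.Iface
import Pool.Agent.P.MP_aef18a_nt.Ad.Cone

namespace Pool.Agent.P.MP_aef18a_nt.TW

open Polynomial Matrix LaurentPolynomial OW

lemma pt_dot {n : ℕ} (u : Fin n → ℤ) (x : Fin n → ℝ) : pt u ⬝ᵥ x = lin x u := rfl

lemma lin_pt {n : ℕ} (a u : Fin n → ℤ) : lin (pt a) u = ((u ⬝ᵥ a : ℤ) : ℝ) := lin_cast a u

/-- the compactness step -/
theorem cone3 (h : S_Fin3) {n : ℕ} {F : LP n} (hF : Irreducible F) (hc : NonCol F) :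
    ∃ Ω : Finset (Matrix (Fin n) (Fin n) ℤ), (∀ M ∈ Ω, M.det ≠ 0) ∧
      ∀ C : Set (Fin n → ℝ), IsClosed C →
        (∀ x ∈ C, ∀ t : ℝ, 0 < t → ∀ y : Fin n → ℝ,
          (∀ u ∈ F.coeff.support, ∀ w ∈ F.coeff.support, lin y u = lin y w) → t • x + y ∈ C) →
        (∀ x ∈ C, (∃ u ∈ F.coeff.support, ∃ w ∈ F.coeff.support, lin x u ≠ lin x w) →
          ∀ u ∈ F.coeff.support, (∀ w ∈ F.coeff.support, lin x w ≤ lin x u) →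
            Tp (lev (lin x) (lin x u) F)) →
        ∃ Γ : Finset (Fin n → ℤ), 0 ∉ Γ ∧
          ∀ a : Fin n → ℤ, pt a ∈ C → (∃ c ∈ Γ, c ⬝ᵥ a = 0) ∨ Alt F Ω a := by
  classical
  obtain ⟨Ω, hΩ, hκ⟩ := h n F hF hc
  refine ⟨Ω, hΩ, fun C hC hC' hT => ?_⟩
  obtain ⟨dec, hdec⟩ := exists_surjective_nat (Finset (Fin n → ℤ))
  obtain ⟨K, hK⟩ := cptC F.coeff.support (fun _ => True)
    (fun _ q => ∃ (m : ℝ) (ω : (Fin n → ℤ) →+ ℝ), Bd ω m F ∧ Tp (lev ω m F) ∧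
      (lev ω m F).coeff.support = dec q) (fun q w => w ∉ dec q) C hC hC' fun x hx hn u hu hm _ => by
      obtain ⟨q, hq⟩ := hdec (lev (lin x) (lin x u) F).coeff.support
      refine ⟨q, ⟨lin x u, linH x, hm, hT x hx hn u hu hm, hq.symm⟩, fun w hw e hb => hb ?_⟩
      rw [hq]
      exact mem_lev.2 ⟨hw, e⟩
  obtain ⟨Γ, h0, hΓ⟩ := hκ (1 / (K + 1)) (by positivity)
  obtain ⟨u₀, hu₀⟩ := support_nonempty hF.ne_zero
  obtain ⟨u₁, hu₁, hne⟩ := hc.exists_mem u₀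
  refine ⟨insert (u₁ - u₀) Γ, ?_, fun a ha => ?_⟩
  · rw [Finset.mem_insert, not_or]
    exact ⟨(sub_ne_zero.2 hne).symm, h0⟩
  by_cases e : (u₁ - u₀) ⬝ᵥ a = 0
  · exact Or.inl ⟨_, Finset.mem_insert_self _ _, e⟩
  obtain ⟨u, hu, hm⟩ := Finset.exists_max_image _ (lin (pt a)) ⟨u₀, hu₀⟩
  obtain ⟨q, ⟨m, ω, h1, h2, h3⟩, h4⟩ := hK (pt a) ha ⟨u₁, hu₁, u₀, hu₀, fun e' => e (by
    rw [lin_pt, lin_pt, Int.cast_inj] at e'
    rw [sub_dotProduct, e', sub_self])⟩ u hu hm trivial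
  refine (hΓ a m ω h1 h2 fun w hw hb => ⟨u, hu, fun v hv w' hw' => ?_⟩).imp_left
    fun ⟨c, hc, e⟩ => ⟨c, Finset.mem_insert_of_mem hc, e⟩
  have b1 := h4 w hw (h3 ▸ hb) w' hw'
  have b2 := hm v hv
  have b3 := hm w hw
  simp only [lin_pt] at b1 b2 b3
  rw [sub_dotProduct, sub_dotProduct, Int.cast_sub, Int.cast_sub, one_div,
    inv_mul_le_iff₀ (by positivity)]
  linarith

end Pool.Agent.P.MP_aef18a_nt.TW
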