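import Pool.Agent.P.MP_aef18a_nt.TW.Iface
import Pool.Agent.P.MP_aef18a_nt.OW.K1
import Pool.Agent.P.MP_aef18a_nt.OW.Ebz

namespace Pool.Agent.P.MP_aef18a_nt.TW

open Polynomial Matrix LaurentPolynomial OW

namespace Cop2y

variable {k : ℕ}

lemma lev_const (ω : (Fin k → ℤ) →+ ℝ) {R R' : LQ ℂ k} {m₁ : ℝ}
    (hR : ∀ u ∈ R.coeff.support, ω u = m₁) (m : ℝ) :
    lev ω m (R * R') = R * lev ω (m - m₁) R' := by
  ext g
  rw [lev_coeff, coeff_mul_of_subset R _ _ subset_rfl, coeff_mul_of_subset R _ _ subset_rfl]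
  split_ifs with hg
  · refine Finset.sum_congr rfl fun u hu => ?_
    rw [lev_coeff, if_pos (by rw [map_add, map_neg, hR u hu, hg]; ring)]
  · refine (Finset.sum_eq_zero fun u hu => ?_).symm
    rw [lev_coeff, if_neg, mul_zero]
    rw [map_add, map_neg, hR u hu]
    exact fun e => hg (by linarith)

lemma toC_lev (ω : (Fin k → ℤ) → ℝ) (m : ℝ) (P : LP k) : toC (lev ω m P) = lev ω m (toC P) := by
  ext u
  rw [toC_coeff, lev_coeff, lev_coeff, toC_coeff]
  split_ifs <;> simp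

lemma one_le_dot {a : Fin k → ℤ} (ha : a ≠ 0) : 1 ≤ a ⬝ᵥ a := by
  have h1 : 0 ≤ a ⬝ᵥ a := Finset.sum_nonneg fun i _ => mul_self_nonneg _
  have h2 : a ⬝ᵥ a ≠ 0 := fun e => ha (dotProduct_self_eq_zero.1 e)
  omega

lemma mem_tr {u z : Fin k → ℤ} {A : LQ ℂ k} (hz : z ∈ (tr u A).coeff.support) :
    z + u ∈ A.coeff.support := by
  rwa [Finsupp.mem_support_iff, tr_coeff, ← Finsupp.mem_support_iff] at hz

lemma ng_tr {a : Fin k → ℤ} (ha : a ≠ 0) {A : LQ ℂ k} {n : ℕ}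
    (h : ∀ u ∈ A.coeff.support, u ⬝ᵥ a ≤ n) : Ng a (tr ((n : ℤ) • a) A) := by
  intro z hz
  have h1 := h _ (mem_tr hz)
  rw [add_dotProduct, smul_dotProduct, smul_eq_mul] at h1
  have h2 := one_le_dot ha
  nlinarith [Int.natCast_nonneg n]

end Cop2y

open K1x Cop2y in
theorem p_Cop2 (h : S_Cpx) : S_Cop2 := by
  intro k P θ hP h0 ⟨u₁, hu₁, hθ⟩
  have hP0 : toC P ≠ 0 := toC_ne_zero hP.ne_zero
  constructor
  · intro e
    have h1 := dv_real_coeff θ (toC P) u₁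
    rw [e] at h1
    have h2 : (toC P).coeff u₁ ≠ 0 := Finsupp.mem_support_iff.mp (by rwa [support_toC])
    exact mul_ne_zero (Complex.ofReal_ne_zero.mpr hθ) h2 (by simpa using h1.symm)
  · intro S hS1 hS2
    by_contra hS
    obtain ⟨R, hR, hRS⟩ := exists_prime_dvd (ne_zero_of_dvd_ne_zero hP0 hS1) hS
    have hd := hRS.trans hS1
    have hd2 := hRS.trans hS2
    obtain ⟨R', e⟩ := id hd
    rw [e, OW.dv_mul] at hd2
    rcases hR.dvd_or_dvd ((dvd_add_left (dvd_mul_right _ _)).mp hd2) with h1 | h1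
    · obtain ⟨u₀, hu₀⟩ := support_nonempty hR.ne_zero
      have h2 : ∀ u ∈ R.coeff.support, linH θ u = linH θ u₀ := fun u hu => by
        have := const_of_dvd_dv hR.ne_zero h1 u hu u₀ hu₀
        simp only [linH_apply, lin]
        exact_mod_cast this
      have h3 : R ∣ toC (lev (linH θ) 0 P) := by
        rw [toC_lev, e, lev_const _ h2]
        exact dvd_mul_right _ _
      have h4 : ¬ P ∣ lev (linH θ) 0 P := fun hdv => by
        obtain ⟨t, ht⟩ := eq_smul_of_dvd hP.ne_zero hdv fun u hu => (mem_lev.1 hu).1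
        have a1 := congrArg (fun A : LP k => A.coeff 0) ht
        have a2 := congrArg (fun A : LP k => A.coeff u₁) ht
        simp only [lev_coeff, map_zero, if_true, AddMonoidAlgebra.coeff_smul, Finsupp.smul_apply,
          smul_eq_mul] at a1 a2
        rw [linH_apply, if_neg hθ] at a2
        rcases mul_eq_zero.1 a2.symm with a3 | a3
        · rw [a3, zero_mul] at a1
          exact h0 a1
        · exact Finsupp.mem_support_iff.1 hu₁ a3
      obtain ⟨h5, h6⟩ := relPrime_of_not_dvd hP h4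
      exact hR.not_isUnit (h k 1 P _ R one_pos hP.ne_zero h5 h6 (by rwa [dil_one])
        (by rwa [dil_one]))
    · refine hP.not_isUnit (isUnit_iff.mpr ⟨hP.ne_zero, fun u hu u' hu' => funext fun i => ?_⟩)
      have := const_dot h one_pos hP hR.not_isUnit (by rwa [dil_one]) (Pi.single i 1)
        (by rw [dil_one, e]; exact dvd_dv_mul (Or.inr h1)) u hu u' hu'
      simpa using this

open Ebzx Cop2y in
theorem p_Qex (h : S_Ebz1) : S_Qex := by
  intro r A B b hb0 hA hB hAB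
  obtain ⟨D₁, -, b1⟩ := exists_bx A
  obtain ⟨D₂, -, b2⟩ := exists_bx B
  have wA := (b1.mono (Nat.le_add_right D₁ D₂)).wb
  have wB := (b2.mono (Nat.le_add_left D₂ D₁)).wb
  generalize 2 * (D₁ + D₂) = D at wA wB
  have hb := le_nu b
  generalize nu b = Y at hb
  obtain ⟨E, hE⟩ : ∃ E, E = r ^ 2 * D ^ 2 * (2 * r * Y + 1) + 2 * D + 1 := ⟨_, rfl⟩
  have h0 : 0 < E := by omega
  have h1 : r ^ 2 * D ^ 2 * (2 * (r * E * Y) + 1) < E ^ 2 :=
    calc r ^ 2 * D ^ 2 * (2 * (r * E * Y) + 1) ≤ r ^ 2 * D ^ 2 * (2 * (r * E * Y) + E) :=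
          Nat.mul_le_mul_left _ (by omega)
      _ = r ^ 2 * D ^ 2 * (2 * r * Y + 1) * E := by ring
      _ < E * E := Nat.mul_lt_mul_of_pos_right (by omega) h0
      _ = E ^ 2 := by ring
  have h3 : ∀ v ∈ box r E, |v ⬝ᵥ b| ≤ (r * E * Y : ℕ) := fun v hv => by
    push_cast
    exact abs_dot_le (fun i => by
      have := mem_box.1 hv i
      rw [abs_of_nonneg this.1]
      exact this.2.le) hb
  obtain ⟨c, -, hc⟩ := Finset.exists_lt_card_fiber_of_mul_lt_card_of_maps_to (s := box r E)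
    (t := Finset.range (2 * (r * E * Y) + 1))
    (f := fun v => (v ⬝ᵥ b + (r * E * Y : ℕ)).toNat)
    (n := r ^ 2 * D ^ 2 * E ^ r / E ^ 2) (fun v hv => by
      have := abs_le.1 (h3 v hv)
      exact Finset.mem_range.2 (by omega)) (by
      rw [Finset.card_range, card_box]
      generalize 2 * (r * E * Y) + 1 = N at h1 ⊢
      refine Nat.lt_of_mul_lt_mul_right (a := E ^ 2) ?_
      calc N * (r ^ 2 * D ^ 2 * E ^ r / E ^ 2) * E ^ 2
          ≤ N * (r ^ 2 * D ^ 2 * E ^ r) := by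
            rw [mul_assoc]
            exact Nat.mul_le_mul_left _ (Nat.div_mul_le_self _ _)
        _ = E ^ r * (r ^ 2 * D ^ 2 * N) := by ring
        _ < E ^ r * E ^ 2 := Nat.mul_lt_mul_of_pos_left h1 (pow_pos h0 r))
  obtain ⟨f, f0, fI, fZ⟩ := h ℂ r D E A B hA hB hAB wA wB (by omega) _
    (fun v hv => mem_box.1 (Finset.mem_filter.1 hv).1)
    ((Nat.div_lt_iff_lt_mul (pow_pos h0 2)).1 hc)
  obtain ⟨U, U', e⟩ := Ideal.mem_span_pair.1 fI
  obtain ⟨D₃, -, b3⟩ := exists_bx U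
  obtain ⟨D₄, -, b4⟩ := exists_bx U'
  obtain ⟨n, hn⟩ : ∃ n : ℕ, n = r * D₃ * Y + r * D₄ * Y + r * E * Y := ⟨_, rfl⟩
  have hf : ∀ u ∈ f.coeff.support, u ⬝ᵥ b + (r * E * Y : ℕ) = c ∧ u ⬝ᵥ b ≤ n := fun u hu => by
    obtain ⟨h4, h5⟩ := Finset.mem_filter.1 (fZ hu)
    have h6 := abs_le.1 (h3 u h4)
    omega
  have hng := ng_tr hb0 fun u hu => (hf u hu).2
  refine ⟨tr ((n : ℤ) • b) U, tr ((n : ℤ) • b) U', tr ((n : ℤ) • b) f,
    (n * (b ⬝ᵥ b) + (r * E * Y : ℕ) - c).toNat, ng_tr hb0 fun u hu => ?_,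
    ng_tr hb0 fun u hu => ?_, fun e0 => f0 ?_, ?_, fun z hz => ?_⟩
  · have := (abs_le.1 (abs_dot_le (b3 u hu) hb)).2
    rw [hn]
    push_cast
    have a1 : (0 : ℤ) ≤ r * D₄ * Y := by positivity
    have a2 : (0 : ℤ) ≤ r * E * Y := by positivity
    linarith
  · have := (abs_le.1 (abs_dot_le (b4 u hu) hb)).2
    rw [hn]
    push_cast
    have a1 : (0 : ℤ) ≤ r * D₃ * Y := by positivity
    have a2 : (0 : ℤ) ≤ r * E * Y := by positivity
    linarith
  · ext z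
    have := tr_coeff ((n : ℤ) • b) f (z - (n : ℤ) • b)
    rw [e0, sub_add_cancel] at this
    exact this.symm
  · rw [← e, tr, tr, tr]
    ring
  · have h4 := (hf _ (mem_tr hz)).1
    have h5 := hng z hz
    rw [add_dotProduct, smul_dotProduct, smul_eq_mul] at h4
    omega

end Pool.Agent.P.MP_aef18a_nt.TW
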