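import Pool.Agent.P.MP_aef18a_nt.TW.Iface

namespace Pool.Agent.P.MP_aef18a_nt.TW

open Polynomial Matrix LaurentPolynomial OW

namespace Core3y

lemma numer {c : ℝ} (hc : 0 < c) {Q K u ν N d : ℕ} (hQ : 0 < Q) (hν : 0 < ν)
    (hu : (K / c) ^ 2 < u) (hN : N ≤ K * ν) (hNu : N ≤ u ^ Q)
    (hd : c * ν ≤ (d : ℝ) ^ (1 + 1 / (2 * Q : ℝ))) : (N : ℝ) / u ≤ d := by
  by_contra hn
  push Not at hn
  have hu0 : (0 : ℝ) < u := lt_of_le_of_lt (sq_nonneg _) hu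
  have hu1 : (1 : ℝ) ≤ u := by exact_mod_cast (Nat.cast_pos.1 hu0)
  have hQ0 : (0 : ℝ) < Q := by exact_mod_cast hQ
  have hν0 : (0 : ℝ) < ν := by exact_mod_cast hν
  have h1 : (d : ℝ) ≤ (u : ℝ) ^ Q :=
    hn.le.trans ((div_le_self (Nat.cast_nonneg _) hu1).trans (by exact_mod_cast hNu))
  have h2 : (d : ℝ) ^ (1 / (2 * Q : ℝ)) ≤ √u := by
    refine (Real.rpow_le_rpow (Nat.cast_nonneg _) h1 (by positivity)).trans (le_of_eq ?_)
    rw [← Real.rpow_natCast, ← Real.rpow_mul hu0.le, Real.sqrt_eq_rpow]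
    congr 1
    field_simp
  rw [Real.rpow_add' (Nat.cast_nonneg _) (by positivity), Real.rpow_one] at hd
  have h3 : 0 < √(u : ℝ) := Real.sqrt_pos.2 hu0
  have h4 : √(u : ℝ) * √u = u := Real.mul_self_sqrt hu0.le
  have h5 : (N : ℝ) ≤ K * ν := by exact_mod_cast hN
  have h6 : c * ν ≤ K * ν / u * √u :=
    hd.trans (mul_le_mul (hn.le.trans (by gcongr)) h2 (by positivity) (by positivity))
  have h7 : c * √u ≤ K := by
    have e : (K : ℝ) * ν / u * √u * √u = K * ν := by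
      rw [mul_assoc, h4]
      field_simp
    have := mul_le_mul_of_nonneg_right h6 h3.le
    rw [e] at this
    nlinarith
  have h8 : √(u : ℝ) ≤ K / c := by rw [le_div_iff₀ hc]; linarith
  nlinarith

end Core3y

theorem p_Core3 (hT : S_TLink) (hA : S_FlatAll2) (hL : S_Lev2) (hD : S_DegT) (hO : S_One)
    (hG : S_Grow2) (hE : S_End) (hR : S_TRoot) (hTwo : S_Two) (hK : S_Link) : S_Core3 := by
  intro k F D J A hF hc hφ hA0
  obtain ⟨L, hLL⟩ : ∃ L, L = LL F D := ⟨_, rfl⟩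
  have hL2 : 2 ≤ L := by rw [hLL, LL]; omega
  obtain ⟨n₀, hn₀⟩ : ∃ n₀, n₀ = 80 * L * (11 * A) := ⟨_, rfl⟩
  have hn2 : 2 ≤ n₀ := by rw [hn₀]; nlinarith
  obtain ⟨T₀, hG⟩ := hG k F D J hF hc hφ
  obtain ⟨Θ, hE⟩ := hE L J ((2 * n₀ + 1 + 1) * L + 1) T₀
  obtain ⟨B₁, Y₁, hG⟩ := hG Θ
  obtain ⟨Y₂, u₀, hO⟩ := hO L J (2 * n₀ + 1)
  obtain ⟨B₂, hL⟩ := hL k F D J Y₂ hF hc
  obtain ⟨x₀, hA⟩ := hA k F D J A hF.c0 hc hA0
  obtain ⟨c, hc0, hD⟩ := hD k F D J (1 / (2 * (2 * n₀ + 1 : ℕ) : ℝ)) hc (by positivity)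
  obtain ⟨De, -, hDe⟩ := exists_bx F
  obtain ⟨u₂, hu₂⟩ := exists_nat_gt (((k * De : ℕ) / c : ℝ) ^ 2)
  obtain ⟨i, j, hij⟩ := hF.nc.exists_ne
  obtain ⟨u₁, hu₁⟩ : ∃ u₁, u₁ = u₀ + x₀ + J + k * De + 3 * L + u₂ + 2 := ⟨_, rfl⟩
  refine ⟨B₁ + B₂ + u₁ ^ n₀ + 1, Y₁ + Y₂ + 2, fun a g w hr hg hw hs hst h2 => ?_⟩
  have hν := hr.lt_nu (by omega) hij
  have hp : n₀ ≠ 0 := by omega
  have hx := (Nat.le_nthRoot_iff hp).2 (show u₁ ^ n₀ ≤ nu a by omega)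
  have p1 := Nat.pow_nthRoot_le (n := n₀) (a := nu a) (Or.inl hp)
  have p2 := Nat.lt_pow_nthRoot_add_one hp (nu a)
  generalize Nat.nthRoot n₀ (nu a) = u at hx p1 p2
  have hu2 : 2 ≤ u := by omega
  have p3 : nu a ≤ u ^ (2 * n₀) := by
    rw [pow_mul]
    exact p2.le.trans (Nat.pow_le_pow_left (by nlinarith) _)
  have hg1 := hg.g1
  rw [add_mul, add_mul] at hw
  have hwg : w < g := by omega
  obtain ⟨hi, hl, -⟩ := hL a g w (hr.mono (by omega)) hg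
  obtain ⟨W, hTL, hJ, -⟩ := hT k F D a J g w hF.c0 hc hg hwg hi
  rw [← hLL] at hTL
  obtain ⟨-, -, -, -, -, hsup, hev, hsi, hto⟩ := hK k F a (J * g) 1 hF.c0 hg.gp hi
  have hN : (SS F a).natDegree ≤ k * De * nu a := by
    obtain ⟨v, hv, e⟩ := hsup 0 (mem_support_iff.2 hTL.c0)
    have := (abs_le.1 (abs_dot_le (hDe v hv) (le_nu a))).1
    have h3 : ((SS F a).natDegree : ℤ) ≤ k * De * nu a := by
      simp only [Nat.cast_zero, sub_zero] at e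
      linarith
    exact_mod_cast h3
  have hNu : (SS F a).natDegree ≤ u ^ (2 * n₀ + 1) := by
    rw [pow_succ']
    exact hN.trans (Nat.mul_le_mul (by omega) p3)
  have hug : u ≤ g := by
    have h3 : u * u ≤ u * g :=
      calc u * u = u ^ 2 := by ring
        _ ≤ u ^ n₀ := Nat.pow_le_pow_right (by omega) hn2
        _ ≤ J * g := p1.trans hg.nu
        _ ≤ u * g := Nat.mul_le_mul_right _ (by omega)
    exact Nat.le_of_mul_le_mul_left h3 (by omega)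
  have hgN := hTL.gN
  have hTF := hA a g w (u ^ (80 * L)) hg hwg hi
    (le_trans (by omega) (Nat.le_self_pow (by omega) u)) (by rwa [← pow_mul, ← hn₀])
    (by rwa [← pow_mul, show 80 * L * (22 * A) = 2 * n₀ by rw [hn₀]; ring]) hst
  have hS0 : SS F a ≠ 0 := fun e => hTL.c0 (by rw [e, coeff_zero])
  have hdeg : DegLB (SS F a) ((SS F a).natDegree / u) := fun α hα hr0 => by
    rw [hev] at hr0
    refine Core3y.numer hc0 (Nat.succ_pos _) (by omega) ?_ hN hNu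
      (hD a g w hg (by omega) α hα ((mul_eq_zero.mp hr0).resolve_left (pow_ne_zero _ α.ne_zero)))
    exact hu₂.trans_le (by exact_mod_cast (by omega : u₂ ≤ u))
  obtain ⟨R₀, r1, r2, r3⟩ := hO g w u _ _ _ _ _ W hTL hJ (by omega) (by omega) (by omega) hNu hTF
    (hsi hs) (hTwo _ _ _ hS0 hto (hsi hs) h2) hdeg hl
  obtain ⟨G, m, g1, g2, g3⟩ := hG a g w (hr.mono (by omega)) hg (by omega)
  refine absurd (hE _ g u R₀ m G (by omega) hTL.len (by omega) hJ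
    (hNu.trans (Nat.pow_le_pow_right (by omega) (by nlinarith))) r1 r2 (fun β hβ => ?_) r3 g1 g2)
    (not_lt.2 g3)
  refine (hR _ _ _ _ _ _ _ _ _ hTL β hβ).2.2.1.trans ?_
  have h3 : g + 1 ≤ u ^ (2 * n₀ + 1 + 1) := by
    have : 1 ≤ u ^ (2 * n₀ + 1) := Nat.one_le_pow _ _ (by omega)
    rw [pow_succ]
    nlinarith
  have h4 : 3 * L * (g + 1) ^ L ≤ u ^ ((2 * n₀ + 1 + 1) * L + 1) := by
    rw [pow_succ' u, pow_mul]
    exact Nat.mul_le_mul (by omega) (Nat.pow_le_pow_left h3 _)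
  exact_mod_cast h4

end Pool.Agent.P.MP_aef18a_nt.TW
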