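import Pool.Agent.P.MP_aef18a_nt.TW.Iface

namespace Pool.Agent.P.MP_aef18a_nt.TW

open Polynomial Matrix LaurentPolynomial OW

namespace Covy

variable {k : ℕ}

lemma cont_lin (u : Fin k → ℤ) : Continuous fun θ : Fin k → ℝ => lin θ u := by
  unfold lin; fun_prop

lemma cont (hM : S_MMb) {F : LQ ℤ k} {D : FDat k} (h : Fc F D) (R : ℕ) (f : LQ ℂ k → ℂ)
    (h1 : ∀ A A', f (A + A') = f A + f A') (h2 : ∀ (z : ℂ) A, f (z • A) = z * f A) :
    Continuous fun θ : Fin k → ℝ => f (MM F D θ R) := by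
  obtain ⟨N, hN⟩ := (hM k F D R h).2.2
  let l : LQ ℂ k →ₗ[ℂ] ℂ := ⟨⟨f, h1⟩, h2⟩
  have : (fun θ : Fin k → ℝ => f (MM F D θ R)) =
      fun θ => ∑ i, ∑ i', ((θ i : ℂ) * θ i') * l (N i i') := funext fun θ => by
    show l _ = _
    simp only [hN, map_sum, map_smul, smul_eq_mul]
  rw [this]
  fun_prop

lemma compact (D : FDat k) (κ : ℝ) : IsCompact (Metric.closedBall (0 : Fin k → ℝ) 1 ∩
    {θ : Fin k → ℝ | ∀ u ∈ D.W.coeff.support, lin θ u ≤ -κ}) := by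
  refine (isCompact_closedBall _ _).inter_right ?_
  simp only [Set.ofPred_forall]
  exact isClosed_iInter fun u => isClosed_iInter fun _ => isClosed_le (cont_lin u) continuous_const

lemma open_and {X : Type} [TopologicalSpace X] (p : Prop) {q : X → Prop}
    (h : IsOpen {x | q x}) : IsOpen {x | p ∧ q x} := by
  by_cases e : p <;> simp [e, h]

end Covy

open Covy in
theorem p_Cov (hE : S_PoleEx) (hB : S_PoleBig) (hM : S_MMb) (hL : S_Loc) : S_Cov := by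
  intro k F D J k₁ κ hF h hφ hκ
  obtain ⟨s, hs⟩ := (compact D κ).elim_finite_subcover
    (fun n : ℕ => {θ : Fin k → ℝ | ∃ (b : Fin k → ℤ) (t₀ : ℂˣ) (m₀ j : ℕ),
      (k₁ ≤ n ∧ 0 < m₀ ∧ (t₀ : ℂ) ^ m₀ = 1 ∧ j + k < ord b t₀ D.V * ((n + 1) * J + n + 1)) ∧
      PowerSeries.coeff j ((py b t₀ D.a₀ (MM F D θ ((n + 1) * J + n + 1))).coeff n) ≠ 0})
    (fun n => by
      simp only [Set.ofPred_exists]
      refine isOpen_iUnion fun b => isOpen_iUnion fun t₀ => isOpen_iUnion fun m₀ =>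
        isOpen_iUnion fun j => open_and _ (isOpen_ne_fun (cont hM h _
          (fun A => PowerSeries.coeff j ((py b t₀ D.a₀ A).coeff n)) (fun A A' => ?_) fun z A => ?_)
          continuous_const)
      · rw [(hL k b t₀ D.a₀).1, coeff_add, map_add]
      · rw [(hL k b t₀ D.a₀).2.1, coeff_smul, map_smul, smul_eq_mul])
    fun θ hθ => by
      obtain ⟨u, hu⟩ := support_nonempty h.Wne
      obtain ⟨b, t₀, m₀, n, a1, a2, a3, a4⟩ := hE k F D θ k₁ hF h hφ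
        ⟨u, h.mem.2 (Or.inr hu), by have := hθ.2 u hu; linarith⟩
      obtain ⟨j, b1, b2⟩ := a4 ((n + 1) * J + n + 1) (by omega)
      exact Set.mem_iUnion.2 ⟨n, b, t₀, m₀, j, ⟨a3, a1, a2, b1⟩, b2⟩
  refine ⟨s.sup id, fun Θ => ?_⟩
  obtain ⟨t, ht⟩ := (compact D κ).elim_finite_subcover
    (fun q : ℕ × ℕ × (Fin k → ℤ) => {θ : Fin k → ℝ |
      (k₁ ≤ q.1 ∧ q.1 ≤ s.sup id ∧ 0 < q.2.1 ∧ -(q.2.2 ⬝ᵥ D.a₀) = q.1) ∧
      Θ < ‖(HH D.V q.2.1 ((q.1 + 1) * J + q.1 + 1) *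
        MM F D θ ((q.1 + 1) * J + q.1 + 1)).coeff q.2.2‖})
    (fun q => open_and _ (isOpen_lt continuous_const (cont hM h _
      (fun A => (HH D.V q.2.1 ((q.1 + 1) * J + q.1 + 1) * A).coeff q.2.2)
      (fun A A' => by rw [mul_add, AddMonoidAlgebra.coeff_add, Finsupp.add_apply])
      fun z A => by
        rw [mul_smul_comm, AddMonoidAlgebra.coeff_smul, Finsupp.smul_apply, smul_eq_mul]).norm))
    fun θ hθ => by
      obtain ⟨n, hn, b, t₀, m₀, j, ⟨a1, a2, a3, a4⟩, a5⟩ := Set.mem_iUnion₂.1 (hs hθ)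
      obtain ⟨B, z, b1, b2, b3⟩ := hB k D.V D.a₀ b t₀ m₀ n _ j _ h.V0
        ((hM k F D _ h).2.1 θ) a2 a3 a4 a5 Θ
      exact Set.mem_iUnion.2 ⟨(n, B, z), ⟨a1, Finset.le_sup (f := id) hn, b1, b2⟩, b3⟩
  refine ⟨t, fun θ h2 h3 => ?_⟩
  obtain ⟨q, hq, ⟨a1, a2, a3, a4⟩, a5⟩ := Set.mem_iUnion₂.1
    (ht ⟨mem_closedBall_zero_iff.2 ((pi_norm_le_iff_of_nonneg zero_le_one).2 h2), h3⟩)
  exact ⟨q, hq, a1, a2, a3, a4, a5⟩

end Pool.Agent.P.MP_aef18a_nt.TW
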