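import Pool.Agent.P.MP_aef18a_nt.TW.Iface
import Pool.Agent.P.MP_aef18a_nt.OW.NormP

namespace Pool.Agent.P.MP_aef18a_nt.TW

open Polynomial Matrix LaurentPolynomial OW

namespace DatUy

variable {k : ℕ}

/-- the signs of the vectors in `P` are changed -/
def fl (V : Multiset (Fin k → ℤ)) (P : Finset (Fin k → ℤ)) : Multiset (Fin k → ℤ) :=
  V.map fun v => if v ∈ P then -v else v

lemma mem_fl {V : Multiset (Fin k → ℤ)} {P : Finset (Fin k → ℤ)} {w : Fin k → ℤ}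
    (h : w ∈ fl V P) : ∃ v ∈ V, v ∈ P ∧ w = -v ∨ v ∉ P ∧ w = v := by
  obtain ⟨v, hv, rfl⟩ := Multiset.mem_map.1 h
  refine ⟨v, hv, ?_⟩
  split_ifs with e <;> simp [e]

lemma bin_dvd (V : Multiset (Fin k → ℤ)) (P : Finset (Fin k → ℤ)) :
    bin ℚ V ∣ bin ℚ (fl V P) := by
  rw [bin, bin, fl, Multiset.map_map]
  refine Multiset.prod_dvd_prod_of_dvd _ _ fun v _ => ?_
  simp only [Function.comp]
  split_ifs
  · refine ⟨-AddMonoidAlgebra.single (-v) 1, ?_⟩
    rw [sub_mul, one_mul, mul_neg, AddMonoidAlgebra.single_mul_single, add_neg_cancel, one_mul,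
      ← AddMonoidAlgebra.one_def]
    ring
  · rfl

lemma ex_int {φ : LQ ℤ k} {V : Multiset (Fin k → ℤ)} (h : (toQ φ : LP k) ∣ bin ℚ V) :
    ∃ (d : ℤ) (T : LQ ℤ k), d ≠ 0 ∧ φ * T = d • bin ℤ V := by
  obtain ⟨T', e⟩ := h
  obtain ⟨d, hd, T, hT⟩ := NormPx.exists_int T'
  refine ⟨d, T, hd, ?_⟩
  have e1 : (toQ T : LP k) = d • T' := by
    ext u
    rw [toQ_coeff, hT, AddMonoidAlgebra.coeff_smul, Finsupp.smul_apply, zsmul_eq_mul]
  have e2 : (toQ (φ * T) : LP k) = toQ (d • bin ℤ V) := by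
    rw [map_mul, map_zsmul, toQ_bin, e, e1, mul_smul_comm]
  ext u
  have := congrArg (fun A : LP k => A.coeff u) e2
  simp only [toQ_coeff] at this
  exact_mod_cast this

lemma bd_T {φ T : LQ ℤ k} {d : ℤ} {V : Multiset (Fin k → ℤ)} (h : φ * T = d • bin ℤ V)
    (h0 : 0 ∈ φ.coeff.support) (ω : (Fin k → ℤ) →+ ℝ) {p : ℝ} (hp : 0 ≤ p)
    (hV : ∀ v ∈ V, ω v ≤ p) : Bd ω (V.card * p) T := by
  intro x hx
  have φ0 : φ ≠ 0 := by
    rintro rfl
    simp at h0
  have T0 : T ≠ 0 := by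
    rintro rfl
    simp at hx
  obtain ⟨u, -, w, -, z, hz, a1, a2, e⟩ := exists_top_mul ω φ0 T0
  have b1 := bd_smul d (bd_bin ω hp hV) z (h ▸ hz)
  have b2 := a1 0 h0
  have b3 := a2 x hx
  rw [map_zero] at b2
  linarith

end DatUy

open DatUy in
theorem p_DatU (hF : S_FaceDiv) (hS : S_Small) : S_DatU := by
  classical
  intro k F U₀ U a₀ F0 ⟨V₀, hV₀, hd₀⟩ U0 hU hU0 hout ⟨u₁, hu₁, hu₂⟩
  have φ0 : 0 ∈ (res U F).coeff.support := mem_res.2 ⟨U0, Finsupp.mem_support_iff.2 F0⟩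
  have e : lev (dotR a₀) 0 (toQ (res U₀ F) : LP k) = toQ (res U F) := by
    ext u
    rw [lev_coeff, toQ_coeff, toQ_coeff, res_coeff, res_coeff]
    simp only [dotR_apply, Int.cast_eq_zero]
    by_cases h : u ∈ U
    · rw [if_pos (hU0 u h), if_pos (hU h), if_pos h]
    · rw [if_neg h]
      split_ifs with h1 h2
      · by_contra h3
        exact (hout u (Finsupp.mem_support_iff.2 fun a => h3 (by rw [a])) h).ne h1
      · rfl
      · simp
  have sQ : ∀ (A : LQ ℤ k) u, u ∈ (toQ A : LP k).coeff.support → u ∈ A.coeff.support :=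
    fun A u hu => by
      rw [Finsupp.mem_support_iff] at hu ⊢
      rw [toQ_coeff] at hu
      exact_mod_cast hu
  obtain ⟨V₁, h1, -, h2⟩ := hF k _ V₀ (dotR a₀) 0 hV₀ hd₀ (fun u hu => by
    rw [dotR_apply]
    by_cases h : u ∈ U
    · exact_mod_cast (hU0 u h).le
    · exact_mod_cast (hout u (mem_res.1 (sQ _ u hu)).2 h).le) (by
    rw [e]
    refine toQ_ne_zero fun a => ?_
    rw [a] at φ0
    simp at φ0)
  rw [e] at h2
  obtain ⟨V, hV, hd⟩ := hS k _ U (fun u hu => (mem_res.1 (sQ _ u hu)).1)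
    ⟨V₁, fun v hv => hV₀ v (Multiset.mem_of_le h1 hv), h2⟩
  have V0 : ∀ v ∈ V, v ⬝ᵥ a₀ = 0 := fun v hv => by
    obtain ⟨C, hC⟩ := NormPx.gen_bound _ v (hV v hv).2
    have := hC a₀ 0 le_rfl fun d hd => by rw [hU0 d hd]; simp
    simpa using this
  choose d T hd0 hT using fun P => ex_int (hd.trans (bin_dvd V P))
  choose! c hc using fun v (hv : v ∈ V) => NormPx.gen_bound _ v (hV v hv).2
  have f0 : ∀ P, ∀ w ∈ fl V P, w ⬝ᵥ a₀ = 0 := fun P w hw => by
    obtain ⟨v, hv, ⟨-, rfl⟩ | ⟨-, rfl⟩⟩ := mem_fl hw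
    · rw [neg_dotProduct, V0 v hv, neg_zero]
    · exact V0 _ hv
  refine ⟨V.toFinset.powerset.image fun P => ⟨res U F, F - res U F, T P, d P, fl V P, a₀⟩,
    V.card * V.toFinset.sup c, V.toFinset.sup nu, fun D hD => ?_, fun a X hB _ hX => ?_⟩
  · obtain ⟨P, -, rfl⟩ := Finset.mem_image.1 hD
    refine ⟨⟨(add_sub_cancel _ _).symm, hT P, hd0 P, fun u hu => hU0 u (mem_res.1 hu).1,
      fun u hu => ?_, f0 P, fun w hw => ?_,
      fun u hu => hout u (mem_sub_res.1 hu).2 (mem_sub_res.1 hu).1, fun a => ?_⟩, rfl, rfl⟩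
    · have b1 := bd_T (hT P) φ0 (dotR a₀) le_rfl (fun v hv => by
        rw [dotR_apply, f0 P v hv, Int.cast_zero]) u hu
      have b2 := bd_T (hT P) φ0 (-dotR a₀) le_rfl (fun v hv => by
        rw [AddMonoidHom.neg_apply, dotR_apply, f0 P v hv, Int.cast_zero, neg_zero]) u hu
      rw [AddMonoidHom.neg_apply] at b2
      rw [dotR_apply, mul_zero] at b1 b2
      have : ((u ⬝ᵥ a₀ : ℤ) : ℝ) = 0 := by linarith
      exact_mod_cast this
    · obtain ⟨v, hv, ⟨-, rfl⟩ | ⟨-, rfl⟩⟩ := mem_fl hw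
      · exact neg_ne_zero.2 (hV v hv).1
      · exact (hV _ hv).1
    · have := mem_sub_res.2 ⟨hu₂, hu₁⟩
      rw [show F - res U F = 0 from a] at this
      simp at this
  · obtain ⟨P, hP⟩ : ∃ P, P = V.toFinset.filter fun v => 0 < v ⬝ᵥ a := ⟨_, rfl⟩
    have hw : ∀ w ∈ fl V P, w ⬝ᵥ a < 0 ∧ -(w ⬝ᵥ a) ≤ (V.toFinset.sup c * X : ℕ) := by
      intro w hw
      obtain ⟨v, hv, h⟩ := mem_fl hw
      have hv' := Multiset.mem_toFinset.2 hv
      have b1 := hB v (hV v hv).1 fun i =>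
        (le_nu v i).trans (Nat.cast_le.2 (Finset.le_sup (f := nu) hv'))
      have b2 : |v ⬝ᵥ a| ≤ (c v * X : ℕ) := by
        have := hc v hv a X (Nat.cast_nonneg _) fun u hu => by exact_mod_cast hX u hu
        exact_mod_cast this
      have b3 := abs_le.1
        (b2.trans (Nat.cast_le.2 (Nat.mul_le_mul_right X (Finset.le_sup (f := c) hv'))))
      rw [hP, Finset.mem_filter] at h
      rcases h with ⟨h, rfl⟩ | ⟨h, rfl⟩
      · rw [neg_dotProduct]
        omega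
      · have : ¬ 0 < w ⬝ᵥ a := fun a => h ⟨hv', a⟩
        omega
    have hcard : (fl V P).card = V.card := Multiset.card_map _ _
    refine ⟨_, Finset.mem_image_of_mem _ (Finset.mem_powerset.2 (hP ▸ Finset.filter_subset _ _ :
      P ⊆ V.toFinset)), fun w h => (hw w h).1, ?_, fun u hu => ?_, fun u hu => ?_⟩
    · refine (Multiset.sum_le_card_nsmul _ (V.toFinset.sup c * X) fun x hx => ?_).trans ?_
      · obtain ⟨w, h, rfl⟩ := Multiset.mem_map.1 hx
        exact Int.toNat_le.2 (hw w h).2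
      · rw [sg, Multiset.card_map, hcard, smul_eq_mul, mul_assoc]
    · have := bd_T (hT P) φ0 (dotR a) le_rfl (fun v hv => by
        rw [dotR_apply]
        exact_mod_cast (hw v hv).1.le) u hu
      rw [dotR_apply, mul_zero] at this
      exact_mod_cast this
    · have := bd_T (hT P) φ0 (-dotR a) (p := (V.toFinset.sup c * X : ℕ)) (Nat.cast_nonneg _)
        (fun v hv => by
          rw [AddMonoidHom.neg_apply, dotR_apply]
          exact_mod_cast (hw v hv).2) u hu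
      rw [AddMonoidHom.neg_apply, dotR_apply, hcard] at this
      rw [mul_assoc]
      exact_mod_cast this

end Pool.Agent.P.MP_aef18a_nt.TW
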