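import Pool.Agent.P.MP_aef18a_nt.TW.Iface
import Pool.Agent.P.MP_aef18a_nt.OW.Out

namespace Pool.Agent.P.MP_aef18a_nt.TW

open Polynomial Matrix LaurentPolynomial OW

namespace DegTy

/-- the scales of the pigeonhole argument -/
def sq (J₀ : ℕ) (Yf : ℕ → ℕ) : ℕ → ℕ
  | 0 => J₀
  | i + 1 => sq J₀ Yf i + sq J₀ Yf i * Yf (sq J₀ Yf i)

lemma sq_mono (J₀ : ℕ) (Yf : ℕ → ℕ) : Monotone (sq J₀ Yf) :=
  monotone_nat_of_le_succ fun _ => Nat.le_add_right _ _

lemma face_ne {k : ℕ} {F : LQ ℤ k} {D : FDat k} (hF : Fc F D) {a : Fin k → ℤ}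
    (hV : ∀ v ∈ D.V, v ⬝ᵥ a < 0) {α : ℂˣ} (hα : NonTors α) : evc a α D.φ ≠ 0 := fun e => by
  have h := congrArg (evc a α) hF.mul
  rw [map_mul, e, zero_mul, map_smul, eq_comm, smul_eq_zero] at h
  exact h.elim hF.d0 fun h => hα (tors_of_bin (fun v hv => (hV v hv).ne) h)

end DegTy

open DegTy in
theorem p_DegT (hD : S_Deg) : S_DegT := by
  classical
  intro k F D J η hF hη
  obtain ⟨c, hc, H⟩ := hD F.coeff.support.card (F.coeff.support.image fun u => (F.coeff u : ℚ)) η hη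
  refine ⟨c / (2 * (J + 1)), by positivity, fun a g w hG hw α hα he => ?_⟩
  rw [evc_toQ, evc_eq_sum] at he
  obtain ⟨P, hP, hsum⟩ := BlocksA.part _ (fun u : Fin k → ℤ => if u ∈ D.φ.coeff.support then
    algebraMap ℤ ℂ (F.coeff u) * (α : ℂ) ^ (u ⬝ᵥ a) else 0) _ he
  obtain ⟨I, hI, u, hu, hu1, u', hu', hu2⟩ : ∃ I ∈ P, ∃ u ∈ I, u ∈ D.φ.coeff.support ∧
      ∃ u' ∈ I, u' ∉ D.φ.coeff.support := by
    by_contra hn
    push Not at hn
    refine face_ne hF hG.Vneg hα ?_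
    rw [Finset.sum_eq_zero, ← Finset.sum_filter, Finset.filter_mem_eq_inter,
      Finset.inter_eq_right.2 fun u hu => hF.mem.2 (Or.inl hu)] at hsum
    · rw [evc_eq_sum, hsum]
      exact Finset.sum_congr rfl fun u hu => by rw [hF.coeff_φ hu]
    · intro I hI
      by_cases e : ∃ u ∈ I, u ∈ D.φ.coeff.support
      · obtain ⟨u, hu, hu1⟩ := e
        rw [← (hP I hI).2.2.1]
        exact Finset.sum_congr rfl fun v hv => if_pos (hn I hI u hu hu1 v hv)
      · push Not at e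
        exact Finset.sum_eq_zero fun v hv => if_neg (e v hv)
  obtain ⟨-, h2, h3, h4⟩ := hP I hI
  have := H α hα _ I (fun u => (F.coeff u : ℚ)) (· ⬝ᵥ a) (Finset.card_le_card h2)
    (fun i hi => Finset.mem_image_of_mem _ (h2 hi))
    ⟨by simpa using h3, fun J' a1 a2 a3 => by simpa using h4 J' a1 a2 a3⟩ u hu u' hu'
  refine le_trans ?_ ((mul_le_mul_of_nonneg_left (le_abs_self _) hc.le).trans this)
  have b1 := hG.φw u hu1
  have b2 := hG.gap u' ((hF.mem.1 (h2 hu')).resolve_left hu2)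
  have b3 : (g : ℝ) ≤ 2 * (((u ⬝ᵥ a : ℤ) : ℝ) - ((u' ⬝ᵥ a : ℤ) : ℝ)) := by
    exact_mod_cast (by omega : (g : ℤ) ≤ 2 * (u ⬝ᵥ a - u' ⬝ᵥ a))
  have b4 : (nu a : ℝ) ≤ (J + 1) * g := by
    have := hG.nu
    exact_mod_cast this.trans (Nat.mul_le_mul_right g J.le_succ)
  rw [div_mul_eq_mul_div, mul_div_assoc]
  refine mul_le_mul_of_nonneg_left ?_ hc.le
  rw [div_le_iff₀ (by positivity)]
  have b5 := mul_le_mul_of_nonneg_left b3 (show (0 : ℝ) ≤ J + 1 by positivity)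
  linarith

open Outx in
theorem p_Lev2 (hK : S_Link) (hL : S_Lac) (hM : S_Mann) (hC : S_CycP) (hA : S_CntA)
    (hN : S_NtrN) : S_Lev2 := by
  intro k F E J Y hF hE
  obtain ⟨D, p, hD, hp, p1, p2⟩ := consts F
  obtain ⟨u, hu⟩ := support_nonempty hE.Wne
  have hu' := hE.mem.2 (Or.inr hu)
  obtain ⟨W, hW⟩ : ∃ W, W = 4 * k ^ 3 * (p * D) ^ 2 * J := ⟨_, rfl⟩
  obtain ⟨B, hB'⟩ : ∃ B, B = 2 * k * (p * D) + D + 1 + 2 * W + Y * (l1 F).factorial * W :=
    ⟨_, rfl⟩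
  refine ⟨B, fun a g w hR hG => ?_⟩
  have B0 : 0 < B := by omega
  have b1 : 2 * k * (p * D) ≤ B := by omega
  have w1 : 4 * k ^ 3 * (p * D) ^ 2 * (J * g) = W * g := by rw [hW]; ring
  have hDQ : Wb D (toQ F : LP k) := hD.subset (support_toQ F).subset
  have hnc : NonCol (toQ F : LP k) := hF.nc.of_support (support_toQ F).superset
  have hi := (hR.mono (by omega : D ≤ B)).injOn hD
  obtain ⟨l1', -, -, -, -, -, l4, -⟩ := hK k F a (J * g) 1 hF.c0 hG.gp hi
  have co : ∀ i, |a i| ≤ (J * g : ℕ) := fun i => (le_nu a i).trans (by exact_mod_cast hG.nu)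
  have hg : (g : ℤ) ≤ (0 - u) ⬝ᵥ a := by
    have := hG.gap u hu
    rw [zero_sub, neg_dotProduct]
    omega
  have hs := hG.g1
  refine ⟨hi, fun l hl hd => ?_, ?_⟩
  · obtain ⟨Z, z1, z2⟩ := hM (SS F a) (l1 F) l (hL _ _ _ l1').2.2.1 hl hd
    have z3 := hA k D B (J * g) p (toQ F) (toQ F) a hF.irr hnc hF.irr.ne_zero dvd_rfl hDQ hp p1 b1
      B0 co hR Z fun α hα => by
        have e := (root_iff l4 α).1 (z2 α hα).2
        exact ⟨e, hC k p F a α hp (by omega) (fun h => h ⟨l, hl, (z2 α hα).1⟩) e⟩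
    rw [w1] at z3
    refine Nat.le_of_mul_le_mul_right ?_ B0
    calc l * Y * B ≤ (l1 F).factorial * Z.card * Y * B := by gcongr
      _ = Y * (l1 F).factorial * (Z.card * B) := by ring
      _ ≤ Y * (l1 F).factorial * (W * g) := by gcongr
      _ = g * (Y * (l1 F).factorial * W) := by ring
      _ ≤ g * B := Nat.mul_le_mul_left g (by omega)
  · refine hN k D B (J * g) p (toQ F) F a hF.irr hnc hF.nc.ne_zero dvd_rfl hD hp p1 (by omega) b1
      B0 co hR 0 (by rw [support_toQ]; exact Finsupp.mem_support_iff.2 hF.c0) u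
      (by rwa [support_toQ]) ?_
    refine lt_of_lt_of_le ?_ (mul_le_mul_of_nonneg_right hg (Int.natCast_nonneg B))
    have e : 8 * k ^ 3 * (p * D) ^ 2 * (J * g) < g * B := by
      have := Nat.mul_lt_mul_of_pos_left (show 2 * W < B by omega) hs
      linarith
    exact_mod_cast e

open DegTy in
theorem p_Pig2 : S_Pig2 := by
  intro n₀ J₀ Yf
  refine ⟨sq J₀ Yf n₀, fun ι s γ n hs => ?_⟩
  by_contra hn
  push Not at hn
  have b : ∀ i : Fin (n₀ + 1), ∃ u ∈ s,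
      n < sq J₀ Yf i * Yf (sq J₀ Yf i) * γ u ∧ sq J₀ Yf i * γ u < n := fun i =>
    hn _ (sq_mono J₀ Yf (Nat.zero_le i)) (sq_mono J₀ Yf (Nat.lt_succ_iff.1 i.2))
  choose f hf h1 h2 using b
  have key : ∀ i j : Fin (n₀ + 1), i < j → f i ≠ f j := fun i j hij e => by
    have a1 := h1 i
    have a2 := h2 j
    have a3 : sq J₀ Yf i * Yf (sq J₀ Yf i) ≤ sq J₀ Yf j :=
      (Nat.le_add_left _ _).trans (sq_mono J₀ Yf (show i.1 + 1 ≤ j.1 from hij))
    rw [← e] at a2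
    have := Nat.mul_le_mul_right (γ (f i)) a3
    omega
  have := Finset.card_le_card_of_injOn (s := Finset.univ) (t := s) f (fun i _ => hf i)
    fun i _ j _ e => by
      by_contra hne
      rcases lt_or_gt_of_ne hne with h | h
      · exact key i j h e
      · exact key j i h e.symm
  rw [Finset.card_univ, Fintype.card_fin] at this
  omega

end Pool.Agent.P.MP_aef18a_nt.TW
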