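import Pool.Agent.P.MP_aef18a_nt.TW.Iface
import Pool.Agent.P.MP_aef18a_nt.OW.Energy

/-! The logarithmic energy of the roots, with denominators. -/

namespace Pool.Agent.P.MP_aef18a_nt.TW

open Polynomial Matrix LaurentPolynomial OW

namespace En2y

open Finset ComplexConjugate

theorem main {ρ E : ℝ} (hρ1 : 1 ≤ ρ) (R : Finset ℂ) {N M : ℕ} (hN : 1 ≤ N) (hd : R.card ≤ N)
    (hM : M ≤ N) (h : ∀ β ∈ R, ‖β‖ ≤ ρ) (hE : 0 ≤ E)
    (hD : 0 ≤ R.card * E + ∑ β ∈ R, ∑ β' ∈ R.erase β, Real.log ‖β - β'‖) :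
    ∑ j ∈ Icc 1 M, ‖∑ β ∈ R, β ^ j‖ ^ 2 ≤
      M * (ρ ^ M) ^ 2 * N * (8 * (2 + Real.log N + N * Real.log ρ + E)) := by
  have N1 : (1 : ℝ) ≤ N := by exact_mod_cast hN
  have N0 : (0 : ℝ) < N := by linarith
  have d1 : (R.card : ℝ) ≤ N := by exact_mod_cast hd
  have ρ0 : 0 < ρ := by linarith
  have lC := Real.log_nonneg hρ1
  have lN := Real.log_nonneg N1
  obtain ⟨L, hL⟩ : ∃ L, L = 1 + N * Real.log ρ := ⟨_, rfl⟩
  have L0 : 0 ≤ L := by rw [hL]; positivity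
  obtain ⟨σ, hσ⟩ : ∃ σ, σ = Real.exp (-(L / N)) := ⟨_, rfl⟩
  have σ0 : 0 < σ := hσ ▸ Real.exp_pos _
  have σρ : σ * ρ = Real.exp (-(1 / N)) := by
    rw [hσ]
    conv_lhs => rw [← Real.exp_log ρ0, ← Real.exp_add]
    rw [hL]
    congr 1
    field_simp
    ring
  have nz : ∀ β : ℂ, ‖(σ : ℂ) * β‖ = σ * ‖β‖ := fun β => by
    rw [norm_mul, Complex.norm_real, Real.norm_of_nonneg σ0.le]
  have hz : ∀ β ∈ R, ‖(σ : ℂ) * β‖ ≤ Real.exp (-(1 / N)) := fun β hβ => by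
    rw [nz, ← σρ]
    exact mul_le_mul_of_nonneg_left (h β hβ) σ0.le
  have h1 := sum_le_hasSum (Icc 1 M) (fun _ _ => by positivity)
    (Energyx.series R (fun β => σ * β) fun β hβ => (Energyx.diag N1 (hz β hβ)).1)
  have h2 : ∑ β ∈ R, ∑ β' ∈ R, -Real.log ‖1 - σ * β * conj (σ * β')‖ ≤
      ∑ β ∈ R, (1 + Real.log N + L - ∑ β' ∈ R.erase β, Real.log ‖β - β'‖) := by
    refine sum_le_sum fun β hβ => ?_
    have h3 : ∑ β' ∈ R.erase β, -Real.log ‖1 - σ * β * conj (σ * β')‖ ≤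
        ∑ β' ∈ R.erase β, (L / N - Real.log ‖β - β'‖) := by
      refine sum_le_sum fun β' hβ' => ?_
      have n0 : 0 < ‖β - β'‖ := norm_pos_iff.2 (sub_ne_zero.2 (mem_erase.1 hβ').1.symm)
      have h4 := Energyx.off (Energyx.diag N1 (hz β hβ)).1.le
        (Energyx.diag N1 (hz β' (mem_erase.1 hβ').2)).1.le
      rw [← mul_sub, nz] at h4
      have h5 := Real.log_le_log (mul_pos σ0 n0) h4
      rw [Real.log_mul σ0.ne' n0.ne'] at h5
      have h6 : Real.log σ = -(L / N) := by rw [hσ, Real.log_exp]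
      linarith
    have h7 : ((R.erase β).card : ℝ) * (L / N) ≤ L := by
      have : ((R.erase β).card : ℝ) ≤ N := by exact_mod_cast card_erase_le.trans hd
      exact (mul_le_mul_of_nonneg_right this (by positivity)).trans_eq (mul_div_cancel₀ _ N0.ne')
    rw [sum_sub_distrib, sum_const, nsmul_eq_mul] at h3
    rw [← add_sum_erase _ _ hβ]
    linarith [(Energyx.diag N1 (hz β hβ)).2]
  rw [sum_sub_distrib, sum_const, nsmul_eq_mul] at h2
  have e8 : Real.exp 1 ^ 2 ≤ 8 := by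
    have := Real.exp_one_lt_d9
    nlinarith [Real.exp_pos 1]
  have h8 : ∑ j ∈ Icc 1 M, ‖∑ β ∈ R, β ^ j‖ ^ 2 ≤
      M * (ρ ^ M) ^ 2 * 8 * ∑ j ∈ Icc 1 M, ‖∑ β ∈ R, ((σ : ℂ) * β) ^ j‖ ^ 2 / j := by
    rw [mul_sum]
    refine sum_le_sum fun j hj => ?_
    have j0 : (0 : ℝ) < j := by exact_mod_cast (mem_Icc.1 hj).1
    have j1 : (j : ℝ) ≤ M := by exact_mod_cast (mem_Icc.1 hj).2
    have j2 : (j : ℝ) ≤ N := by exact_mod_cast (mem_Icc.1 hj).2.trans hM
    have e1 : 1 ≤ Real.exp 1 * (σ * ρ) ^ j := by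
      rw [σρ, ← Real.exp_nat_mul, ← Real.exp_add]
      refine Real.one_le_exp ?_
      have := (div_le_one N0).2 j2
      rw [mul_neg, mul_one_div]
      linarith
    have e2 : (σ * ρ) ^ j ≤ σ ^ j * ρ ^ M := by
      rw [mul_pow]
      exact mul_le_mul_of_nonneg_left (pow_le_pow_right₀ hρ1 (mem_Icc.1 hj).2) (by positivity)
    have e3 : 1 ≤ Real.exp 1 * (σ ^ j * ρ ^ M) :=
      e1.trans (mul_le_mul_of_nonneg_left e2 (Real.exp_pos _).le)
    have e4 : 1 ≤ 8 * (σ ^ j * ρ ^ M) ^ 2 := by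
      refine (one_le_pow₀ (n := 2) e3).trans ?_
      rw [mul_pow]
      exact mul_le_mul_of_nonneg_right e8 (by positivity)
    have e5 : 1 ≤ (M : ℝ) / j * (8 * (σ ^ j * ρ ^ M) ^ 2) :=
      one_le_mul_of_one_le_of_one_le ((one_le_div j0).2 j1) e4
    simp only [mul_pow, ← mul_sum, norm_mul, norm_pow, Complex.norm_real,
      Real.norm_of_nonneg σ0.le]
    refine (le_mul_of_one_le_left (by positivity) e5).trans_eq ?_
    field_simp
  refine h8.trans ?_
  have h9 := mul_le_mul_of_nonneg_right d1 (show 0 ≤ 1 + Real.log N + L + E by linarith)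
  have h10 : ∑ j ∈ Icc 1 M, ‖∑ β ∈ R, ((σ : ℂ) * β) ^ j‖ ^ 2 / j ≤
      N * (2 + Real.log N + N * Real.log ρ + E) := by
    refine h1.trans (h2.trans ?_)
    rw [show 2 + Real.log N + N * Real.log ρ + E = 1 + Real.log N + L + E by rw [hL]; ring]
    linarith
  refine (mul_le_mul_of_nonneg_left h10 (by positivity)).trans_eq ?_
  ring

theorem disc {f : ℤ[X]} (hf : f ≠ 0) (R : Finset ℂ) (hR : f.aroots ℂ = R.val) {D : ℤ}
    (hD : D ≠ 0) {N : ℕ} (hN : f.natDegree ≤ N)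
    (hi : ∀ β ∈ R, ∀ e ≤ N, IsIntegral ℤ ((D : ℂ) * β ^ e)) :
    0 ≤ R.card * (Real.log |(D : ℝ)| + Real.log |(f.leadingCoeff : ℝ)|) +
      ∑ β ∈ R, ∑ β' ∈ R.erase β, Real.log ‖β - β'‖ := by
  have inj : Function.Injective (algebraMap ℤ ℂ) := Int.cast_injective
  have lc0 : f.leadingCoeff ≠ 0 := leadingCoeff_ne_zero.2 hf
  have sp := IsAlgClosed.splits (f.map (algebraMap ℤ ℂ))
  have e : ∀ β ∈ R, aeval β (derivative f) =
      (f.leadingCoeff : ℂ) * ∏ β' ∈ R.erase β, (β - β') := fun β hβ => by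
    have a := congrArg (fun p => eval β (derivative p)) sp.eq_prod_roots
    simp only [derivative_C_mul, eval_mul, eval_C] at a
    rw [eval_multiset_prod_X_sub_C_derivative (by rw [← aroots_def, hR]; exact hβ),
      derivative_map, eval_map_algebraMap, ← aroots_def, hR,
      leadingCoeff_map_of_injective inj, eq_intCast] at a
    exact a
  have r := resultant_eq_prod_eval (f.map (algebraMap ℤ ℂ)) ((derivative f).map (algebraMap ℤ ℂ))
    (derivative f).natDegree natDegree_map_le sp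
  rw [natDegree_map_eq_of_injective inj, resultant_map_map, leadingCoeff_map_of_injective inj,
    ← aroots_def, hR, ← prod_eq_multiset_prod, eq_intCast, eq_intCast] at r
  simp only [eval_map_algebraMap] at r
  obtain ⟨z, hz⟩ : ∃ z : ℤ, ∏ β ∈ R, ((D : ℂ) * aeval β (derivative f)) = z := by
    have i1 : IsIntegral ℤ (∏ β ∈ R, ((D : ℂ) * aeval β (derivative f))) := by
      refine IsIntegral.prod _ fun β hβ => ?_
      rw [aeval_eq_sum_range' (n := N + 1)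
        (Nat.lt_succ_of_le ((natDegree_derivative_le f).trans ((Nat.sub_le _ _).trans hN))),
        mul_sum]
      refine IsIntegral.sum _ fun i hi' => ?_
      rw [mul_smul_comm]
      exact (hi β hβ i (Nat.lt_succ_iff.1 (mem_range.1 hi'))).smul _
    have i2 : ∏ β ∈ R, ((D : ℂ) * aeval β (derivative f)) = algebraMap ℚ ℂ ((D : ℚ) ^ R.card *
        (resultant f (derivative f) f.natDegree (derivative f).natDegree : ℤ) /
        (f.leadingCoeff : ℚ) ^ (derivative f).natDegree) := by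
      have : (f.leadingCoeff : ℂ) ≠ 0 := Int.cast_ne_zero.2 lc0
      simp only [map_div₀, map_mul, map_pow, map_intCast]
      rw [r, prod_mul_distrib, prod_const]
      field_simp
    rw [i2] at i1 ⊢
    obtain ⟨y, hy⟩ := IsIntegrallyClosed.isIntegral_iff.1
      ((isIntegral_algebraMap_iff (algebraMap ℚ ℂ).injective).1 i1)
    exact ⟨y, by rw [← hy]; simp⟩
  have n0 : ∀ β ∈ R, ∀ β' ∈ R.erase β, ‖β - β'‖ ≠ 0 := fun β _ β' hβ' =>
    norm_ne_zero_iff.2 (sub_ne_zero.2 (mem_erase.1 hβ').1.symm)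
  have D0 : |(D : ℝ)| ≠ 0 := abs_ne_zero.2 (Int.cast_ne_zero.2 hD)
  have l0 : |(f.leadingCoeff : ℝ)| ≠ 0 := abs_ne_zero.2 (Int.cast_ne_zero.2 lc0)
  have n1 : ∀ β ∈ R, |(D : ℝ)| * |(f.leadingCoeff : ℝ)| * ∏ β' ∈ R.erase β, ‖β - β'‖ ≠ 0 :=
    fun β hβ => mul_ne_zero (mul_ne_zero D0 l0) (prod_ne_zero_iff.2 (n0 β hβ))
  have e1 : ∏ β ∈ R, (|(D : ℝ)| * |(f.leadingCoeff : ℝ)| * ∏ β' ∈ R.erase β, ‖β - β'‖) =
      |(z : ℝ)| := by
    rw [← Complex.norm_intCast z, ← hz, norm_prod]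
    refine prod_congr rfl fun β hβ => ?_
    rw [e β hβ, norm_mul, norm_mul, norm_prod, Complex.norm_intCast, Complex.norm_intCast,
      mul_assoc]
  have z0 : z ≠ 0 := fun k => by
    rw [k, Int.cast_zero, abs_zero] at e1
    exact prod_ne_zero_iff.2 n1 e1
  have e2 : 0 ≤ Real.log |(z : ℝ)| := Real.log_nonneg (by exact_mod_cast Int.one_le_abs z0)
  rw [← e1, Real.log_prod n1] at e2
  refine e2.trans_eq ?_
  rw [← nsmul_eq_mul, ← sum_const, ← sum_add_distrib]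
  refine sum_congr rfl fun β hβ => ?_
  rw [Real.log_mul (mul_ne_zero D0 l0) (prod_ne_zero_iff.2 (n0 β hβ)), Real.log_mul D0 l0,
    Real.log_prod (n0 β hβ)]

end En2y

theorem p_En2 (h : S_Nrm) : S_En2 := by
  intro f N M D ρ hf hN hd hM hD hρ hn hb
  have lc0 : f.leadingCoeff ≠ 0 := leadingCoeff_ne_zero.2 hf
  have l1 : 0 ≤ Real.log |(D : ℝ)| := Real.log_nonneg (by exact_mod_cast Int.one_le_abs hD)
  have l2 : 0 ≤ Real.log |(f.leadingCoeff : ℝ)| :=
    Real.log_nonneg (by exact_mod_cast Int.one_le_abs lc0)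
  have := En2y.main hρ ⟨f.aroots ℂ, hn⟩ hN ((card_roots' _).trans (natDegree_map_le.trans hd)) hM
    (fun β hβ => (hb β hβ).1) (add_nonneg l1 l2)
    (En2y.disc hf _ rfl hD hd fun β hβ => (hb β hβ).2)
  rw [← add_assoc] at this
  exact this

end Pool.Agent.P.MP_aef18a_nt.TW
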