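import Pool.Agent.P.MP_aef18a_nt.TW.Iface

namespace Pool.Agent.P.MP_aef18a_nt.TW

open Polynomial Matrix LaurentPolynomial OW

namespace Facesy

variable {k : ℕ}

lemma lev_sub (ω : (Fin k → ℤ) → ℝ) (m : ℝ) (A B : LQ ℚ k) :
    lev ω m (A - B) = lev ω m A - lev ω m B := by
  ext u
  simp only [lev_coeff, AddMonoidAlgebra.coeff_sub, Finsupp.sub_apply]
  split_ifs <;> simp

lemma lev_self {ω : (Fin k → ℤ) → ℝ} {m : ℝ} {A : LQ ℚ k} (h : ∀ u ∈ A.coeff.support, ω u = m) :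
    lev ω m A = A := by
  ext u
  rw [lev_coeff]
  split_ifs with e
  · rfl
  · exact (Finsupp.notMem_support_iff.1 fun hu => e (h u hu)).symm

lemma lev_yes {ω : (Fin k → ℤ) → ℝ} {m : ℝ} {u : Fin k → ℤ} (h : ω u = m) :
    lev ω m (AddMonoidAlgebra.single u 1 : LQ ℚ k) = AddMonoidAlgebra.single u 1 :=
  lev_self fun z hz => by rwa [mem_single hz]

lemma lev_no {ω : (Fin k → ℤ) → ℝ} {m : ℝ} {u : Fin k → ℤ} (h : ω u ≠ m) :
    lev ω m (AddMonoidAlgebra.single u 1 : LQ ℚ k) = 0 := by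
  by_contra e
  obtain ⟨z, hz, e⟩ := lev_ne_zero_iff.1 e
  exact h (mem_single hz ▸ e)

lemma bd_le {ω : (Fin k → ℤ) → ℝ} {m : ℝ} {u : Fin k → ℤ} (h : ω u ≤ m) :
    Bd ω m (AddMonoidAlgebra.single u 1 : LQ ℚ k) := fun z hz => by rwa [mem_single hz]

open Classical in
lemma top_bin (ω : (Fin k → ℤ) →+ ℝ) (V : Multiset (Fin k → ℤ)) : ∃ (m : ℝ) (u : LQ ℚ k),
    IsUnit u ∧ Bd ω m (bin ℚ V) ∧ lev ω m (bin ℚ V) = u * bin ℚ (V.filter fun v => ω v = 0) := by
  induction V using Multiset.induction_on with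
  | empty =>
    refine ⟨0, 1, isUnit_one, ?_, ?_⟩
    · exact bin_zero (𝕜 := ℚ) (k := k) ▸ bd_le (map_zero ω).le
    · rw [Multiset.filter_zero, bin_zero, one_mul]
      exact lev_yes (map_zero ω)
  | cons v V ih =>
    obtain ⟨m, u, h1, h2, h3⟩ := ih
    have b : Bd ω (max 0 (ω v)) (1 - AddMonoidAlgebra.single v 1 : LQ ℚ k) :=
      bd_sub (bd_le ((map_zero ω).le.trans (le_max_left _ _))) (bd_le (le_max_right _ _))
    have e := lev_mul ω b h2
    rw [← bin_cons, lev_sub, h3, AddMonoidAlgebra.one_def] at e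
    have b' := bd_mul ω b h2
    rw [← bin_cons] at b'
    rcases lt_trichotomy (ω v) 0 with h | h | h
    · refine ⟨_, u, h1, b', ?_⟩
      rw [e, max_eq_left h.le, lev_yes (map_zero ω), lev_no h.ne,
        Multiset.filter_cons_of_neg (p := fun v => ω v = 0) _ h.ne, ← AddMonoidAlgebra.one_def, sub_zero, one_mul]
    · refine ⟨_, u, h1, b', ?_⟩
      rw [e, max_eq_left h.le, lev_yes (map_zero ω), lev_yes h,
        Multiset.filter_cons_of_pos (p := fun v => ω v = 0) _ h, ← AddMonoidAlgebra.one_def, bin_cons, mul_left_comm]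
    · refine ⟨_, -AddMonoidAlgebra.single v 1 * u, (isUnit_single v isUnit_one).neg.mul h1, b', ?_⟩
      rw [e, max_eq_right h.le, lev_no ((map_zero ω).trans_ne h.ne), lev_yes rfl,
        Multiset.filter_cons_of_neg (p := fun v => ω v = 0) _ h.ne', zero_sub, mul_assoc]

end Facesy

open Facesy

theorem p_Proj : S_Proj := by
  intro k U
  induction U using Finset.induction_on with
  | empty => exact ⟨1, 0, one_pos, by simp⟩
  | insert w U hw ih =>
    obtain ⟨n, f, hn, h⟩ := ih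
    let P : (Fin k → ℤ) → Fin k → ℤ := fun a => (n : ℤ) • a - ∑ u ∈ U, (u ⬝ᵥ a) • f u
    obtain ⟨c, b, hc, hb, hcb⟩ : ∃ (c : ℕ) (b : Fin k → ℤ), 0 < c ∧ (∀ u ∈ U, u ⬝ᵥ b = 0) ∧
        ∀ a, c * (w ⬝ᵥ P a) = (w ⬝ᵥ P a) * (w ⬝ᵥ b) := by
      by_cases e : ∀ a, w ⬝ᵥ P a = 0
      · exact ⟨1, 0, one_pos, by simp, by simp [e]⟩
      · obtain ⟨a, e⟩ := not_forall.1 e
        refine ⟨(w ⬝ᵥ P a).natAbs * (w ⬝ᵥ P a).natAbs, (w ⬝ᵥ P a) • P a,
          Nat.mul_pos (Int.natAbs_pos.2 e) (Int.natAbs_pos.2 e), fun u hu => ?_, fun a' => ?_⟩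
        · rw [dotProduct_smul, h a u hu, smul_zero]
        · rw [Int.natAbs_mul_self, dotProduct_smul, smul_eq_mul, mul_comm]
    refine ⟨c * n, fun u => if u = w then (n : ℤ) • b else (c : ℤ) • f u - (w ⬝ᵥ f u) • b,
      Nat.mul_pos hc hn, fun a u' hu' => ?_⟩
    have e : ((c * n : ℕ) : ℤ) • a - ∑ u ∈ insert w U, (u ⬝ᵥ a) •
        (if u = w then (n : ℤ) • b else (c : ℤ) • f u - (w ⬝ᵥ f u) • b) =
        (c : ℤ) • P a - (w ⬝ᵥ P a) • b := by
      rw [Finset.sum_insert hw, if_pos rfl,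
        Finset.sum_congr rfl fun u hu => by rw [if_neg (by rintro rfl; exact hw hu)]]
      simp only [P, smul_sub, Finset.sum_sub_distrib, dotProduct_sub, dotProduct_sum,
        dotProduct_smul, Finset.smul_sum, sub_smul, Finset.sum_smul, smul_smul, smul_eq_mul,
        Nat.cast_mul, mul_comm]
      abel
    rw [e, dotProduct_sub, dotProduct_smul, dotProduct_smul, smul_eq_mul, smul_eq_mul]
    rcases Finset.mem_insert.1 hu' with rfl | hu'
    · rw [hcb, sub_self]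
    · rw [h a u' hu', hb u' hu', mul_zero, mul_zero, sub_zero]

theorem p_FaceDiv : S_FaceDiv := by
  classical
  intro k A V ω m hV hd h1 h2
  obtain ⟨m', u, k1, k2, k3⟩ := top_bin ω V
  obtain ⟨A', e⟩ := hd
  obtain ⟨m₂, b1, b2⟩ := exists_top ω (right_ne_zero_of_mul (e ▸ bin_ne_zero hV : A * A' ≠ 0))
  have e1 := lev_mul ω h1 b1
  have e2 := bd_mul ω h1 b1
  rw [← e] at e1 e2
  obtain rfl := top_unique e2 (e1 ▸ mul_ne_zero h2 b2) k2 (k3 ▸ mul_ne_zero k1.ne_zero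
    (bin_ne_zero fun v hv => hV v (Multiset.mem_of_mem_filter hv)))
  exact ⟨_, Multiset.filter_le _ _, fun v hv => (Multiset.mem_filter.1 hv).2,
    k1.dvd_mul_left.1 ⟨_, k3.symm.trans e1⟩⟩

theorem p_Small (hP : S_Proj) (hF : S_FaceDiv) : S_Small := by
  rintro k A U hU ⟨V, hV, hd⟩
  obtain ⟨n, f, hn, h⟩ := hP k U
  induction hN : V.card using Nat.strong_induction_on generalizing V with | _ N ih =>
  by_cases e : ∀ v ∈ V, n • v = ∑ u ∈ U, (v ⬝ᵥ f u) • u
  · refine ⟨V.map (n • ·), fun v hv => ?_, hd.trans ?_⟩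
    · obtain ⟨w, hw, rfl⟩ := Multiset.mem_map.1 hv
      refine ⟨smul_ne_zero hn.ne' (hV w hw), ?_⟩
      rw [e w hw]
      exact AddSubgroup.sum_mem _ fun u hu =>
        AddSubgroup.zsmul_mem _ (AddSubgroup.subset_closure hu) _
    · rw [bin, bin, Multiset.map_map]
      refine Multiset.prod_dvd_prod_of_dvd _ _ fun v _ => ?_
      have := one_sub_dvd_one_sub_pow (AddMonoidAlgebra.single v 1 : LQ ℚ k) n
      rwa [AddMonoidAlgebra.single_pow, one_pow] at this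
  · push Not at e
    obtain ⟨v, hv, e⟩ := e
    obtain ⟨i, e⟩ := Function.ne_iff.1 e
    let a : Fin k → ℤ := (n : ℤ) • Pi.single i 1 - ∑ u ∈ U, (u ⬝ᵥ Pi.single i 1) • f u
    have h0 : ∀ u ∈ A.coeff.support, dotR a u = 0 := fun u hu => by
      rw [dotR_apply, h _ u (hU hu), Int.cast_zero]
    obtain ⟨V', k1, k2, k3⟩ := hF k A V (dotR a) 0 hV hd (fun u hu => (h0 u hu).le)
      (by rw [lev_self h0]; exact ne_zero_of_dvd_ne_zero (bin_ne_zero hV) hd)
    rw [lev_self h0] at k3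
    refine ih _ (hN ▸ Multiset.card_lt_card (k1.lt_of_ne ?_)) V'
      (fun v hv => hV v (Multiset.mem_of_le k1 hv)) k3 rfl
    rintro rfl
    have := k2 v hv
    rw [dotR_apply, Int.cast_eq_zero] at this
    simp only [a, dotProduct_sub, dotProduct_smul, dotProduct_sum, dotProduct_single, mul_one,
      smul_eq_mul, sub_eq_zero] at this
    exact e (by simpa [mul_comm] using this)

end Pool.Agent.P.MP_aef18a_nt.TW
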