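import Pool.Agent.P.MP_aef18a_nt.TW.Iface

namespace Pool.Agent.P.MP_aef18a_nt.TW

open Polynomial Matrix LaurentPolynomial OW

namespace Fejy

lemma tele {R : Type} [CommRing R] (c Y : R) (n : ℕ) :
    (1 - Y) * ∑ i ∈ Finset.range n, (1 - (i : R) * c) * Y ^ i =
      1 - c * ∑ i ∈ Finset.range n, Y ^ (i + 1) - (1 - (n : R) * c) * Y ^ n := by
  induction n with
  | zero => simp
  | succ n ih =>
    rw [Finset.sum_range_succ, Finset.sum_range_succ, mul_add, ih]
    push_cast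
    ring

/-- the averaging operator -/
noncomputable def AA (B s : ℕ) : PowerSeries ℂ :=
  PowerSeries.C (B : ℂ)⁻¹ * ∑ i ∈ Finset.range B, PowerSeries.X ^ (s * (i + 1))

/-- the Fejer kernel -/
noncomputable def KK (B s : ℕ) : PowerSeries ℂ :=
  ∑ i ∈ Finset.range B, PowerSeries.C (1 - (i : ℂ) * (B : ℂ)⁻¹) * PowerSeries.X ^ (s * i)

lemma fac (B s : ℕ) (hB : 0 < B) : (1 - PowerSeries.X ^ s) * KK B s = 1 - AA B s := by
  have h := tele (PowerSeries.C (B : ℂ)⁻¹) (PowerSeries.X ^ s : PowerSeries ℂ) B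
  have h1 : (B : PowerSeries ℂ) * PowerSeries.C (B : ℂ)⁻¹ = 1 := by
    rw [← map_natCast (PowerSeries.C (R := ℂ)), ← map_mul,
      mul_inv_cancel₀ (Nat.cast_ne_zero.2 hB.ne'), map_one]
  rw [h1, sub_self, zero_mul, sub_zero] at h
  simpa only [KK, AA, map_sub, map_one, map_mul, map_natCast, pow_mul] using h

lemma ker_one (B s j : ℕ) (U : PowerSeries ℂ) (η : ℝ)
    (h : ∀ i ≤ (B - 1) * s, ‖PowerSeries.coeff (j - i) U‖ ≤ η) :
    ‖PowerSeries.coeff j (KK B s * U)‖ ≤ B * η := by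
  have h0 : 0 ≤ η := (norm_nonneg _).trans (h 0 (Nat.zero_le _))
  rw [KK, Finset.sum_mul, map_sum]
  refine (norm_sum_le _ _).trans ?_
  refine (Finset.sum_le_card_nsmul _ _ η fun i hi => ?_).trans (by simp)
  have hi' := Finset.mem_range.1 hi
  rw [mul_assoc, PowerSeries.coeff_C_mul, norm_mul, PowerSeries.coeff_X_pow_mul']
  have h1 : ‖1 - (i : ℂ) * (B : ℂ)⁻¹‖ ≤ 1 := by
    have hB : (0 : ℝ) < B := Nat.cast_pos.2 (by omega)
    have e : 1 - (i : ℂ) * (B : ℂ)⁻¹ = ((1 - (i : ℝ) / B : ℝ) : ℂ) := by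
      push_cast
      rw [div_eq_mul_inv]
    have h2 : (i : ℝ) / B ≤ 1 := (div_le_one hB).2 (Nat.cast_le.2 hi'.le)
    have h3 : 0 ≤ (i : ℝ) / B := by positivity
    rw [e, Complex.norm_real, Real.norm_eq_abs, abs_le]
    constructor <;> linarith
  have h2 : ‖if s * i ≤ j then PowerSeries.coeff (j - s * i) U else 0‖ ≤ η := by
    split_ifs
    · exact h _ (by rw [mul_comm]; exact Nat.mul_le_mul_right _ (by omega))
    · simpa using h0
  calc _ ≤ 1 * η := mul_le_mul h1 h2 (norm_nonneg _) zero_le_one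
    _ = η := one_mul η

lemma ker (B : ℕ) (η : ℝ) (U : PowerSeries ℂ) (σ : Multiset ℕ) : ∀ j,
    (∀ i ≤ (B - 1) * σ.sum, ‖PowerSeries.coeff (j - i) U‖ ≤ η) →
    ‖PowerSeries.coeff j ((σ.map (KK B)).prod * U)‖ ≤ (B : ℝ) ^ σ.card * η := by
  induction σ using Multiset.induction_on with
  | empty => intro j h; simpa using h 0 (Nat.zero_le _)
  | cons s σ ih =>
    intro j h
    rw [Multiset.map_cons, Multiset.prod_cons, mul_assoc, Multiset.card_cons, pow_succ',
      mul_assoc]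
    refine ker_one B s j _ _ fun i hi => ih _ fun i' hi' => ?_
    rw [Nat.sub_sub]
    refine h _ ?_
    rw [Multiset.sum_cons, mul_add]
    omega

lemma avg_le (B s i : ℕ) (U : PowerSeries ℂ) : ‖PowerSeries.coeff i (AA B s * U)‖ ≤
    (B : ℝ)⁻¹ * ∑ l ∈ Finset.range B,
      ‖if s * (l + 1) ≤ i then PowerSeries.coeff (i - s * (l + 1)) U else 0‖ := by
  rw [AA, mul_assoc, PowerSeries.coeff_C_mul, norm_mul, norm_inv, Complex.norm_natCast,
    Finset.sum_mul, map_sum]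
  refine mul_le_mul_of_nonneg_left ((norm_sum_le _ _).trans (le_of_eq ?_)) (by positivity)
  exact Finset.sum_congr rfl fun l _ => by rw [PowerSeries.coeff_X_pow_mul']

lemma avg_max (B s i : ℕ) (hB : 0 < B) (U : PowerSeries ℂ) (c : ℝ)
    (h : ∀ i' ≤ i, ‖PowerSeries.coeff i' U‖ ≤ c) : ‖PowerSeries.coeff i (AA B s * U)‖ ≤ c := by
  have h0 : 0 ≤ c := (norm_nonneg _).trans (h 0 (Nat.zero_le _))
  have hB' : (0 : ℝ) < B := Nat.cast_pos.2 hB
  refine (avg_le B s i U).trans ?_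
  rw [inv_mul_le_iff₀ hB']
  refine (Finset.sum_le_card_nsmul _ _ c fun l _ => ?_).trans (by simp)
  split_ifs
  · exact h _ (Nat.sub_le _ _)
  · simpa using h0

lemma avg_ser (B s i j : ℕ) (hB : 0 < B) (hs : 1 ≤ s) (hi : i ≤ j) (e : ℕ → ℂ) (E : ℝ)
    (hE : 0 ≤ E) (h : ∑ i ∈ Finset.Icc 1 j, ‖e i‖ ^ 2 ≤ E ^ 2) :
    ‖PowerSeries.coeff i (AA B s * ser e)‖ ≤ E / √(B : ℝ) := by
  have hB' : (0 : ℝ) < B := Nat.cast_pos.2 hB
  have hq : 0 < √(B : ℝ) := Real.sqrt_pos.2 hB'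
  refine (avg_le B s i _).trans ?_
  set a : ℕ → ℝ := fun l =>
    ‖if s * (l + 1) ≤ i then PowerSeries.coeff (i - s * (l + 1)) (ser e) else 0‖ with ha
  have h1 : ∑ l ∈ Finset.range B, a l ^ 2 ≤ E ^ 2 := by
    have h2 : ∑ l ∈ Finset.range B, a l ^ 2 =
        ∑ l ∈ (Finset.range B).filter fun l => s * (l + 1) < i, ‖e (i - s * (l + 1))‖ ^ 2 := by
      rw [Finset.sum_filter]
      refine Finset.sum_congr rfl fun l _ => ?_
      simp only [ha, ser, PowerSeries.coeff_mk]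
      by_cases h3 : s * (l + 1) < i
      · rw [if_pos h3.le, if_neg (by omega), if_pos h3]
      · rw [if_neg h3]
        split_ifs with h4 h5
        · simp
        · omega
        · simp
    rw [h2, ← Finset.sum_image (f := fun m => ‖e m‖ ^ 2) (g := fun l => i - s * (l + 1))]
    · refine le_trans (Finset.sum_le_sum_of_subset_of_nonneg (fun m hm => ?_)
        fun _ _ _ => by positivity) h
      obtain ⟨l, hl, rfl⟩ := Finset.mem_image.1 hm
      have := (Finset.mem_filter.1 hl).2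
      rw [Finset.mem_Icc]
      omega
    · intro l hl l' hl' hll
      have h3 := (Finset.mem_filter.1 hl).2
      have h4 := (Finset.mem_filter.1 hl').2
      have h5 : s * (l + 1) = s * (l' + 1) := by simp only at hll; omega
      have := Nat.eq_of_mul_eq_mul_left hs h5
      omega
  have h2 : (∑ l ∈ Finset.range B, a l) ^ 2 ≤ (√(B : ℝ) * E) ^ 2 := by
    refine sq_sum_le_card_mul_sum_sq.trans ?_
    rw [Finset.card_range, mul_pow, Real.sq_sqrt hB'.le]
    exact mul_le_mul_of_nonneg_left h1 hB'.le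
  have h3 := (abs_le_of_sq_le_sq' h2 (by positivity)).2
  rw [inv_mul_le_iff₀ hB']
  refine h3.trans (le_of_eq ?_)
  rw [← mul_div_assoc, eq_div_iff hq.ne', mul_right_comm, Real.mul_self_sqrt hB'.le]

lemma rest (B j : ℕ) (hB : 0 < B) (U : PowerSeries ℂ) (ε : ℝ)
    (h : ∀ s, 1 ≤ s → ∀ i ≤ j, ‖PowerSeries.coeff i (AA B s * U)‖ ≤ ε) (σ : Multiset ℕ) :
    (∀ s ∈ σ, 1 ≤ s) → ∀ i ≤ j,
    ‖PowerSeries.coeff i (((σ.map fun s => 1 - AA B s).prod - 1) * U)‖ ≤ (2 ^ σ.card - 1) * ε := by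
  induction σ using Multiset.induction_on with
  | empty => intro _ i _; simp
  | cons s σ ih =>
    intro hσ i hi
    have ih' := ih fun t ht => hσ t (Multiset.mem_cons_of_mem ht)
    set G := (σ.map fun s => 1 - AA B s).prod
    have e : ((1 - AA B s) * G - 1) * U = (G - 1) * U - AA B s * U - AA B s * ((G - 1) * U) := by
      ring
    rw [Multiset.map_cons, Multiset.prod_cons, e, map_sub, map_sub, Multiset.card_cons]
    have h1 := ih' i hi
    have h2 := h s (hσ s (Multiset.mem_cons_self _ _)) i hi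
    have h3 := avg_max B s i hB _ _ fun i' hi' => ih' i' (hi'.trans hi)
    refine (norm_sub_le _ _).trans ((add_le_add (norm_sub_le _ _) h3).trans ?_)
    rw [pow_succ]
    linarith

lemma coe_Ph (σ : Multiset ℕ) : (((Ph σ).map (Int.castRingHom ℂ) : ℂ[X]) : PowerSeries ℂ) =
    (σ.map fun s => 1 - PowerSeries.X ^ s).prod := by
  induction σ using Multiset.induction_on with
  | empty => simp [Ph]
  | cons s σ ih =>
    rw [Multiset.map_cons, Multiset.prod_cons, ← ih]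
    simp [Ph]

end Fejy

open Fejy in
theorem p_Fej : S_Fej := by
  intro σ B j e η E hσ hB hE hj hη hsum
  have h1 := ker B η _ σ j hη
  have h2 := rest B j hB (ser e) _ (fun s hs i hi => avg_ser B s i j hB hs hi e E hE hsum) σ hσ j
    le_rfl
  have h3 : (σ.map fun s => 1 - AA B s).prod =
      (σ.map (KK B)).prod * (((Ph σ).map (Int.castRingHom ℂ) : ℂ[X]) : PowerSeries ℂ) := by
    rw [coe_Ph, ← Multiset.prod_map_mul]
    exact congrArg _ (Multiset.map_congr rfl fun s _ => by rw [mul_comm, fac B s hB])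
  have h4 : e j = PowerSeries.coeff j (ser e) := by
    rw [ser, PowerSeries.coeff_mk, if_neg (by omega)]
  rw [h3, sub_mul, one_mul, map_sub, mul_assoc, ← h4] at h2
  have h5 : 0 ≤ E / √(B : ℝ) := by positivity
  have h6 := norm_le_norm_add_norm_sub' (e j) (PowerSeries.coeff j ((σ.map (KK B)).prod *
    ((((Ph σ).map (Int.castRingHom ℂ) : ℂ[X]) : PowerSeries ℂ) * ser e)))
  rw [norm_sub_rev] at h6
  linarith

theorem p_Raw (h : S_Fej) : S_Raw := by
  intro L M N u σ e hL hc hσ hu hT hsum j hj hjM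
  have hu16 : 16 ≤ u := le_trans (Nat.pow_le_pow_right (by norm_num : 0 < 4) hL) hu
  have hB : 0 < u ^ 40 := by positivity
  have hD : 0 < 2 * u ^ 40 * L := by positivity
  set q := j / (2 * u ^ 40 * L) with hq
  set σ' := σ.filter (· < q + 1) with hσ'
  have hle : σ' ≤ σ := Multiset.filter_le _ _
  have hc' : σ'.card ≤ L := (Multiset.card_le_card hle).trans hc
  have hs : σ'.sum ≤ L * q := by
    refine (Multiset.sum_le_card_nsmul σ' q fun s hs => ?_).trans ?_
    · have := (Multiset.mem_filter.1 hs).2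
      omega
    · exact Nat.mul_le_mul_right _ hc'
  have h1 : 2 * (u ^ 40 * σ'.sum) ≤ j := by
    calc _ ≤ 2 * (u ^ 40 * (L * q)) := by gcongr
      _ = 2 * u ^ 40 * L * q := by ring
      _ ≤ j := Nat.mul_div_le _ _
  have h2 : j < 2 * u ^ 40 * L * (q + 1) := Nat.lt_mul_div_succ _ hD
  have h3 : ∀ s ∈ σ - σ', q + 1 ≤ s := fun s hs => by
    have h0 : σ - σ' = σ.filter fun a => ¬ a < q + 1 :=
      tsub_eq_of_eq_add_rev (Multiset.filter_add_not _ σ).symm
    rw [h0] at hs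
    exact not_lt.1 (Multiset.mem_filter.1 hs).2
  have hu0 : (0 : ℝ) < u := Nat.cast_pos.2 (by omega)
  have hu1 : (16 : ℝ) ≤ u := by exact_mod_cast hu16
  have h4 := h σ' (u ^ 40) j e (N * (9 / (u : ℝ) ^ (80 * L))) (2 * N * (u : ℝ) ^ 2)
    (fun s hs => hσ s (Multiset.mem_of_le hle hs)) hB (by positivity) (by omega)
    (fun i hi => by
      have h5 : (u ^ 40 - 1) * σ'.sum + σ'.sum = u ^ 40 * σ'.sum := by
        rw [← Nat.succ_mul, Nat.succ_eq_add_one, Nat.sub_add_cancel hB]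
      exact hT σ' hle (q + 1) (j - i) (by omega) (by omega) h3 (by omega))
    (by
      refine le_trans (Finset.sum_le_sum_of_subset_of_nonneg (Finset.Icc_subset_Icc_right hjM.le)
        fun _ _ _ => by positivity) (hsum.trans (le_of_eq (by ring))))
  have h5 : √((u ^ 40 : ℕ) : ℝ) = (u : ℝ) ^ 20 := by
    rw [Real.sqrt_eq_iff_mul_self_eq (by positivity) (by positivity)]
    push_cast
    ring
  rw [h5] at h4
  have h6 : ((u ^ 40 : ℕ) : ℝ) ^ σ'.card * (N * (9 / (u : ℝ) ^ (80 * L))) ≤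
      N / (u : ℝ) ^ 16 / 2 := by
    have h7 : ((u ^ 40 : ℕ) : ℝ) ^ σ'.card * (u : ℝ) ^ 18 ≤ (u : ℝ) ^ (80 * L) := by
      push_cast
      rw [← pow_mul, ← pow_add]
      exact pow_le_pow_right₀ (by linarith) (by omega)
    have h8 : (18 : ℝ) ≤ (u : ℝ) ^ 2 := by nlinarith
    rw [← mul_div_assoc, ← mul_div_assoc, div_div, div_le_div_iff₀ (by positivity) (by positivity)]
    calc _ = N * (((u ^ 40 : ℕ) : ℝ) ^ σ'.card * ((u : ℝ) ^ 16 * 18)) := by ring
      _ ≤ N * (((u ^ 40 : ℕ) : ℝ) ^ σ'.card * ((u : ℝ) ^ 16 * (u : ℝ) ^ 2)) := by gcongr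
      _ = N * (((u ^ 40 : ℕ) : ℝ) ^ σ'.card * (u : ℝ) ^ 18) := by ring
      _ ≤ _ := by gcongr
  have h7 : (2 : ℝ) ^ σ'.card * (2 * N * (u : ℝ) ^ 2 / (u : ℝ) ^ 20) ≤ N / (u : ℝ) ^ 16 / 2 := by
    have h8 : (2 : ℝ) ^ σ'.card ≤ u := by
      have : 2 ^ σ'.card ≤ u := ((Nat.pow_le_pow_right (by norm_num) hc').trans
        (Nat.pow_le_pow_left (by norm_num) L)).trans hu
      exact_mod_cast this
    rw [← mul_div_assoc, div_div, div_le_div_iff₀ (by positivity) (by positivity)]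
    calc _ = N * (u : ℝ) ^ 18 * (2 ^ σ'.card * 4) := by ring
      _ ≤ N * (u : ℝ) ^ 18 * (u * u) := by gcongr; linarith
      _ = _ := by ring
  linarith

end Pool.Agent.P.MP_aef18a_nt.TW
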