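import Pool.Agent.P.MP_aef18a_nt.TW.Iface

namespace Pool.Agent.P.MP_aef18a_nt.TW

open Polynomial Matrix LaurentPolynomial OW

namespace FejEvy

section Gen

variable {𝕜 : Type} [CommRing 𝕜] {k : ℕ}

lemma bd_mono {ω : (Fin k → ℤ) → ℝ} {m m' : ℝ} {A : LQ 𝕜 k} (hA : Bd ω m A) (h : m ≤ m') :
    Bd ω m' A := fun u hu => (hA u hu).trans h

lemma bd_sum {ι : Type} {ω : (Fin k → ℤ) → ℝ} {m : ℝ} (s : Finset ι) {A : ι → LQ 𝕜 k}
    (h : ∀ i ∈ s, Bd ω m (A i)) : Bd ω m (∑ i ∈ s, A i) := by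
  classical
  induction s using Finset.induction_on with
  | empty => intro u hu; simp at hu
  | insert i s hi ih =>
    rw [Finset.sum_insert hi]
    exact bd_add (h i (Finset.mem_insert_self _ _))
      (ih fun j hj => h j (Finset.mem_insert_of_mem hj))

lemma bd_one (ω : (Fin k → ℤ) →+ ℝ) : Bd ω 0 (1 : LQ 𝕜 k) := by
  intro z hz
  rw [AddMonoidAlgebra.one_def] at hz
  simp [mem_single hz]

lemma bd_pow (ω : (Fin k → ℤ) →+ ℝ) {m : ℝ} {A : LQ 𝕜 k} (hA : Bd ω m A) (n : ℕ) :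
    Bd ω (n * m) (A ^ n) := by
  induction n with
  | zero => simpa using bd_one ω
  | succ n ih =>
    rw [pow_succ, Nat.cast_succ, add_one_mul]
    exact bd_mul ω ih hA

end Gen

lemma tel (z c : ℂ) (n : ℕ) : (1 - z) * ∑ i ∈ Finset.range n, (c - i) * z ^ i =
    c - (c - n) * z ^ n - z * ∑ i ∈ Finset.range n, z ^ i := by
  induction n with
  | zero => simp
  | succ n ih =>
    rw [Finset.sum_range_succ, Finset.sum_range_succ, mul_add, ih]
    push_cast
    ring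

lemma val_one {B : ℕ} (hB : 0 < B) :
    (B : ℝ) ≤ 2 * ‖∑ i ∈ Finset.range B, (1 - (i : ℂ) / B) * (1 : ℂ) ^ i‖ := by
  have hb : (B : ℂ) ≠ 0 := by exact_mod_cast hB.ne'
  have h1 : ∀ n : ℕ, ∑ i ∈ Finset.range n, (1 - (i : ℂ) / B) * (1 : ℂ) ^ i =
      n - n * (n - 1) / (2 * B) := by
    intro n
    induction n with
    | zero => simp
    | succ n ih =>
      rw [Finset.sum_range_succ, ih]
      push_cast
      field_simp
      ring
  have h2 : (B : ℂ) - B * (B - 1) / (2 * B) = (((B + 1) / 2 : ℝ) : ℂ) := by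
    push_cast
    field_simp
    ring
  rw [h1, h2, Complex.norm_real, Real.norm_of_nonneg (by positivity)]
  linarith

lemma val_ne {B : ℕ} (hB : 0 < B) {z : ℂ} (hz : z ^ B = 1) (h1 : z ≠ 1) :
    1 ≤ 2 * ‖∑ i ∈ Finset.range B, (1 - (i : ℂ) / B) * z ^ i‖ := by
  have hb : (B : ℂ) ≠ 0 := by exact_mod_cast hB.ne'
  have hn : ‖z‖ = 1 := Complex.norm_eq_one_of_pow_eq_one hz hB.ne'
  have h2 := tel z B B
  rw [geom_sum_eq h1, hz] at h2
  have h3 : (1 - z) * ∑ i ∈ Finset.range B, (1 - (i : ℂ) / B) * z ^ i = 1 := by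
    have e : ∑ i ∈ Finset.range B, ((B : ℂ) - i) * z ^ i =
        B * ∑ i ∈ Finset.range B, (1 - (i : ℂ) / B) * z ^ i := by
      rw [Finset.mul_sum]
      refine Finset.sum_congr rfl fun i _ => ?_
      field_simp
    rw [e] at h2
    apply mul_left_cancel₀ hb
    linear_combination h2
  have h4 : ‖1 - z‖ ≤ 2 := (norm_sub_le _ _).trans (by rw [norm_one, hn]; norm_num)
  have h5 := congrArg norm h3
  rw [norm_mul, norm_one] at h5
  nlinarith [norm_nonneg (∑ i ∈ Finset.range B, (1 - (i : ℂ) / B) * z ^ i)]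

variable {k : ℕ}

lemma evc_fej (b : Fin k → ℤ) (t₀ : ℂˣ) (B : ℕ) (v : Fin k → ℤ) :
    evc b t₀ (fej B v) =
      ∑ i ∈ Finset.range B, (1 - (i : ℂ) / B) * ((t₀ : ℂ) ^ (v ⬝ᵥ b)) ^ i := by
  rw [fej, map_sum]
  refine Finset.sum_congr rfl fun i _ => ?_
  rw [evc_single, smul_dotProduct, smul_eq_mul, mul_comm (i : ℤ), _root_.zpow_mul, zpow_natCast]
  rfl

lemma prod_lb (b : Fin k → ℤ) (t₀ : ℂˣ) {B : ℕ} (hB : 0 < B) (ht : (t₀ : ℂ) ^ B = 1)
    (V : Multiset (Fin k → ℤ)) :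
    (B : ℝ) ^ ord b t₀ V ≤ 2 ^ V.card * ‖evc b t₀ (V.map (fej B)).prod‖ := by
  classical
  induction V using Multiset.induction_on with
  | empty => simp [ord]
  | cons v V ih =>
    have hz : ((t₀ : ℂ) ^ (v ⬝ᵥ b)) ^ B = 1 := by
      rw [← zpow_natCast, ← _root_.zpow_mul, mul_comm, _root_.zpow_mul, zpow_natCast, ht,
        _root_.one_zpow]
    rw [Multiset.map_cons, Multiset.prod_cons, map_mul, norm_mul, Multiset.card_cons, pow_succ,
      evc_fej]
    have hn := norm_nonneg (evc b t₀ (V.map (fej B)).prod)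
    by_cases e : (t₀ : ℂ) ^ (v ⬝ᵥ b) = 1
    · have : ord b t₀ (v ::ₘ V) = ord b t₀ V + 1 := by
        unfold ord
        rw [Multiset.filter_cons_of_pos _ (by exact e), Multiset.card_cons]
      rw [this, pow_succ, e]
      calc _ ≤ (2 ^ V.card * ‖evc b t₀ (V.map (fej B)).prod‖) *
            (2 * ‖∑ i ∈ Finset.range B, (1 - (i : ℂ) / B) * (1 : ℂ) ^ i‖) :=
            mul_le_mul ih (val_one hB) (by positivity) (by positivity)
        _ = _ := by ring
    · have : ord b t₀ (v ::ₘ V) = ord b t₀ V := by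
        unfold ord
        rw [Multiset.filter_cons_of_neg _ (by exact e)]
      rw [this]
      calc _ = (B : ℝ) ^ ord b t₀ V * 1 := (mul_one _).symm
        _ ≤ (2 ^ V.card * ‖evc b t₀ (V.map (fej B)).prod‖) *
            (2 * ‖∑ i ∈ Finset.range B, (1 - (i : ℂ) / B) * ((t₀ : ℂ) ^ (v ⬝ᵥ b)) ^ i‖) :=
            mul_le_mul ih (val_ne hB hz e) (by positivity) (by positivity)
        _ = _ := by ring

lemma bd_fej (ω : (Fin k → ℤ) →+ ℝ) {p : ℝ} (hp : 0 ≤ p) (B : ℕ) {v : Fin k → ℤ} (h : ω v ≤ p) :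
    Bd ω (B * p) (fej B v) := by
  refine bd_sum _ fun i hi => bd_mono (bd_single _ _) ?_
  rw [map_zsmul, zsmul_eq_mul, Int.cast_natCast]
  have : (i : ℝ) ≤ B := by exact_mod_cast (Finset.mem_range.1 hi).le
  calc (i : ℝ) * ω v ≤ i * p := mul_le_mul_of_nonneg_left h (by positivity)
    _ ≤ B * p := mul_le_mul_of_nonneg_right this hp

lemma bd_prod (ω : (Fin k → ℤ) →+ ℝ) {p : ℝ} (hp : 0 ≤ p) (B : ℕ) {V : Multiset (Fin k → ℤ)}
    (h : ∀ v ∈ V, ω v ≤ p) : Bd ω (V.card * (B * p)) (V.map (fej B)).prod := by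
  induction V using Multiset.induction_on with
  | empty => simpa using bd_one ω
  | cons v V ih =>
    rw [Multiset.map_cons, Multiset.prod_cons, Multiset.card_cons, Nat.cast_succ, add_one_mul,
      add_comm]
    exact bd_mul ω (bd_fej ω hp B (h v (Multiset.mem_cons_self _ _)))
      (ih fun v' hv' => h v' (Multiset.mem_cons_of_mem hv'))

lemma bd_MM {F : LQ ℤ k} {D : FDat k} (R : ℕ) (h : Fc F D) (θ : Fin k → ℝ)
    (ω : (Fin k → ℤ) →+ ℝ) {p : ℝ} (hp : 0 ≤ p) (hF : ∀ u ∈ F.coeff.support, ω u ≤ p)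
    (hT : ∀ u ∈ D.T.coeff.support, ω u ≤ p) (hV : ∀ v ∈ D.V, ω v ≤ p) :
    Bd ω ((R * (D.V.card + 2) + 3) * p) (MM F D θ R) := by
  have h1 : Bd ω p (dv (fun i => (θ i : ℂ)) (toC F)) := fun u hu =>
    hF u (by simpa [support_toC] using support_dv _ _ hu)
  have hW : Bd ω p D.W := fun u hu => hF u (h.mem.2 (Or.inr hu))
  have h2 : Bd ω (R * (D.V.card + 2) * p) (TR D R) := by
    refine bd_sum _ fun i hi => bd_mono (bd_mul ω (bd_pow ω (bd_neg (bd_mul ω hW hT)) i)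
      (bd_pow ω (bd_smul D.d (bd_bin ω hp hV)) (R - 1 - i))) ?_
    have a1 : (i : ℝ) ≤ R := by exact_mod_cast (Finset.mem_range.1 hi).le
    have a2 : ((R - 1 - i : ℕ) : ℝ) ≤ R := by exact_mod_cast (by omega : R - 1 - i ≤ R)
    have a3 : 0 ≤ (D.V.card : ℝ) * p := by positivity
    nlinarith [mul_le_mul_of_nonneg_right a1 hp, mul_le_mul_of_nonneg_right a2 a3]
  have h3 : Bd ω (p + R * (D.V.card + 2) * p) (toC (D.T * TR D R)) := fun u hu =>
    bd_mul ω (show Bd ω p D.T from hT) h2 u (by rwa [support_toC] at hu)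
  refine bd_mono (bd_mul ω (bd_pow ω h1 2) h3) (le_of_eq ?_)
  push_cast
  ring

end FejEvy

open FejEvy

theorem p_FejEv : S_FejEv := by
  intro k V b t₀ m₀ B R hB hm ht
  have ht' : (t₀ : ℂ) ^ B = 1 := by
    obtain ⟨c, rfl⟩ := hm
    rw [pow_mul, ht, one_pow]
  refine ⟨?_, fun ω p hp hV => ?_⟩
  · rw [HH, map_pow, norm_pow, pow_mul, pow_mul, ← mul_pow]
    exact pow_le_pow_left₀ (by positivity) (prod_lb b t₀ hB ht' V) R
  · refine bd_mono (bd_pow ω (bd_prod ω hp B hV) R) (le_of_eq ?_)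
    ring

theorem p_MMb : S_MMb := by
  intro k F D R h
  refine ⟨fun θ ω p hp hF hT hV => bd_MM R h θ ω hp hF hT hV, fun θ u hu => ?_,
    fun i i' => dd i (toC F) * dd i' (toC F) * toC (D.T * TR D R), fun θ => ?_⟩
  · have := bd_MM R h θ (dotR D.a₀) le_rfl
      (fun u hu => by rw [dotR_apply]; exact_mod_cast h.ng u hu)
      (fun u hu => by rw [dotR_apply]; exact_mod_cast (h.T0 u hu).le)
      (fun u hu => by rw [dotR_apply]; exact_mod_cast (h.V0 u hu).le) u hu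
    rw [mul_zero, dotR_apply] at this
    exact_mod_cast this
  · rw [MM, sq, dv, Finset.sum_mul_sum, Finset.sum_mul]
    refine Finset.sum_congr rfl fun i _ => ?_
    rw [Finset.sum_mul]
    refine Finset.sum_congr rfl fun i' _ => ?_
    rw [smul_mul_smul_comm, smul_mul_assoc]

end Pool.Agent.P.MP_aef18a_nt.TW
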