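import Pool.Agent.P.MP_aef18a_nt.TW.Iface
import Pool.Agent.P.MP_aef18a_nt.OW.Fin2

namespace Pool.Agent.P.MP_aef18a_nt.TW

open Polynomial Matrix LaurentPolynomial OW

namespace Fin3y

open Finx

/-- a tempered top face with a margin -/
def Pm {n : ℕ} (κ : ℝ) (F : LP n) (a : Fin n → ℤ) : Prop :=
  ∃ (m : ℝ) (ω : (Fin n → ℤ) →+ ℝ), Bd ω m F ∧ Tp (lev ω m F) ∧
    Mg κ F (lev ω m F).coeff.support a

lemma lev_pb {n : ℕ} {M : Matrix (Fin n) (Fin n) ℤ}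
    (hM : Function.Injective fun u : Fin n → ℤ => u ᵥ* M) {ω ω' : (Fin n → ℤ) → ℝ}
    (h : ∀ u, ω' (u ᵥ* M) = ω u) (m : ℝ) (F : LP n) :
    lev ω' m (pb M F) = pb M (lev ω m F) := by
  have key : ∀ (A : LP n) u, (pb M A).coeff (u ᵥ* M) = A.coeff u := fun A u => by
    rw [pb_apply, AddMonoidAlgebra.coeff_mapDomain]
    exact Finsupp.mapDomain_apply hM _ u
  ext z
  by_cases e : ∃ u, u ᵥ* M = z
  · obtain ⟨u, rfl⟩ := e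
    rw [lev_coeff, key, key, lev_coeff, h]
  · have k : ∀ A : LP n, (pb M A).coeff z = 0 := fun A => by
      by_contra a
      obtain ⟨u, -, hu⟩ := mem_pb (Finsupp.mem_support_iff.2 a)
      exact e ⟨u, hu⟩
    rw [lev_coeff, k, k, ite_self]

lemma pm_pb {n m₀ : ℕ} (hm : 0 < m₀) {κ : ℝ} {F : LP n} {M E : Matrix (Fin n) (Fin n) ℤ}
    (h : M * E = (m₀ : ℤ) • 1) {b : Fin n → ℤ} (hp : Pm κ F (M *ᵥ b)) : Pm κ (pb M F) b := by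
  obtain ⟨m, ω, h1, ⟨V, hV, hd⟩, h3⟩ := hp
  have hM := vecMul_inj hm h
  let ω' : (Fin n → ℤ) →+ ℝ := AddMonoidHom.mk' (fun z => ω (z ᵥ* E) / m₀) fun u v => by
    rw [add_vecMul, map_add, add_div]
  have hω : ∀ u, ω' (u ᵥ* M) = ω u := fun u => by
    have : (m₀ : ℝ) ≠ 0 := by exact_mod_cast hm.ne'
    change ω ((u ᵥ* M) ᵥ* E) / m₀ = ω u
    rw [vecMul_vecMul, h, vecMul_smul, vecMul_one, map_zsmul, zsmul_eq_mul, Int.cast_natCast,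
      mul_div_cancel_left₀ _ this]
  refine ⟨m, ω', fun z hz => ?_, ?_, fun z hz hn => ?_⟩
  · obtain ⟨u, hu, rfl⟩ := mem_pb hz
    rw [hω]
    exact h1 u hu
  · rw [lev_pb hM hω]
    refine ⟨V.map (· ᵥ* M), fun v hv e => ?_, ?_⟩
    · obtain ⟨w, hw, rfl⟩ := Multiset.mem_map.1 hv
      exact hV w hw (hM (by simpa using e))
    · rw [← map_bin (pb M) (· ᵥ* M) fun v => pb_single M v 1]
      exact map_dvd _ hd
  · obtain ⟨u, hu, rfl⟩ := mem_pb hz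
    obtain ⟨u', hu', k⟩ := h3 u hu fun a =>
      hn (mem_lev.2 ⟨hz, by rw [hω]; exact (mem_lev.1 a).2⟩)
    refine ⟨u' ᵥ* M, mem_mapDomain_injOn hM.injOn hu', fun z' hz' z'' hz'' => ?_⟩
    obtain ⟨v, hv, rfl⟩ := mem_pb hz'
    obtain ⟨w, hw, rfl⟩ := mem_pb hz''
    rw [← sub_vecMul, ← sub_vecMul, ← dotProduct_mulVec, ← dotProduct_mulVec]
    exact k v hv w hw

lemma off_sep3 (hZ : S_CZ) (hA : S_AbsF) (hM : S_Mt2) (hN : S_Norm2) {n m₀ : ℕ} {F : LP n}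
    {κ : ℝ} (hF : Irreducible F) (hc : NonCol F) (hκ : 0 < κ) (hm : 0 < m₀) (hK : Kp F m₀)
    {M E : Matrix (Fin n) (Fin n) ℤ} (h : M * E = (m₀ : ℤ) • 1) :
    Off fun b => E *ᵥ (M *ᵥ b) = (m₀ : ℤ) • b →
      (∀ v : Fin n → ℤ, (m₀ : ℤ) ∣ v ⬝ᵥ (M *ᵥ b) → ∃ v', v' ᵥ* E = v) →
      Pm κ F (M *ᵥ b) → Sep (pb M F) b := by
  classical
  have := ufd ℚ n
  have hinj := vecMul_inj hm h
  have hG : pb M F ≠ 0 := mapDomain_ne_zero hinj.injOn hF.ne_zero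
  set G := pb M F with hGd
  let Fs := (UniqueFactorizationMonoid.factors G).toFinset
  have hFs : ∀ P ∈ Fs, Irreducible P ∧ P ∣ G := fun P hP =>
    ⟨UniqueFactorizationMonoid.irreducible_of_factor P (Multiset.mem_toFinset.mp hP),
      UniqueFactorizationMonoid.dvd_of_mem_factors (Multiset.mem_toFinset.mp hP)⟩
  have hex : ∀ P, Irreducible P → P ∣ G → ∃ P₀ ∈ Fs, Associated P P₀ := fun P hP hd => by
    obtain ⟨P₀, h1, h2⟩ := UniqueFactorizationMonoid.exists_mem_factors_of_dvd hG hP hd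
    exact ⟨P₀, Multiset.mem_toFinset.mpr h1, h2⟩
  obtain ⟨i, -, -⟩ := hc.exists_ne
  have h1 : Off fun b => ∀ P ∈ Fs, Pm κ G b →
      Abs P b → spec b P ≠ 0 ∧ HasL (spec b P) ∧ ¬ TwoL (spec b P) :=
    Off.finset Fs fun P hP => by
      obtain ⟨C, hC, hC'⟩ := hM n G P hG (hFs P hP).2
      obtain ⟨Γ, h0, hΓ⟩ := hN n P (κ / C) (hFs P hP).1
        (hA n m₀ F P M E hm hF hc hK h (hFs P hP).1 (hFs P hP).2).1 (div_pos hκ hC)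
      refine ⟨Γ, h0, fun b hb ⟨m, ω, k1, k2, k3⟩ ha => ?_⟩
      obtain ⟨U, l1, l2⟩ := hC' κ m b ω hκ k1 k2 k3
      exact hΓ b U hb l1 l2 ha
  have h2 : Off fun b => ∀ P ∈ Fs, ∀ Q ∈ Fs, ¬ P ∣ Q → b ≠ 0 →
      ∀ α : ℂˣ, NonTors α → evc b α P = 0 → evc b α Q ≠ 0 :=
    Off.finset Fs fun P hP => Off.finset Fs fun Q _ => by
      by_cases hd : P ∣ Q
      · exact ⟨∅, by simp, fun _ _ hn => absurd hd hn⟩
      · obtain ⟨Γ, h0, hΓ⟩ := hZ n P (hFs P hP).1 Q hd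
        exact ⟨Γ, h0, fun b hb _ hb0 α hα e1 e2 =>
          hα (hΓ b hb0 hb α (by rwa [ev_eq_evc]) (by rwa [ev_eq_evc]))⟩
  refine ((h1.and h2).and (off_ne i)).mono ?_
  rintro b ⟨⟨k1, k2⟩, k3⟩ e1 e2 hmg
  refine ⟨fun P hP hd => ?_, fun P Q hP hQ hPd hQd hn α hα f1 f2 => ?_⟩
  · obtain ⟨P₀, hP₀, ha⟩ := hex P hP hd
    obtain ⟨l1, l2, l3⟩ := k1 P₀ hP₀ (pm_pb hm h hmg)
      ((hA n m₀ F P₀ M E hm hF hc hK h (hFs P₀ hP₀).1 (hFs P₀ hP₀).2).2 _ b e1 e2)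
    have hb : Associated (spec b P) (spec b P₀) := ha.map (spk b)
    exact ⟨hb.ne_zero_iff.mpr l1, hasL_dvd hb.symm.dvd l2, fun t => l3 (twoL_dvd hb.dvd t)⟩
  · obtain ⟨P₀, hP₀, ha⟩ := hex P hP hPd
    obtain ⟨Q₀, hQ₀, hb⟩ := hex Q hQ hQd
    refine k2 P₀ hP₀ Q₀ hQ₀ (fun t => hn (ha.dvd.trans (t.trans hb.symm.dvd))) k3 α hα ?_ ?_
    · rw [← evL_spec] at f1 ⊢
      exact evL_dvd (ha.map (spk b)).dvd f1
    · rw [← evL_spec] at f2 ⊢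
      exact evL_dvd (hb.map (spk b)).dvd f2

end Fin3y

open Finx Fin3y in
theorem p_Fin3 (hZ : S_CZ) (hK : S_K) (hL : S_Lat) (hA : S_AbsF) (hM : S_Mt2) (hN : S_Norm2)
    (hS : S_StarIrr) : S_Fin3 := by
  classical
  intro n F hF hc
  obtain ⟨m₀, hm, hk⟩ := hK n F hF hc
  obtain ⟨Ω, hΩ, hΩ'⟩ := hL n m₀ hm
  refine ⟨Ω.image Prod.fst, fun M hM' => ?_, fun κ hκ => ?_⟩
  · obtain ⟨q, hq, rfl⟩ := Finset.mem_image.mp hM'
    exact (det_ne hm (hΩ q hq)).1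
  obtain ⟨Γ, h0, hΓ⟩ := Off.finset Ω fun q hq =>
    off_push hm (hΩ q hq) (off_sep3 hZ hA hM hN hF hc hκ hm hk (hΩ q hq))
  refine ⟨Γ, h0, fun a m ω k1 k2 k3 => ?_⟩
  by_cases hb : ∃ c ∈ Γ, c ⬝ᵥ a = 0
  · exact Or.inl hb
  · push Not at hb
    obtain ⟨q, hq, b, rfl, e1, e2⟩ := hΩ' a
    exact Or.inr (alt_of_sep hS (Finset.mem_image_of_mem _ hq)
      (hΓ _ hb q hq b e1 e1 e2 ⟨m, ω, k1, k2, k3⟩))

end Pool.Agent.P.MP_aef18a_nt.TW
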