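import Pool.Agent.P.MP_aef18a_nt.TW.Iface
import Pool.Agent.P.MP_aef18a_nt.OW.SetupP

namespace Pool.Agent.P.MP_aef18a_nt.TW

open Polynomial Matrix LaurentPolynomial OW

namespace Firsty

lemma c0 {φ T : ℤ[X]} {d : ℤ} {σ : Multiset ℕ} (hd : d ≠ 0) (hσ : ∀ s ∈ σ, 1 ≤ s)
    (h : φ * T = Polynomial.C d * Ph σ) : φ.coeff 0 ≠ 0 := fun e => by
  have := congrArg (fun P : ℤ[X] => P.coeff 0) h
  simp only [mul_coeff_zero, e, zero_mul, Ph_coeff_zero hσ, coeff_C_zero, mul_one] at this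
  exact hd this.symm

lemma hi_eq (x : ℕ → ℂ) (M : ℕ) {j : ℕ} (hj : 1 ≤ j) :
    hi x M j = ∑ d ∈ j.divisors.filter (fun d => ¬ d < M), mu x d := by
  rw [hi, ← sum_mu x hj, ← Finset.sum_filter_add_sum_filter_not _ (· < M), add_sub_cancel_left]

lemma ps_cyc {S St : ℤ[X]} {c : Multiset ℕ} (hS : S ≠ 0)
    (e : S = St * (c.map fun l => cyclotomic l ℤ).prod) (hC : S_CycMu) {d : ℕ}
    (h : ∀ l ∈ c, 0 < l ∧ l < d) : mu (ps S) d = mu (ps St) d := by
  have : ps S = fun j => ps St j + ps (c.map fun l => cyclotomic l ℤ).prod j :=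
    funext fun j => by rw [← ps_mul (e ▸ hS), ← e]
  rw [this, mu_add, hC c d h, add_zero]

end Firsty

open Firsty

theorem p_PhiMu (hN : S_NS) (hC : S_CycMu) : S_PhiMu := by
  intro φ T d σ hd hσ h
  have h0 := c0 hd hσ h
  have φ0 : φ ≠ 0 := fun e => h0 (by rw [e, Polynomial.coeff_zero])
  have t0 : φ.natTrailingDegree = 0 := natTrailingDegree_eq_zero.2 (Or.inr h0)
  have rr : φ.reverse.reverse = φ := by
    rw [Polynomial.reverse, reverse_natDegree, t0, Nat.sub_zero, Polynomial.reverse, reflect_reflect]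
  have lc : φ.reverse.leadingCoeff = φ.coeff 0 := by
    rw [reverse_leadingCoeff, trailingCoeff, t0]
  have f0 : φ.reverse ≠ 0 := mt reverse_eq_zero.1 φ0
  have rt : ∀ β : ℂ, aeval β φ.reverse = 0 → ∃ s ∈ σ, β ^ s = 1 := by
    intro β hβ
    have b0 : β ≠ 0 := by
      rintro rfl
      rw [← coeff_zero_eq_aeval_zero', coeff_zero_reverse] at hβ
      exact φ0 (by simpa using hβ)
    let _ := invertibleOfNonzero b0
    have k := (eval₂_reverse_eq_zero_iff (algebraMap ℤ ℂ) β φ.reverse).2 hβ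
    rw [rr, invOf_eq_inv, ← aeval_def] at k
    have k2 := congrArg (aeval β⁻¹) h
    rw [map_mul, k, zero_mul, map_mul, aeval_C, aeval_Ph, eq_comm, mul_eq_zero] at k2
    obtain ⟨s, hs, e⟩ := Multiset.mem_map.1 (Multiset.prod_eq_zero_iff.1
      (k2.resolve_left (by simpa using hd)))
    exact ⟨s, hs, by rw [← inv_eq_one, ← inv_pow, ← sub_eq_zero.1 e]⟩
  refine ⟨ps φ.reverse, by simpa only [rv, rr, lc] using (hN.1 _ f0).2, fun m hm => ?_⟩
  obtain ⟨St, c, e, hc, hSt⟩ := SetupPx.split _ _ rfl f0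
  have a0 : St.aroots ℂ = 0 := Multiset.eq_zero_of_forall_notMem fun β hβ => by
    have k := (mem_aroots.1 hβ).2
    obtain ⟨s, hs, e1⟩ := rt β (by rw [e, map_mul, k, zero_mul])
    exact hSt β k ⟨s, hσ s hs, e1⟩
  rw [ps_cyc f0 e hC fun l hl => ⟨hc l hl, ?_⟩]
  · simp [mu, ps, a0]
  have hp := Complex.isPrimitiveRoot_exp l (hc l hl).ne'
  have k := hp.isRoot_cyclotomic (hc l hl)
  rw [IsRoot.def, ← map_cyclotomic l (algebraMap ℤ ℂ), eval_map_algebraMap] at k
  obtain ⟨s, hs, e1⟩ := rt _ (aeval_eq_zero_of_dvd_aeval_eq_zero (e ▸ dvd_mul_of_dvd_right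
    (Multiset.dvd_prod (Multiset.mem_map_of_mem _ hl)) _) k)
  exact ((Nat.le_of_dvd (hσ s hs) (hp.dvd_of_pow_eq_one s e1)).trans
    (Multiset.le_sum_of_mem hs)).trans_lt hm

theorem p_First (hN : S_NS) (hC : S_CycMu) (h0 : S_H0) (hP : S_PhiMu) : S_First := by
  intro L g w M σ d S φ T W St c h e hc wM Mg
  have wg := h.wg
  have gN := h.gN
  have S0 : S ≠ 0 := fun e => h.c0 (by rw [e, Polynomial.coeff_zero])
  have gap := X_pow_dvd_iff.1 h.gap
  have f0 := c0 h.d0 h.pos h.mul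
  have lc : S.leadingCoeff = φ.coeff 0 := by
    have := gap 0 (by omega)
    rwa [coeff_sub, coeff_zero_reverse, sub_eq_zero] at this
  have P0 : Polynomial.C d * Ph σ ≠ 0 := mul_ne_zero (Polynomial.C_ne_zero.2 h.d0) fun e =>
    one_ne_zero ((Ph_coeff_zero h.pos).symm.trans (by rw [e, Polynomial.coeff_zero]))
  have dφ : ∀ j, g ≤ j → φ.coeff j = 0 := fun j hj => by
    refine coeff_eq_zero_of_natDegree_lt ?_
    have a := natDegree_le_of_dvd ⟨T, h.mul.symm⟩ P0
    have b := natDegree_C_mul_le d (Ph σ)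
    have c := natDegree_Ph σ
    have := h.sum
    omega
  have hN0 : (S.reverse - φ).coeff S.natDegree ≠ 0 := by
    rw [coeff_sub, dφ _ gN, sub_zero, coeff_reverse, revAt_le le_rfl, Nat.sub_self]
    exact h.c0
  have ex : ∃ j, (S.reverse - φ).coeff j ≠ 0 := ⟨_, hN0⟩
  classical
  have s1 := Nat.find_spec ex
  have s2 : ∀ j < Nat.find ex, (S.reverse - φ).coeff j = 0 := fun j hj =>
    not_not.1 (Nat.find_min ex hj)
  have s3 : Nat.find ex ≤ S.natDegree := Nat.find_min' ex hN0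
  generalize Nat.find ex = j₁ at s1 s2 s3
  have s4 : g ≤ j₁ := not_lt.1 fun a => s1 (gap _ a)
  obtain ⟨x, hx, mx⟩ := hP φ T d σ h.d0 h.pos h.mul
  obtain ⟨u0, hu⟩ := hN.1 S S0
  have fc : (φ.coeff 0 : ℂ) ≠ 0 := by exact_mod_cast f0
  generalize hv : PowerSeries.C ((φ.coeff 0 : ℂ)⁻¹) *
    ((φ.map (Int.castRingHom ℂ) : ℂ[X]) : PowerSeries ℂ) = v at hx
  have v0 : PowerSeries.coeff 0 v = 1 := by
    rw [← hv, PowerSeries.coeff_C_mul, Polynomial.coeff_coe, coeff_map, eq_intCast,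
      inv_mul_cancel₀ fc]
  have df : ∀ j, PowerSeries.coeff j (rv S) - PowerSeries.coeff j v =
      (φ.coeff 0 : ℂ)⁻¹ * ((S.reverse - φ).coeff j : ℤ) := fun j => by
    rw [← hv, rv, lc, PowerSeries.coeff_C_mul, PowerSeries.coeff_C_mul, Polynomial.coeff_coe,
      Polynomial.coeff_coe, coeff_map, coeff_map, eq_intCast, eq_intCast, coeff_sub, Int.cast_sub,
      mul_sub]
  have lo : ∀ j, 1 ≤ j → j < j₁ → ps S j = x j := fun j a b =>
    (hN.2.2.2 _ _ _ _ (j₁ - 1) u0 v0 hu hx).2 (fun i hi => sub_eq_zero.1 (by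
      rw [df, s2 i (by omega), Int.cast_zero, mul_zero])) j a (by omega)
  have top := h0 _ _ _ _ j₁ u0 v0 hu hx (by omega) lo
  have key : ∀ m, M ≤ m → mu (ps St) m = mu (fun j => ps S j - x j) m := fun m hm => by
    have := h.sum
    rw [mu_sub, mx m (by omega), sub_zero,
      ps_cyc S0 e hC fun l hl => ⟨(hc l hl).1, (hc l hl).2.trans_le hm⟩]
  have k0 : ∀ m, M ≤ m → m < j₁ → mu (ps St) m = 0 := fun m a b => by
    rw [key m a]
    exact Finset.sum_eq_zero fun i hi => mul_eq_zero_of_right _ (sub_eq_zero.2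
      (lo i (Nat.pos_of_mem_divisors hi) ((Nat.divisor_le hi).trans_lt b)))
  have jm : j₁ ∈ j₁.divisors := Nat.mem_divisors_self _ (by omega)
  refine ⟨j₁, -(S.reverse - φ).coeff j₁, s4, s3, neg_ne_zero.2 s1, ?_, fun j a b => ?_, ?_⟩
  · rw [coeff_sub, dφ _ s4, sub_zero, coeff_reverse] at s1 ⊢
    rw [Int.natAbs_neg]
    exact (Finset.single_le_sum (f := fun i => (S.coeff i).natAbs) (fun _ _ => Nat.zero_le _)
      (mem_support_iff.2 s1)).trans h.len
  · rw [hi_eq _ _ a]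
    exact Finset.sum_eq_zero fun m hm => k0 m (not_lt.1 (Finset.mem_filter.1 hm).2)
      ((Nat.divisor_le (Finset.mem_filter.1 hm).1).trans_lt b)
  · rw [hi_eq _ _ (by omega), Finset.sum_eq_single_of_mem j₁
      (Finset.mem_filter.2 ⟨jm, by omega⟩) fun m hm ne => k0 m
        (not_lt.1 (Finset.mem_filter.1 hm).2)
        ((Nat.divisor_le (Finset.mem_filter.1 hm).1).lt_of_ne ne), key _ (by omega), mu,
      Finset.sum_eq_single_of_mem j₁ jm fun i hi ne => by
        rw [lo i (Nat.pos_of_mem_divisors hi) ((Nat.divisor_le hi).lt_of_ne ne), sub_self,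
          mul_zero], Nat.div_self (by omega), top, df, lc]
    simp only [ArithmeticFunction.moebius_apply_one, Int.cast_one, Int.cast_neg]
    field_simp

end Pool.Agent.P.MP_aef18a_nt.TW
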