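import Pool.Agent.P.MP_aef18a_nt.TW.Iface
import Pool.Agent.P.MP_aef18a_nt.OW.FlatAll

namespace Pool.Agent.P.MP_aef18a_nt.TW

open Polynomial Matrix LaurentPolynomial OW

namespace FlatAll2y

lemma sub_sg {k : ℕ} (a : Fin k → ℤ) (V : Multiset (Fin k → ℤ)) (h : ∀ v ∈ V, v ⬝ᵥ a < 0) :
    ∀ τ ≤ sg V a, ∃ z : Fin k → ℤ, (∀ i, |z i| ≤ ((V.map nu).sum : ℕ)) ∧
      ((τ.sum : ℕ) : ℤ) = -(z ⬝ᵥ a) := by
  induction V using Multiset.induction_on with
  | empty =>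
    intro τ hτ
    obtain rfl : τ = 0 := by simpa [sg] using hτ
    exact ⟨0, by simp, by simp⟩
  | cons v V ih =>
    intro τ hτ
    rw [sg, Multiset.map_cons, ← Multiset.erase_le_iff_le_cons] at hτ
    obtain ⟨z, h1, h2⟩ := ih (fun u hu => h u (Multiset.mem_cons_of_mem hu)) _ hτ
    rw [Multiset.map_cons, Multiset.sum_cons, Nat.cast_add]
    by_cases e : (-(v ⬝ᵥ a)).toNat ∈ τ
    · refine ⟨v + z, fun i => (abs_add_le _ _).trans (add_le_add (le_nu v i) (h1 i)), ?_⟩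
      have := h v (Multiset.mem_cons_self _ _)
      rw [← Multiset.cons_erase e, Multiset.sum_cons, Nat.cast_add, h2, add_dotProduct,
        Int.toNat_of_nonneg (by omega)]
      ring
    · rw [Multiset.erase_of_notMem e] at h2
      exact ⟨z, fun i => (h1 i).trans (by omega), h2⟩

lemma size {c b q m r x x₁ : ℕ} (hx₁ : ∀ x, x₁ ≤ x → x ^ (4 * m + 3) ≤ 2 ^ x) (h1 : x₁ ^ 2 ≤ x)
    (h2 : c ≤ x ^ q) (h3 : q ^ 2 ≤ x) (h4 : b ≤ x ^ m) (h5 : r ≤ 2 * x.sqrt) (h6 : 1 ≤ x) :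
    c * b ^ r ≤ 2 ^ x := by
  have a1 := Nat.le_sqrt'.2 h1
  have a2 := Nat.le_sqrt'.2 h3
  have a3 := (Nat.lt_succ_sqrt' x).le
  have a4 := Nat.sqrt_le x
  have a5 := Nat.sqrt_pos.2 h6
  generalize x.sqrt = t at *
  have a6 : (t + 1) ^ (4 * m + 2) ≤ 2 ^ t := by
    have := hx₁ (t + 1) (by omega)
    rw [pow_succ, pow_succ 2] at this
    exact Nat.le_of_mul_le_mul_right ((Nat.mul_le_mul_left _ (by omega)).trans this) two_pos
  calc c * b ^ r ≤ x ^ t * (x ^ m) ^ (2 * t) :=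
        Nat.mul_le_mul (h2.trans (Nat.pow_le_pow_right h6 a2)) ((Nat.pow_le_pow_left h4 r).trans
          (Nat.pow_le_pow_right (Nat.one_le_pow _ _ h6) h5))
    _ = x ^ ((2 * m + 1) * t) := by ring
    _ ≤ ((t + 1) ^ 2) ^ ((2 * m + 1) * t) := Nat.pow_le_pow_left a3 _
    _ = ((t + 1) ^ (4 * m + 2)) ^ t := by
      rw [← pow_mul, ← pow_mul]
      congr 1
      ring
    _ ≤ (2 ^ t) ^ t := Nat.pow_le_pow_left a6 _
    _ ≤ 2 ^ x := by
      rw [← pow_mul]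
      exact Nat.pow_le_pow_right two_pos a4

end FlatAll2y

open FlatAllx FlatAll2y in
theorem p_FlatAll2 (hK : S_Link) (hL : S_TLink) (hF : S_TFlat) : S_FlatAll2 := by
  intro k F D J A h0 hD hA
  obtain ⟨D1, -, d1⟩ := exists_bx F
  obtain ⟨D2, -, d2⟩ := exists_bx (D.W * D.T)
  obtain ⟨x₁, hx₁⟩ := big (4 * (1 + (22 * A + 2) * LL F D) + 3)
  obtain ⟨De, hDe⟩ : ∃ De, De = D2 + (D.V.map nu).sum := ⟨_, rfl⟩
  refine ⟨x₁ ^ 2 + (J + 1) ^ 2 + (12 * k + 13) ^ 2 + 3 * LL F D ^ 2 + k * D1 + De + 3,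
    fun a g w x hG hw hI hx p1 p2 hS σ' hσ R n s₀ j r1 r2 r3 r4 r5 r6 α α' t1 t2 q1 q2 => ?_⟩
  obtain ⟨W, m1, m2, m3⟩ := hL k F D a J g w h0 hD hG hw hI
  obtain ⟨-, -, -, -, -, k3, k4, -⟩ := hK k F a _ 1 h0 hG.gp hI
  have hN : g ≤ x * nu a := by
    obtain ⟨u, hu, e⟩ := k3 0 (mem_support_iff.2 m1.c0)
    have := (neg_le_abs _).trans (abs_dot_le (d1 u hu) (le_nu a))
    rw [← e, Nat.cast_zero, sub_zero] at this
    exact m1.gN.trans ((show _ ≤ k * D1 * nu a by exact_mod_cast this).trans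
      (Nat.mul_le_mul_right _ (by omega)))
  have hR : R + n + 1 ≤ x := by
    rcases Nat.lt_or_ge (R + n) 2 with e | e
    · omega
    · nlinarith
  have hSt := hS (x ^ 11) j (by rwa [← pow_mul]) <|
    calc j ≤ x * (x * nu a) := r3.trans (Nat.mul_le_mul (by omega) hN)
      _ = nu a * x ^ 2 := by ring
      _ ≤ _ := Nat.mul_le_mul_left _ (Nat.pow_le_pow_right (by omega) (by omega))
  have root : ∀ β : ℂˣ, aeval (β : ℂ) (SS F a) = 0 → evc a β (toQ F) = 0 := fun β h =>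
    (mul_eq_zero.1 ((k4 β).symm.trans h)).resolve_left (pow_ne_zero _ β.ne_zero)
  refine hF _ J g w _ σ' _ _ _ _ W (BB a De j) R n s₀ j x m1 m2 hσ r4 (by omega) hR r2 r3 r5 r6
    (mem_BB.2 ⟨0, 0, by simp, by simp, by simp⟩) (mono_BB a De j) (fun i e he => ?_) ?_ α α' q1 q2
    fun E z hE => ?_
  · obtain ⟨v, t, h1, h2, rfl⟩ := mem_BB.1 he
    have key : ∀ (u : Fin k → ℤ) (y : ℤ), (∀ l, |u l| ≤ De) → y = -(u ⬝ᵥ a) →
        v ⬝ᵥ a + t * j - y ∈ BB a De j (i + 1) := fun u y hu e => by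
      refine mem_BB.2 ⟨v + u, t, fun l => (abs_add_le _ _).trans ?_, h2.trans ?_, ?_⟩
      · push_cast
        linarith [h1 l, hu l]
      · push_cast
        linarith
      · rw [e, add_dotProduct]
        ring
    refine ⟨mem_BB.2 ⟨v, t + 1, fun l => (h1 l).trans ?_, (abs_add_le t 1).trans ?_, by ring⟩,
      fun τ hτ => ?_, fun l hl => ?_⟩
    · push_cast
      linarith [De.cast_nonneg (α := ℤ)]
    · push_cast
      rw [abs_one]
      linarith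
    · obtain ⟨u, hu, e⟩ := sub_sg a D.V hG.Vneg τ hτ
      exact key u _ (fun l => (hu l).trans (by omega)) e
    · obtain ⟨u, hu, e⟩ := m3 l hl
      exact key u _ (fun l => (d2 u hu l).trans (by omega)) e
  · refine size (q := 12 * k + 13) hx₁ (by omega) ?_ (by omega) ?_ ?_ (by omega)
    · rw [mul_comm, pow_succ x (12 * k + 12)]
      exact Nat.mul_le_mul (card_BB a j (by omega) (by omega)) (by omega)
    · rw [pow_add, pow_one, pow_mul]
      refine Nat.mul_le_mul (by omega) (Nat.pow_le_pow_left ?_ _)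
      have b1 : g ≤ x * x ^ (22 * A) := hN.trans (Nat.mul_le_mul_left _ p2)
      have b2 : 1 ≤ x * x ^ (22 * A) := Nat.mul_pos (by omega) (Nat.pow_pos (by omega))
      have b3 : 2 * (x * x ^ (22 * A)) ≤ x * (x * x ^ (22 * A)) :=
        Nat.mul_le_mul_right _ (by omega)
      rw [show x ^ (22 * A + 2) = x * (x * x ^ (22 * A)) by ring]
      omega
    · have b1 : J + 1 ≤ x.sqrt := Nat.le_sqrt'.2 (by omega)
      have b2 : R + n ≤ x.sqrt := Nat.le_sqrt'.2 r1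
      omega
  · have hE' : ∀ e ∈ E, ∃ (v : Fin k → ℤ) (t : ℤ), (∀ i, |v i| ≤ (x ^ 11 : ℕ)) ∧
        |t| ≤ (x ^ 11 : ℕ) ∧ (e : ℤ) = v ⬝ᵥ a + t * j := fun e he => by
      obtain ⟨v, t, h1, h2, h3⟩ := mem_BB.1 (hE e he)
      have b1 : De * x ^ 10 ≤ x ^ 11 := by
        rw [pow_succ' x 10]
        exact Nat.mul_le_mul_right _ (by omega)
      have b2 : x ^ 10 ≤ x ^ 11 := Nat.pow_le_pow_right (by omega) (by omega)
      exact ⟨v, t, fun i => (h1 i).trans (by exact_mod_cast b1), h2.trans (by exact_mod_cast b2),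
        h3⟩
    exact ⟨hSt α α' t1 t2 (root α q1) (root α' q2) E z hE',
      hSt α' α t2 t1 (root α' q2) (root α q1) E z hE'⟩

end Pool.Agent.P.MP_aef18a_nt.TW
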