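import Pool.Agent.P.MP_aef18a_nt.TW.Iface
import Pool.Agent.P.MP_aef18a_nt.OW.Flat

namespace Pool.Agent.P.MP_aef18a_nt.TW

open Polynomial Matrix LaurentPolynomial OW

namespace GFlaty

lemma sum_log (ζ : ℂ) (ψ : ℂ → ℂ) (D : ℕ) {t : ℝ} (ht : t ≤ 1 / 4) (R : Multiset ℂ)
    (h : ∀ β ∈ R, ‖ζ * ψ β‖ ≤ t) :
    |(R.map fun β => Real.log ‖(1 - ζ * ψ β) ^ D‖).sum +
      D * (ζ * (R.map ψ).sum).re| ≤ R.card * (D * t ^ 2) := by
  induction R using Multiset.induction_on with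
  | empty => simp
  | cons β R ih =>
    have h1 := ih fun γ hγ => h γ (Multiset.mem_cons_of_mem hγ)
    have h2 := h β (Multiset.mem_cons_self _ _)
    have h3 := (Flatx.log_est (h2.trans ht)).trans (pow_le_pow_left₀ (norm_nonneg _) h2 2)
    have h4 : |(D : ℝ) * (Real.log ‖1 - ζ * ψ β‖ + (ζ * ψ β).re)| ≤ D * t ^ 2 := by
      rw [abs_mul, Nat.abs_cast]
      exact mul_le_mul_of_nonneg_left h3 (Nat.cast_nonneg D)
    rw [Multiset.map_cons, Multiset.map_cons, Multiset.sum_cons, Multiset.sum_cons,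
      Multiset.card_cons, mul_add ζ, Complex.add_re, norm_pow, Real.log_pow]
    push_cast
    rw [abs_le] at h1 h4 ⊢
    constructor <;> linarith [h1.1, h1.2, h4.1, h4.2]

lemma mean_log (ζ : ℂ) (ψ : ℂ → ℂ) (D : ℕ) {t : ℝ} (ht : t ≤ 1 / 4) {α : ℂ}
    (hα : IsIntegral ℚ α) (h : ∀ β : ℂ, aeval β (minpoly ℚ α) = 0 → ‖ζ * ψ β‖ ≤ t) :
    |(((minpoly ℚ α).aroots ℂ).map fun β => Real.log ‖(1 - ζ * ψ β) ^ D‖).sum /
      (minpoly ℚ α).natDegree + D * (ζ * tauf α ψ).re| ≤ D * t ^ 2 := by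
  have d0 : (0 : ℝ) < (minpoly ℚ α).natDegree := by exact_mod_cast minpoly.natDegree_pos hα
  have h1 := sum_log ζ ψ D ht _ fun β hβ => h β (mem_aroots.1 hβ).2
  rw [card_aroots] at h1
  rw [tauf, sf, ← mul_div_assoc, Complex.div_natCast_re, ← mul_div_assoc, ← add_div, abs_div,
    abs_of_pos d0, div_le_iff₀ d0]
  linarith

lemma norm_sum_le' (ψ : ℂ → ℂ) {C : ℝ} (R : Multiset ℂ) (h : ∀ β ∈ R, ‖ψ β‖ ≤ C) :
    ‖(R.map ψ).sum‖ ≤ R.card * C := by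
  induction R using Multiset.induction_on with
  | empty => simp
  | cons β R ih =>
    have h1 := ih fun γ hγ => h γ (Multiset.mem_cons_of_mem hγ)
    have h2 := h β (Multiset.mem_cons_self _ _)
    rw [Multiset.map_cons, Multiset.sum_cons, Multiset.card_cons]
    push_cast
    linarith [norm_add_le (ψ β) (R.map ψ).sum]

lemma norm_tauf_le {α : ℂ} (hα : IsIntegral ℚ α) {ψ : ℂ → ℂ} {C : ℝ}
    (h : ∀ β : ℂ, aeval β (minpoly ℚ α) = 0 → ‖ψ β‖ ≤ C) : ‖tauf α ψ‖ ≤ C := by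
  have d0 : (0 : ℝ) < (minpoly ℚ α).natDegree := by exact_mod_cast minpoly.natDegree_pos hα
  have h1 := norm_sum_le' ψ _ fun β hβ => h β (mem_aroots.1 hβ).2
  rw [card_aroots] at h1
  rw [tauf, norm_div, Complex.norm_natCast, div_le_iff₀ d0, mul_comm]
  exact h1

/-- the exponents below `Nw` that lie in `B i` -/
def Fil (Nw : ℕ) (B : ℕ → Finset ℤ) (i : ℕ) : Finset ℕ :=
  (Finset.range Nw).filter fun e : ℕ => (e : ℤ) ∈ B i

lemma ext0 {Nw i j : ℕ} {B : ℕ → Finset ℤ} (hB : Monotone B) (hij : i ≤ j) (lam : ℕ → ℂ) :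
    ∃ lam' : ℕ → ℂ, ∀ β : ℂ, ∑ e ∈ Fil Nw B i, lam e * β ^ e = ∑ e ∈ Fil Nw B j, lam' e * β ^ e := by
  classical
  refine ⟨fun e => if e ∈ Fil Nw B i then lam e else 0, fun β => ?_⟩
  have hs : Fil Nw B i ⊆ Fil Nw B j := Finset.monotone_filter_right _ fun e _ h => hB hij h
  rw [← Finset.sum_subset hs fun e _ he => by simp [he]]
  exact Finset.sum_congr rfl fun e he => by simp [he]

lemma pw {Nw x : ℕ} {S : ℤ[X]} {B : ℕ → Finset ℤ} {ψ : ℂ → ℂ}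
    (hc : ∀ i e : ℕ, e < Nw → (e : ℤ) ∈ B i → ∃ lam : ℕ → ℂ, ∀ β : ℂ, aeval β S = 0 →
      ψ β * β ^ e = ∑ e' ∈ Fil Nw B (i + x), lam e' * β ^ e')
    {i e : ℕ} (he : e ∈ Fil Nw B i) (t : ℕ) :
    ∃ lam : ℕ → ℂ, ∀ β : ℂ, aeval β S = 0 →
      ψ β ^ t * β ^ e = ∑ e' ∈ Fil Nw B (i + t * x), lam e' * β ^ e' := by
  classical
  induction t with
  | zero =>
    refine ⟨fun e' => if e' = e then 1 else 0, fun β _ => ?_⟩
    simp only [zero_mul, add_zero, pow_zero, one_mul, ite_mul]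
    rw [Finset.sum_ite_eq', if_pos he]
  | succ t ih =>
    obtain ⟨lam, hl⟩ := ih
    have b : ∀ e' ∈ Fil Nw B (i + t * x), ∃ mu : ℕ → ℂ, ∀ β : ℂ, aeval β S = 0 →
        ψ β * β ^ e' = ∑ e'' ∈ Fil Nw B (i + (t + 1) * x), mu e'' * β ^ e'' := by
      intro e' he'
      obtain ⟨a, b⟩ := Finset.mem_filter.1 he'
      have := hc _ e' (Finset.mem_range.1 a) b
      rwa [add_assoc, ← add_one_mul] at this
    choose! mu hm using b
    refine ⟨fun e'' => ∑ e' ∈ Fil Nw B (i + t * x), lam e' * mu e' e'', fun β hβ => ?_⟩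
    rw [pow_succ', mul_assoc, hl β hβ, Finset.mul_sum]
    simp only [Finset.sum_mul]
    rw [Finset.sum_comm]
    refine Finset.sum_congr rfl fun e' he' => ?_
    simp only [mul_assoc, ← Finset.mul_sum]
    rw [← hm e' he' β hβ]
    ring

lemma closure {Nw x : ℕ} {S : ℤ[X]} {B : ℕ → Finset ℤ} {ψ : ℂ → ℂ} (hB : Monotone B)
    (hc : ∀ i e : ℕ, e < Nw → (e : ℤ) ∈ B i → ∃ lam : ℕ → ℂ, ∀ β : ℂ, aeval β S = 0 →
      ψ β * β ^ e = ∑ e' ∈ Fil Nw B (i + x), lam e' * β ^ e')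
    {i e : ℕ} (he : e ∈ Fil Nw B i) (D : ℕ) (ζ : ℂ) :
    ∃ Λ : ℕ → ℂ, ∀ β : ℂ, aeval β S = 0 → (1 - ζ * ψ β) ^ D * β ^ e =
      ∑ e' ∈ Fil Nw B (i + D * x), Λ e' * β ^ e' := by
  have b : ∀ j ∈ Finset.range (D + 1), ∃ lam : ℕ → ℂ, ∀ β : ℂ, aeval β S = 0 →
      ψ β ^ j * β ^ e = ∑ e' ∈ Fil Nw B (i + D * x), lam e' * β ^ e' := by
    intro j hj
    have hj' : j ≤ D := Nat.lt_succ_iff.1 (Finset.mem_range.1 hj)
    obtain ⟨lam, hl⟩ := pw hc he j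
    obtain ⟨lam', hl'⟩ := ext0 (Nw := Nw) hB
      (Nat.add_le_add_left (Nat.mul_le_mul_right x hj') i) lam
    exact ⟨lam', fun β hβ => (hl β hβ).trans (hl' β)⟩
  choose! lam hl using b
  refine ⟨fun e' => ∑ j ∈ Finset.range (D + 1), (-ζ) ^ j * (D.choose j : ℂ) * lam j e',
    fun β hβ => ?_⟩
  rw [sub_eq_neg_add, add_pow, Finset.sum_mul]
  simp only [Finset.sum_mul]
  rw [Finset.sum_comm]
  refine Finset.sum_congr rfl fun j hj => ?_
  simp only [mul_assoc, ← Finset.mul_sum]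
  rw [← hl j hj β hβ, ← neg_mul, mul_pow]
  ring

end GFlaty

open GFlaty in
theorem p_GFlat (h : S_Core2) : S_GFlat := by
  intro Nw x S B ψ c C S0 N0 hx c0 C1 h0 hB hroot hc hM α α' hα hα' hiff
  have int : ∀ γ : ℂ, aeval γ S = 0 → IsIntegral ℚ γ := fun γ h =>
    IsAlgebraic.isIntegral ⟨S.map (Int.castRingHom ℚ),
      (Polynomial.map_ne_zero_iff (Int.castRingHom ℚ).injective_int).2 S0,
      (aeval_map_int S γ).trans h⟩
  have conj : ∀ γ : ℂ, aeval γ S = 0 → ∀ β : ℂ, aeval β (minpoly ℚ γ) = 0 → aeval β S = 0 :=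
    fun γ h β hβ => (aeval_map_int S β).symm.trans
      (aeval_eq_zero_of_dvd_aeval_eq_zero (minpoly.dvd ℚ γ ((aeval_map_int S γ).trans h)) hβ)
  have X2 : (2 : ℝ) ≤ x := by exact_mod_cast hx
  have X0 : (0 : ℝ) < x := by linarith
  set E : ℕ → Finset ℕ := fun i => Fil Nw B (i * (x ^ 5 * x)) with hE
  have Emono : ∀ i, E i ⊆ E (i + 1) := fun i =>
    Finset.monotone_filter_right _ fun e _ h => hB (Nat.mul_le_mul_right _ i.le_succ) h
  have Etop : ∀ i ≤ x ^ 3, ∀ e ∈ E i, (e : ℤ) ∈ B (x ^ 10) := fun i hi e he => by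
    refine hB ((Nat.mul_le_mul_right _ hi).trans ?_) (Finset.mem_filter.1 he).2
    calc x ^ 3 * (x ^ 5 * x) = x ^ 9 := by ring
      _ ≤ x ^ 10 := Nat.pow_le_pow_right (by omega) (by norm_num)
  have rkM : ∀ i ≤ x ^ 3, rk α (E i) ≤ (B (x ^ 10)).card := fun i hi =>
    (Flatx.rk_le α _).trans (Finset.card_le_card_of_injOn (fun e : ℕ => (e : ℤ)) (Etop i hi)
      Nat.cast_injective.injOn)
  have z0 : ∀ i, 0 ∈ E i := fun i =>
    Finset.mem_filter.2 ⟨Finset.mem_range.2 N0, hB (Nat.zero_le _) h0⟩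
  have c1 : (1 : ℝ) ≤ |(c : ℝ)| := by exact_mod_cast Int.one_le_abs c0
  have hM' : 2 * (B (x ^ 10)).card ≤ 2 ^ x := by
    have a : 2 * ((B (x ^ 10)).card : ℝ) ≤ 2 ^ x := by
      refine le_trans ?_ hM
      rw [mul_assoc _ C]
      exact le_mul_of_one_le_right (by positivity) (one_le_mul_of_one_le_of_one_le C1 c1)
    exact_mod_cast a
  obtain ⟨i, hi, hm⟩ := Flatx.pigeon hx (m := fun i => rk α (E i)) (Flatx.rk_pos α (z0 0)) (by
    have a := rkM _ le_rfl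
    have b := Flatx.rk_pos α (z0 (x ^ 3))
    omega)
  by_cases hτ : tauf α' ψ - tauf α ψ = 0
  · rw [norm_sub_rev, hτ, norm_zero]; positivity
  set δ := ‖tauf α' ψ - tauf α ψ‖ with hδ
  have δ0 : 0 < δ := norm_pos_iff.2 hτ
  set ζ : ℂ := ((((x : ℝ) ^ 3)⁻¹ / δ : ℝ) : ℂ) * (starRingEnd ℂ) (tauf α' ψ - tauf α ψ) with hζ
  have nζ : ‖ζ‖ = ((x : ℝ) ^ 3)⁻¹ := by
    rw [hζ, norm_mul, Complex.norm_real, Complex.norm_conj, ← hδ, Real.norm_of_nonneg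
      (by positivity), div_mul_cancel₀ _ δ0.ne']
  have rζ : (ζ * tauf α' ψ).re - (ζ * tauf α ψ).re = ((x : ℝ) ^ 3)⁻¹ * δ := by
    rw [← Complex.sub_re, ← mul_sub, hζ, mul_assoc, Complex.conj_mul', ← hδ,
      ← Complex.ofReal_pow, ← Complex.ofReal_mul, Complex.ofReal_re]
    field_simp
  have t4 : ((x : ℝ) ^ 2)⁻¹ ≤ 1 / 4 := by
    rw [one_div]
    exact inv_anti₀ (by norm_num) (by nlinarith)
  have hu : ∀ w : ℂ, ‖w‖ ≤ x → ‖ζ * w‖ ≤ ((x : ℝ) ^ 2)⁻¹ := fun w hw => by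
    rw [norm_mul, nζ]
    refine (mul_le_mul_of_nonneg_left hw (by positivity)).trans (le_of_eq ?_)
    field_simp
  have hu' : ∀ β : ℂ, aeval β S = 0 → ‖ζ * ψ β‖ ≤ ((x : ℝ) ^ 2)⁻¹ := fun β hβ =>
    hu _ (hroot β hβ).1
  have cl : ∀ e ∈ E i, ∃ Λ : ℕ → ℂ, ∀ β : ℂ, aeval β S = 0 →
      (1 - ζ * ψ β) ^ x ^ 5 * β ^ e = ∑ e' ∈ E (i + 1), Λ e' * β ^ e' := by
    intro e he
    have := closure hB hc he (x ^ 5) ζ
    rwa [← add_one_mul] at this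
  choose! La hLa using cl
  have core := h α α' (E i) (E (i + 1)) c C
    (2 * ((x ^ 5 : ℕ) : ℝ) * ((x : ℝ) ^ 2)⁻¹) (fun β => (1 - ζ * ψ β) ^ x ^ 5) La (int α hα)
    (int α' hα') (Emono i) c0 C1 (by positivity)
    (fun z => hiff _ z (Etop _ hi)) fun β hβ => by
      have hβ' : aeval β S = 0 := hβ.elim (conj α hα β) (conj α' hα' β)
      exact ⟨fun e he => (hroot β hβ').2 e (Finset.mem_range.1 (Finset.mem_filter.1 he).1),
        Flatx.exp_le (hu' β hβ') t4 _, fun e he => hLa e he β hβ'⟩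
  have m1 := mean_log ζ ψ (x ^ 5) t4 (int α hα) fun β hβ => hu' β (conj α hα β hβ)
  have m2 := mean_log ζ ψ (x ^ 5) t4 (int α' hα') fun β hβ => hu' β (conj α' hα' β hβ)
  have e1 : ((x ^ 5 : ℕ) : ℝ) * (((x : ℝ) ^ 2)⁻¹) ^ 2 = x := by push_cast; field_simp
  have e2 : 2 * ((x ^ 5 : ℕ) : ℝ) * ((x : ℝ) ^ 2)⁻¹ = 2 * (x : ℝ) ^ 3 := by push_cast; field_simp
  rw [e1] at m1 m2
  rw [e2, div_mul_eq_mul_div, div_mul_eq_mul_div, mul_div_assoc, mul_div_assoc] at core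
  have p1 : (1 : ℝ) ≤ rk α (E i) := by exact_mod_cast Flatx.rk_pos α (z0 i)
  have p2 : (rk α (E i) : ℝ) ≤ rk α (E (i + 1)) := by exact_mod_cast Flatx.rk_mono α (Emono i)
  rw [norm_sub_rev]
  refine Flatx.final (by linarith) p2 X2 hm m1 m2 ?_ ?_ ?_ core
  · rw [← mul_sub, rζ, norm_sub_rev, ← norm_sub_rev, ← hδ]
    push_cast
    field_simp
  · rw [abs_mul, Nat.abs_cast]
    refine (mul_le_mul_of_nonneg_left ((Complex.abs_re_le_norm _).trans (hu _ (norm_tauf_le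
      (int α' hα') fun β hβ => (hroot β (conj α' hα' β hβ)).1))) (Nat.cast_nonneg _)).trans
      (le_of_eq ?_)
    push_cast
    field_simp
  · have c2 : (rk α (E i) : ℝ) + rk α (E (i + 1)) ≤ 2 * ((B (x ^ 10)).card : ℝ) := by
      have a := rkM i hi.le
      have b := rkM (i + 1) hi
      exact_mod_cast (by omega : rk α (E i) + rk α (E (i + 1)) ≤ 2 * (B (x ^ 10)).card)
    rw [← Real.log_mul (by linarith) (by positivity), ← Real.log_mul (by positivity)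
      (by linarith), Real.log_le_iff_le_exp (by positivity)]
    calc _ ≤ 2 * ((B (x ^ 10)).card : ℝ) * C * |(c : ℝ)| := by gcongr
      _ ≤ 2 ^ x := hM
      _ ≤ Real.exp 1 ^ x := by
        gcongr
        linarith [Real.add_one_le_exp 1]
      _ = Real.exp x := by rw [← Real.exp_nat_mul, mul_one]

end Pool.Agent.P.MP_aef18a_nt.TW
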