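import Pool.Agent.P.MP_aef18a_nt.TW.Iface

namespace Pool.Agent.P.MP_aef18a_nt.TW

open Polynomial Matrix LaurentPolynomial OW

namespace Grow2y

lemma lin_smul {k : ℕ} (t : ℝ) (θ : Fin k → ℝ) (u : Fin k → ℤ) : lin (t • θ) u = t * lin θ u := by
  simp only [lin, Pi.smul_apply, smul_eq_mul, Finset.mul_sum]
  exact Finset.sum_congr rfl fun i _ => by ring

lemma l1c_C_mul (c : ℂ) (G : ℂ[X]) : l1c (Polynomial.C c * G) ≤ ‖c‖ * l1c G := by
  rw [l1c, l1c, Finset.mul_sum]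
  simp only [coeff_C_mul, norm_mul]
  refine Finset.sum_le_sum_of_subset_of_nonneg (fun i hi => ?_) fun _ _ _ => by positivity
  rw [mem_support_iff] at hi ⊢
  rw [coeff_C_mul] at hi
  exact right_ne_zero_of_mul hi

lemma tq_C_mul (c : ℂ) (G : ℂ[X]) (S : ℤ[X]) (m : ℕ) :
    tq (Polynomial.C c * G) S m = c * tq G S m := by
  simp only [tq, coeff_C_mul, Finset.mul_sum, mul_assoc]

lemma bdE (hM : S_MMb) (hF : S_FejEv) {k : ℕ} {F : LQ ℤ k} {D : FDat k} (h : Fc F D)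
    (θ : Fin k → ℝ) {B : ℕ} (R : ℕ) (hB : 0 < B) (ω : (Fin k → ℤ) →+ ℝ) {p : ℝ} (hp : 0 ≤ p)
    (h1 : ∀ u ∈ F.coeff.support, ω u ≤ p) (h2 : ∀ u ∈ D.T.coeff.support, ω u ≤ p)
    (h3 : ∀ v ∈ D.V, ω v ≤ p) :
    Bd ω ((R * (D.V.card + 2) + 3 + R * D.V.card * B + R * B : ℕ) * p)
      (HH D.V B R * MM F D θ R) := by
  intro u hu
  refine (bd_mul ω ((hF k D.V 0 1 1 B R hB (one_dvd _) (by simp)).2 ω p hp h3)
    ((hM k F D R h).1 θ ω p hp h1 h2 h3) u hu).trans ?_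
  have : (0 : ℝ) ≤ R * B * p := by positivity
  push_cast
  linarith

lemma MM_smul (hM : S_MMb) {k : ℕ} {F : LQ ℤ k} {D : FDat k} (h : Fc F D) (θ : Fin k → ℝ)
    (t : ℝ) (R : ℕ) : MM F D (t • θ) R = ((t : ℂ) ^ 2) • MM F D θ R := by
  obtain ⟨N, hN⟩ := (hM k F D R h).2.2
  rw [hN, hN, Finset.smul_sum]
  refine Finset.sum_congr rfl fun i _ => ?_
  rw [Finset.smul_sum]
  refine Finset.sum_congr rfl fun i' _ => ?_
  rw [smul_smul]
  congr 1
  simp only [Pi.smul_apply, smul_eq_mul, Complex.ofReal_mul]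
  ring

lemma exists_box {k : ℕ} (F : LQ ℤ k) (D : FDat k) :
    ∃ De : ℕ, Bx De F ∧ Bx De D.T ∧ ∀ v ∈ D.V, ∀ i, |v i| ≤ De := by
  obtain ⟨D1, -, h1⟩ := exists_bx F
  obtain ⟨D2, -, h2⟩ := exists_bx D.T
  refine ⟨D1 + D2 + (D.V.map nu).sum, h1.mono (by omega), h2.mono (by omega), fun v hv i => ?_⟩
  have := Multiset.single_le_sum (s := D.V.map nu) (fun _ _ => Nat.zero_le _) _
    (Multiset.mem_map_of_mem nu hv)
  have := le_nu v i
  omega

end Grow2y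

open Grow2y in
theorem p_Grow2 (hK : S_Link) (hC : S_Cov) (hM : S_MMb) (hF : S_FejEv) (hT : S_Trunc)
    (hQ : S_Qc2) : S_Grow2 := by
  intro k F D J hD h hφ
  obtain ⟨De, hDF, hDT, hDV⟩ := exists_box F D
  obtain ⟨C0, hC0⟩ : ∃ C0 : ℕ, ∀ u ∈ D.W.coeff.support, -(u ⬝ᵥ D.a₀) ≤ C0 :=
    ⟨D.W.coeff.support.sup fun u => (u ⬝ᵥ D.a₀).natAbs, fun u hu => by
      have := Finset.le_sup (f := fun u => (u ⬝ᵥ D.a₀).natAbs) hu
      omega⟩
  obtain ⟨k₀, hk₀⟩ := hC k F D J ((J + 1) * C0 + 1) (1 / (J + 1)) hD h hφ (by positivity)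
  refine ⟨k₀ * J + 1, fun Θ => ?_⟩
  set cc : ℝ := 2 ^ D.V.card * |(D.d : ℝ)| with hcc
  have hcc1 : 1 ≤ cc := by
    have h1 : (1 : ℝ) ≤ |(D.d : ℝ)| := by exact_mod_cast Int.one_le_abs h.d0
    exact one_le_mul_of_one_le_of_one_le (one_le_pow₀ one_le_two) h1
  obtain ⟨t, ht⟩ := hk₀ (max Θ 0 * ((k : ℝ) * De) ^ 2 * cc ^ ((k₀ + 1) * J + k₀ + 1))
  set c : ℕ × ℕ × (Fin k → ℤ) → ℕ := fun q =>
    ((q.1 + 1) * J + q.1 + 1) * (D.V.card + 2) + 3 + ((q.1 + 1) * J + q.1 + 1) * D.V.card * q.2.1 +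
      ((q.1 + 1) * J + q.1 + 1) * q.2.1 with hc
  refine ⟨2 * De + ∑ q ∈ t, 2 * (c q * De), 1 + ∑ q ∈ t, c q, fun a g w hr hg hY => ?_⟩
  obtain ⟨hLac, hN, -, hrev, hlo, hsup, -⟩ := hK k F a (J * g) 1 hD.c0 hg.gp
    ((hr.mono (Nat.le_add_right _ _)).injOn hDF.wb)
  set N := (SS F a).natDegree with hNd
  have hg1 := hg.g1
  have hgN : g ≤ N := by
    obtain ⟨u, hu⟩ := support_nonempty h.Wne
    have := (hlo u (h.mem.2 (.inr hu))).1
    have := hg.gap u hu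
    omega
  have hNle : (N : ℝ) ≤ k * De * nu a := by
    obtain ⟨u, hu, e⟩ := hsup 0 (mem_support_iff.2 hLac.1)
    have := abs_dot_le (hDF u hu) (le_nu a)
    have h2 : (N : ℤ) ≤ k * De * nu a := by
      have := neg_le_abs (u ⬝ᵥ a)
      simp only [Nat.cast_zero, sub_zero] at e
      omega
    exact_mod_cast h2
  have hN0 : (0 : ℝ) < N := by exact_mod_cast hg1.trans hgN
  have hν : (0 : ℝ) < nu a := by
    refine (Nat.cast_nonneg _).lt_of_ne fun e => ?_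
    rw [← e, mul_zero] at hNle
    linarith
  have hνs : (nu a : ℝ) ≤ J * g := by exact_mod_cast hg.nu
  set θa : Fin k → ℝ := fun i => (a i : ℝ) with hθa
  obtain ⟨⟨n, B', z⟩, hq, hn1, hn0, hB', hz, hw2⟩ := ht ((nu a : ℝ)⁻¹ • θa)
    (fun i => by
      rw [Pi.smul_apply, smul_eq_mul, abs_mul, abs_of_pos (inv_pos.2 hν), inv_mul_le_iff₀ hν,
        mul_one]
      simp only [hθa]
      exact_mod_cast le_nu a i)
    (fun u hu => by
      have e : ((u ⬝ᵥ a : ℤ) : ℝ) + g ≤ 0 := by exact_mod_cast hg.gap u hu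
      have e1 : (0 : ℝ) ≤ g := Nat.cast_nonneg _
      have e2 : (0 : ℝ) ≤ J := Nat.cast_nonneg _
      rw [lin_smul, lin_cast, inv_mul_le_iff₀ hν, mul_neg, mul_one_div, le_neg,
        div_le_iff₀ (by positivity)]
      nlinarith)
  simp only at hn1 hn0 hB' hz hw2
  have hcq : c (n, B', z) ≤ ∑ q ∈ t, c q :=
    Finset.single_le_sum (f := c) (fun _ _ => Nat.zero_le _) hq
  have hcD : 2 * (c (n, B', z) * De) ≤ ∑ q ∈ t, 2 * (c q * De) :=
    Finset.single_le_sum (f := fun q => 2 * (c q * De)) (fun _ _ => Nat.zero_le _) hq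
  have hRm : (n + 1) * J + n + 1 ≤ (k₀ + 1) * J + k₀ + 1 := by gcongr
  have hR1 : n * J + 1 ≤ (n + 1) * J + n + 1 := by nlinarith
  have hE := fun ω p hp => bdE hM hF h θa ((n + 1) * J + n + 1) hB' ω (p := p) hp
  have hRc : ((n + 1) * J + n + 1) * B' ≤ c (n, B', z) := Nat.le_add_left _ _
  change ∀ (ω : (Fin k → ℤ) →+ ℝ) (p : ℝ), 0 ≤ p → _ → _ → _ → Bd ω (c (n, B', z) * p) _ at hE
  generalize c (n, B', z) = cq at hE hcq hcD hRc
  generalize (n + 1) * J + n + 1 = R at *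
  have hcw : cq * w < g := by
    rcases Nat.eq_zero_or_pos w with rfl | hw
    · omega
    · nlinarith
  have e0 := MM_smul hM h ((nu a : ℝ)⁻¹ • θa) (nu a) R
  rw [smul_smul, mul_inv_cancel₀ hν.ne', one_smul] at e0
  set E := HH D.V B' R * MM F D θa R with hEd
  have hbig : max Θ 0 * (N : ℝ) ^ 2 * cc ^ R < ‖E.coeff z‖ := by
    rw [hEd, e0, mul_smul_comm, AddMonoidAlgebra.coeff_smul, Finsupp.smul_apply, smul_eq_mul,
      norm_mul, norm_pow, Complex.norm_real, Real.norm_eq_abs, abs_of_pos hν]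
    calc max Θ 0 * (N : ℝ) ^ 2 * cc ^ R
        ≤ max Θ 0 * (k * De * nu a) ^ 2 * cc ^ ((k₀ + 1) * J + k₀ + 1) := by gcongr
      _ = (nu a : ℝ) ^ 2 * (max Θ 0 * ((k : ℝ) * De) ^ 2 * cc ^ ((k₀ + 1) * J + k₀ + 1)) := by ring
      _ < _ := by gcongr
  have hw : z ∈ E.coeff.support := by
    rw [Finsupp.mem_support_iff]
    intro e
    rw [e, norm_zero] at hbig
    exact absurd hbig (not_lt.2 (by positivity))
  have hng : Ng a E := fun u hu => by
    have := hE (dotR a) 0 le_rfl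
      (fun u hu => by rw [dotR_apply]; exact_mod_cast hg.top.ng u hu)
      (fun u hu => by rw [dotR_apply]; exact_mod_cast hg.Tng u hu)
      (fun u hu => by rw [dotR_apply]; exact_mod_cast (hg.Vneg u hu).le) u hu
    rw [mul_zero, dotR_apply] at this
    exact_mod_cast this
  have hbx : Bx (cq * De) E := fun u hu i => by
    have k1 : ∀ u : Fin k → ℤ, |u i| ≤ De → crd i u ≤ De ∧ (-crd i) u ≤ De := fun u e => by
      rw [AddMonoidHom.neg_apply, crd_apply]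
      exact ⟨by exact_mod_cast (abs_le.1 e).2, by exact_mod_cast neg_le.1 (abs_le.1 e).1⟩
    have e1 := hE (crd i) De (Nat.cast_nonneg _) (fun u hu => (k1 u (hDF u hu i)).1)
      (fun u hu => (k1 u (hDT u hu i)).1) (fun u hu => (k1 u (hDV u hu i)).1) u hu
    have e2 := hE (-crd i) De (Nat.cast_nonneg _) (fun u hu => (k1 u (hDF u hu i)).2)
      (fun u hu => (k1 u (hDT u hu i)).2) (fun u hu => (k1 u (hDV u hu i)).2) u hu
    rw [AddMonoidHom.neg_apply] at e2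
    rw [crd_apply] at e1 e2
    exact abs_le.2 ⟨neg_le.1 (by exact_mod_cast e2), by exact_mod_cast e1⟩
  obtain ⟨m, hm⟩ := Int.eq_ofNat_of_zero_le (neg_nonneg.2 (hng z hw))
  have hup : m ≤ n * J * g + cq * w := by
    have k1 : ∀ (u : Fin k → ℤ) (p : ℕ), (-dotR a + ((J * g : ℕ) : ℝ) • dotR D.a₀) u ≤ p ↔
        -(u ⬝ᵥ a) + (J * g : ℕ) * (u ⬝ᵥ D.a₀) ≤ p := fun u p => by
      rw [AddMonoidHom.add_apply, AddMonoidHom.neg_apply, AddMonoidHom.smul_apply, dotR_apply,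
        dotR_apply, smul_eq_mul]
      exact_mod_cast Iff.rfl
    have := hE (-dotR a + ((J * g : ℕ) : ℝ) • dotR D.a₀) w (Nat.cast_nonneg _)
      (fun u hu => (k1 u w).2 (by
        rcases h.mem.1 hu with e | e
        · rw [h.φ0 u e, mul_zero, add_zero]
          exact hg.φw u e
        · have e1 := hg.wid u hu
          have e2 := h.W0 u e
          have e3 : (0 : ℤ) ≤ J * g := by positivity
          have e4 : (0 : ℤ) ≤ w := by positivity
          push_cast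
          nlinarith))
      (fun u hu => (k1 u w).2 (by rw [h.T0 u hu, mul_zero, add_zero]; exact hg.Tw u hu))
      (fun u hu => (k1 u w).2 (by
        have e1 := Multiset.single_le_sum (s := sg D.V a) (fun _ _ => Nat.zero_le _) _
          (Multiset.mem_map_of_mem (fun v => (-(v ⬝ᵥ a)).toNat) hu)
        have e2 := hg.Vsum
        rw [h.V0 u hu, mul_zero, add_zero]
        omega)) z hw
    rw [← Nat.cast_mul, k1, hm, ← neg_neg (z ⬝ᵥ D.a₀), hz] at this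
    zify at this ⊢
    linarith
  have hdn : (J + 1) * g < m := by
    have k1 : ∀ u : Fin k → ℤ, ((C0 : ℝ) • dotR a - (g : ℝ) • dotR D.a₀) u ≤ 0 ↔
        C0 * (u ⬝ᵥ a) - g * (u ⬝ᵥ D.a₀) ≤ 0 := fun u => by
      rw [AddMonoidHom.sub_apply, AddMonoidHom.smul_apply, AddMonoidHom.smul_apply, dotR_apply,
        dotR_apply, smul_eq_mul, smul_eq_mul]
      exact_mod_cast Iff.rfl
    have k2 : ∀ u : Fin k → ℤ, u ⬝ᵥ a ≤ 0 → u ⬝ᵥ D.a₀ = 0 →
        ((C0 : ℝ) • dotR a - (g : ℝ) • dotR D.a₀) u ≤ 0 := fun u e1 e2 => (k1 u).2 (by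
      rw [e2, mul_zero, sub_zero]
      exact mul_nonpos_of_nonneg_of_nonpos (Int.natCast_nonneg _) e1)
    have := hE ((C0 : ℝ) • dotR a - (g : ℝ) • dotR D.a₀) 0 le_rfl
      (fun u hu => by
        rcases h.mem.1 hu with e | e
        · exact k2 u (hg.top.ng u hu) (h.φ0 u e)
        · have e1 := hg.gap u e
          have e2 := hC0 u e
          have e3 : (0 : ℤ) ≤ g := by positivity
          have e4 : (0 : ℤ) ≤ C0 := by positivity
          exact (k1 u).2 (by nlinarith))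
      (fun u hu => k2 u (hg.Tng u hu) (h.T0 u hu))
      (fun u hu => k2 u (hg.Vneg u hu).le (h.V0 u hu)) z hw
    rw [mul_zero, k1, ← neg_neg (z ⬝ᵥ D.a₀), hz, ← neg_neg (z ⬝ᵥ a), hm] at this
    have e1 : g * n ≤ C0 * m := by
      zify
      linarith
    have e2 : g * ((J + 1) * C0 + 1) ≤ g * n := Nat.mul_le_mul_left _ hn1
    refine lt_of_mul_lt_mul_left (a := C0) ?_ (Nat.zero_le _)
    nlinarith
  have hm1 : m < (n * J + 1) * g := by nlinarith
  have hf : pl a (toC F : LQ ℂ k) = (SS F a).reverse.map (Int.castRingHom ℂ) := by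
    rw [pl_toC, hrev]; rfl
  have hc0 : PowerSeries.constantCoeff (pl a (toC F : LQ ℂ k) : PowerSeries ℂ) ≠ 0 := by
    rw [Polynomial.constantCoeff_coe, pl_toC, coeff_map, pl_coeff_zero le_rfl hg.gp.2.1]
    simpa using hD.c0
  obtain ⟨ψ, hψ⟩ : ∃ ψ : PowerSeries ℂ, (pl a (toC F : LQ ℂ k) : PowerSeries ℂ) * ψ =
      (pl a (dv (cv ℂ a) (toC F)) : PowerSeries ℂ) ^ 2 :=
    ⟨(pl a (toC F : LQ ℂ k) : PowerSeries ℂ)⁻¹ * _, by
      rw [← mul_assoc, PowerSeries.mul_inv_cancel _ hc0, one_mul]⟩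
  obtain ⟨G, g1, g2, g3⟩ := hT k F D a J g w B' R ψ h hg hB' hψ
  have hcoef := g3 m (hm1.trans_le (Nat.mul_le_mul_right _ hR1))
  have hi := pl_coeff_inj hng ((hr.mono (hcD.trans (Nat.le_add_left _ _))).injOn hbx.wb) hw
  rw [hm, Int.toNat_natCast] at hi
  rw [pl_dv (hg.top.ng.subset (support_toC F).subset), Polynomial.coe_neg, neg_sq, hf] at hψ
  have hNm : N + G.natDegree < m := by
    have := Nat.mul_le_mul_right w hRc
    nlinarith
  have q2 := hQ (SS F a) ψ G (m - N) (fun e => hLac.1 (by rw [e, coeff_zero])) hψ (by omega)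
  rw [Nat.sub_add_cancel (by omega), hcoef, hi] at q2
  have hp : 0 < cc ^ R := by positivity
  have hn : ‖(((cc ^ R)⁻¹ : ℝ) : ℂ)‖ = (cc ^ R)⁻¹ := by
    rw [Complex.norm_real, Real.norm_eq_abs, abs_of_pos (inv_pos.2 hp)]
  refine ⟨Polynomial.C (((cc ^ R)⁻¹ : ℝ) : ℂ) * G, m - N, (l1c_C_mul _ _).trans ?_, ?_, ?_⟩
  · rw [hn, inv_mul_le_iff₀ hp, mul_one]
    exact g1
  · exact (Nat.sub_le _ _).trans (hm1.le.trans (by gcongr))
  · rw [tq_C_mul, norm_mul, hn, q2, le_inv_mul_iff₀ hp, mul_comm]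
    refine le_trans ?_ hbig.le
    gcongr
    exact le_max_left _ _

end Pool.Agent.P.MP_aef18a_nt.TW
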