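import Pool.Agent.P.MP_aef18a_nt.TW.Iface
import Pool.Agent.P.MP_aef18a_nt.OW.Nu
import Pool.Agent.P.MP_aef18a_nt.OW.Ex1

namespace Pool.Agent.P.MP_aef18a_nt.TW

open Polynomial Matrix LaurentPolynomial OW

namespace HVy

lemma coeff_ns {u : PowerSeries ℂ} {x : ℕ → ℂ} (h0 : PowerSeries.coeff 0 u = 1) (h : IsNS u x)
    {j : ℕ} (hj : 1 ≤ j) : x j + ∑ i ∈ Finset.range j,
      PowerSeries.coeff (j - i) u * (if i = 0 then 0 else x i) = -(j * PowerSeries.coeff j u) := by
  have e := congrArg (PowerSeries.coeff j) h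
  rw [map_neg, Nux.coeff_X_der _ hj, mul_comm u, PowerSeries.coeff_mul,
    Finset.Nat.sum_antidiagonal_eq_sum_range_succ
      (fun i l => PowerSeries.coeff i (PowerSeries.mk fun j => if j = 0 then 0 else x j) *
        PowerSeries.coeff l u), Finset.sum_range_succ] at e
  simp only [PowerSeries.coeff_mk, Nat.sub_self, h0, mul_one, if_neg (by omega : j ≠ 0)] at e
  rw [← e, add_comm]
  congr 1
  exact Finset.sum_congr rfl fun i _ => mul_comm _ _

lemma rv_coeff {f : ℤ[X]} (hf : f ≠ 0) {d : ℤ} {L g : ℕ} (hd : d ≠ 0) (hL : d.natAbs ≤ L)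
    (hg : 1 ≤ g) (h : ∀ β ∈ f.aroots ℂ, IsIntegral ℤ ((d : ℂ) * β ^ g)) {i : ℕ}
    (hi : i * L ≤ g) : ∃ z : ℤ, PowerSeries.coeff i (rv f) = z := by
  obtain ⟨γ, hγ⟩ := IsAlgClosed.exists_pow_nat_eq (d : ℂ) hg
  have h1 := Nux.rv_int hf (γ := γ) (fun β hβ => IsIntegral.of_pow hg (by
    have := h β hβ
    rwa [← hγ, ← mul_pow] at this)) i
  set q : ℚ := (f.leadingCoeff : ℚ)⁻¹ * (f.reverse.coeff i : ℤ) with hq
  have hqc : PowerSeries.coeff i (rv f) = (q : ℂ) := by
    rw [Nux.coeff_rv, hq]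
    push_cast
    rfl
  have h2 : IsIntegral ℤ ((d : ℚ) ^ i * q ^ g) := by
    rw [← isIntegral_algebraMap_iff (algebraMap ℚ ℂ).injective]
    have := h1.pow g
    rw [hqc, mul_pow, ← pow_mul, mul_comm i g, pow_mul, hγ] at this
    simpa using this
  have h3 : d.natAbs ^ i < 2 ^ g := by
    rcases Nat.eq_zero_or_pos i with rfl | hi0
    · simpa using (by omega : g ≠ 0)
    · calc _ ≤ L ^ i := Nat.pow_le_pow_left hL i
        _ < (2 ^ L) ^ i := Nat.pow_lt_pow_left Nat.lt_two_pow_self hi0.ne'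
        _ ≤ 2 ^ g := by
          rw [← pow_mul, mul_comm]
          exact Nat.pow_le_pow_right two_pos hi
  have h4 := Nux.den_one hd h3 h2
  refine ⟨q.num, ?_⟩
  rw [hqc, ← Rat.coe_int_num_of_den_eq_one h4]
  simp

end HVy

open HVy

theorem p_H0 (hN : S_NS) : S_H0 := by
  intro u v x y j hu hv hx hy hj h
  have e := (hN.2.2.2 u v x y (j - 1) hu hv hx hy).1 fun i a b => h i a (by omega)
  have e1 := coeff_ns hu hx hj
  have e2 := coeff_ns hv hy hj
  have e3 : ∑ i ∈ Finset.range j, PowerSeries.coeff (j - i) u * (if i = 0 then 0 else x i) =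
      ∑ i ∈ Finset.range j, PowerSeries.coeff (j - i) v * (if i = 0 then 0 else y i) := by
    refine Finset.sum_congr rfl fun i hi => ?_
    have hi' := Finset.mem_range.1 hi
    by_cases a : i = 0
    · simp [a]
    · rw [if_neg a, if_neg a, h i (by omega) hi', e (j - i) (by omega)]
  rw [e3] at e1
  linear_combination e1 - e2

theorem p_H1 (hN : S_NS) (h0 : S_H0) : S_H1 := by
  rintro c x y s r j ⟨V, Y, hV, hV0, hx⟩ ⟨V', Y', hV', hV0', hy⟩ hrs hj h
  have p0 : ∀ (W : PowerSeries ℂ) (m : ℕ), PowerSeries.coeff 0 W = 1 →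
      PowerSeries.coeff 0 (W ^ m) = 1 := fun W m a => by
    rw [PowerSeries.coeff_zero_eq_constantCoeff] at a ⊢
    rw [map_pow, a, one_pow]
  have e := h0 (V ^ s) (V' ^ r) (fun j => s * x j) (fun j => r * y j) j (p0 V s hV0)
    (p0 V' r hV0') (hN.2.2.1 V x s hx) (hN.2.2.1 V' y r hy) hj h
  have a1 : (c : ℂ) ^ s * PowerSeries.coeff j (V ^ s) = (PowerSeries.coeff j (Y ^ s) : ℤ) := by
    rw [← PowerSeries.coeff_C_mul, map_pow, ← mul_pow, hV, ← map_pow, PowerSeries.coeff_map]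
    rfl
  have a2 : (c : ℂ) ^ r * PowerSeries.coeff j (V' ^ r) = (PowerSeries.coeff j (Y' ^ r) : ℤ) := by
    rw [← PowerSeries.coeff_C_mul, map_pow, ← mul_pow, hV', ← map_pow, PowerSeries.coeff_map]
    rfl
  obtain ⟨t, rfl⟩ := Nat.exists_eq_add_of_le hrs
  refine ⟨-(PowerSeries.coeff j (Y ^ (r + t)) - c ^ t * PowerSeries.coeff j (Y' ^ r)), ?_⟩
  beta_reduce at e
  rw [e]
  push_cast
  rw [← a1, ← a2]
  ring

theorem p_Vser (hN : S_NS) (hK : S_Neck) : S_Vser := by
  intro S f h d L g M hS0 hS hd hL hg hM hr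
  have hf : f ≠ 0 := left_ne_zero_of_mul (hS ▸ hS0)
  obtain ⟨hg1, hg2⟩ := hN.1 f hf
  obtain ⟨e, U, hU0, hV, hy⟩ := hK (rv f) (ps f) M hg1 hg2 fun i hi =>
    rv_coeff hf hd hL hg hr ((Nat.mul_le_mul_right L hi.le).trans hM)
  set V := rv f * PowerSeries.map (Int.castRingHom ℂ) U with hVdef
  have hV0 : PowerSeries.coeff 0 V = 1 := by
    rw [hVdef, PowerSeries.coeff_zero_eq_constantCoeff, map_mul,
      ← PowerSeries.coeff_zero_eq_constantCoeff, hg1, PowerSeries.coeff_map, hU0]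
    simp
  have hmu : ∀ m, 1 ≤ m → m < M → mu (ps f) m = m * e m := fun m h1 h2 => by
    rw [← mu_sum (fun d => (d : ℂ) * e d) h1]
    refine mu_congr fun i a b _ => ?_
    have := Ex1x.zero_of_gap hN hV0 hy hV a (by omega : i < M)
    rw [Finset.filter_true_of_mem fun d hd => (Nat.divisor_le hd).trans_lt (by omega)] at this
    exact sub_eq_zero.1 this
  refine ⟨V, PowerSeries.C h.leadingCoeff * (f.reverse : PowerSeries ℤ) * U, ?_, hV0, ?_⟩
  · have hlc : (f.leadingCoeff : ℂ) ≠ 0 := by exact_mod_cast leadingCoeff_ne_zero.2 hf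
    rw [hVdef, rv, map_mul, map_mul, PowerSeries.map_C, ← Polynomial.polynomial_map_coe, hS,
      leadingCoeff_mul, ← mul_assoc, ← mul_assoc, ← map_mul]
    congr 3
    push_cast
    field_simp
    simp
  · have : hi (ps f) M = fun j => ps f j - ∑ d ∈ j.divisors.filter (· < M), (d : ℂ) * e d := by
      funext j
      rw [hi]
      congr 1
      exact Finset.sum_congr rfl fun m hm =>
        hmu m (Nat.pos_of_mem_divisors (Finset.mem_filter.1 hm).1) (Finset.mem_filter.1 hm).2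
    rw [this]
    exact hy

end Pool.Agent.P.MP_aef18a_nt.TW
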