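import Pool.Agent.P.MP_aef18a_nt.TW.Iface

namespace Pool.Agent.P.MP_aef18a_nt.TW

open Polynomial Matrix LaurentPolynomial OW

namespace Mt2y

variable {n : ℕ}

/-- an integer point as a real point -/
noncomputable def ptr : (Fin n → ℤ) →+ (Fin n → ℝ) :=
  AddMonoidHom.mk' (fun z i => (z i : ℝ)) fun u v => by
    ext i
    simp

lemma ptr_apply (z : Fin n → ℤ) (i : Fin n) : ptr z i = (z i : ℝ) := rfl

lemma ptr_inj : Function.Injective (ptr : (Fin n → ℤ) → Fin n → ℝ) := fun u v h =>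
  funext fun i => by
    have := congrFun h i
    rw [ptr_apply, ptr_apply] at this
    exact_mod_cast this

lemma om_eq (ω : (Fin n → ℤ) →+ ℝ) (z : Fin n → ℤ) :
    ω z = ∑ i, ptr z i * ω (Pi.single i 1) := by
  have e : z = ∑ i, z i • (Pi.single i 1 : Fin n → ℤ) := by
    ext j
    simp [Finset.sum_apply, Pi.single_apply]
  conv_lhs => rw [e]
  rw [map_sum]
  exact Finset.sum_congr rfl fun i _ => by rw [map_zsmul, zsmul_eq_mul, ptr_apply]

lemma exists_low {α : Type*} (s : Finset α) (f : α → ℝ) :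
    ∃ c : ℝ, 0 < c ∧ ∀ x ∈ s, 0 < f x → c ≤ f x := by
  classical
  induction s using Finset.induction_on with
  | empty => exact ⟨1, one_pos, by simp⟩
  | insert a s _ ih =>
    obtain ⟨c, h0, h1⟩ := ih
    by_cases e : 0 < f a
    · refine ⟨min c (f a), lt_min h0 e, fun x hx hp => ?_⟩
      rcases Finset.mem_insert.1 hx with rfl | hx
      · exact min_le_right _ _
      · exact (min_le_left _ _).trans (h1 x hx hp)
    · refine ⟨c, h0, fun x hx hp => ?_⟩
      rcases Finset.mem_insert.1 hx with rfl | hx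
      · exact absurd hp e
      · exact h1 x hx hp

end Mt2y

open Mt2y in
theorem p_Hull : S_Hull := by
  classical
  intro n P Q u hu q hq
  have hP : P ≠ 0 := fun e => by simp [e] at hu
  have hQ : Q ≠ 0 := fun e => by simp [e] at hq
  have hm : ptr (u + q) ∈ convexHull ℝ (((P * Q).coeff.support.image ptr : Finset (Fin n → ℝ)) :
      Set (Fin n → ℝ)) := by
    by_contra hc
    obtain ⟨l, c, h1, h2⟩ := geometric_hahn_banach_closed_point (convex_convexHull ℝ _)
      ((Finset.finite_toSet _).isClosed_convexHull ℝ) hc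
    obtain ⟨u', -, w, -, z, hz, a1, b1, e⟩ :=
      exists_top_mul ((l : (Fin n → ℝ) →+ ℝ).comp ptr) hP hQ
    have h3 := h1 (ptr z) (subset_convexHull ℝ _ (by
      rw [Finset.coe_image]
      exact Set.mem_image_of_mem _ hz))
    have h4 := a1 u hu
    have h5 := b1 q hq
    rw [map_add, map_add] at h2
    simp only [AddMonoidHom.comp_apply, AddMonoidHom.coe_coe] at e h4 h5
    linarith
  obtain ⟨w, w0, w1, w2⟩ := Finset.mem_convexHull'.1 hm
  rw [Finset.sum_image ptr_inj.injOn] at w1 w2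
  refine ⟨fun v => if v ∈ (P * Q).coeff.support then w (ptr v) else 0, fun v => ?_, ?_,
    fun ω => ?_⟩
  · dsimp only
    split_ifs with h
    · exact w0 _ (Finset.mem_image_of_mem _ h)
    · exact le_rfl
  · rw [← w1]
    exact Finset.sum_congr rfl fun v hv => if_pos hv
  · rw [om_eq ω (u + q), ← w2]
    simp only [Finset.sum_apply, Pi.smul_apply, smul_eq_mul, Finset.sum_mul]
    rw [Finset.sum_comm]
    refine Finset.sum_congr rfl fun v hv => ?_
    rw [if_pos hv, om_eq ω v, Finset.mul_sum]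
    exact Finset.sum_congr rfl fun i _ => (mul_assoc _ _ _).symm

open Mt2y in
theorem p_Mt2 (h : S_Hull) : S_Mt2 := by
  rintro n _ P hG ⟨Q, rfl⟩
  have hP := left_ne_zero_of_mul hG
  have hQ := right_ne_zero_of_mul hG
  choose! la l0 l1 l2 using h n P Q
  obtain ⟨c, c0, hc⟩ := exists_low
    (P.coeff.support ×ˢ Q.coeff.support ×ˢ (P * Q).coeff.support) fun x => la x.1 x.2.1 x.2.2
  refine ⟨c⁻¹, inv_pos.2 c0, fun κ m b ω hκ hB hT hM => ?_⟩
  obtain ⟨m₁, a1, a2⟩ := exists_top ω hP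
  obtain ⟨m₂, b1, b2⟩ := exists_top ω hQ
  have e := lev_mul ω a1 b1
  obtain rfl : m = m₁ + m₂ :=
    top_unique hB hT.ne_zero (bd_mul ω a1 b1) (e ▸ mul_ne_zero a2 b2)
  refine ⟨(lev ω m₁ P).coeff.support, ?_, fun u hu hn => ?_⟩
  · rw [res_lev]
    exact hT.of_dvd (e ▸ dvd_mul_right _ _)
  have hlt : ω u < m₁ := lt_of_le_of_ne (a1 u hu) fun e' => hn (mem_lev.2 ⟨hu, e'⟩)
  obtain ⟨u', hu', q, hq, -, -, t1, t2, -⟩ := exists_top_mul (dotR b) hP hQ
  have t3 := bd_mul (dotR b) t1 t2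
  refine ⟨u', hu', fun x hx y hy => ?_⟩
  obtain ⟨v₀, hv₀, p0, p1⟩ : ∃ v₀ ∈ (P * Q).coeff.support, 0 < la u q v₀ ∧ ω v₀ < m₁ + m₂ := by
    by_contra hk
    push Not at hk
    have s1 : ∑ v ∈ (P * Q).coeff.support, la u q v * ω v =
        ∑ v ∈ (P * Q).coeff.support, la u q v * (m₁ + m₂) :=
      Finset.sum_congr rfl fun v hv => by
        rcases (l0 u hu q hq v).eq_or_lt with e' | e'
        · rw [← e', zero_mul, zero_mul]
        · rw [le_antisymm (hB v hv) (hk v hv e')]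
    rw [l2 u hu q hq, ← Finset.sum_mul, l1 u hu q hq, map_add] at s1
    linarith [b1 q hq]
  obtain ⟨z, hz, hw⟩ := hM v₀ hv₀ fun e' => p1.ne (mem_lev.1 e').2
  have hw' : Wd (dotR b) ((((z - v₀) ⬝ᵥ b : ℤ) : ℝ) / κ) (P * Q) := fun v hv w hw2 => by
    rw [le_div_iff₀' hκ, ← map_sub]
    exact hw v hv w hw2
  have h1 := hw'.of_dvd (dotR b) hG (dvd_mul_right P Q) x hx y hy
  rw [le_div_iff₀' hκ, ← dotR_apply, map_sub] at h1
  have h2 : la u q v₀ * (dotR b u' + dotR b q - dotR b v₀) ≤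
      ∑ v ∈ (P * Q).coeff.support, la u q v * (dotR b u' + dotR b q - dotR b v) :=
    Finset.single_le_sum (f := fun v => la u q v * (dotR b u' + dotR b q - dotR b v))
      (fun v hv => mul_nonneg (l0 u hu q hq v) (sub_nonneg.2 (t3 v hv))) hv₀
  simp only [mul_sub, Finset.sum_sub_distrib] at h2
  rw [l2 u hu q hq, ← Finset.sum_mul, l1 u hu q hq, map_add, ← mul_sub] at h2
  have h3 := mul_le_mul_of_nonneg_right
    (hc (u, q, v₀) (Finset.mem_product.2 ⟨hu, Finset.mem_product.2 ⟨hq, hv₀⟩⟩) p0)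
    (sub_nonneg.2 (t3 v₀ hv₀))
  have h4 := mul_le_mul_of_nonneg_left (h1.trans (sub_le_sub_right (t3 z hz) _)) c0.le
  rw [div_inv_eq_mul, ← dotR_apply, ← dotR_apply, map_sub, map_sub]
  dsimp only at h3
  linarith

end Pool.Agent.P.MP_aef18a_nt.TW
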