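import Pool.Agent.P.MP_aef18a_nt.TW.Iface
import Pool.Agent.P.MP_aef18a_nt.OW.NoTwo
import Pool.Agent.P.MP_aef18a_nt.OW.StarAll

namespace Pool.Agent.P.MP_aef18a_nt.TW

open Polynomial Matrix LaurentPolynomial OW

open OW.NoTwox in
theorem p_NoTwo2 (hK : S_K) (hAM : S_AbsMod) (hI : S_Inj) (hKer : S_Ker) (hH : S_Half)
    (hG : S_Gap2) (hC : S_NtrC) (hN : S_NtrN) : S_NoTwo2 := by
  intro n F Gd C hF hHv
  obtain ⟨Δ, -, hΔ⟩ := exists_bx F
  obtain ⟨m, m0, hm⟩ := hK n (toQ F) hF.irr (hF.nc.of_support (support_toQ F).ge)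
  obtain ⟨A, hA⟩ : ∃ A, A = 21 * (n + 1) + (4 * n + 1) * n + 2 := ⟨_, rfl⟩
  refine ⟨2 * A + 10, 2 * m + 4 * (n + 1) + 2 * (n * Δ) + l1 F + C + 10, ?_⟩
  rintro B H r a M b hH0 hν ⟨v1, v2, v3⟩ ih ⟨r1, rfl, hM, hb, hr⟩ hd hs G₁ G₂ eG L₁ L₂
  by_cases hinj : ∀ u : Fin n → ℤ, u ᵥ* M = 0 → u = 0
  · rcases hI n r M b _ hF.irr.ne_zero hinj v3 G₁ G₂ eG with h | h
    · obtain ⟨α, -, h0⟩ := (hasL_spec _ _).1 L₁
      exact evc_ne_zero_of_isUnit b α h h0
    · obtain ⟨α, -, h0⟩ := (hasL_spec _ _).1 L₂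
      exact evc_ne_zero_of_isUnit b α h h0
  obtain ⟨c, c0, c1, c2⟩ := hKer n r H M hM (by
    by_contra h
    exact hinj fun u hu => not_not.1 fun a => h ⟨u, a, hu⟩)
  have hB : B < (n * (r * H ^ 2 + 1)) ^ n := not_le.1 fun a =>
    v1 c c0 (fun i => (c2 i).trans (by exact_mod_cast a)) (by
      rw [dotProduct_mulVec, c1, zero_dotProduct])
  obtain ⟨b', n1, n2, n3, n4⟩ := hH n r m (H ^ 20) B M b m0 v1
  have e1 := num2 (m := m) (by omega) r1 (by omega) (by omega) hB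
  rw [← hA] at e1
  generalize 2 * m * ((2 * H ^ 20 + 1) ^ r + (2 * B + 1) ^ n + 1) = e at n4 e1
  have H0 : 0 < H := by omega
  have y0 := pow_pos H0 A
  rw [pow_add, pow_mul'] at hν
  generalize H ^ A = y at e1 hν y0
  have g1 : ∀ i, |2 * (M *ᵥ b') i - (M *ᵥ b) i| ≤ (r * H * e : ℕ) := fun i => by
    have := abs_dot_le (u := M i) (a := (2 : ℤ) • b' - b) (hM i) n4
    rw [dotProduct_sub, dotProduct_smul] at this
    exact_mod_cast this
  have q1 : (H ^ 3 * y) ^ 2 ≤ nu (M *ᵥ b) := le_trans (by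
    rw [mul_pow, ← pow_mul, mul_comm]
    exact Nat.mul_le_mul_left _ (Nat.pow_le_pow_right H0 (by norm_num))) hν
  have q2 : H ^ 5 * e ≤ nu (M *ᵥ b) := le_trans (by
    rw [mul_comm]
    exact Nat.mul_le_mul (e1.trans (Nat.le_self_pow (by norm_num) y))
      (Nat.pow_le_pow_right H0 (by norm_num))) hν
  have q3 : 16 ≤ nu (M *ᵥ b) := by
    have a : 4 ≤ H ^ 3 * y :=
      le_trans (le_trans (by omega) (Nat.le_self_pow (by norm_num) H)) (Nat.le_mul_of_pos_right _ y0)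
    exact (Nat.pow_le_pow_left a 2).trans q1
  have sq : ∀ t : ℕ, t ≤ H → (t : ℝ) * (r * H * e : ℕ) ≤ √(nu (M *ᵥ b) : ℝ) := fun t ht => by
    refine Real.le_sqrt_of_sq_le (le_trans ?_ (Nat.cast_le.2 q1))
    rw [Nat.cast_pow]
    refine pow_le_pow_left₀ (by positivity) ?_ 2
    have a1 : (t : ℝ) ≤ H := Nat.cast_le.2 ht
    have a2 : ((r * H * e : ℕ) : ℝ) ≤ (H * H * y : ℕ) :=
      Nat.cast_le.2 (Nat.mul_le_mul (Nat.mul_le_mul_right _ (by omega)) e1)
    refine (mul_le_mul a1 a2 (by positivity) (by positivity)).trans_eq ?_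
    push_cast
    ring
  have g2 : Gd (M *ᵥ b') := hHv (r * H * e) _ _ q3 (sq C (by omega)) g1 v2
  have g3 : nu (M *ᵥ b') < nu (M *ᵥ b) :=
    (hG n 0 (r * H * e) 1 0 (M *ᵥ b) (M *ᵥ b') one_pos (fun u hu => by simp at hu) q3
      (le_trans (le_of_eq (by norm_num)) (sq 2 (by omega))) g1 (fun u hu => by simp at hu)).2
  have G0 : pb M F ≠ 0 := fun a => hs (by
    rw [← spec_pb, pb_toQ, a, map_zero, spec_eq_spk, map_zero])
  have W : Wb (H ^ 2) (pb M F) := (hΔ.pb hM).wb.mono (by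
    rw [← mul_assoc, _root_.sq]
    exact Nat.mul_le_mul_right _ (by omega))
  have T := fun G₀ => trf hC hN (G₀ := G₀) G0 W ((l1_pb_le M F).trans (by omega)) hr n1 hb n4
    (by omega) (by omega) (by omega) q2 fun α hα h0 => hd α hα (by rwa [← pb_toQ, evc_pb] at h0)
  rw [← pb_toQ, eG] at T
  refine ih (M *ᵥ b') g3 ⟨n2, g2, hAM n m _ _ _ hm (fun i => ?_) v3⟩
    ⟨_, _, by rw [← spec_pb, eG, spec_mul], T _ (dvd_mul_right _ _) L₁, T _ (dvd_mul_left _ _) L₂⟩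
  rw [← Pi.sub_apply, ← mulVec_sub]
  exact Finset.dvd_sum (s := Finset.univ) fun j _ => (n3 j).mul_left (M i j)

open OW.StarAllx in
theorem p_StarAll2 (hP : S_Proc) (hN : S_NoTwo2) (hS : S_Star1) : S_StarAll2 := by
  intro n F Gd C hF hHv
  obtain ⟨K', hK'⟩ := hP (n + 1) 20
  obtain ⟨A₁, H₀, hN'⟩ := hN n F Gd C hF hHv
  obtain ⟨H₁, hS'⟩ := hS n F
  have hA : 0 < K' * A₁ + 1 := Nat.succ_pos _
  generalize hAe : K' * A₁ + 1 = A at hA
  refine ⟨A, 1 / (2 * A : ℝ), hA, by positivity, fun c hc => ?_⟩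
  obtain ⟨N₀, hN₀⟩ := CznA.numer (c := c) (A := 1) hA hc
  refine ⟨N₀ + (H₀ + H₁ + n + 2) ^ A + 1, fun B a hν hDE hsp hV hI => ?_⟩
  obtain ⟨Q, hQ1, hQ2, hQ3⟩ := root (N := nu a) hA
  have hQm : H₀ + H₁ + n + 2 ≤ Q := hQ3 _ (by omega)
  have hdeg : DegH F a Q := by
    intro α h1 h2
    by_contra hlt
    have hlt' : (Q : ℝ) * (minpoly ℚ (α : ℂ)).natDegree ≤ nu a := by
      exact_mod_cast (not_le.mp hlt).le
    have hQ0 : (0 : ℝ) < Q := by exact_mod_cast (by omega : 0 < Q)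
    exact hN₀ (nu a) Q (by omega) (by omega) hQ2 (minpoly ℚ (α : ℂ)).natDegree (by positivity)
      (by rw [le_div_iff₀ hQ0]; linarith) (hDE α h1 h2)
  have main : ∀ j : ℕ, j ≤ nu a * Q → Sim F a ∧ ∀ X : ℕ, X ≤ Q → St F a X j := by
    intro j hj
    obtain ⟨r, M, b, H, hr, hy, hQH, hHK, hM, hb, hrel⟩ :=
      hK' Q (nu a * Q) (Fin.cons (j : ℤ) a) (by omega) fun i => by
        refine Fin.cases ?_ (fun i => ?_) i
        · simp only [Fin.cons_zero, Nat.abs_cast]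
          exact_mod_cast hj
        · simp only [Fin.cons_succ]
          refine (le_nu a i).trans ?_
          exact_mod_cast Nat.le_mul_of_pos_right _ (by omega)
    have hPr : Pr a H (Matrix.of fun i => M i.succ) b := by
      refine ⟨hr, ?_, fun i l => hM _ _, fun l => (hb l).trans ?_, hrel⟩
      · funext i
        have := congrFun hy i.succ
        rw [Fin.cons_succ] at this
        rw [this]
        rfl
      · have : H * (nu a * Q) ≤ H ^ 2 * nu a := by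
          calc H * (nu a * Q) ≤ H * (nu a * H) := by gcongr
            _ = H ^ 2 * nu a := by ring
        exact_mod_cast this
    have hHA : H ^ A₁ ≤ nu a := by
      calc H ^ A₁ ≤ (Q ^ K') ^ A₁ := Nat.pow_le_pow_left hHK _
        _ = Q ^ (K' * A₁) := (pow_mul _ _ _).symm
        _ ≤ Q ^ A := Nat.pow_le_pow_right (by omega) (by omega)
        _ ≤ nu a := hQ1
    have hdH := degH_mono hdeg hQH
    have hNT := hN' B H r a _ b (by omega) hHA hV hI hPr hdH hsp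
    obtain ⟨hSim, hsep⟩ := hS' H r a _ b (by omega) (by omega) hsp hPr hdH hNT
    refine ⟨hSim, fun X hX α α' h1 h1' h2 h2' E z hE hz => ?_⟩
    choose! v jj hv hjj he using hE
    have hw : ∀ e ∈ E, ((Fin.cons (jj e) (v e) : Fin (n + 1) → ℤ) ᵥ* M) ⬝ᵥ b = e := by
      intro e hE
      rw [← dotProduct_mulVec, ← hy, he e hE]
      simp only [dotProduct, Fin.sum_univ_succ, Fin.cons_zero, Fin.cons_succ]
      ring
    have hbx : ∀ e ∈ E, ∀ i, |((Fin.cons (jj e) (v e) : Fin (n + 1) → ℤ) ᵥ* M) i| ≤ (H ^ 3 : ℕ) := by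
      intro e hE i
      refine (abs_dot_le (D := X) (Y := H) (fun l => ?_) (fun l => hM l i)).trans ?_
      · refine Fin.cases ?_ (fun l => ?_) l
        · simpa using hjj e hE
        · simpa using hv e hE l
      · have : (n + 1) * X * H ≤ H ^ 3 := by
          calc (n + 1) * X * H ≤ H * H * H := by gcongr <;> omega
            _ = H ^ 3 := by ring
        exact_mod_cast this
    have := hsep α α' h1 h1' h2 h2' _ (bx_sum E _ z hbx).wb (by rw [evc_sum b α E _ z hw, hz])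
    rwa [evc_sum b α' E _ z hw] at this
  refine ⟨(main 0 (Nat.zero_le _)).1, fun X j hX hj => ?_⟩
  exact (main j (hj.trans (Nat.mul_le_mul_left _ (hQ3 X hX)))).2 X (hQ3 X hX)

end Pool.Agent.P.MP_aef18a_nt.TW
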