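import Pool.Agent.P.MP_aef18a_nt.TW.Iface
import Pool.Agent.P.MP_aef18a_nt.OW.NormP

namespace Pool.Agent.P.MP_aef18a_nt.TW

open Polynomial Matrix LaurentPolynomial OW

namespace Norm2y

open AddMonoidAlgebra NormPx

variable {r n : ℕ}

lemma exists_sp {F : LQ ℤ r} (h0 : 0 ∈ F.coeff.support)
    (h : ∀ x, x ∈ AddSubgroup.closure (F.coeff.support : Set (Fin r → ℤ))) : ∃ C, Sp C F := by
  choose C hC using fun i : Fin r => gen_bound _ (Pi.single i 1) (h _)
  refine ⟨∑ i, C i, fun a => ?_⟩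
  obtain ⟨u, hu, h1⟩ := F.coeff.support.exists_max_image (· ⬝ᵥ a) ⟨0, h0⟩
  obtain ⟨u', hu', h2⟩ := F.coeff.support.exists_min_image (· ⬝ᵥ a) ⟨0, h0⟩
  have a1 := h1 0 h0
  have a2 := h2 0 h0
  rw [zero_dotProduct] at a1 a2
  have X0 : 0 ≤ (u - u') ⬝ᵥ a := by rw [sub_dotProduct]; omega
  refine ⟨u, hu, u', hu', ?_⟩
  rcases Nat.eq_zero_or_pos (nu a) with e | e
  · rw [e, Nat.cast_zero]; positivity
  obtain ⟨i, hi⟩ := exists_nu e
  have b := hC i a (((u - u') ⬝ᵥ a : ℤ) : ℝ) (by exact_mod_cast X0) fun d hd => by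
    have := h1 d hd
    have := h2 d hd
    rw [← Int.cast_abs, Int.cast_le, sub_dotProduct, abs_le]
    omega
  rw [single_dotProduct, one_mul, ← Int.cast_abs, hi] at b
  have c : (C i : ℤ) ≤ (∑ i, C i : ℕ) :=
    Nat.cast_le.2 (Finset.single_le_sum (f := C) (fun _ _ => Nat.zero_le _) (Finset.mem_univ i))
  exact le_trans (by exact_mod_cast b) (mul_le_mul_of_nonneg_right c X0)

lemma tp_of_map (hS : S_Small) {ι : (Fin r → ℤ) →+ (Fin n → ℤ)} (hι : Function.Injective ι)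
    {A : LP r} (h : Tp (mapDomain ι A : LP n)) : Tp A := by
  classical
  obtain ⟨V, h1, h2⟩ := hS n _ (A.coeff.support.image ι) (fun z hz => by
    obtain ⟨u, hu, rfl⟩ := mem_mapDomain hz
    exact Finset.mem_image_of_mem _ hu) h
  have e : ∀ v ∈ V, ι (Function.invFun ι v) = v := fun v hv => Function.invFun_eq
    ((AddSubgroup.closure_le ι.range).2 (fun z hz => by
      obtain ⟨u, -, rfl⟩ := Finset.mem_image.1 hz
      exact ⟨u, rfl⟩) (h1 v hv).2)
  refine ⟨V.map (Function.invFun ι), fun w hw e0 => ?_, dvd_of_mapDomain hι ?_⟩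
  · obtain ⟨v, hv, rfl⟩ := Multiset.mem_map.1 hw
    exact (h1 v hv).1 (by rw [← e v hv, e0, map_zero])
  · have := map_bin (mapDomainRingHom ℚ ι : LQ ℚ r →+* LQ ℚ n) ι
      (fun v => mapDomain_single) (V.map (Function.invFun ι))
    rw [Multiset.map_map, Multiset.map_congr (f := ι ∘ _) (g := id) rfl e, Multiset.map_id] at this
    exact h2.trans (dvd_of_eq this.symm)

end Norm2y

open AddMonoidAlgebra NormPx Norm2y in
theorem p_Norm2 (h : S_Step2) (hS : S_Small) : S_Norm2 := by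
  classical
  intro n P κ hP hc hκ
  obtain ⟨u₀, hu₀⟩ := support_nonempty hP.ne_zero
  obtain ⟨r, ι, hι, hr⟩ := NormA.exists_iota {d | ∃ u ∈ P.coeff.support, d = u - u₀}
  have hs : ∀ z ∈ P.coeff.support, ∃ w, u₀ + ι w = z := fun z hz => by
    obtain ⟨w, hw⟩ := (hr (z - u₀)).1 (AddSubgroup.subset_closure ⟨z, hz, rfl⟩)
    exact ⟨w, by rw [hw, add_sub_cancel]⟩
  have e0 := NormA.eq_sh ι hι u₀ P hs
  have n0 : NormA.sh ι hι u₀ P ≠ 0 := fun e => hP.ne_zero (by rw [e0, e, mapDomain_zero, mul_zero])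
  obtain ⟨la, F, hla, e1, hm, hp⟩ := exists_prim n0
  have mem : ∀ w, w ∈ F.coeff.support ↔ u₀ + ι w ∈ P.coeff.support := fun w => by
    rw [hm, NormA.mem_sh]
  obtain ⟨Un, hU, eP⟩ : ∃ U : LP n, IsUnit U ∧ P = U * mapDomain ι (toQ F : LP r) := by
    refine ⟨single u₀ 1 * mapDomain ι (single 0 la : LP r), ?_, ?_⟩
    · rw [mapDomain_single]
      exact (isUnit_single _ isUnit_one).mul (isUnit_single _ hla.isUnit)
    · rw [mul_assoc, ← mapDomain_mul, ← e1]
      exact e0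
  have h0 : 0 ∈ F.coeff.support := (mem 0).2 (by simpa using hu₀)
  have hD : Dat F := by
    refine ⟨?_, ?_, Finsupp.mem_support_iff.mp h0, hp⟩
    · have h1 : Irreducible (mapDomain ι (toQ F : LP r) : LP n) :=
        (irreducible_isUnit_mul hU).mp (eP ▸ hP)
      refine ⟨fun hu => h1.not_isUnit (hu.map (mapDomainRingHom ℚ ι)), fun A B e => ?_⟩
      rw [e, mapDomain_mul] at h1
      exact (h1.isUnit_or_isUnit rfl).imp (NormA.isUnit_of_map ι hι) (NormA.isUnit_of_map ι hι)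
    · refine NonCol.of_mapDomain (φ := ι) ?_
      obtain ⟨u, hu, v, hv, w, hw, i, j, e⟩ := hc
      obtain ⟨u', rfl⟩ := hs u hu
      obtain ⟨v', rfl⟩ := hs v hv
      obtain ⟨w', rfl⟩ := hs w hw
      refine ⟨ι u', mem_mapDomain_injOn hι.injOn ((mem _).2 hu), ι v',
        mem_mapDomain_injOn hι.injOn ((mem _).2 hv), ι w',
        mem_mapDomain_injOn hι.injOn ((mem _).2 hw), i, j, ?_⟩
      simpa only [Pi.add_apply, add_sub_add_left_eq_sub] using e
  obtain ⟨C, hC⟩ := exists_sp h0 fun x => by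
    have : AddSubgroup.closure {d | ∃ u ∈ P.coeff.support, d = u - u₀} ≤
        (AddSubgroup.closure (F.coeff.support : Set (Fin r → ℤ))).map ι := by
      refine (AddSubgroup.closure_le _).2 ?_
      rintro _ ⟨z, hz, rfl⟩
      obtain ⟨w, rfl⟩ := hs z hz
      exact ⟨w, AddSubgroup.subset_closure ((mem w).2 hz), by rw [add_sub_cancel_left]⟩
    obtain ⟨y, hy, e⟩ := this ((hr (ι x)).2 ⟨x, rfl⟩)
    exact hι e ▸ hy
  choose! B hB using fun U' (t : Tp (toQ (res U' F))) =>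
    h r F U' (κ / (C + 1)) C hD t (by positivity) hC
  refine ⟨((Fintype.piFinset fun _ : Fin r => Finset.Icc (-(F.coeff.support.powerset.sup B : ℕ) : ℤ)
    (F.coeff.support.powerset.sup B : ℕ)).erase 0).image ι, fun e => ?_,
    fun b U hb hT hmar habs => ?_⟩
  · obtain ⟨c, hc', e⟩ := Finset.mem_image.1 e
    rw [← map_zero ι] at e
    exact (Finset.mem_erase.1 hc').1 (hι e)
  have t : Tp (toQ (res (F.coeff.support.filter fun w => u₀ + ι w ∈ U) F)) := by
    have e2 : NormA.sh ι hι u₀ (res U P) =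
        single 0 la * toQ (res (F.coeff.support.filter fun w => u₀ + ι w ∈ U) F) := by
      ext w
      have := congrArg (fun A : LP r => A.coeff w) e1
      simp only [coeff_single_zero_mul, toQ_coeff, NormA.sh_coeff, res_coeff, Finset.mem_filter,
        Finsupp.mem_support_iff] at this ⊢
      by_cases a : u₀ + ι w ∈ U <;> by_cases a' : F.coeff w = 0 <;> simp [a, a', this]
    refine tp_of_map hS hι (hT.of_dvd ?_)
    rw [NormA.eq_sh ι hι u₀ (res U P) fun z hz => hs z (mem_res.1 hz).2, e2, mapDomain_mul]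
    exact (dvd_mul_left _ _).mul_left _
  have key := hB _ t (fun i => ι (Pi.single i 1) ⬝ᵥ b) ⟨fun c hc0 hcB => ?_, fun w hw hw0 => ?_,
    fun m hm0 P₁ P₂ e hd => ?_⟩
  · have e : spec b P = spk b Un * spec (fun i => ι (Pi.single i 1) ⬝ᵥ b) (toQ F) := by
      rw [spec_eq_spk, spec_eq_spk, ← spk_map, ← map_mul, ← eP]
    have hU' : IsUnit (spk b Un) := hU.map _
    have k1 : HasL (spec b P) := e ▸ (hasL_unit hU').mpr key.1
    have k2 : ¬ TwoL (spec b P) := fun h2 => key.2 (twoL_unit hU' (e ▸ h2))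
    exact ⟨fun e => k2 ⟨_, _, by rw [e, mul_zero], k1, k1⟩, k1, k2⟩
  · rw [NormA.dot_eq]
    refine hb _ (Finset.mem_image_of_mem _ (Finset.mem_erase.2 ⟨hc0, ?_⟩))
    exact Fintype.mem_piFinset.2 fun i => Finset.mem_Icc.2 (abs_le.1 ((hcB i).trans
      (Nat.cast_le.2 (Finset.le_sup (Finset.mem_powerset.2 (Finset.filter_subset _ _))))))
  · obtain ⟨z, hz, h1⟩ := hmar _ ((mem w).1 hw) fun a => hw0 (Finset.mem_filter.2 ⟨hw, a⟩)
    obtain ⟨w', rfl⟩ := hs z hz
    obtain ⟨v, hv, v', hv', h2⟩ := hC fun i => ι (Pi.single i 1) ⬝ᵥ b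
    have h3 := h1 _ ((mem v).1 hv) _ ((mem v').1 hv')
    have h4 := h1 u₀ hu₀ u₀ hu₀
    rw [sub_self, zero_dotProduct, Int.cast_zero, mul_zero] at h4
    simp only [add_sub_add_left_eq_sub, ← map_sub] at h3 h4
    rw [← NormA.dot_eq ι b (w' - w)] at h3 h4
    rw [← NormA.dot_eq ι b (v - v')] at h3
    refine ⟨w', (mem w').2 hz, ?_⟩
    have h5 := (Int.cast_le (R := ℝ)).2 h2
    rw [Int.cast_mul, Int.cast_natCast, Int.cast_natCast] at h5
    generalize (((w' - w) ⬝ᵥ fun i => ι (Pi.single i 1) ⬝ᵥ b : ℤ) : ℝ) = g at h3 h4 ⊢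
    generalize (((v - v') ⬝ᵥ fun i => ι (Pi.single i 1) ⬝ᵥ b : ℤ) : ℝ) = y at h3 h5
    generalize ((nu fun i => ι (Pi.single i 1) ⬝ᵥ b : ℕ) : ℝ) = x at h5 ⊢
    have h6 : κ / (C + 1) * x ≤ g := by
      rw [div_mul_eq_mul_div, div_le_iff₀ (by positivity)]
      have := mul_le_mul_of_nonneg_left h5 hκ.le
      have := mul_le_mul_of_nonneg_left h3 (Nat.cast_nonneg C)
      nlinarith
    have := Real.sqrt_nonneg x
    linarith
  · have e' : dil m P = mapDomain ι P₁ * (dil m Un * mapDomain ι P₂) := by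
      rw [eP, map_mul, dil_map, e, mapDomain_mul]
      ring
    refine (habs m hm0 _ _ e' fun z hz z' hz' => ?_).imp (NormA.isUnit_of_map ι hι)
      fun hu => NormA.isUnit_of_map ι hι (isUnit_of_mul_isUnit_right hu)
    obtain ⟨u, hu, rfl⟩ := mem_mapDomain hz
    obtain ⟨u', hu', rfl⟩ := mem_mapDomain hz'
    rw [← map_sub, ← NormA.dot_eq]
    exact hd u hu u' hu'

end Pool.Agent.P.MP_aef18a_nt.TW
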