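import Pool.Agent.P.MP_aef18a_nt.TW.Iface

/-! The numerical side conditions can be met. -/

namespace Pool.Agent.P.MP_aef18a_nt.TW

open Polynomial Matrix LaurentPolynomial OW

namespace Numy

lemma divb {Q u m : ℕ} {C : ℝ} (hu : C ^ 2 ≤ u) (hm : m ≤ u ^ (Q + 1)) :
    C * (m : ℝ) ^ (((2 * (Q + 1) : ℕ) : ℝ)⁻¹) ≤ u := by
  set s := (m : ℝ) ^ (((2 * (Q + 1) : ℕ) : ℝ)⁻¹)
  have s0 : 0 ≤ s := by positivity
  have e : s ^ (2 * (Q + 1)) = m := Real.rpow_inv_natCast_pow m.cast_nonneg (by omega)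
  have h1 : s ^ 2 ≤ u := by
    refine le_of_pow_le_pow_left₀ (Nat.succ_ne_zero Q) u.cast_nonneg ?_
    rw [← pow_mul, e]
    exact_mod_cast hm
  refine le_of_pow_le_pow_left₀ two_ne_zero u.cast_nonneg ?_
  rw [mul_pow, sq (u : ℝ)]
  exact mul_le_mul hu h1 (by positivity) u.cast_nonneg

lemma energy {L J Q m g N u : ℕ} {ρ : ℝ} (hu : 1 ≤ u) (hN : u ≤ N) (hQ : N ≤ u ^ Q)
    (hJ : N ≤ J * g) (h1 : 1 ≤ ρ) (h2 : ρ ^ g ≤ (u : ℝ) ^ m)
    (h3 : 8 * (2 + Q + J * m + (J + 1) * L) ≤ u) :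
    8 * (2 + Real.log N + N * Real.log ρ + (J + 1) * Real.log L) ≤ (u : ℝ) ^ 2 := by
  have u1 : (1 : ℝ) ≤ u := by exact_mod_cast hu
  have lu : Real.log u ≤ u := Real.log_le_self u.cast_nonneg
  have a1 : Real.log N ≤ Q * u := by
    have : Real.log N ≤ Real.log ((u : ℝ) ^ Q) :=
      Real.log_le_log (by exact_mod_cast hu.trans hN) (by exact_mod_cast hQ)
    rw [Real.log_pow] at this
    exact this.trans (by gcongr)
  have a2 : N * Real.log ρ ≤ J * m * u := by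
    have k := Real.log_le_log (by positivity) h2
    rw [Real.log_pow, Real.log_pow] at k
    have k' : (N : ℝ) ≤ J * g := by exact_mod_cast hJ
    calc N * Real.log ρ ≤ J * g * Real.log ρ := mul_le_mul_of_nonneg_right k' (Real.log_nonneg h1)
      _ = J * (g * Real.log ρ) := by ring
      _ ≤ J * (m * u) := by
        refine mul_le_mul_of_nonneg_left (k.trans ?_) J.cast_nonneg
        gcongr
      _ = _ := by ring
  have a3 : (J + 1) * Real.log L ≤ (J + 1) * L * u := by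
    rw [mul_assoc]
    refine mul_le_mul_of_nonneg_left ((Real.log_le_self L.cast_nonneg).trans ?_) (by positivity)
    exact le_mul_of_one_le_right L.cast_nonneg u1
  have a4 : (8 * (2 + Q + J * m + (J + 1) * L) : ℝ) ≤ u := by exact_mod_cast h3
  nlinarith [mul_le_mul_of_nonneg_right a4 u.cast_nonneg]

end Numy

theorem p_Num (h : S_Div) : S_Num := by
  intro L J Q hL
  obtain ⟨C, -, hC⟩ := h (((2 * (Q + 1) : ℕ) : ℝ)⁻¹) (by positivity)
  obtain ⟨m, hm⟩ : ∃ m, m = (Q + 1) * L + 1 := ⟨_, rfl⟩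
  have mL : L + 1 ≤ m := by nlinarith
  have b1 : 1 < 2 ^ L * L := by nlinarith [Nat.one_le_two_pow (n := L)]
  refine ⟨2 * m, max (4 ^ L) (max (L ^ L) (max (3 * L) (max (2 * m * J) (max ((2 ^ L * L) ^ J)
    (max (8 * (2 + Q + J * m + (J + 1) * L)) ⌈C ^ 2⌉₊))))), fun g w N u hu uN NQ NJ gN hw => ?_⟩
  simp only [max_le_iff] at hu
  obtain ⟨c1, c2, c3, c4, c5, c6, c7⟩ := hu
  have u2 : 2 ≤ u := by omega
  have mg : m < g := lt_of_mul_lt_mul_left (a := J) (by omega : J * m < J * g) J.zero_le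
  have g0 : g ≠ 0 := by omega
  have m0 : 0 < m := by omega
  have hA : 3 * L * (g + 1) ^ L ≤ u ^ m := by
    have k : g + 1 ≤ u ^ (Q + 1) := by
      rw [pow_succ]
      nlinarith [Nat.one_le_pow Q u (by omega)]
    rw [hm, pow_succ', pow_mul]
    exact Nat.mul_le_mul c3 (Nat.pow_le_pow_left k L)
  have A1 : (1 : ℝ) ≤ 3 * L * (g + 1) ^ L := by
    have : 1 ≤ 3 * L * (g + 1) ^ L := Nat.mul_pos (by omega) (by positivity)
    exact_mod_cast this
  obtain ⟨ρ, hρ⟩ : ∃ ρ : ℝ, ρ = (3 * L * (g + 1) ^ L : ℝ) ^ (g : ℝ)⁻¹ := ⟨_, rfl⟩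
  have r1 : 1 ≤ ρ := hρ ▸ Real.one_le_rpow A1 (by positivity)
  have rg : ρ ^ g = 3 * L * (g + 1) ^ L := hρ ▸ Real.rpow_inv_natCast_pow (by positivity) g0
  have ru : ρ ^ g ≤ (u : ℝ) ^ m := by
    rw [rg]
    exact_mod_cast hA
  have Mm : g / m * m ≤ g := Nat.div_mul_le_self g m
  have M1 : 1 ≤ g / m := (Nat.le_div_iff_mul_le m0).2 (by omega)
  refine ⟨g / m, Nat.log (2 ^ L * L) u, ρ, ⟨c1, c2, uN, r1, rg.ge, ?_,
    Numy.energy (by omega) uN NQ NJ r1 ru c6,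
    (Nat.mul_le_mul_left _ (by omega)).trans Mm, ?_,
    (Nat.le_div_iff_mul_le m0).2 (by nlinarith), by nlinarith, NJ,
    Nat.le_log_of_pow_le b1 c5, Nat.pow_log_le_self _ (by omega),
    Nat.lt_pow_succ_log_self b1 u, fun k k1 k2 => ?_⟩, fun l l0 hl => ?_⟩
  · refine le_of_pow_le_pow_left₀ m0.ne' u.cast_nonneg ?_
    rw [← pow_mul]
    exact (pow_le_pow_right₀ r1 Mm).trans ru
  · have k : g ≤ 2 * m * (g / m) := by nlinarith [Nat.lt_mul_div_succ g m0]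
    calc N ≤ J * (2 * m * (g / m)) := NJ.trans (Nat.mul_le_mul_left J k)
      _ = g / m * (2 * m * J) := by ring
      _ ≤ _ := Nat.mul_le_mul_left _ c4
  · have k3 : k ≤ u ^ (Q + 1) := by
      rw [pow_succ']
      exact k2.trans (Nat.mul_le_mul (Nat.log_le_self _ u) (gN.trans NQ))
    have k4 : C ^ 2 ≤ u := Nat.ceil_le.1 c7
    exact_mod_cast (hC k (by omega)).trans (Numy.divb k4 k3)
  · exact (Nat.le_div_iff_mul_le m0).2 (by nlinarith)

end Pool.Agent.P.MP_aef18a_nt.TW
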