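import Pool.Agent.P.MP_aef18a_nt.TW.Iface

namespace Pool.Agent.P.MP_aef18a_nt.TW

open Polynomial Matrix LaurentPolynomial OW

namespace Oney

lemma numA {N u M L : ℝ} (hu : 16 ≤ u) (hN : u ≤ N) (hL0 : 0 ≤ L) (hL : L ≤ u) :
    L * (N / u ^ 16 * (1 + u * u ^ 2)) ≤ 2 * N / u ^ 12 := by
  have hu0 : 0 < u := by linarith
  have hN0 : 0 < N := by linarith
  have h3 : 1 + u * u ^ 2 ≤ 2 * u ^ 3 := by
    have : 1 ≤ u ^ 3 := one_le_pow₀ (by linarith)
    nlinarith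
  calc L * (N / u ^ 16 * (1 + u * u ^ 2)) ≤ u * (N / u ^ 16 * (2 * u ^ 3)) := by gcongr
    _ = 2 * N / u ^ 12 := by field_simp

lemma numB {N u M L : ℝ} (hu : 16 ≤ u) (hN : u ≤ N) (hL0 : 0 ≤ L) (hL : L ≤ u)
    (hM : N ≤ M * u) : L * (N / u ^ 16 * (1 + u * u ^ 2)) < 1 / u * M := by
  have hu0 : 0 < u := by linarith
  have hN0 : 0 < N := by linarith
  refine lt_of_le_of_lt (numA (M := M) hu hN hL0 hL) ?_
  have h10 : (2 : ℝ) < u ^ 10 := by
    have : (16 : ℝ) ^ 10 ≤ u ^ 10 := by gcongr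
    linarith [show (2 : ℝ) < 16 ^ 10 by norm_num]
  calc 2 * N / u ^ 12 < u ^ 10 * N / u ^ 12 := by gcongr
    _ = N / u ^ 2 := by field_simp
    _ ≤ M * u / u ^ 2 := by gcongr
    _ = 1 / u * M := by field_simp

lemma numC {N u M L P : ℝ} (hu : 16 ≤ u) (hN : u ≤ N) (hL0 : 0 ≤ L) (hL : L ≤ u)
    (hP : P ≤ u) (hM : N ≤ M * u) :
    P * (L * (N / u ^ 16 * (1 + u * u ^ 2)) * (1 + N * u * (1 + u * u ^ 2) / M)) < M := by
  have hu0 : 0 < u := by linarith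
  have hN0 : 0 < N := by linarith
  have hM0 : 0 < M := by
    by_contra hc
    have : M * u ≤ 0 := mul_nonpos_of_nonpos_of_nonneg (not_lt.mp hc) hu0.le
    linarith
  have h3 : 1 + u * u ^ 2 ≤ 2 * u ^ 3 := by
    have : 1 ≤ u ^ 3 := one_le_pow₀ (by linarith)
    nlinarith
  have h5 : 1 + N * u * (1 + u * u ^ 2) / M ≤ 3 * u ^ 5 := by
    have h1 : 1 ≤ u ^ 5 := one_le_pow₀ (by linarith)
    have h2 : N * u * (1 + u * u ^ 2) / M ≤ 2 * u ^ 5 := by
      calc N * u * (1 + u * u ^ 2) / M ≤ M * u * u * (2 * u ^ 3) / M := by gcongr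
        _ = 2 * u ^ 5 := by field_simp
    linarith
  have hA := numA (M := M) hu hN hL0 hL
  have h6 : (6 : ℝ) < u ^ 5 := by
    have : (16 : ℝ) ^ 5 ≤ u ^ 5 := by gcongr
    linarith [show (6 : ℝ) < 16 ^ 5 by norm_num]
  calc P * (L * (N / u ^ 16 * (1 + u * u ^ 2)) * (1 + N * u * (1 + u * u ^ 2) / M))
      ≤ u * (2 * N / u ^ 12 * (3 * u ^ 5)) := by gcongr
    _ = 6 * N / u ^ 6 := by field_simp; ring
    _ < u ^ 5 * N / u ^ 6 := by gcongr
    _ = N / u := by field_simp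
    _ ≤ M * u / u := by gcongr
    _ = M := by field_simp

lemma numD {N u a b : ℝ} (hu : 16 ≤ u) (hN : u ≤ N) (ha : N / u ≤ a) (hb : a + N / u ≤ b)
    (hbN : b ≤ N) : 1 / u ≤ a / b ∧ a / b ≤ 1 - 1 / u := by
  have hu0 : 0 < u := by linarith
  have hN0 : 0 < N := by linarith
  have hq : 0 < N / u := by positivity
  have hb0 : 0 < b := by linarith
  have hbu : b / u ≤ N / u := by gcongr
  constructor
  · rw [le_div_iff₀ hb0]
    calc 1 / u * b = b / u := by ring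
      _ ≤ a := hbu.trans ha
  · rw [div_le_iff₀ hb0]
    calc a ≤ b - b / u := by linarith
      _ = (1 - 1 / u) * b := by ring

lemma lc_le {S : ℤ[X]} (hS : S ≠ 0) : S.leadingCoeff.natAbs ≤ l1p S := by
  unfold l1p
  exact Finset.single_le_sum (f := fun i => (S.coeff i).natAbs) (fun _ _ => Nat.zero_le _)
    (natDegree_mem_support_of_nonzero hS)

lemma root_of {S f h : ℤ[X]} (e : S = f * h) {β : ℂ} (hβ : β ∈ f.aroots ℂ) : aeval β S = 0 := by
  rw [e, map_mul, (mem_aroots'.mp hβ).2, zero_mul]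

end Oney

open Oney in
theorem p_One (hN : S_Num) (hS : S_Setup2) (h1 : S_One1) (h2 : S_One2) (hV : S_Vser)
    (hF : S_First) (hX : S_ExT) (hB : S_Big) (hR : S_TRoot) : S_One := by
  intro L J Q
  by_cases hL : 2 ≤ L
  swap
  · exact ⟨0, 0, fun g w u σ d S φ T W hT => absurd hT.L2 hL⟩
  obtain ⟨Y, u₀, hN'⟩ := hN L J Q hL
  refine ⟨Y, u₀ + 16, ?_⟩
  intro g w u σ d S φ T W hT hNJ hY hu huN hNQ hTF hSim hTwo hDeg hlev
  obtain ⟨M, R₀, ρ, hm, hlM⟩ := hN' g w S.natDegree u (by omega) huN hNQ hNJ hT.gN hY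
  obtain ⟨g₁, h, St, c, hs, hFS⟩ := hS S _ hT.c0 hSim hTwo hDeg
  have hS0 : S ≠ 0 := fun e => hT.c0 (by simp [e])
  have hg1 : 1 ≤ g := by have := hT.wg; omega
  have hgN := hT.gN
  have hM1 : 1 ≤ M := by
    rcases Nat.eq_zero_or_pos M with e | e
    · have := hm.NM; rw [e, zero_mul] at this; omega
    · exact e
  have hwM : w < M := by have := hm.wM; omega
  have hMg : M ≤ g := le_trans (Nat.le_mul_of_pos_right M (by omega)) hm.ML
  have hdvd : St ∣ S := ⟨_, hs.cyc⟩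
  have hc : ∀ l ∈ c, 0 < l ∧ l < M := by
    intro l hl
    refine ⟨hs.pos l hl, hlM l (hs.pos l hl) (hlev l (hs.pos l hl) ?_)⟩
    rw [hs.cyc]
    exact Dvd.dvd.mul_left (Multiset.dvd_prod (Multiset.mem_map_of_mem _ hl)) _
  obtain ⟨j₁, z, hgj, hjN, hz0, hzL, hz1, hz2⟩ :=
    hF L g w M σ d S φ T W St c hT hs.cyc hc hwM hMg
  have hint : ∀ β : ℂ, aeval β S = 0 → IsIntegral ℤ ((d : ℂ) * β ^ g) := by
    intro β hβ
    have := (hR L g w σ d S φ T W hT β hβ).2.2.2.1 1 g (by omega)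
    rwa [pow_one] at this
  have hI1 := hV S g₁ h d L g M hS0 hs.gh hT.d0 hT.dL hg1 hm.ML
    fun β hβ => hint β (root_of hs.gh hβ)
  have hI2 := hV S St _ d L g M hS0 hs.cyc hT.d0 hT.dL hg1 hm.ML
    fun β hβ => hint β (root_of hs.cyc hβ)
  have hNK : S.natDegree ≤ R₀ * g := hNJ.trans (Nat.mul_le_mul_right g hm.JR)
  have hu16 : (16 : ℝ) ≤ u := by exact_mod_cast (show 16 ≤ u by omega)
  have huN' : (u : ℝ) ≤ S.natDegree := by exact_mod_cast huN
  have hLL : (L : ℝ) ^ L ≤ u := by exact_mod_cast hm.uL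
  have hLu : (L : ℝ) ≤ u := by
    have : L ≤ L ^ L := Nat.le_self_pow (by omega) L
    exact_mod_cast this.trans hm.uL
  have hNM : (S.natDegree : ℝ) ≤ M * u := by exact_mod_cast hm.NM
  have hStN : (St.natDegree : ℝ) ≤ S.natDegree := by
    exact_mod_cast natDegree_le_of_dvd hdvd hS0
  obtain ⟨hδ1, hδ2⟩ := numD hu16 huN' hs.lo hs.hi hStN
  have hee : (fun i => ps g₁ i - (((g₁.natDegree : ℝ) / St.natDegree : ℝ) : ℂ) * ps St i) =
      ee g₁ St := by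
    funext i
    simp [ee]
  obtain ⟨r, s, hr, hrs, hrel⟩ := hX (ps g₁) (ps St) S.leadingCoeff z L M (R₀ * g) u j₁
    ((g₁.natDegree : ℝ) / St.natDegree) (1 / u) (S.natDegree / (u : ℝ) ^ 16) (S.natDegree * u) u
    (leadingCoeff_ne_zero.mpr hS0) ((lc_le hS0).trans hT.len) hM1 (hMg.trans hgj)
    (hjN.trans hNK) hz0 hzL (by linarith) (by positivity) (by positivity) hz1 hz2 hI1 hI2 hm.div
    (fun j hj hjM => by
      have := h1 L J g w u M R₀ ρ _ σ d S φ T W g₁ h St c hT hm hs hFS hTF j hj hjM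
      rw [← hee] at this
      exact this)
    (fun j hj hjK => by
      rw [hee]
      exact h2 L J g w u M R₀ ρ _ σ d S φ T W g₁ h St c hT hm hs hFS hTF j hj hjK)
    hδ1 hδ2 (numB hu16 huN' (by positivity) hLu hNM)
    (numC hu16 huN' (by positivity) hLu hLL hNM)
  refine ⟨R₀, hm.JR, hm.up, ?_⟩
  intro β hβ hβ1
  have hmem : β ∈ S.aroots ℂ := by
    rw [mem_aroots']
    exact ⟨(Polynomial.map_ne_zero_iff (algebraMap ℤ ℂ).injective_int).mpr hS0, hβ⟩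
  have := hB S g₁ St L (R₀ * g) r s M hS0 hT.len hdvd hs.sub hs.nodup hr hrs hNK hrel β
    (hs.out β hmem hβ1) hβ1.le
  refine this.trans ?_
  have hMN : (M : ℝ) ≤ S.natDegree := by exact_mod_cast hMg.trans hgN
  calc (L : ℝ) * S.natDegree * M * ‖β‖ ^ S.natDegree
      ≤ L * S.natDegree * S.natDegree * ‖β‖ ^ S.natDegree := by gcongr
    _ = L * (S.natDegree : ℝ) ^ 2 * ‖β‖ ^ S.natDegree := by ring

end Pool.Agent.P.MP_aef18a_nt.TW
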