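import Pool.Agent.P.MP_aef18a_nt.TW.Iface

namespace Pool.Agent.P.MP_aef18a_nt.TW

open Polynomial Matrix LaurentPolynomial OW

namespace One12y

variable {L J g w u M R₀ N : ℕ} {ρ y : ℝ} {σ : Multiset ℕ} {d : ℤ} {S φ T W g₁ h St f : ℤ[X]}
  {c : Multiset ℕ}

lemma S_ne (hT : TL L g w σ d S φ T W) : S ≠ 0 := fun e => hT.c0 (by rw [e, coeff_zero])

lemma root (hf : f ∣ S) {β : ℂ} (hβ : β ∈ f.aroots ℂ) : aeval β S = 0 := by
  obtain ⟨q, rfl⟩ := hf
  rw [map_mul, (mem_aroots.1 hβ).2, zero_mul]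

lemma lc_le (hT : TL L g w σ d S φ T W) (hf : f ∣ S) : f.leadingCoeff.natAbs ≤ L := by
  have h0 := S_ne hT
  refine (Int.natAbs_le_of_dvd_ne_zero (leadingCoeff_dvd_leadingCoeff hf)
    (leadingCoeff_ne_zero.2 h0)).trans (le_trans ?_ hT.len)
  exact Finset.single_le_sum (f := fun i => (S.coeff i).natAbs) (fun _ _ => Nat.zero_le _)
    (natDegree_mem_support_of_nonzero h0)

lemma log_le {z : ℤ} (h0 : z ≠ 0) (h : z.natAbs ≤ L) : Real.log |(z : ℝ)| ≤ Real.log L := by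
  refine Real.log_le_log (abs_pos.2 (Int.cast_ne_zero.2 h0)) ?_
  rw [← Int.cast_abs, ← Nat.cast_natAbs]
  exact_mod_cast h

lemma tw_eq (σ : Multiset ℕ) (R j : ℕ) : tw σ R j = fun β => β ^ j * aeval β⁻¹ (Ph σ ^ R) :=
  funext fun β => by rw [tw, map_pow]

lemma tws_sf (hR : S_TRoot) (hS : S_TwSum) (hT : TL L g w σ d S φ T W) (hf : f ∣ S)
    {σ' : Multiset ℕ} {R j : ℕ} (hj : R * σ'.sum < j) :
    tws (Ph σ' ^ R) (ps f) j = sf f (tw σ' R j) := by
  rw [tw_eq, hS f _ j (fun β hβ => (hR _ _ _ _ _ _ _ _ _ hT β (root hf hβ)).1)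
    ((natDegree_pow_le.trans (Nat.mul_le_mul_left _ (natDegree_Ph _))).trans_lt hj)]

lemma tws_ee (P : ℤ[X]) (j : ℕ) : tws P (ee g₁ St) j =
    tws P (ps g₁) j - (g₁.natDegree : ℂ) / St.natDegree * tws P (ps St) j := by
  simp only [tws_eq, ee, Finset.mul_sum, ← Finset.sum_sub_distrib]
  exact Finset.sum_congr rfl fun _ _ => by ring

lemma flat (hR : S_TRoot) (hS : S_TwSum) (hT : TL L g w σ d S φ T W)
    (hU : Setup S g₁ h St c y 0 0) (hF : FS S g₁ St) {σ' : Multiset ℕ} {R j : ℕ} {η : ℝ}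
    (hj : R * σ'.sum < j) (hl : Fl S (tw σ' R j) η) :
    ‖tws (Ph σ' ^ R) (ee g₁ St) j‖ ≤ S.natDegree * η := by
  rw [tws_ee, tws_sf hR hS hT ⟨_, hU.gh⟩ hj, tws_sf hR hS hT ⟨_, hU.cyc⟩ hj]
  exact hF _ _ hl

lemma norm_sf_le {ψ : ℂ → ℂ} {C : ℝ} (h : ∀ β ∈ f.aroots ℂ, ‖ψ β‖ ≤ C) :
    ‖sf f ψ‖ ≤ f.natDegree * C := by
  refine (norm_multiset_sum_le _).trans ?_
  rw [Multiset.map_map, ← card_aroots, ← nsmul_eq_mul,
    ← Multiset.card_map ((fun x => ‖x‖) ∘ ψ)]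
  refine Multiset.sum_le_card_nsmul _ _ fun x hx => ?_
  obtain ⟨β, h1, rfl⟩ := Multiset.mem_map.1 hx
  exact h β h1

lemma u16 (hL : 2 ≤ L) (h : 4 ^ L ≤ u) : 16 ≤ u :=
  le_trans (Nat.pow_le_pow_right (by norm_num : 0 < 4) hL) h

lemma pow_le (hL : 2 ≤ L) (h : 4 ^ L ≤ u) {k : ℕ} (hk : k ≤ 160) : u ^ k ≤ u ^ (80 * L) :=
  Nat.pow_le_pow_right (by have := u16 hL h; omega) (by omega)

lemma norm_le (hR : S_TRoot) (hT : TL L g w σ d S φ T W) (hN : Nm L J g w N u M R₀ ρ) {β : ℂ}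
    (hβ : aeval β S = 0) : ‖β‖ ≤ ρ :=
  (pow_le_pow_iff_left₀ (norm_nonneg _) (zero_le_one.trans hN.ρ1)
    (by have := hT.wg; omega : g ≠ 0)).1 ((hR _ _ _ _ _ _ _ _ _ hT β hβ).2.2.1.trans hN.ρg)

lemma M_le (hL : 2 ≤ L) (hN : Nm L J g w N u M R₀ ρ) : M ≤ g :=
  le_trans (Nat.le_mul_of_pos_right _ (by omega)) hN.ML

lemma energy (hR : S_TRoot) (hE : S_En2) (hT : TL L g w σ d S φ T W)
    (hN : Nm L J g w S.natDegree u M R₀ ρ) (hf : f ∣ S) (hn : (f.aroots ℂ).Nodup) :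
    ∑ j ∈ Finset.Icc 1 M, ‖ps f j‖ ^ 2 ≤ (S.natDegree : ℝ) ^ 2 * (u : ℝ) ^ 4 := by
  have h0 := S_ne hT
  have f0 : f ≠ 0 := ne_zero_of_dvd_ne_zero h0 hf
  have hM : M ≤ S.natDegree := (M_le hT.L2 hN).trans hT.gN
  have e1 := hE f S.natDegree M (d ^ J) ρ f0 (by have := hT.wg; have := hT.gN; omega)
    (natDegree_le_of_dvd hf h0) hM (pow_ne_zero _ hT.d0) hN.ρ1 hn fun β hβ =>
      ⟨norm_le hR hT hN (root hf hβ), fun e he => by
        rw [Int.cast_pow]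
        exact (hR _ _ _ _ _ _ _ _ _ hT β (root hf hβ)).2.2.2.1 J e (he.trans hN.NJ)⟩
  have e2 := log_le (leadingCoeff_ne_zero.2 f0) (lc_le hT hf)
  have e3 := mul_le_mul_of_nonneg_left (log_le hT.d0 hT.dL) (Nat.cast_nonneg (α := ℝ) J)
  have e4 := hN.en
  have e5 : 0 ≤ ρ ^ M := pow_nonneg (zero_le_one.trans hN.ρ1) _
  have e6 := hN.ρM
  rw [Int.cast_pow, abs_pow, Real.log_pow] at e1
  refine e1.trans ((mul_le_mul_of_nonneg_left (c := (u : ℝ) ^ 2) (by linarith)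
    (by positivity)).trans ?_)
  calc (M : ℝ) * (ρ ^ M) ^ 2 * S.natDegree * (u : ℝ) ^ 2
      ≤ S.natDegree * (u : ℝ) ^ 2 * S.natDegree * (u : ℝ) ^ 2 := by gcongr
    _ = _ := by ring

end One12y

open One12y

theorem p_One1 (hR : S_TRoot) (hB : S_TwB) (hS : S_TwSum) (hE : S_En2) (hW : S_Raw) :
    S_One1 := by
  intro L J g w u M R₀ ρ y σ d S φ T W g₁ h St c hT hN hU hF hTF j j1 jM
  have h0 := S_ne hT
  have d1 : g₁ ∣ S := ⟨_, hU.gh⟩
  have d2 : St ∣ S := ⟨_, hU.cyc⟩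
  have hM := M_le hT.L2 hN
  have hp : ∀ i < M, ∀ t : ℝ, 0 ≤ t → t ≤ ρ → t ^ i ≤ u := fun i hi t t0 ht =>
    (pow_le_pow_left₀ t0 ht i).trans ((pow_le_pow_right₀ hN.ρ1 hi.le).trans hN.ρM)
  refine ⟨hW L M S.natDegree u σ _ hT.L2 hT.card hT.pos hN.u4
    (fun σ' hσ s₀ i h1 h2 h3 h4 => ?_) ?_ j j1 jM, ?_⟩
  · have := flat hR hS hT hU hF (R := 1) (by rwa [one_mul])
      (hTF σ' hσ 1 (2 * u ^ 40 * L) s₀ i ?_ (by omega) (by omega) h3 h4 fun β hβ => ?_)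
    · rwa [pow_one, Nat.cast_pow] at this
    · have a1 : 2 * L + 1 ≤ u := by
        refine le_trans ?_ hN.u4
        have a2 : L < 2 ^ L := Nat.lt_two_pow_self
        have a3 : 2 ≤ 2 ^ L := by have := hT.L2; omega
        rw [show 4 = 2 * 2 from rfl, mul_pow]
        nlinarith
      have a2 : 1 ≤ u ^ 40 := Nat.one_le_pow _ _ (by omega)
      refine le_trans ?_ (pow_le hT.L2 hN.u4 (k := 41 * 2) (by norm_num))
      rw [pow_mul, pow_succ u 40]
      exact Nat.pow_le_pow_left (by nlinarith) 2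
    · refine (hB σ' i β (hR _ _ _ _ _ _ _ _ _ hT β hβ).1 h1.le).trans ?_
      have a1 : 2 ^ σ'.card ≤ u :=
        ((Nat.pow_le_pow_right two_pos ((Multiset.card_le_card hσ).trans hT.card)).trans
          (Nat.pow_le_pow_left (by norm_num) L)).trans hN.u4
      have a2 := hp i h2 (max 1 ‖β‖) (by positivity) (max_le hN.ρ1 (norm_le hR hT hN hβ))
      have a3 : ((u ^ 2 : ℕ) : ℝ) ≤ (u ^ (80 * L) : ℕ) :=
        Nat.cast_le.2 (pow_le hT.L2 hN.u4 (by norm_num))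
      refine le_trans ?_ a3
      rw [Nat.cast_pow, sq]
      exact mul_le_mul (by exact_mod_cast a1) a2 (by positivity) (by positivity)
  · have a1 := energy hR hE hT hN d1 (Multiset.nodup_of_le hU.sub hU.nodup)
    have a2 := energy hR hE hT hN d2 hU.nodup
    have a3 : ‖(g₁.natDegree : ℂ) / St.natDegree‖ ≤ 1 := by
      rw [norm_div, Complex.norm_natCast, Complex.norm_natCast]
      refine div_le_one_of_le₀ (Nat.cast_le.2 ?_) (Nat.cast_nonneg _)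
      rw [← card_aroots, ← card_aroots]
      exact Multiset.card_le_card hU.sub
    have a4 : ∀ i, ‖ee g₁ St i‖ ^ 2 ≤ 2 * ‖ps g₁ i‖ ^ 2 + 2 * ‖ps St i‖ ^ 2 := fun i => by
      have b1 : ‖ee g₁ St i‖ ≤ ‖ps g₁ i‖ + ‖ps St i‖ := by
        refine (norm_sub_le _ _).trans (add_le_add le_rfl ?_)
        rw [norm_mul]
        exact mul_le_of_le_one_left (norm_nonneg _) a3
      refine (pow_le_pow_left₀ (norm_nonneg _) b1 2).trans ?_
      nlinarith [sq_nonneg (‖ps g₁ i‖ - ‖ps St i‖)]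
    refine (Finset.sum_le_sum fun i _ => a4 i).trans ?_
    rw [Finset.sum_add_distrib, ← Finset.mul_sum, ← Finset.mul_sum]
    linarith
  · refine (norm_ps_le fun β hβ => hp j jM _ (norm_nonneg _)
      (norm_le hR hT hN (root d2 hβ))).trans ?_
    exact mul_le_mul_of_nonneg_right (Nat.cast_le.2 (natDegree_le_of_dvd d2 h0))
      (Nat.cast_nonneg _)

theorem p_One2 (hR : S_TRoot) (hS : S_TwSum) : S_One2 := by
  intro L J g w u M R₀ ρ y σ d S φ T W g₁ h St c hT hN hU hF hTF j jM jR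
  have h0 := S_ne hT
  have d2 : St ∣ S := ⟨_, hU.cyc⟩
  have g0 : 0 < g := by have := hT.wg; omega
  have M0 : 0 < M := Nat.pos_of_ne_zero fun e => by
    have := hN.NM
    have := hT.gN
    rw [e, zero_mul] at *
    omega
  obtain ⟨R, r1, r2⟩ : ∃ R, j ≤ R * g ∧ R * g < j + g := by
    have a1 := Nat.div_add_mod' (j + g - 1) g
    have a2 := Nat.mod_lt (j + g - 1) g0
    exact ⟨(j + g - 1) / g, by omega, by omega⟩
  have r3 : R ≤ R₀ := by
    by_contra e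
    have := Nat.mul_le_mul_right g (show R₀ + 1 ≤ R by omega)
    rw [add_one_mul] at this
    omega
  have r4 : R * σ.sum < j := by
    refine (Nat.mul_le_mul_left R hT.sum).trans_lt ?_
    have a1 := hN.wM
    by_cases e : R ≤ 1
    · have := Nat.mul_le_mul_right w e
      omega
    · have a2 := Nat.mul_le_mul_right g (show 2 ≤ R by omega)
      have a3 := Nat.mul_le_mul_left R hN.wg
      rw [mul_left_comm] at a3
      omega
  have L2 := hT.L2
  have b0 : 2 ^ L ≤ 2 ^ L * L := Nat.le_mul_of_pos_right _ (by omega)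
  have b1 : 2 ≤ 2 ^ L * L := le_trans L2 (Nat.le_mul_of_pos_left _ (by positivity))
  have b2 : (2 ^ L * L) ^ R ≤ u := (Nat.pow_le_pow_right (by omega) r3).trans hN.lo
  have b3 : R < u := Nat.lt_two_pow_self.trans_le ((Nat.pow_le_pow_left b1 R).trans b2)
  have b4 : ∀ β : ℂ, aeval β S = 0 → ‖tw σ R j β‖ ≤ u := fun β hβ =>
    ((hR _ _ _ _ _ _ _ _ _ hT β hβ).2.2.2.2 R j r4.le r1).trans (by exact_mod_cast b2)
  have b5 := u16 L2 hN.u4
  refine ⟨Ph σ ^ R, ?_, Nat.cast_le.2 ?_, ?_, ?_⟩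
  · rw [coeff_zero_eq_eval_zero, eval_pow, ← coeff_zero_eq_eval_zero, Ph_coeff_zero hT.pos,
      one_pow]
  · exact (l1p_pow _ _).trans ((Nat.pow_le_pow_left ((l1p_Ph σ).trans
      ((Nat.pow_le_pow_right two_pos hT.card).trans b0)) R).trans b2)
  · refine (flat hR hS hT hU hF r4 (hTF σ le_rfl R 1 j j ?_ r4.le r1 (by simp) (by omega)
      fun β hβ => (b4 β hβ).trans (Nat.cast_le.2 ?_))).trans ?_
    · exact (Nat.pow_le_pow_left b3 2).trans (pow_le L2 hN.u4 (by norm_num))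
    · simpa using pow_le L2 hN.u4 (k := 1) (by norm_num)
    · rw [div_eq_mul_one_div (S.natDegree : ℝ)]
      refine mul_le_mul_of_nonneg_left ?_ (Nat.cast_nonneg _)
      have a0 : 0 < u := by omega
      rw [div_le_div_iff₀ (by positivity) (by positivity), one_mul]
      have a1 : 9 * u ^ 16 ≤ u ^ (80 * L) := by
        refine le_trans ?_ (pow_le L2 hN.u4 (k := 17) (by norm_num))
        rw [pow_succ' u 16]
        exact Nat.mul_le_mul_right _ (by omega)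
      exact_mod_cast a1
  · rw [tws_sf hR hS hT d2 r4]
    exact (norm_sf_le fun β hβ => b4 β (root d2 hβ)).trans (mul_le_mul_of_nonneg_right
      (Nat.cast_le.2 (natDegree_le_of_dvd d2 h0)) (Nat.cast_nonneg _))

end Pool.Agent.P.MP_aef18a_nt.TW
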