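import Pool.Agent.P.MP_aef18a_nt.TW.Iface

/-! A power series over a discrete valuation ring with a pole. -/

namespace Pool.Agent.P.MP_aef18a_nt.TW

open Polynomial Matrix LaurentPolynomial OW

namespace PXy

theorem dvr0 (p : PowerSeries (PowerSeries ℂ))
    (h1 : PowerSeries.constantCoeff (PowerSeries.coeff 0 p) = 0)
    (h2 : ∃ m, PowerSeries.constantCoeff (PowerSeries.coeff m p) ≠ 0) (n : ℕ) :
    ∀ (Z : PowerSeries (PowerSeries ℂ)) (q : PowerSeries ℂ), PowerSeries.coeff n q ≠ 0 →
      p * Z ≠ PowerSeries.C q := by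
  have h0 : ∀ (Z : PowerSeries (PowerSeries ℂ)) (q : PowerSeries ℂ), p * Z = PowerSeries.C q →
      PowerSeries.constantCoeff q = 0 := fun Z q h => by
    have := congrArg (fun s => PowerSeries.constantCoeff (PowerSeries.constantCoeff s)) h
    rw [PowerSeries.coeff_zero_eq_constantCoeff] at h1
    simpa [h1] using this.symm
  induction n with
  | zero => exact fun Z q hq h => hq (by simpa using h0 Z q h)
  | succ n ih =>
    intro Z q hq h
    have hc := h0 Z q h
    obtain ⟨q', rfl⟩ := PowerSeries.X_dvd_iff.2 hc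
    have h3 := congrArg (PowerSeries.map (PowerSeries.constantCoeff (R := ℂ))) h
    rw [map_mul, PowerSeries.map_C, hc, map_zero] at h3
    obtain ⟨m, hm⟩ := h2
    have h4 : PowerSeries.map (PowerSeries.constantCoeff (R := ℂ)) Z = 0 :=
      (mul_eq_zero.1 h3).resolve_left fun e => hm (by
        simpa using congrArg (PowerSeries.coeff m) e)
    have h5 : ∀ k, ∃ z, PowerSeries.coeff k Z = PowerSeries.X * z := fun k =>
      PowerSeries.X_dvd_iff.2 (by simpa using congrArg (PowerSeries.coeff k) h4)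
    choose z hz using h5
    have h6 : Z = PowerSeries.C PowerSeries.X * PowerSeries.mk z := by
      ext1 k
      rw [PowerSeries.coeff_C_mul, PowerSeries.coeff_mk, hz]
    refine ih (PowerSeries.mk z) q' (by simpa [PowerSeries.coeff_succ_X_mul] using hq) ?_
    have h7 : (PowerSeries.C PowerSeries.X : PowerSeries (PowerSeries ℂ)) ≠ 0 := fun e =>
      PowerSeries.X_ne_zero (R := ℂ) (by simpa using congrArg PowerSeries.constantCoeff e)
    refine mul_left_cancel₀ h7 ?_
    rw [← map_mul, ← h, h6, mul_left_comm]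

/-- the field of fractions -/
abbrev KK : Type := FractionRing (PowerSeries ℂ)

/-- the inclusion -/
noncomputable abbrev io : PowerSeries ℂ →+* KK := algebraMap _ _

theorem io_inj : Function.Injective io := IsFractionRing.injective _ _

/-- polynomials as power series over the field of fractions -/
noncomputable def Φ : (PowerSeries ℂ)[X] →+* PowerSeries KK :=
  (PowerSeries.map io).comp Polynomial.coeToPowerSeries.ringHom

theorem Φ_eq (g : (PowerSeries ℂ)[X]) : Φ g = PowerSeries.map io (g : PowerSeries _) := rfl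

theorem coeff_Φ (g : (PowerSeries ℂ)[X]) (n : ℕ) : PowerSeries.coeff n (Φ g) = io (g.coeff n) := by
  rw [Φ_eq, PowerSeries.coeff_map, Polynomial.coeff_coe]

theorem Φ_C (a : PowerSeries ℂ) : Φ (Polynomial.C a) = PowerSeries.C (io a) := by
  rw [Φ_eq, Polynomial.coe_C, PowerSeries.map_C]

theorem quot (p A w : (PowerSeries ℂ)[X]) (τ f : PowerSeries ℂ) (cc : PowerSeries KK)
    (hp : Φ p ≠ 0) (hc : Φ p * cc = Φ A) (h : p * Polynomial.C τ = Polynomial.C f + w)
    (hw : w.coeff 0 = 0) (R n : ℕ) (hn : n < R) :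
    io ((A * (Polynomial.C τ * ∑ i ∈ Finset.range R,
      (-w) ^ i * Polynomial.C f ^ (R - 1 - i))).coeff n) = io f ^ R * PowerSeries.coeff n cc := by
  obtain ⟨T, hT⟩ : ∃ T, T = ∑ i ∈ Finset.range R, (-w) ^ i * Polynomial.C f ^ (R - 1 - i) :=
    ⟨_, rfl⟩
  have h1 : p * (A * (Polynomial.C τ * T)) = A * (Polynomial.C f ^ R - (-w) ^ R) := by
    have := geom_sum₂_mul (-w) (Polynomial.C f) R
    rw [← hT] at this
    linear_combination (A * T) * h - A * this
  have h2 : Φ (A * (Polynomial.C τ * T)) = PowerSeries.C (io f ^ R) * cc - Φ (-w) ^ R * cc := by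
    refine mul_left_cancel₀ hp ?_
    rw [← map_mul, h1, map_mul, map_sub, map_pow, map_pow, Φ_C, ← hc, map_pow]
    ring
  have h3 : PowerSeries.X ^ R ∣ Φ (-w) ^ R * cc := by
    refine (pow_dvd_pow_of_dvd (PowerSeries.X_dvd_iff.2 ?_) R).mul_right _
    rw [← PowerSeries.coeff_zero_eq_constantCoeff_apply, coeff_Φ, coeff_neg, hw, neg_zero, map_zero]
  rw [← hT, ← coeff_Φ, h2, map_sub, PowerSeries.X_pow_dvd_iff.1 h3 n hn, sub_zero,
    PowerSeries.coeff_C_mul]

end PXy

open PXy

theorem p_Dvr : S_Dvr := by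
  intro p Z q c h0 h1 h2 hq
  induction c generalizing Z with
  | zero =>
    obtain ⟨n, hn⟩ : ∃ n, PowerSeries.coeff n q ≠ 0 := by
      by_contra hc
      exact hq (PowerSeries.ext fun n => by simpa using not_exists.1 hc n)
    rw [PowerSeries.monomial_zero_eq_C_apply]
    exact dvr0 p h1 h2 n Z q hn
  | succ c ih =>
    intro h
    have h3 := congrArg (PowerSeries.coeff 0) h
    rw [PowerSeries.coeff_monomial, if_neg (by omega), PowerSeries.coeff_zero_eq_constantCoeff,
      map_mul] at h3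
    rw [PowerSeries.coeff_zero_eq_constantCoeff] at h0
    obtain ⟨Z', rfl⟩ := PowerSeries.X_dvd_iff.2 ((mul_eq_zero.1 h3).resolve_left h0)
    refine ih Z' (mul_left_cancel₀ PowerSeries.X_ne_zero ?_)
    rw [mul_left_comm, h, PowerSeries.X_eq, PowerSeries.monomial_mul_monomial, one_mul, add_comm]

theorem p_PX1 (h : S_Dvr) : S_PX1 := by
  intro p A w P P' τ ε q e c ω k₁ _ hε hq hp hw h1 h2 hP
  by_contra hc
  push Not at hc
  obtain ⟨u, hu⟩ := hε.exists_right_inv
  have hX : (PowerSeries.X : PowerSeries ℂ) ≠ 0 := PowerSeries.X_ne_zero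
  have hp0 : p.coeff 0 ≠ 0 := fun e0 => by
    have := congrArg (fun g => g.coeff 0) hp
    simp only [coeff_mul_C, e0, zero_mul, coeff_add, coeff_C_zero, hw, add_zero] at this
    exact mul_ne_zero (pow_ne_zero e hX) hε.ne_zero this.symm
  have hp1 : PowerSeries.constantCoeff (Φ p) ≠ 0 := by
    rw [← PowerSeries.coeff_zero_eq_constantCoeff_apply, coeff_Φ]
    exact fun e0 => hp0 (io_inj (e0.trans (map_zero io).symm))
  have hp2 : Φ p ≠ 0 := fun e0 => hp1 (by rw [e0, map_zero])
  obtain ⟨cc, hcc⟩ : ∃ cc, Φ p * cc = Φ A :=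
    ⟨(Φ p)⁻¹ * Φ A, by rw [← mul_assoc, PowerSeries.mul_inv_cancel _ hp1, one_mul]⟩
  have key : ∀ n, ∃ z, io (PowerSeries.X ^ (ω + e * k₁)) * PowerSeries.coeff n cc = io z := by
    intro n
    have aux : ∀ R b, n < R → PowerSeries.X ^ (ω + e * k₁) * (A * (Polynomial.C τ *
        ∑ i ∈ Finset.range R, (-w) ^ i * Polynomial.C (PowerSeries.X ^ e * ε) ^
          (R - 1 - i))).coeff n = PowerSeries.X ^ (e * R) * b →
        ∃ z, io (PowerSeries.X ^ (ω + e * k₁)) * PowerSeries.coeff n cc = io z := by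
      intro R b hR hb
      refine ⟨b * u ^ R, mul_left_cancel₀ (a := io (PowerSeries.X ^ e * ε) ^ R) (pow_ne_zero _
        fun e0 => mul_ne_zero (pow_ne_zero e hX) hε.ne_zero
          (io_inj (e0.trans (map_zero io).symm))) ?_⟩
      rw [mul_left_comm, ← quot p A w τ _ cc hp2 hcc hp hw R n hR, ← map_mul, hb, ← map_pow,
        ← map_mul]
      congr 1
      rw [mul_pow, ← pow_mul, mul_assoc, mul_left_comm (ε ^ R), ← mul_pow, hu, one_pow, mul_one]
    rcases lt_or_ge n k₁ with hn | hn
    · exact aux k₁ _ hn (by rw [pow_add, mul_comm (_ ^ ω), mul_assoc])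
    · obtain ⟨R, hR, hj⟩ := hc n hn
      obtain ⟨b, hb⟩ := (PowerSeries.X_pow_dvd_iff (n := e * R - ω)).2 fun j hj' =>
        hj j (by omega)
      refine aux R (PowerSeries.X ^ (ω - e * R + e * k₁) * b) hR ?_
      rw [hb, ← mul_assoc, ← mul_assoc, ← pow_add, ← pow_add]
      congr 2
      omega
  choose z hz using key
  have h3 : (p : PowerSeries (PowerSeries ℂ)) * PowerSeries.mk z =
      PowerSeries.C (PowerSeries.X ^ (ω + e * k₁)) * (A : PowerSeries (PowerSeries ℂ)) := by
    refine PowerSeries.map_injective io io_inj ?_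
    have : PowerSeries.map io (PowerSeries.mk z) =
        PowerSeries.C (io (PowerSeries.X ^ (ω + e * k₁))) * cc := by
      ext1 n
      rw [PowerSeries.coeff_map, PowerSeries.coeff_mk, PowerSeries.coeff_C_mul, hz]
    rw [map_mul, map_mul, this, PowerSeries.map_C, ← Φ_eq, ← Φ_eq, ← hcc, mul_left_comm]
  have h4 := congrArg (fun g : (PowerSeries ℂ)[X] => (g : PowerSeries (PowerSeries ℂ))) hP
  simp only [Polynomial.coe_add, Polynomial.coe_mul, Polynomial.coe_monomial] at h4
  refine h p (PowerSeries.C (PowerSeries.X ^ (ω + e * k₁)) * (P : PowerSeries (PowerSeries ℂ)) +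
      (P' : PowerSeries (PowerSeries ℂ)) * PowerSeries.mk z)
    (PowerSeries.X ^ (ω + e * k₁) * q) c (by rwa [Polynomial.coeff_coe])
    (by rwa [Polynomial.coeff_coe]) (by simpa only [Polynomial.coeff_coe] using h2)
    (mul_ne_zero (pow_ne_zero _ hX) hq) ?_
  have h5 : PowerSeries.monomial c (PowerSeries.X ^ (ω + e * k₁) * q) =
      PowerSeries.C (PowerSeries.X ^ (ω + e * k₁)) * PowerSeries.monomial c q := by
    rw [← PowerSeries.monomial_zero_eq_C_apply, PowerSeries.monomial_mul_monomial, zero_add]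
  rw [h5, ← h4]
  linear_combination (P' : PowerSeries (PowerSeries ℂ)) * h3

end Pool.Agent.P.MP_aef18a_nt.TW
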