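import Pool.Agent.P.MP_aef18a_nt.TW.Iface

namespace Pool.Agent.P.MP_aef18a_nt.TW

open Polynomial Matrix LaurentPolynomial OW

namespace PoleBigy

variable {k : ℕ}

lemma coeff_low (q P : PowerSeries ℂ) (j : ℕ) (h : ∀ i < j, PowerSeries.coeff i P = 0) :
    PowerSeries.coeff j (q * P) = PowerSeries.constantCoeff q * PowerSeries.coeff j P := by
  rw [PowerSeries.coeff_mul, Finset.sum_eq_single (0, j)]
  · simp
  · rintro ⟨i, l⟩ hil hne
    have e : i + l = j := by simpa using hil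
    have : l < j := by
      by_contra a
      exact hne (Prod.ext (by simp only; omega) (by simp only; omega))
    simp [h l this]
  · simp

lemma card_box {D : ℕ} {A : LQ ℂ k} (h : Bx D A) : A.coeff.support.card ≤ (2 * D + 1) ^ k := by
  have : A.coeff.support ⊆ Fintype.piFinset fun _ : Fin k => Finset.Icc (-(D : ℤ)) D :=
    fun u hu => Fintype.mem_piFinset.2 fun i => Finset.mem_Icc.2 (abs_le.1 (h u hu i))
  refine (Finset.card_le_card this).trans (le_of_eq ?_)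
  rw [Fintype.card_piFinset, Finset.prod_const, Finset.card_univ, Fintype.card_fin, Int.card_Icc]
  congr 1
  omega

lemma exists_De (V : Multiset (Fin k → ℤ)) (A : LQ ℂ k) :
    ∃ D : ℕ, 1 ≤ D ∧ Bx D A ∧ ∀ v ∈ V, ∀ i, |v i| ≤ D := by
  obtain ⟨D, h1, h2⟩ := exists_bx A
  refine ⟨D + (V.map nu).sum, by omega, h2.mono (by omega), fun v hv i => (le_nu v i).trans ?_⟩
  have : nu v ≤ (V.map nu).sum :=
    Multiset.single_le_sum (fun _ _ => Nat.zero_le _) _ (Multiset.mem_map_of_mem nu hv)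
  omega

lemma bx_HH {V : Multiset (Fin k → ℤ)} {B R D : ℕ} {H : LQ ℂ k}
    (h : ∀ (ω : (Fin k → ℤ) →+ ℝ) (p : ℝ), 0 ≤ p → (∀ v ∈ V, ω v ≤ p) →
      Bd ω (R * V.card * B * p) H) (hV : ∀ v ∈ V, ∀ i, |v i| ≤ D) :
    Bx (R * V.card * B * D) H := by
  intro u hu i
  have h1 := h (crd i) D (Nat.cast_nonneg _) (fun v hv => by
    rw [crd_apply]; exact_mod_cast (abs_le.1 (hV v hv i)).2) u hu
  have h2 := h (-crd i) D (Nat.cast_nonneg _) (fun v hv => by
    rw [AddMonoidHom.neg_apply, crd_apply, neg_le]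
    exact_mod_cast (abs_le.1 (hV v hv i)).1) u hu
  rw [AddMonoidHom.neg_apply, crd_apply, neg_le] at h2
  rw [crd_apply] at h1
  rw [abs_le]
  constructor
  · exact_mod_cast h2
  · exact_mod_cast h1

lemma bx_mul {D D' : ℕ} {A A' : LQ ℂ k} (h : Bx D A) (h' : Bx D' A') : Bx (D + D') (A * A') := by
  intro z hz i
  obtain ⟨u, hu, w, hw, rfl⟩ := mem_mul hz
  rw [Pi.add_apply, Nat.cast_add]
  exact (abs_add_le _ _).trans (add_le_add (h u hu i) (h' w hw i))

end PoleBigy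

open PoleBigy in
theorem p_PoleBig (hL : S_Loc) (hF : S_FejEv) : S_PoleBig := by
  intro k V a₀ b t₀ m₀ n R j₀ A hV hA hm ht hj₀ hne Θ
  by_contra hcon
  push Not at hcon
  obtain ⟨-, -, -, L4, L5, L6, -⟩ := hL k b t₀ a₀
  set P := (py b t₀ a₀ A).coeff n with hP
  have hex : ∃ j, PowerSeries.coeff j P ≠ 0 := ⟨j₀, hne⟩
  classical
  obtain ⟨j, hj, hc, hlow⟩ : ∃ j ≤ j₀, PowerSeries.coeff j P ≠ 0 ∧
      ∀ i < j, PowerSeries.coeff i P = 0 :=
    ⟨Nat.find hex, Nat.find_min' hex hne, Nat.find_spec hex, fun i hi => by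
      simpa using Nat.find_min hex hi⟩
  set c := PowerSeries.coeff j P with hcdef
  obtain ⟨D, D1, hDA, hDV⟩ := exists_De V A
  have nt : ‖(t₀ : ℂ)‖ = 1 := by
    have := congrArg norm ht
    rw [norm_pow, norm_one] at this
    exact (pow_eq_one_iff_of_nonneg (norm_nonneg _) hm.ne').1 this
  set C₁ : ℕ := (R * V.card + 1) * D with hC₁
  have C1 : 1 ≤ C₁ := Nat.mul_pos (Nat.succ_pos _) D1
  set C₂ : ℝ := 2 ^ (V.card * R) * ((3 * C₁) ^ k * (|Θ| * ((k * C₁ * nu b : ℕ) : ℝ) ^ j)) with hC₂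
  have key : ∀ B : ℕ, 0 < B → m₀ ∣ B → ‖c‖ * B ≤ C₂ := by
    intro B hB hd
    obtain ⟨F1, F2⟩ := hF k V b t₀ m₀ B R hB hd ht
    set H := HH V B R with hH
    have lev0 : ∀ u ∈ H.coeff.support, -(u ⬝ᵥ a₀) = ((0 : ℕ) : ℤ) := fun u hu => by
      have h1 := F2 (dotR a₀) 0 le_rfl (fun v hv => by rw [dotR_apply, hV v hv]; simp) u hu
      have h2 := F2 (-dotR a₀) 0 le_rfl (fun v hv => by
        rw [AddMonoidHom.neg_apply, dotR_apply, hV v hv]; simp) u hu
      rw [AddMonoidHom.neg_apply] at h2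
      rw [dotR_apply, mul_zero] at h1 h2
      have : ((u ⬝ᵥ a₀ : ℤ) : ℝ) = 0 := by linarith
      have : u ⬝ᵥ a₀ = 0 := by exact_mod_cast this
      simp [this]
    have nH : Ng a₀ H := fun u hu => by have := lev0 u hu; omega
    obtain ⟨q, hq, hq0, -⟩ := L6 H 0 lev0
    have e1 := L5 (H * A) n j (nH.mul hA)
    rw [L4 H A nH hA, hq, monomial_zero_left, coeff_C_mul, ← hP, coeff_low q P j hlow, hq0,
      ← hcdef] at e1
    have hbx : Bx (C₁ * B) (H * A) := (bx_mul (bx_HH F2 hDV) hDA).mono (by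
      have := Nat.mul_le_mul_left D (show 1 ≤ B from hB)
      rw [hC₁]
      nlinarith)
    have B1 : (1 : ℝ) ≤ B := by exact_mod_cast hB
    have e2 : ‖evc b t₀ H‖ * ‖c‖ ≤
        (3 * C₁ * B) ^ k * (|Θ| * (((k * C₁ * nu b : ℕ) : ℝ) * B) ^ j) := by
      have f1 : (1 : ℝ) ≤ ‖(j.factorial : ℂ)‖ := by
        rw [Complex.norm_natCast]
        exact_mod_cast j.factorial_pos
      have f2 : ‖evc b t₀ H‖ * ‖c‖ ≤ ‖(j.factorial : ℂ) * (evc b t₀ H * c)‖ := by
        rw [norm_mul, norm_mul]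
        exact le_mul_of_one_le_left (by positivity) f1
      refine f2.trans ?_
      rw [e1]
      refine (norm_sum_le _ _).trans ((Finset.sum_le_card_nsmul _ _
        (|Θ| * (((k * C₁ * nu b : ℕ) : ℝ) * B) ^ j) fun u hu => ?_).trans ?_)
      · obtain ⟨h1, h2⟩ := Finset.mem_filter.1 hu
        rw [norm_mul, norm_mul, norm_zpow, nt, _root_.one_zpow, mul_one, norm_pow,
          Complex.norm_intCast]
        have h3 := abs_dot_le (hbx u h1) (le_nu b)
        have h4 : |((u ⬝ᵥ b : ℤ) : ℝ)| ≤ ((k * C₁ * nu b : ℕ) : ℝ) * B := by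
          have : ((|u ⬝ᵥ b| : ℤ) : ℝ) ≤ ((k * (C₁ * B : ℕ) * (nu b : ℕ) : ℤ) : ℝ) := by
            exact_mod_cast h3
          rw [Int.cast_abs] at this
          refine this.trans (le_of_eq ?_)
          push_cast
          ring
        exact mul_le_mul ((hcon B u hB h2).trans (le_abs_self _))
          (pow_le_pow_left₀ (abs_nonneg _) h4 j) (by positivity) (abs_nonneg _)
      · rw [nsmul_eq_mul]
        refine mul_le_mul_of_nonneg_right ?_ (by positivity)
        have h1 := (Finset.card_filter_le (H * A).coeff.support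
          (fun u => -(u ⬝ᵥ a₀) = n)).trans (card_box hbx)
        have h2 : (2 * (C₁ * B) + 1) ^ k ≤ (3 * C₁ * B) ^ k := by
          refine Nat.pow_le_pow_left ?_ k
          have := Nat.mul_pos C1 hB
          rw [mul_assoc 3]
          omega
        exact_mod_cast h1.trans h2
    have e3 : (B : ℝ) ^ (j + k + 1) ≤ (B : ℝ) ^ (ord b t₀ V * R) :=
      pow_le_pow_right₀ B1 (by omega)
    have e4 : ‖c‖ * B * (B : ℝ) ^ (j + k) ≤ C₂ * (B : ℝ) ^ (j + k) :=
      calc ‖c‖ * B * (B : ℝ) ^ (j + k) = (B : ℝ) ^ (j + k + 1) * ‖c‖ := by ring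
        _ ≤ 2 ^ (V.card * R) * ‖evc b t₀ H‖ * ‖c‖ :=
          mul_le_mul_of_nonneg_right (e3.trans F1) (norm_nonneg _)
        _ ≤ 2 ^ (V.card * R) *
            ((3 * C₁ * B) ^ k * (|Θ| * (((k * C₁ * nu b : ℕ) : ℝ) * B) ^ j)) := by
          rw [mul_assoc]
          exact mul_le_mul_of_nonneg_left e2 (by positivity)
        _ = C₂ * (B : ℝ) ^ (j + k) := by
          rw [hC₂, mul_pow (3 * (C₁ : ℝ)), mul_pow _ (B : ℝ)]
          ring
    exact le_of_mul_le_mul_right e4 (by positivity)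
  have c0 : 0 < ‖c‖ := norm_pos_iff.2 hc
  obtain ⟨n', hn'⟩ := exists_nat_gt (C₂ / ‖c‖)
  have h1 := key (m₀ * (n' + 1)) (Nat.mul_pos hm (Nat.succ_pos _)) (dvd_mul_right _ _)
  rw [div_lt_iff₀ c0] at hn'
  have h2 : (n' : ℝ) ≤ ((m₀ * (n' + 1) : ℕ) : ℝ) := by
    have : n' ≤ m₀ * (n' + 1) := (Nat.le_succ n').trans (Nat.le_mul_of_pos_left _ hm)
    exact_mod_cast this
  nlinarith [mul_le_mul_of_nonneg_left h2 c0.le]

end Pool.Agent.P.MP_aef18a_nt.TW
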