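import Pool.Agent.P.MP_aef18a_nt.TW.Iface

namespace Pool.Agent.P.MP_aef18a_nt.TW

open Polynomial Matrix LaurentPolynomial OW

namespace PoleExy

variable {k : ℕ} {b a₀ : Fin k → ℤ} {t₀ : ℂˣ}

lemma py_neg (hL : S_Loc) (A : LQ ℂ k) : py b t₀ a₀ (-A) = -py b t₀ a₀ A := by
  simpa using (hL k b t₀ a₀).2.1 (-1) A

lemma py_pow (hL : S_Loc) {A : LQ ℂ k} (hA : Ng a₀ A) (j : ℕ) :
    py b t₀ a₀ (A ^ j) = py b t₀ a₀ A ^ j := by
  induction j with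
  | zero => simpa using (hL k b t₀ a₀).2.2.1
  | succ j ih => rw [pow_succ, (hL k b t₀ a₀).2.2.2.1 _ _ (hA.pow j) hA, ih, pow_succ]

lemma py_sum (hL : S_Loc) {ι : Type} (s : Finset ι) (A : ι → LQ ℂ k) :
    py b t₀ a₀ (∑ i ∈ s, A i) = ∑ i ∈ s, py b t₀ a₀ (A i) := by
  classical
  induction s using Finset.induction_on with
  | empty => simp [py]
  | insert i s hi ih => rw [Finset.sum_insert hi, Finset.sum_insert hi, (hL k b t₀ a₀).1, ih]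

lemma py_low {A : LQ ℂ k} (h : ∀ u ∈ A.coeff.support, u ⬝ᵥ a₀ < 0) :
    (py b t₀ a₀ A).coeff 0 = 0 := by
  rw [py, finsetSum_coeff]
  refine Finset.sum_eq_zero fun u hu => ?_
  have := h u hu
  rw [coeff_monomial, if_neg (by omega)]

lemma exists_cc {A : LQ ℂ k} (h : evc b t₀ A ≠ 0) :
    ∃ m, PowerSeries.constantCoeff ((py b t₀ a₀ A).coeff m) ≠ 0 := by
  by_contra hn
  push Not at hn
  have e : (py b t₀ a₀ A).map (PowerSeries.constantCoeff (R := ℂ)) = 0 := by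
    ext m
    rw [coeff_map, hn, coeff_zero]
  have := congrArg (eval 1) e
  rw [py, Polynomial.map_sum, eval_finsetSum, eval_zero] at this
  refine h ?_
  rw [evc_eq_sum, ← this]
  refine Finset.sum_congr rfl fun u _ => ?_
  simp [ch, ← PowerSeries.coeff_zero_eq_constantCoeff_apply, PowerSeries.coeff_rescale]

lemma ng_neg {𝕜 : Type} [CommRing 𝕜] {A : LQ 𝕜 k} (h : Ng a₀ A) : Ng a₀ (-A) :=
  h.subset (by rw [AddMonoidAlgebra.coeff_neg, Finsupp.support_neg])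

lemma ng_toC {A : LQ ℤ k} (h : Ng a₀ A) : Ng a₀ (toC A) := h.subset (support_toC A).le

end PoleExy

open PoleExy in
theorem p_PoleEx (hC : S_Cop2) (hQ : S_Qex) (hP : S_Pt) (hL : S_Loc) (hX : S_PX1) :
    S_PoleEx := by
  intro k F D θ k₁ hF hD hφ hθ
  have hF0 : F ≠ 0 := fun e => hF.c0 (by simp [e])
  obtain ⟨c1, c2⟩ := hC k (toQ F) θ hF.irr (by rw [toQ_coeff]; exact_mod_cast hF.c0)
    (by rwa [support_toQ])
  rw [toC_toQ] at c1 c2
  have := ufd ℂ k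
  obtain ⟨P, P', Q, c, nP, nP', hQ0, eQ, lQ⟩ := hQ k _ _ D.a₀ hD.a₀_ne (toC_ne_zero hF0)
    (pow_ne_zero 2 c1) (c2.pow_right (n := 2))
  obtain ⟨E, -, hE⟩ := exists_bx Q
  obtain ⟨b, t₀, m₀, hb, hV, m0, tm, e0, e1⟩ := hP k F D _ hF hD hφ
  refine ⟨b, t₀, m₀, ?_⟩
  obtain ⟨add, smul, -, mul, -, lvl, bn⟩ := hL k b t₀ D.a₀
  obtain ⟨q, q1, -, q2⟩ := lvl Q c lQ
  obtain ⟨τ, τ1, -, -⟩ := lvl (toC D.T) 0 fun u hu => by
    rw [support_toC] at hu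
    simp [hD.T0 u hu]
  obtain ⟨f, f1, f2, -⟩ := lvl (toC D.φ) 0 fun u hu => by
    rw [support_toC] at hu
    simp [hD.φ0 u hu]
  obtain ⟨ε, ε1, ε2⟩ := bn D.V fun v hv => ⟨hD.V0 v hv, hV v hv⟩
  rw [monomial_zero_left] at τ1 f1
  have nF : Ng D.a₀ (toC F) := ng_toC hD.ng
  have nd : Ng D.a₀ (dv (fun i => (θ i : ℂ)) (toC F)) := nF.subset (support_dv _ _)
  have nT : Ng D.a₀ D.T := fun u hu => (hD.T0 u hu).le
  have nWT : Ng D.a₀ (D.W * D.T) := Ng.mul (fun u hu => (hD.W0 u hu).le) nT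
  have nB : Ng D.a₀ (D.d • bin ℤ D.V) := (ng_bin fun v hv => (hD.V0 v hv).le).smul _
  have hu : IsUnit (PowerSeries.C (D.d : ℂ) * ε) :=
    ((IsUnit.mk0 _ (Int.cast_ne_zero.2 hD.d0)).map _).mul ε1
  have eB : py b t₀ D.a₀ (toC (D.d • bin ℤ D.V)) =
      Polynomial.C (PowerSeries.X ^ ord b t₀ D.V * (PowerSeries.C (D.d : ℂ) * ε)) := by
    rw [map_zsmul, toC_bin, ← Int.cast_smul_eq_zsmul ℂ, smul, ε2, smul_C, mul_left_comm,
      PowerSeries.smul_eq_C_mul]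
  have w0 : (py b t₀ D.a₀ (toC (D.W * D.T))).coeff 0 = 0 := py_low fun z hz => by
    rw [support_toC] at hz
    obtain ⟨u, hu, v, hv, rfl⟩ := mem_mul hz
    rw [add_dotProduct, hD.T0 v hv, add_zero]
    exact hD.W0 u hu
  have eF : py b t₀ D.a₀ (toC F) * Polynomial.C τ =
      Polynomial.C (PowerSeries.X ^ ord b t₀ D.V * (PowerSeries.C (D.d : ℂ) * ε)) +
        py b t₀ D.a₀ (toC (D.W * D.T)) := by
    rw [← τ1, ← mul _ _ nF (ng_toC nT), ← eB, ← add, ← map_mul, ← map_add, ← hD.mul, ← add_mul,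
      ← hD.add]
  have τ0 : τ ≠ 0 := fun e => by
    have := congrArg (coeff · 0) eF
    simp only [e, map_zero, mul_zero, coeff_add, w0, add_zero, coeff_C_zero, coeff_zero] at this
    exact mul_ne_zero (pow_ne_zero _ PowerSeries.X_ne_zero) hu.ne_zero this.symm
  have p0 : PowerSeries.constantCoeff ((py b t₀ D.a₀ (toC F)).coeff 0) = 0 := by
    rw [hD.add, map_add, add, coeff_add, f1, coeff_C_zero, py_low fun z hz => hD.W0 z (by
      rwa [support_toC] at hz), add_zero, f2, evc_toC, e0]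
  obtain ⟨n, n1, n2⟩ := hX _ (py b t₀ D.a₀ (dv (fun i => (θ i : ℂ)) (toC F) ^ 2)) _
    (py b t₀ D.a₀ P) (py b t₀ D.a₀ P') τ _ q _ c k k₁ τ0 hu (q2 hQ0 (hb.injOn hE.wb)) eF w0 p0
    (exists_cc (by rwa [evc_toC]))
    (by rw [← mul _ _ nP nF, ← mul _ _ nP' (nd.pow 2), ← add, eQ, q1])
  refine ⟨n, m0, tm, n1, fun R hR => ?_⟩
  have nR : Ng D.a₀ (TR D R) := Ng.sum fun i _ => ((ng_neg nWT).pow _).mul (nB.pow _)
  rw [MM, mul _ _ (nd.pow 2) (ng_toC (nT.mul nR)), map_mul, mul _ _ (ng_toC nT) (ng_toC nR), τ1,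
    TR, map_sum, py_sum hL, Finset.sum_congr rfl fun i _ => ?_]
  · exact n2 R hR
  rw [map_mul, map_pow, map_pow, map_neg, mul _ _ ((ng_neg (ng_toC nWT)).pow _)
    ((ng_toC nB).pow _), py_pow hL (ng_neg (ng_toC nWT)), py_pow hL (ng_toC nB), py_neg hL, eB]

end Pool.Agent.P.MP_aef18a_nt.TW
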