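import Pool.Agent.P.MP_aef18a_nt.TW.Iface

namespace Pool.Agent.P.MP_aef18a_nt.TW

open Polynomial Matrix LaurentPolynomial OW

namespace Pty

variable {k : ℕ}

lemma card_le {h : ℚ[X]} (h0 : h ≠ 0) {O : Finset ℂˣ} (hO : ∀ α ∈ O, aeval (α : ℂ) h = 0) :
    O.card ≤ h.natDegree := by
  rw [← Finset.card_map ⟨Units.val, Units.val_injective⟩,
    ← natDegree_map_eq_of_injective (algebraMap ℚ ℂ).injective]
  refine card_le_degree_of_subset_roots fun z hz => ?_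
  obtain ⟨α, hα, rfl⟩ := Finset.mem_map.1 hz
  exact mem_aroots.2 ⟨h0, hO α hα⟩

lemma one_le_dot {d : Fin k → ℤ} (h : d ≠ 0) : 1 ≤ d ⬝ᵥ d := by
  have h1 : 0 ≤ d ⬝ᵥ d := Finset.sum_nonneg fun i _ => mul_self_nonneg _
  have h2 : d ⬝ᵥ d ≠ 0 := fun e => h (dotProduct_self_eq_zero.1 e)
  omega

/-- a generic direction close to a given one -/
lemma dir (hH : S_Half) (E D : ℕ) {d : Fin k → ℤ} (h : d ≠ 0) (hD : ∀ i, |d i| ≤ D)
    (h1 : 1 ≤ D) : ∃ (b : Fin k → ℤ) (n : ℕ), 0 < n ∧ NoRel E b ∧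
      (∀ j, |b j| ≤ (2 * n * D : ℕ)) ∧ (n : ℤ) ≤ 2 * (d ⬝ᵥ b) := by
  obtain ⟨C, hC⟩ : ∃ C : ℕ, C = 2 * 1 * ((2 * E + 1) ^ k + (2 * 0 + 1) ^ 0 + 1) := ⟨_, rfl⟩
  obtain ⟨n, hn⟩ : ∃ n, n = k * D * C + C + 1 := ⟨_, rfl⟩
  obtain ⟨b, b1, -, -, b2⟩ := hH 0 k 1 E 0 0 ((2 * n : ℤ) • d) one_pos
    fun c hc => absurd (Subsingleton.elim _ _) hc
  rw [← hC] at b2
  refine ⟨b, n, by omega, b1, fun j => ?_, ?_⟩
  · have e1 := abs_le.1 (b2 j)
    have e2 := abs_le.1 (hD j)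
    have e3 : (C : ℤ) ≤ n := by exact_mod_cast (by omega : C ≤ n)
    have e4 : (1 : ℤ) ≤ D := by exact_mod_cast h1
    have e5 : (0 : ℤ) ≤ n := Int.natCast_nonneg n
    simp only [Pi.smul_apply, smul_eq_mul] at e1
    push_cast
    rw [abs_le]
    constructor <;> nlinarith [mul_le_mul_of_nonneg_left e2.1 e5,
      mul_le_mul_of_nonneg_left e2.2 e5, mul_le_mul_of_nonneg_left e4 e5]
  · have e1 := abs_le.1 (abs_dot_le (a := (2 : ℤ) • b - (2 * n : ℤ) • d) hD b2)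
    rw [dotProduct_sub, dotProduct_smul, dotProduct_smul, smul_eq_mul, smul_eq_mul] at e1
    have e2 := mul_le_mul_of_nonneg_left (one_le_dot h) (Int.natCast_nonneg n)
    have e3 : (k * D * C : ℤ) ≤ n := by exact_mod_cast (by omega : k * D * C ≤ n)
    linarith [e1.1]

variable {F : LQ ℤ k} {D : FDat k}

lemma φ_ne (hF : Dat F) (h : Fc F D) : 0 ∈ D.φ.coeff.support := by
  rw [Finsupp.mem_support_iff, h.coeff_zero]
  exact hF.c0

/-- a prime factor of the face that does not divide the rest -/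
lemma factor (hF : Dat F) (h : Fc F D) (hu : ∃ u ∈ D.φ.coeff.support, u ≠ 0) :
    ∃ Q : LP k, Irreducible Q ∧ Q ∣ toQ D.φ ∧ ¬ Q ∣ toQ D.W := by
  obtain ⟨u, hu, u0⟩ := hu
  have h0 : (toQ D.φ : LP k) ≠ 0 := toQ_ne_zero fun e => by simp [e] at hu
  obtain ⟨Q, hQ, hd⟩ := exists_prime_dvd h0 fun e => u0 ((isUnit_iff.1 e).2 u
    (by rwa [support_toQ]) 0 (by rw [support_toQ]; exact φ_ne hF h))
  refine ⟨Q, hQ.irreducible, hd, fun hW => ?_⟩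
  have h1 : Q ∣ toQ F := by
    rw [h.add, map_add]
    exact dvd_add hd hW
  have h2 := (hQ.irreducible.dvd_symm hF.irr h1).trans hd
  obtain ⟨v, hv⟩ := support_nonempty h.Wne
  have := const_of_dvd (dotR D.a₀) h0 h2 (fun z hz z' hz' => by
      rw [support_toQ] at hz hz'
      rw [dotR_apply, dotR_apply, h.φ0 z hz, h.φ0 z' hz'])
    v (by rw [support_toQ]; exact h.mem.2 (Or.inr hv))
    0 (by rw [support_toQ]; exact Finsupp.mem_support_iff.2 hF.c0)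
  rw [map_zero, dotR_apply] at this
  exact (h.W0 v hv).ne (by exact_mod_cast this)

lemma bound (Q W : LP k) (V : Multiset (Fin k → ℤ)) :
    ∃ D : ℕ, 1 ≤ D ∧ Wb D Q ∧ Wb D W ∧ ∀ v ∈ V, ∀ i, |v i| ≤ D := by
  obtain ⟨D₁, a1, a2⟩ := exists_bx Q
  obtain ⟨D₂, -, b2⟩ := exists_bx W
  refine ⟨2 * D₁ + 2 * D₂ + V.toFinset.sup nu, by omega, a2.wb.mono (by omega),
    b2.wb.mono (by omega), fun v hv i => (le_nu v i).trans ?_⟩
  have : nu v ≤ V.toFinset.sup nu := Finset.le_sup (Multiset.mem_toFinset.2 hv)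
  omega

end Pty

open Pty in
theorem p_Pt (hC : S_CntB) (hE : S_Ebz) (hH : S_Half) : S_Pt := by
  intro k F D E hF h hu
  obtain ⟨Q, hQ, hd, hW⟩ := factor hF h hu
  obtain ⟨W0, rp⟩ := relPrime_of_not_dvd hQ hW
  have : ¬ ∀ u ∈ Q.coeff.support, ∀ u' ∈ Q.coeff.support, u = u' := fun e =>
    hQ.not_isUnit (isUnit_iff.2 ⟨hQ.ne_zero, e⟩)
  simp only [not_forall] at this
  obtain ⟨u, hu, u', hu', hne⟩ := this
  obtain ⟨Δ, d1, d2, d3, d4⟩ := bound Q (toQ D.W) D.V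
  obtain ⟨E', hE'⟩ : ∃ E', E' = E + Δ + 2 * k * Δ + 32 * k ^ 3 * Δ ^ 3 + 1 := ⟨_, rfl⟩
  obtain ⟨b, n, n0, b1, b2, b3⟩ := dir hH E' Δ (sub_ne_zero.2 hne) (d2.abs hu hu') d1
  obtain ⟨Z, z1, z2⟩ := hC k Δ E' _ Q b hQ d2 (by omega) (by omega) b2 b1 u hu u' hu'
  obtain ⟨g, g0, g1, g2⟩ := hE ℚ k Δ E' _ Q (toQ D.W) b hQ.ne_zero W0 rp d2 d3 (by omega)
    (by omega) b2 b1
  obtain ⟨t, ht, t1⟩ : ∃ t ∈ Z, evc b t (toQ D.W : LP k) ≠ 0 := by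
    by_contra hn
    simp only [not_exists, not_and, not_not] at hn
    have c1 := Nat.mul_le_mul_right E'
      (card_le g0 fun α hα => aeval_eq_zero_of_mem g2 (z1 α hα) (hn α hα))
    have c2 : (Z.card * E' : ℤ) ≤ 4 * k ^ 3 * Δ ^ 2 * (2 * n * Δ : ℕ) := by
      exact_mod_cast c1.trans g1
    have c3 := mul_le_mul_of_nonneg_right b3 (Int.natCast_nonneg E')
    have c4 : (n : ℤ) * E' ≤ n * (32 * k ^ 3 * Δ ^ 3 : ℕ) := by
      push_cast at z2 c2 ⊢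
      linarith
    have c5 : n * E' ≤ n * (32 * k ^ 3 * Δ ^ 3) := by exact_mod_cast c4
    have := Nat.le_of_mul_le_mul_left c5 n0
    omega
  have t2 : evc b t D.φ = 0 := by
    rw [← evc_toQ]
    exact zero_dvd_iff.1 (z1 t ht ▸ map_dvd (evc b t) hd)
  have hV : ∀ v ∈ D.V, v ⬝ᵥ b ≠ 0 := fun v hv =>
    (b1.mono (by omega : Δ ≤ E')) v (h.Vne v hv) (d4 v hv)
  obtain ⟨m, m1, m2⟩ := tors_of_bin (𝕜 := ℤ) (α := t) hV (by
    have := congrArg (evc b t) h.mul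
    rw [map_mul, t2, zero_mul, map_zsmul, eq_comm, smul_eq_zero] at this
    exact this.resolve_left h.d0)
  refine ⟨b, t, m, b1.mono (by omega), hV, m1, m2, t2, ?_⟩
  rwa [h.add, map_add, t2, zero_add, ← evc_toQ]

end Pool.Agent.P.MP_aef18a_nt.TW
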