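import Pool.Agent.P.MP_aef18a_nt.TW.Iface
import Pool.Agent.P.MP_aef18a_nt.OW.SetupP

namespace Pool.Agent.P.MP_aef18a_nt.TW

open Polynomial Matrix LaurentPolynomial OW

namespace Setup2y

lemma swap (R : Multiset ℂ) (I : Finset ℕ) (c : ℕ → ℂ) (e : ℕ → ℕ) :
    ∑ i ∈ I, c i * (R.map (· ^ (e i))).sum = (R.map fun β => ∑ i ∈ I, c i * β ^ (e i)).sum := by
  induction R using Multiset.induction_on with
  | empty => simp
  | cons β R ih =>
    simp only [Multiset.map_cons, Multiset.sum_cons, mul_add, Finset.sum_add_distrib, ih]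

lemma sf_map_int (g : ℤ[X]) (ψ : ℂ → ℂ) : sf (g.map (Int.castRingHom ℚ)) ψ = sf g ψ := by
  rw [sf, aroots_map_int, sf]

lemma sum_tauf (ψ : ℂ → ℂ) (p : ℚ[X]) :
    p ≠ 0 → ((p.aroots ℂ).map fun β => tauf β ψ).sum = sf p ψ := by
  induction p using UniqueFactorizationMonoid.induction_on_prime with
  | h₁ => exact fun h => absurd rfl h
  | h₂ x hx =>
    intro _
    have : x.aroots ℂ = 0 := by
      rw [← Multiset.card_eq_zero, card_aroots]
      exact natDegree_eq_zero_of_isUnit hx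
    simp [sf, this]
  | h₃ a p ha hp ih =>
    intro h
    rw [sf, aroots_mul h, Multiset.map_add, Multiset.sum_add, ih ha, Multiset.map_add,
      Multiset.sum_add]
    congr 1
    have hl : p.leadingCoeff⁻¹ ≠ 0 := inv_ne_zero (leadingCoeff_ne_zero.2 hp.ne_zero)
    have hn : (p.natDegree : ℂ) ≠ 0 := by exact_mod_cast hp.irreducible.natDegree_pos.ne'
    rw [Multiset.map_congr rfl (g := fun _ => sf p ψ / p.natDegree), Multiset.map_const',
      Multiset.sum_replicate, card_aroots, nsmul_eq_mul, mul_div_cancel₀ _ hn, sf]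
    intro β hβ
    rw [tauf, ← minpoly.eq_of_irreducible hp.irreducible (mem_aroots.1 hβ).2, mul_comm p,
      natDegree_C_mul hl, sf, aroots_C_mul _ hl, sf]

end Setup2y

open Setup2y SetupPx

theorem p_TwSum : S_TwSum := by
  intro f P j h0 hP
  rw [tws_eq, sf]
  simp only [ps]
  rw [swap (f.aroots ℂ) (Finset.range j) (fun i => (P.coeff i : ℂ)) (fun i => j - i)]
  congr 1
  refine Multiset.map_congr rfl fun β hβ => ?_
  rw [aeval_eq_sum_range' hP, Finset.mul_sum]
  refine Finset.sum_congr rfl fun i hi => ?_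
  rw [pow_sub₀ β (h0 β hβ) (Finset.mem_range.1 hi).le, zsmul_eq_mul, inv_pow]
  ring

theorem p_Setup2 : S_Setup2 := by
  intro S y h0 hsim ⟨α, α', nα, nα', rα, rα', hne⟩ hdeg
  have hS : S ≠ 0 := by
    rintro rfl
    exact h0 (Polynomial.coeff_zero 0)
  obtain ⟨St, c, e, hc, hSt⟩ := split _ S rfl hS
  have St0 : St ≠ 0 := left_ne_zero_of_mul (e ▸ hS)
  have dS : St ∣ S := ⟨_, e⟩
  have inj : Function.Injective (Int.castRingHom ℚ) := RingHom.injective_int _
  have StQ : St.map (Int.castRingHom ℚ) ≠ 0 := (Polynomial.map_ne_zero_iff inj).2 St0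
  have rt : ∀ β : ℂ, aeval β S = 0 → (¬ ∃ m, 0 < m ∧ β ^ m = 1) → aeval β St = 0 :=
    fun β h => root_St hc (e ▸ h)
  have un : ∀ β : ℂ, aeval β St = 0 → ∃ u : ℂˣ, (u : ℂ) = β ∧ NonTors u ∧ aeval (u : ℂ) S = 0 := by
    intro β h
    have h' : aeval β S = 0 := aeval_eq_zero_of_dvd_aeval_eq_zero dS h
    have b0 : β ≠ 0 := by
      rintro rfl
      rw [← coeff_zero_eq_aeval_zero'] at h'
      exact h0 (by simpa using h')
    exact ⟨Units.mk0 β b0, rfl, hSt β h, h'⟩
  have mp : ∀ β : ℂ, aeval β St = 0 →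
      IsIntegral ℚ β ∧ minpoly ℚ β ∣ St.map (Int.castRingHom ℚ) := fun β h =>
    have h' : aeval β (St.map (Int.castRingHom ℚ)) = 0 := (aeval_map_int St β).trans h
    ⟨IsAlgebraic.isIntegral ⟨_, StQ, h'⟩, minpoly.dvd ℚ β h'⟩
  obtain ⟨i1, d1⟩ := mp α (rt α rα nα)
  obtain ⟨i2, d2⟩ := mp α' (rt α' rα' nα')
  obtain ⟨g, hg, t, t0, eg⟩ := gauss _ (minpoly.ne_zero i1)
  have gd : g ∣ St := (IsPrimitive.Int.dvd_iff_map_cast_dvd_map_cast g St hg).2
    (eg ▸ (isUnit_C.2 t0.isUnit).mul_left_dvd.2 d1)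
  have gn : g.natDegree = (minpoly ℚ (α : ℂ)).natDegree := by
    rw [← natDegree_map_eq_of_injective inj, eg, natDegree_C_mul t0]
  have ga : g.aroots ℂ = (minpoly ℚ (α : ℂ)).aroots ℂ := by
    rw [← aroots_map_int, eg, aroots_C_mul _ t0]
  have injC : Function.Injective (algebraMap ℤ ℂ) := RingHom.injective_int _
  have cop : IsCoprime (minpoly ℚ (α : ℂ)) (minpoly ℚ (α' : ℂ)) :=
    (minpoly.irreducible i1).coprime_iff_not_dvd.2 fun h => hne
      (eq_of_monic_of_associated (minpoly.monic i1) (minpoly.monic i2)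
        ((minpoly.irreducible i1).associated_of_dvd (minpoly.irreducible i2) h))
  have dg : g.natDegree + (minpoly ℚ (α' : ℂ)).natDegree ≤ St.natDegree := by
    rw [gn, ← natDegree_mul (minpoly.ne_zero i1) (minpoly.ne_zero i2),
      ← natDegree_map_eq_of_injective inj St]
    exact natDegree_le_of_dvd (cop.mul_dvd d1 d2) StQ
  obtain ⟨h, eh⟩ := gd.trans dS
  refine ⟨g, h, St, c, ⟨eh, e, hc, roots.le_of_dvd ((Polynomial.map_ne_zero_iff injC).2 St0)
    (Polynomial.map_dvd _ gd), ?_, ?_, gn ▸ hdeg α nα rα, ?_, ?_⟩, ?_⟩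
  · classical
    refine Multiset.nodup_iff_count_le_one.2 fun β => not_lt.1 fun hlt => ?_
    have S0 : S.map (algebraMap ℤ ℂ) ≠ 0 := (Polynomial.map_ne_zero_iff injC).2 hS
    obtain ⟨u, rfl, n1, n2⟩ := un β (mem_aroots.1 (Multiset.count_pos.1 (by omega))).2
    rw [aroots_def, count_roots] at hlt
    have k := ((one_lt_rootMultiplicity_iff_isRoot S0).1 (hlt.trans_le
      (rootMultiplicity_le_rootMultiplicity_of_dvd S0 (Polynomial.map_dvd _ dS) _))).2
    rw [derivative_map, IsRoot.def, eval_map_algebraMap] at k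
    exact hsim u n1 n2 k
  · intro β hβ h1
    refine mem_aroots.2 ⟨St0, rt β (mem_aroots.1 hβ).2 ?_⟩
    rintro ⟨m, hm, e1⟩
    have := one_lt_pow₀ h1 hm.ne'
    rw [← norm_pow, e1, norm_one] at this
    exact lt_irrefl _ this
  · have h1 := hdeg α' nα' rα'
    have h2 : (g.natDegree : ℝ) + (minpoly ℚ (α' : ℂ)).natDegree ≤ St.natDegree := by
      exact_mod_cast dg
    linarith
  · intro j j1 jK
    have : (1 : ℝ) ≤ j := by exact_mod_cast j1
    linarith
  · intro ψ η hflat
    have d0 : 0 < g.natDegree := gn ▸ minpoly.natDegree_pos i1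
    have n0 : (St.natDegree : ℂ) ≠ 0 := by exact_mod_cast (by omega : St.natDegree ≠ 0)
    have η0 : 0 ≤ η := (norm_nonneg _).trans (hflat α α nα nα rα rα)
    have e1 : sf g ψ = g.natDegree * tauf α ψ := by
      rw [tauf, ← gn, mul_div_cancel₀ _ (by exact_mod_cast d0.ne'), sf, sf, ga]
    have e2 : (St.natDegree : ℂ) * tauf α ψ - sf St ψ =
        ((St.aroots ℂ).map fun β => tauf α ψ - tauf β ψ).sum := by
      rw [Multiset.sum_map_sub, ← sf_map_int, ← sum_tauf ψ _ StQ, aroots_map_int,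
        Multiset.map_const', Multiset.sum_replicate, card_aroots, nsmul_eq_mul]
    have e3 : ‖(St.natDegree : ℂ) * tauf α ψ - sf St ψ‖ ≤ St.natDegree * η := by
      rw [e2]
      refine (norm_multiset_sum_le _).trans ?_
      rw [← card_aroots, Multiset.map_map, ← nsmul_eq_mul,
        ← Multiset.card_map (fun β => ‖tauf α ψ - tauf β ψ‖)]
      refine Multiset.sum_le_card_nsmul _ _ fun x hx => ?_
      obtain ⟨β, hβ, rfl⟩ := Multiset.mem_map.mp hx
      obtain ⟨u, rfl, n1, n2⟩ := un β (mem_aroots.1 hβ).2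
      exact hflat α u nα n1 rα n2
    have e4 : sf g ψ - (g.natDegree : ℂ) / St.natDegree * sf St ψ =
        (g.natDegree : ℂ) / St.natDegree * (St.natDegree * tauf α ψ - sf St ψ) := by
      rw [e1]; field_simp
    have n1 : (0 : ℝ) < St.natDegree := by exact_mod_cast (by omega : 0 < St.natDegree)
    have e5 : (g.natDegree : ℝ) ≤ S.natDegree := by
      exact_mod_cast natDegree_le_of_dvd ⟨h, eh⟩ hS
    rw [e4, norm_mul, norm_div, Complex.norm_natCast, Complex.norm_natCast]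
    calc _ ≤ (g.natDegree : ℝ) / St.natDegree * (St.natDegree * η) :=
          mul_le_mul_of_nonneg_left e3 (by positivity)
      _ = g.natDegree * η := by field_simp
      _ ≤ _ := mul_le_mul_of_nonneg_right e5 η0

end Pool.Agent.P.MP_aef18a_nt.TW
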