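import Pool.Agent.P.MP_aef18a_nt.TW.Iface
import Pool.Agent.P.MP_aef18a_nt.OW.Step

namespace Pool.Agent.P.MP_aef18a_nt.TW

open Polynomial Matrix LaurentPolynomial OW

namespace StepVy

lemma lower {ι : Type} (s : Finset ι) (f : ι → ℝ) (h : ∀ i, 0 < f i) :
    ∃ c, 0 < c ∧ ∀ i ∈ s, c ≤ f i := by
  classical
  induction s using Finset.induction_on with
  | empty => exact ⟨1, one_pos, by simp⟩
  | insert i s _ ih =>
    obtain ⟨c, hc, h1⟩ := ih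
    refine ⟨min c (f i), lt_min hc (h i), fun l hl => ?_⟩
    rcases Finset.mem_insert.1 hl with rfl | hl
    · exact min_le_right _ _
    · exact (min_le_left _ _).trans (h1 l hl)

end StepVy

open StepVy

theorem p_StepV (hLink : S_Link) (hTwo : S_Two) (hDeg : S_DegM) (hFA : S_FlatAll)
    (hSet : S_Setup) (hLev : S_Levels) (hUnit : S_Unit) (hGrow : S_Grow) (hEx : S_Exact)
    (hNon : S_NonU) (hLac : S_Lac) : S_StepV := by
  intro k F J A hF hA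
  obtain ⟨c₀, ε, hc₀, hε, ν₃, hFl⟩ := hFA k F J A hF.c0 hA
  obtain ⟨B₁, hL⟩ := hLev k F J hF
  obtain ⟨B₂, N₀, hfin⟩ := Stepx.fin hLink hDeg hSet hUnit hGrow hEx hNon hF J hc₀ hε
  obtain ⟨i, j, hij⟩ := hF.nc.exists_ne
  refine ⟨1 + ν₃ + B₁ + B₂ + J * N₀, fun a s hv hg hsim hst => ?_⟩
  have hν := hv.lt_nu (by omega) hij
  obtain ⟨hi, hN, hl, -⟩ := hL a s (hv.mono (by omega)) hg
  obtain ⟨hlac, -, -, -, -, -, -, hsi, hto⟩ := hLink k F a J s hF.c0 hg hi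
  have hsN := ((hLac _ _ _ hlac).2.2.2.1 hN).1
  have hN₀ : N₀ ≤ (SS F a).natDegree := by
    have h1 := hg.2.2.1
    have h2 : J * N₀ < J * s := by omega
    exact (lt_of_mul_lt_mul_left h2 (Nat.zero_le _)).le.trans hsN
  refine fun h2 => hfin a s (hv.mono (by omega)) hg hi hN₀ (hsi hsim)
    (hFl a s (by omega) hg hi hN hst) hl (hTwo _ _ _ ?_ hto (hsi hsim) h2)
  intro e
  exact hlac.1 (by rw [e, coeff_zero])

theorem p_Gq : S_Gq := by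
  intro n F U κ hκ
  obtain ⟨Δ, -, hB⟩ := exists_bx F
  refine ⟨⌈κ⌉₊ + n * (2 * Δ) + 1, fun e a a' h16 he' ha hG => ?_⟩
  have he : (κ + n * (2 * Δ : ℕ) + 1) * e ≤ √(nu a : ℝ) := by
    refine le_trans (mul_le_mul_of_nonneg_right ?_ (Nat.cast_nonneg e)) he'
    have := Nat.le_ceil κ
    push_cast
    linarith
  generalize hΔ : 2 * Δ = Δ' at he
  have ht : (√(nu a : ℝ)) ^ 2 = nu a := Real.sq_sqrt (Nat.cast_nonneg _)
  have ht4 : 4 ≤ √(nu a : ℝ) := Real.le_sqrt_of_sq_le (by exact_mod_cast h16)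
  have h0 : (0 : ℝ) ≤ κ * e := by positivity
  have h1 : (0 : ℝ) ≤ n * Δ' * e := by positivity
  have h2 : (4 * e : ℝ) ≤ nu a := by nlinarith
  have h3 : 4 * e ≤ nu a := by exact_mod_cast h2
  have up : 2 * nu a' ≤ nu a + e := by
    have : nu a' ≤ (nu a + e) / 2 := nu_le fun i => by
      have b1 := abs_le.1 (ha i)
      have b2 := abs_le.1 (le_nu a i)
      rw [abs_le]
      omega
    omega
  have lo : nu a ≤ 2 * nu a' + e := by
    obtain ⟨i, hi⟩ := exists_nu (show 0 < nu a by omega)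
    have b1 := abs_le.1 (ha i)
    have b2 := abs_le.1 (le_nu a' i)
    rcases abs_cases (a i) with h | h <;> omega
  intro u hu hu0
  obtain ⟨u', hu', h7⟩ := hG u hu hu0
  refine ⟨u', hu', ?_⟩
  have up' : (2 * nu a' : ℝ) ≤ nu a + e := by exact_mod_cast up
  have lo' : (nu a : ℝ) ≤ 2 * nu a' + e := by exact_mod_cast lo
  have h4 : 3 / 5 * √(nu a : ℝ) ≤ √(nu a' : ℝ) := Real.le_sqrt_of_sq_le (by nlinarith)
  have hb : ∀ i, |(u' - u) i| ≤ (Δ' : ℕ) := fun i => by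
    have b1 := abs_le.1 (hB u hu i)
    have b2 := abs_le.1 (hB u' hu' i)
    rw [Pi.sub_apply, abs_le]
    omega
  generalize u' - u = v at h7 hb ⊢
  have h5 := (abs_le.1 (abs_dot_le (a := fun i => 2 * a' i - a i) hb ha)).1
  have e1 : (v ⬝ᵥ fun i => 2 * a' i - a i) = 2 * (v ⬝ᵥ a') - v ⬝ᵥ a := by
    simp only [dotProduct, Finset.mul_sum, ← Finset.sum_sub_distrib]
    exact Finset.sum_congr rfl fun i _ => by ring
  rw [e1] at h5
  have h6 : -((n : ℝ) * Δ' * e) ≤ 2 * ((v ⬝ᵥ a' : ℤ) : ℝ) - (v ⬝ᵥ a : ℤ) := by exact_mod_cast h5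
  have h8 := mul_le_mul_of_nonneg_left up' hκ.le
  have h9 : (0 : ℝ) ≤ e := Nat.cast_nonneg _
  nlinarith

theorem p_CoreAll (hC : S_Cfg) (hD : S_DegT) (hL : S_Lev2) (hV : S_StepV) (h3 : S_Core3) :
    S_CoreAll := by
  intro k F U κ η C A hF hT hκ hη hS hA
  obtain ⟨𝒟, hfc, hcfg⟩ := hC k F U κ C hF hT hκ hS
  have k1 : ∀ (D : FDat k) (J : ℕ), ∃ B Y : ℕ, Fc F D → ∀ (a : Fin k → ℤ) (g w : ℕ),
      NoRel B a → TG F D a J g w → Y * w ≤ g → Sim F a → StA F a A →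
        ¬ TwoL (spec a (toQ F)) := by
    intro D J
    by_cases h : Fc F D
    · by_cases hφ : ∃ u ∈ D.φ.coeff.support, u ≠ 0
      · obtain ⟨B, Y, hB⟩ := h3 k F D J A hF h hφ hA
        exact ⟨B, Y, fun _ => hB⟩
      · obtain ⟨B, hB⟩ := hV k F J A hF hA
        refine ⟨B, 0, fun _ a g w hr ht _ => hB a g hr ⟨ht.g1, fun u hu hu0 => ?_, ht.nu, ht.wid⟩⟩
        exact ht.gap u ((h.mem.1 hu).resolve_left fun e => hφ ⟨u, e, hu0⟩)
    · exact ⟨0, 0, fun h' => absurd h' h⟩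
  have k2 : ∀ (D : FDat k) (J : ℕ), ∃ B : ℕ, Fc F D → ∀ (a : Fin k → ℤ) (g w : ℕ),
      NoRel B a → TG F D a J g w → HasL (spec a (toQ F)) := by
    intro D J
    by_cases h : Fc F D
    · obtain ⟨B, hB⟩ := hL k F D J 0 hF h
      exact ⟨B, fun _ a g w hr ht => (hB a g w hr ht).2.2⟩
    · exact ⟨0, fun h' => absurd h' h⟩
  have k3 : ∀ (D : FDat k) (J : ℕ), ∃ c : ℝ, 0 < c ∧ (Fc F D → ∀ (a : Fin k → ℤ) (g w : ℕ),
      TG F D a J g w → 2 * w ≤ g → DegE F a c η) := by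
    intro D J
    by_cases h : Fc F D
    · obtain ⟨c, hc, hB⟩ := hD k F D J η h hη
      exact ⟨c, hc, fun _ => hB⟩
    · exact ⟨1, one_pos, fun h' => absurd h' h⟩
  choose B₁ Y k1 using k1
  choose B₂ k2 using k2
  choose c hc k3 using k3
  obtain ⟨Jm, B₀, hJ⟩ := hcfg fun J => 2 + ∑ D ∈ 𝒟, Y D J
  obtain ⟨c₀, hc₀, hle⟩ := lower (𝒟 ×ˢ Finset.range (Jm + 1)) (fun p => c p.1 p.2)
    fun p => hc p.1 p.2
  refine ⟨c₀, B₀ + ∑ p ∈ 𝒟 ×ˢ Finset.range (Jm + 1), (B₁ p.1 p.2 + B₂ p.1 p.2), hc₀,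
    fun a hr ht hg => ?_⟩
  obtain ⟨D, hD', J, g, w, hJm, htg, hY⟩ := hJ a (hr.mono (by omega)) ht hg
  have hp : (D, J) ∈ 𝒟 ×ˢ Finset.range (Jm + 1) :=
    Finset.mem_product.2 ⟨hD', Finset.mem_range.2 (by omega)⟩
  have b1 : B₁ D J + B₂ D J ≤ ∑ p ∈ 𝒟 ×ˢ Finset.range (Jm + 1), (B₁ p.1 p.2 + B₂ p.1 p.2) :=
    Finset.single_le_sum (f := fun p : FDat k × ℕ => B₁ p.1 p.2 + B₂ p.1 p.2)
      (fun _ _ => Nat.zero_le _) hp
  have b2 : Y D J ≤ ∑ D ∈ 𝒟, Y D J :=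
    Finset.single_le_sum (f := fun D => Y D J) (fun _ _ => Nat.zero_le _) hD'
  have b3 : 2 * w ≤ g := (Nat.mul_le_mul_right w (Nat.le_add_right _ _)).trans hY
  have b4 : Y D J * w ≤ g := (Nat.mul_le_mul_right w (b2.trans (Nat.le_add_left _ _))).trans hY
  refine ⟨fun α h1 h2 => le_trans ?_ (k3 D J (hfc D hD') a g w htg b3 α h1 h2),
    k2 D J (hfc D hD') a g w (hr.mono (by omega)) htg,
    k1 D J (hfc D hD') a g w (hr.mono (by omega)) htg b4⟩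
  exact mul_le_mul_of_nonneg_right (hle _ hp) (Nat.cast_nonneg _)

end Pool.Agent.P.MP_aef18a_nt.TW
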