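import Pool.Agent.P.MP_aef18a_nt.TW.Iface

namespace Pool.Agent.P.MP_aef18a_nt.TW

open Polynomial Matrix LaurentPolynomial OW

namespace TFlaty

variable {k : ℕ}

lemma pl_single {a v : Fin k → ℤ} (hv : v ⬝ᵥ a ≤ 0) :
    pl a (1 - AddMonoidAlgebra.single v 1 : LQ ℤ k) = 1 - X ^ (-(v ⬝ᵥ a)).toNat := by
  have h : Ng a (1 - AddMonoidAlgebra.single v 1 : LQ ℤ k) := by
    have := ng_bin (𝕜 := ℤ) (a := a) (V := {v}) (fun u hu => by
      rw [Multiset.mem_singleton.1 hu]; exact hv)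
    simpa [bin] using this
  apply toLaurent_injective
  rw [toLaurent_pl h, map_sub, map_sub, map_one, map_one, spk_single, toLaurent_X_pow,
    dotProduct_neg, map_one, one_mul]
  congr 2
  omega

lemma pl_bin {a : Fin k → ℤ} {V : Multiset (Fin k → ℤ)} (h : ∀ v ∈ V, v ⬝ᵥ a ≤ 0) :
    pl a (bin ℤ V) = Ph (sg V a) := by
  induction V using Multiset.induction_on with
  | empty => simp [bin_zero, pl_one, sg, Ph_zero]
  | cons v V ih =>
    have h1 := h v (Multiset.mem_cons_self _ _)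
    have h2 : ∀ u ∈ V, u ⬝ᵥ a ≤ 0 := fun u hu => h u (Multiset.mem_cons_of_mem hu)
    have h3 : Ng a (1 - AddMonoidAlgebra.single v 1 : LQ ℤ k) := by
      have := ng_bin (𝕜 := ℤ) (a := a) (V := {v}) (fun u hu => by
        rw [Multiset.mem_singleton.1 hu]; exact h1)
      simpa [bin] using this
    rw [bin_cons, pl_mul h3 (ng_bin h2), ih h2, pl_single h1, sg, sg, Multiset.map_cons, Ph_cons]

/-- a polynomial all of whose exponents are at least `g` -/
lemma pl_shift {a : Fin k → ℤ} {A : LQ ℤ k} {g : ℕ} (h : ∀ u ∈ A.coeff.support, u ⬝ᵥ a + g ≤ 0) :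
    pl a A = X ^ g * ∑ u ∈ A.coeff.support, monomial ((-(u ⬝ᵥ a)).toNat - g) (A.coeff u) := by
  rw [pl, Finset.mul_sum]
  refine Finset.sum_congr rfl fun u hu => ?_
  have := h u hu
  rw [X_pow_mul_monomial]
  congr 2
  omega

end TFlaty

open TFlaty in
theorem p_TLink (hK : S_Link) : S_TLink := by
  intro k F D a J g w h0 hF hT hw hi
  obtain ⟨hLac, hdeg, -, hrev, hsup, -⟩ := hK k F a (J * g) 1 h0 hT.gp hi
  have nF : Ng a F := hT.top.ng
  have nφ : Ng a D.φ := fun u hu => nF u (hF.mem.2 (Or.inl hu))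
  have nW : Ng a D.W := fun u hu => nF u (hF.mem.2 (Or.inr hu))
  have gWT : ∀ u ∈ (D.W * D.T).coeff.support, u ⬝ᵥ a + g ≤ 0 := fun z hz => by
    obtain ⟨u, hu, v, hv, rfl⟩ := mem_mul hz
    have h1 := hT.gap u hu
    have h2 := hT.Tng v hv
    rw [add_dotProduct]
    omega
  have hadd : (SS F a).reverse = pl a D.φ + pl a D.W := by
    rw [hrev, ← pl_add nφ nW, ← hF.add]
  have hmul : pl a D.φ * pl a D.T = Polynomial.C D.d * Ph (sg D.V a) := by
    rw [← pl_mul nφ hT.Tng, hF.mul, ← pl_bin fun v hv => (hT.Vneg v hv).le,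
      ← Polynomial.smul_eq_C_mul, pl_smul]
  refine ⟨∑ u ∈ (D.W * D.T).coeff.support,
    monomial ((-(u ⬝ᵥ a)).toNat - g) ((D.W * D.T).coeff u),
    ⟨?_, hLac.1, ?_, ?_, hF.d0, ?_, ?_, fun s hs => ?_, hT.Vsum, hw, ?_, ?_, hmul, ?_, ?_⟩,
    by simpa using hdeg, fun l hl => ?_⟩
  · unfold LL; omega
  · have : l1p (SS F a) ≤ l1 F := hLac.2.1
    unfold LL; omega
  · have : l1p (∑ u ∈ (D.W * D.T).coeff.support,
        monomial ((-(u ⬝ᵥ a)).toNat - g) ((D.W * D.T).coeff u)) ≤ l1 (D.W * D.T) :=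
      (l1p_sum _ _).trans (Finset.sum_le_sum fun u _ => (l1p_monomial _ _).le)
    unfold LL; omega
  · unfold LL; omega
  · rw [sg, Multiset.card_map]
    unfold LL; omega
  · obtain ⟨v, hv, rfl⟩ := Multiset.mem_map.1 hs
    have := hT.Vneg v hv
    omega
  · obtain ⟨u, hu⟩ := support_nonempty hF.Wne
    have h1 := (hsup u (hF.mem.2 (Or.inr hu))).1
    have h2 := hT.gap u hu
    omega
  · refine natDegree_le_iff_coeff_eq_zero.2 fun m hm => ?_
    rw [pl_coeff_ng hT.Tng]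
    refine Finset.sum_eq_zero fun u hu => ?_
    obtain ⟨h1, h2⟩ := Finset.mem_filter.1 hu
    have := hT.Tw u h1
    omega
  · rw [hadd, add_sub_cancel_left, pl_shift hT.gap]
    exact dvd_mul_right _ _
  · rw [hadd, add_mul, hmul, ← pl_mul nW hT.Tng, pl_shift gWT]
  · rw [mem_support_iff, finsetSum_coeff] at hl
    obtain ⟨u, hu, e⟩ := Finset.exists_ne_zero_of_sum_ne_zero hl
    refine ⟨u, hu, ?_⟩
    rw [coeff_monomial] at e
    have h1 := gWT u hu
    split_ifs at e with h2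
    · omega
    · exact absurd rfl e

theorem p_TFlat (hR : S_TRoot) (hD : S_Red2) (hG : S_GFlat) : S_TFlat := by
  intro L J g w σ σ' d S φ T W B R n s₀ j x hT hJ hσ hs hx hRn hj1 hj2 hj3 hψ h0 hB hc hM
    α α' hα hα' hiff
  have S0 : S ≠ 0 := fun e => hT.c0 (by rw [e, coeff_zero])
  have wg := hT.wg
  have gN := hT.gN
  have hNw : S.natDegree + w + R * w ≤ (J + 1 + R) * g := by
    have := Nat.mul_le_mul_left R wg.le
    rw [add_mul, add_mul, one_mul]
    omega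
  have L1 : (1 : ℝ) ≤ L := by exact_mod_cast (by have := hT.L2; omega : 1 ≤ L)
  have C1 : (1 : ℝ) ≤ 3 * L * (g + 1 : ℝ) ^ L :=
    one_le_mul_of_one_le_of_one_le (by linarith)
      (one_le_pow₀ (by linarith [Nat.cast_nonneg (α := ℝ) g]))
  refine hG (S.natDegree + w + R * w) x S B (tw σ' R j) (d ^ (J + 1 + R))
    ((3 * L * (g + 1 : ℝ) ^ L) ^ (J + 1 + R)) S0 (by omega) hx (pow_ne_zero _ hT.d0)
    (one_le_pow₀ C1) h0 hB (fun β hβ => ⟨hψ β hβ, fun e he => ?_⟩) (fun i e he hi => ?_) ?_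
    α α' hα hα' hiff
  · obtain ⟨-, -, h1, h2, -⟩ := hR L g w σ d S φ T W hT β hβ
    have he' : e ≤ (J + 1 + R) * g := he.le.trans hNw
    refine ⟨by exact_mod_cast h2 (J + 1 + R) e he', ?_⟩
    rw [norm_pow]
    rcases le_total ‖β‖ 1 with h | h
    · exact (pow_le_one₀ (norm_nonneg _) h).trans (one_le_pow₀ C1)
    · refine (pow_le_pow_right₀ h he').trans ?_
      rw [mul_comm (J + 1 + R) g, pow_mul]
      exact pow_le_pow_left₀ (by positivity) h1 _
  · have hm : ((j + e : ℕ) : ℤ) ∈ B (i + 1) := by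
      rw [Nat.cast_add, add_comm (j : ℤ)]
      exact (hc i e hi).1
    obtain ⟨lam, hl⟩ := hD L g w σ σ' d S φ T W B (S.natDegree + w + R * w) s₀ hT hσ hs hB
      (fun i e he => (hc i e he).2) R n (i + 1) (j + e) le_rfl (by omega) (by omega) (by omega) hm
    refine ⟨fun e' => if (e' : ℤ) ∈ B (i + 1 + R + n) then lam e' else 0, fun β hβ => ?_⟩
    have e1 : tw σ' R j β * β ^ e = tw σ' R (j + e) β := by
      rw [tw, tw, pow_add]
      ring
    rw [e1, hl β hβ, Finset.sum_filter, Finset.sum_filter]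
    refine Finset.sum_congr rfl fun e' _ => ?_
    by_cases h : (e' : ℤ) ∈ B (i + 1 + R + n)
    · rw [if_pos h, if_pos (hB (by omega) h)]
      simp only [if_pos h]
    · simp [h]
  · have c1 : |((d ^ (J + 1 + R) : ℤ) : ℝ)| ≤ (L : ℝ) ^ (J + 1 + R) := by
      rw [Int.cast_pow, abs_pow]
      refine pow_le_pow_left₀ (abs_nonneg _) ?_ _
      rw [← Int.cast_abs, ← Nat.cast_natAbs]
      exact_mod_cast hT.dL
    have c3 : 2 * ((B (x ^ 10)).card : ℝ) * (3 * (L : ℝ) ^ 2 * (g + 1 : ℝ) ^ L) ^ (J + 1 + R) ≤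
        2 ^ x := by exact_mod_cast hM
    refine le_trans ?_ c3
    calc _ ≤ 2 * ((B (x ^ 10)).card : ℝ) * (3 * L * (g + 1 : ℝ) ^ L) ^ (J + 1 + R) *
          (L : ℝ) ^ (J + 1 + R) := by gcongr
      _ = _ := by rw [mul_assoc, ← mul_pow]; congr 2; ring

end Pool.Agent.P.MP_aef18a_nt.TW
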