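import Pool.Agent.P.MP_aef18a_nt.TW.Iface

namespace Pool.Agent.P.MP_aef18a_nt.TW

open Polynomial Matrix LaurentPolynomial OW

namespace TRooty

open Finset

variable {L g w : ℕ} {σ : Multiset ℕ} {d : ℤ} {S φ T W : ℤ[X]} {β : ℂ}

lemma ne0 (h : TL L g w σ d S φ T W) (hβ : aeval β S = 0) : β ≠ 0 := fun e => h.c0 (by
  rw [e, ← coeff_zero_eq_aeval_zero', eq_intCast] at hβ
  exact Int.cast_eq_zero.1 hβ)

lemma rel (h : TL L g w σ d S φ T W) (hβ : aeval β S = 0) :
    (d : ℂ) * aeval β⁻¹ (Ph σ) = -(β⁻¹ ^ g * aeval β⁻¹ W) := by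
  let _ := invertibleOfNonzero (ne0 h hβ)
  have e : aeval β⁻¹ S.reverse = 0 := by
    rw [← invOf_eq_inv]
    exact (eval₂_reverse_eq_zero_iff (algebraMap ℤ ℂ) β S).2 hβ
  have := congrArg (aeval β⁻¹) h.rel
  rw [map_mul, e, zero_mul, map_add, map_mul, map_mul, map_pow, aeval_X, aeval_C, eq_intCast]
    at this
  exact eq_neg_of_add_eq_zero_left this.symm

lemma expand (h0 : β ≠ 0) (P : ℤ[X]) {m : ℕ} (h : ∀ i ∈ P.support, i ≤ m) :
    β ^ m * aeval β⁻¹ P = ∑ i ∈ P.support, (P.coeff i : ℂ) * β ^ (m - i) := by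
  rw [aeval_def, eval₂_eq_sum, Polynomial.sum, mul_sum]
  refine sum_congr rfl fun i hi => ?_
  rw [eq_intCast, pow_sub₀ _ h0 (h i hi), inv_pow]
  ring

lemma phB (h0 : β ≠ 0) (σ : Multiset ℕ) :
    ‖β ^ σ.sum * aeval β⁻¹ (Ph σ)‖ ≤ 2 ^ σ.card * max 1 ‖β‖ ^ σ.sum := by
  induction σ using Multiset.induction_on with
  | empty => simp [Ph_zero]
  | cons s σ ih =>
    have e : β ^ (s + σ.sum) * aeval β⁻¹ ((1 - X ^ s) * Ph σ) =
        (β ^ s - 1) * (β ^ σ.sum * aeval β⁻¹ (Ph σ)) := by
      rw [map_mul, map_sub, map_one, map_pow, aeval_X, pow_add, mul_mul_mul_comm, mul_sub, mul_one,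
        ← mul_pow, mul_inv_cancel₀ h0, one_pow]
    have a : ‖β ^ s - 1‖ ≤ 2 * max 1 ‖β‖ ^ s := by
      refine (norm_sub_le _ _).trans ?_
      rw [norm_pow, norm_one, two_mul]
      exact add_le_add (pow_le_pow_left₀ (norm_nonneg _) (le_max_right _ _) s)
        (one_le_pow₀ (le_max_left _ _))
    rw [Ph_cons, Multiset.sum_cons, Multiset.card_cons, e, norm_mul]
    refine (mul_le_mul a ih (norm_nonneg _) (by positivity)).trans (le_of_eq ?_)
    ring

lemma phL {z : ℂ} {c : ℝ} (hc : 0 ≤ c) (hz : ‖z‖ + c ≤ 1) {σ : Multiset ℕ}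
    (h : ∀ s ∈ σ, 1 ≤ s) : c ^ σ.card ≤ ‖aeval z (Ph σ)‖ := by
  induction σ using Multiset.induction_on with
  | empty => simp [Ph_zero]
  | cons s σ ih =>
    rw [Ph_cons, Multiset.card_cons, map_mul, norm_mul, pow_succ', map_sub, map_one, map_pow,
      aeval_X]
    refine mul_le_mul ?_ (ih fun t ht => h t (Multiset.mem_cons_of_mem ht)) (by positivity)
      (norm_nonneg _)
    have a := norm_sub_norm_le (1 : ℂ) (z ^ s)
    have b : ‖z‖ ^ s ≤ ‖z‖ := pow_le_of_le_one (norm_nonneg _) (by linarith)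
      (by have := h s (Multiset.mem_cons_self _ _); omega)
    rw [norm_one, norm_pow] at a
    linarith

lemma small (h : TL L g w σ d S φ T W) (hβ : aeval β S = 0) (h1 : 1 ≤ ‖β‖) :
    ‖β‖ ^ g * ‖aeval β⁻¹ (Ph σ)‖ ≤ L := by
  have a := congrArg (fun z => ‖β ^ g * z‖) (rel h hβ)
  have b : ‖aeval β⁻¹ W‖ ≤ L :=
    (norm_aeval_le W (by rw [norm_inv]; exact inv_le_one_of_one_le₀ h1)).trans
      (Nat.cast_le.2 h.lenW)
  have c : (1 : ℝ) ≤ ‖(d : ℂ)‖ := by
    rw [Complex.norm_intCast]
    exact_mod_cast Int.one_le_abs h.d0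
  simp only [mul_neg, norm_neg, ← mul_assoc, ← mul_pow, mul_inv_cancel₀ (ne0 h hβ), one_pow,
    one_mul] at a
  rw [← a, norm_mul, norm_mul, norm_pow] at b
  refine le_trans (mul_le_mul_of_nonneg_right ?_ (norm_nonneg _)) b
  exact le_mul_of_one_le_right (by positivity) c

lemma norm_le (h : TL L g w σ d S φ T W) (hβ : aeval β S = 0) :
    ‖β‖ ^ g ≤ 3 * L * (g + 1 : ℝ) ^ L := by
  have g0 : (0 : ℝ) < g := Nat.cast_pos.2 (by have := h.wg; omega)
  have L1 : (1 : ℝ) ≤ L := Nat.one_le_cast.2 (by have := h.L2; omega)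
  have p1 : (1 : ℝ) ≤ (g + 1) ^ L := one_le_pow₀ (by linarith)
  rcases le_or_gt ‖β‖ (1 / g + 1) with a | a
  · have b : ‖β‖ ^ g ≤ Real.exp (1 / g) ^ g :=
      pow_le_pow_left₀ (norm_nonneg _) (a.trans (Real.add_one_le_exp _)) g
    rw [← Real.exp_nat_mul, mul_one_div_cancel g0.ne'] at b
    have c := Real.exp_one_lt_d9
    nlinarith [mul_le_mul L1 p1 zero_le_one (by linarith)]
  · have b1 : 1 ≤ ‖β‖ := le_trans (by have := one_div_pos.2 g0; linarith) a.le
    have b : ‖β⁻¹‖ + 1 / (g + 1) ≤ 1 := by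
      have : ‖β‖⁻¹ ≤ (1 / g + 1 : ℝ)⁻¹ := inv_anti₀ (by positivity) a.le
      rw [norm_inv]
      refine (add_le_add_left this _).trans (le_of_eq ?_)
      field_simp
      ring
    have c := (pow_le_pow_of_le_one (by positivity) (by linarith [norm_nonneg β⁻¹]) h.card).trans
      (phL (by positivity) b h.pos)
    have e := (mul_le_mul_of_nonneg_left c (by positivity)).trans (small h hβ b1)
    rw [one_div, inv_pow, ← div_eq_mul_inv, div_le_iff₀ (by positivity)] at e
    nlinarith

lemma supW (h : TL L g w σ d S φ T W) {l : ℕ} (hl : l ∈ W.support) :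
    g + l ≤ S.natDegree + w := by
  have a : (X ^ g * W).natDegree ≤ S.natDegree + w := by
    rw [← sub_eq_of_eq_add' h.rel]
    refine (natDegree_sub_le _ _).trans (max_le ?_ ?_)
    · exact natDegree_mul_le.trans (add_le_add (reverse_natDegree_le S) h.degT)
    · exact (natDegree_C_mul_le _ _).trans ((natDegree_Ph σ).trans (h.sum.trans (by omega)))
  refine (le_natDegree_of_ne_zero ?_).trans a
  rw [add_comm, coeff_X_pow_mul]
  exact mem_support_iff.1 hl

lemma int_one (h : TL L g w σ d S φ T W) (hβ : aeval β S = 0) {j : ℕ} (hj : j ≤ g) :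
    IsIntegral ℤ ((d : ℂ) * β ^ j) := by
  have wg := h.wg
  have gN := h.gN
  set M := Submodule.span ℤ ((fun i : ℕ => β ^ i) '' Set.Iio (S.natDegree + w))
  have m : ∀ i < S.natDegree + w, ∀ c : ℤ, (c : ℂ) * β ^ i ∈ M := fun i hi c => by
    rw [← zsmul_eq_mul]
    exact Submodule.smul_mem _ _ (Submodule.subset_span ⟨i, hi, rfl⟩)
  have key : ∀ i, i < S.natDegree + w + g → (d : ℂ) * β ^ i ∈ M := fun i => by
    induction i using Nat.strong_induction_on with
    | _ i ih =>
    intro hi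
    rcases lt_or_ge i (S.natDegree + w) with a | a
    · exact m i a d
    have p0 := Ph_coeff_zero h.pos
    have e1 := expand (ne0 h hβ) (Ph σ) (m := i) fun l hl => by
      have := (le_natDegree_of_mem_supp l hl).trans ((natDegree_Ph σ).trans h.sum)
      omega
    have e2 := expand (ne0 h hβ) W (m := i - g) fun l hl => by have := supW h hl; omega
    rw [← add_sum_erase _ _ (mem_support_iff.2 (p0 ▸ one_ne_zero)), p0] at e1
    have e3 : (d : ℂ) * β ^ i = -∑ l ∈ W.support, (W.coeff l : ℂ) * β ^ (i - g - l) -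
        ∑ l ∈ (Ph σ).support.erase 0, (Ph σ).coeff l • ((d : ℂ) * β ^ (i - l)) := by
      rw [← e2, pow_sub₀ _ (ne0 h hβ) (by omega), ← inv_pow, mul_assoc, ← mul_neg, ← rel h hβ,
        mul_left_comm, e1, mul_add, mul_sum]
      simp only [zsmul_eq_mul, mul_left_comm (d : ℂ)]
      simp
    rw [e3]
    refine sub_mem (neg_mem (Submodule.sum_mem _ fun l _ => m _ (by omega) _))
      (Submodule.sum_mem _ fun l hl => Submodule.smul_mem _ _ (ih _ ?_ (by omega)))
    have := ne_of_mem_erase hl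
    omega
  refine isIntegral_of_smul_mem_submodule M (fun e => ?_)
    (Submodule.fg_span ((Set.finite_Iio _).image _)) _ fun n hn => ?_
  · simpa [e] using m 0 (by omega) 1
  · induction hn using Submodule.span_induction with
    | mem x hx =>
      obtain ⟨i, hi, rfl⟩ := hx
      rw [smul_eq_mul, mul_assoc, ← pow_add]
      have : i < S.natDegree + w := hi
      exact key _ (by omega)
    | zero => simp
    | add x y _ _ hx hy =>
      rw [smul_add]
      exact add_mem hx hy
    | smul c x _ hx =>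
      rw [smul_comm]
      exact Submodule.smul_mem _ _ hx

end TRooty

theorem p_TRoot : S_TRoot := by
  intro L g w σ d S φ T W h β hβ
  have L1 : (1 : ℝ) ≤ L := Nat.one_le_cast.2 (by have := h.L2; omega)
  refine ⟨TRooty.ne0 h hβ, TRooty.rel h hβ, TRooty.norm_le h hβ, fun J => ?_, fun R j h1 h2 => ?_⟩
  · induction J with
    | zero =>
      intro e he
      rw [show e = 0 by omega, pow_zero, pow_zero, one_mul]
      exact isIntegral_one
    | succ J ih =>
      intro e he
      rw [Nat.succ_mul] at he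
      have := (ih (e - g) (by omega)).mul (TRooty.int_one h hβ (j := min e g) (min_le_right _ _))
      rwa [mul_mul_mul_comm, ← pow_succ, ← pow_add, show e - g + min e g = e by omega] at this
  · rcases le_total ‖β‖ 1 with a | a
    · obtain ⟨t, rfl⟩ := Nat.exists_eq_add_of_le h1
      have b := TRooty.phB (TRooty.ne0 h hβ) σ
      rw [max_eq_left a, one_pow, mul_one] at b
      rw [tw, pow_add, mul_comm R, pow_mul, mul_right_comm, ← mul_pow, norm_mul, norm_pow, norm_pow]
      refine (mul_le_of_le_one_right (by positivity) (pow_le_one₀ (norm_nonneg _) a)).trans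
        (pow_le_pow_left₀ (norm_nonneg _) (b.trans ?_) R)
      exact (pow_le_pow_right₀ one_le_two h.card).trans (le_mul_of_one_le_right (by positivity) L1)
    · rw [tw, norm_mul, norm_pow, norm_pow]
      refine (mul_le_mul_of_nonneg_right (pow_le_pow_right₀ a h2) (by positivity)).trans ?_
      rw [mul_comm R, pow_mul, ← mul_pow]
      refine pow_le_pow_left₀ (by positivity) ((TRooty.small h hβ a).trans ?_) R
      exact le_mul_of_one_le_left (by positivity) (one_le_pow₀ one_le_two)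

theorem p_TwB : S_TwB := by
  intro σ j β h0 hj
  obtain ⟨t, rfl⟩ := Nat.exists_eq_add_of_le hj
  rw [tw, pow_one, pow_add, mul_right_comm, norm_mul, norm_pow, pow_add, ← mul_assoc]
  exact mul_le_mul (TRooty.phB h0 σ) (pow_le_pow_left₀ (norm_nonneg _) (le_max_right _ _) t)
    (by positivity) (by positivity)

end Pool.Agent.P.MP_aef18a_nt.TW
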