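import Pool.Agent.P.MP_aef18a_nt.TW.Iface
import Pool.Agent.P.MP_aef18a_nt.OW.NormP

namespace Pool.Agent.P.MP_aef18a_nt.TW

open Polynomial Matrix LaurentPolynomial OW

namespace Tray

variable {k : ℕ}

lemma mem_tr {u v : Fin k → ℤ} {F : LQ ℤ k} :
    v ∈ (tr u F).coeff.support ↔ v + u ∈ F.coeff.support := by
  rw [Finsupp.mem_support_iff, Finsupp.mem_support_iff, tr_coeff]

lemma sub_mem_tr {u v : Fin k → ℤ} {F : LQ ℤ k} (h : v ∈ F.coeff.support) :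
    v - u ∈ (tr u F).coeff.support := by
  rw [mem_tr, sub_add_cancel]; exact h

lemma toQ_tr (u : Fin k → ℤ) (F : LQ ℤ k) :
    (toQ (tr u F) : LP k) = AddMonoidAlgebra.single (-u) 1 * toQ F := by
  rw [tr, map_mul, toQ_single, Int.cast_one]

lemma unit_s (u : Fin k → ℤ) : IsUnit (AddMonoidAlgebra.single (-u) 1 : LP k) :=
  isUnit_single _ isUnit_one

lemma mem_img {u v : Fin k → ℤ} {U : Finset (Fin k → ℤ)} :
    v ∈ U.image (· - u) ↔ v + u ∈ U := by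
  rw [Finset.mem_image]
  refine ⟨?_, fun h => ⟨_, h, add_sub_cancel_right _ _⟩⟩
  rintro ⟨w, hw, rfl⟩
  rwa [sub_add_cancel]

lemma res_tr (u : Fin k → ℤ) (U : Finset (Fin k → ℤ)) (F : LQ ℤ k) :
    res (U.image (· - u)) (tr u F) = tr u (res U F) := by
  ext v
  rw [res_coeff, tr_coeff, tr_coeff, res_coeff]
  simp only [mem_img]

lemma evc_s (u a : Fin k → ℤ) (α : ℂˣ) :
    evc a α (AddMonoidAlgebra.single (-u) 1 : LP k) ≠ 0 := ((unit_s u).map (evc a α)).ne_zero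

lemma evc_tr {u a : Fin k → ℤ} {α : ℂˣ} {F : LQ ℤ k} :
    evc a α (toQ (tr u F) : LP k) = 0 ↔ evc a α (toQ F : LP k) = 0 := by
  rw [toQ_tr, map_mul, mul_eq_zero, or_iff_right (evc_s u a α)]

lemma spec_tr (u a : Fin k → ℤ) (F : LQ ℤ k) :
    ∃ c, IsUnit c ∧ spec a (toQ (tr u F)) = c * spec a (toQ F) :=
  ⟨_, (unit_s u).map (spk a), by rw [toQ_tr, spec_mul]; rfl⟩

end Tray

open Tray in
theorem p_Tra : S_Tra := by
  intro k F u U hu
  refine ⟨fun h => ⟨?_, ?_, ?_, fun p hp => ?_⟩, fun h => ?_, fun C h a => ?_, fun a =>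
    ⟨fun κ h v hv hU => ?_, fun h v hv h0 => ?_, fun c η h α h1 h2 => h α h1 (evc_tr.2 h2),
      fun h α h1 h2 => ?_, fun A h X j h1 h2 α α' n1 n2 e1 e2 =>
        h X j h1 h2 α α' n1 n2 (evc_tr.1 e1) (evc_tr.1 e2), fun h => ?_, fun h => ?_⟩⟩
  · rw [toQ_tr]
    exact (irreducible_isUnit_mul (unit_s u)).2 h.irr
  · obtain ⟨x, hx, v, hv, w, hw, i, j, e⟩ := h.nc
    refine ⟨_, sub_mem_tr hx, _, sub_mem_tr hv, _, sub_mem_tr hw, i, j, ?_⟩
    simpa only [Pi.sub_apply, sub_sub_sub_cancel_right] using e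
  · rw [tr_coeff, zero_add]
    exact Finsupp.mem_support_iff.1 hu
  · obtain ⟨v, hv⟩ := h.prim p hp
    exact ⟨v - u, by rwa [tr_coeff, sub_add_cancel]⟩
  · rw [res_tr, toQ_tr]
    exact h.of_dvd ((unit_s u).mul_left_dvd.2 dvd_rfl)
  · obtain ⟨x, hx, v, hv, e⟩ := h a
    exact ⟨_, sub_mem_tr hx, _, sub_mem_tr hv, by rwa [sub_sub_sub_cancel_right]⟩
  · obtain ⟨w, hw, e⟩ := h _ (mem_tr.1 hv) fun e => hU (mem_img.2 e)
    refine ⟨_, sub_mem_tr hw, ?_⟩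
    rwa [show w - u - v = w - (v + u) by abel]
  · have := h _ (mem_tr.1 hv) fun e => h0 (by simpa using e)
    rw [add_dotProduct] at this
    omega
  · have e := evc_tr.1 h2
    rw [toQ_tr, OW.dv_mul, map_add, map_mul, map_mul, e, mul_zero, zero_add]
    exact mul_ne_zero (evc_s u a α) (h α h1 e)
  · obtain ⟨c, hc, e⟩ := spec_tr u a F
    rw [e] at h
    exact (NormPx.hasL_unit hc).1 h
  · obtain ⟨c, hc, e⟩ := spec_tr u a F
    obtain ⟨f₁, f₂, e', h1, h2⟩ := h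
    exact ⟨c * f₁, f₂, by rw [e, e', mul_assoc], (NormPx.hasL_unit hc).2 h1, h2⟩

theorem p_Step2 (hT : S_Tra) (hC : S_CoreAll) (hS : S_StarAll2) (hG : S_Gq) : S_Step2 := by
  intro k F U κ C hF hU hκ hSp
  obtain ⟨C', hC'⟩ := hG k F U κ hκ
  obtain ⟨A, η, hA, hη, hS⟩ := hS k F _ C' hF hC'
  choose! c B hc hB using fun u (hu : u ∈ F.coeff.support) =>
    hC k (tr u F) (U.image (· - u)) κ η C A ((hT k F u U hu).1 hF) ((hT k F u U hu).2.1 hU) hκ hη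
      ((hT k F u U hu).2.2.1 C hSp) hA
  have hne : F.coeff.support.Nonempty := ⟨0, Finsupp.mem_support_iff.2 hF.c0⟩
  obtain ⟨u₀, hu₀, hmin⟩ := Finset.exists_min_image _ c hne
  obtain ⟨ν₀, hν⟩ := hS (c u₀) (hc u₀ hu₀)
  obtain ⟨D, -, hD⟩ := exists_bx F
  obtain ⟨i, j, hij⟩ : ∃ i j : Fin k, i ≠ j := by
    obtain ⟨_, _, _, _, _, _, i, j, e⟩ := hF.nc
    exact ⟨i, j, fun h => e (by rw [h])⟩
  refine ⟨∑ u ∈ F.coeff.support, B u + ν₀ + 2 * D + 1, fun a => ?_⟩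
  induction hm : nu a using Nat.strong_induction_on generalizing a with
  | _ m ih =>
    intro ha
    have hlt := ha.1.lt_nu (by omega) hij
    have hinj := (ha.1.mono (E' := 2 * D) (by omega)).injOn hD.wb
    have h0 : spec a (toQ F) ≠ 0 :=
      spk_ne_zero (by rwa [support_toQ]) hF.irr.ne_zero
    obtain ⟨u, hu, hmax⟩ := Finset.exists_max_image _ (· ⬝ᵥ a) hne
    obtain ⟨t1, t2, t3, t4, t5, t6, t7⟩ := (hT k F u U hu).2.2.2 a
    have hBu : B u ≤ ∑ u ∈ F.coeff.support, B u :=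
      Finset.single_le_sum (f := B) (fun _ _ => Nat.zero_le _) hu
    obtain ⟨d1, d2, d3⟩ := hB u hu a (ha.1.mono (by omega))
      (t2 fun v hv e => lt_of_le_of_ne (hmax v hv) fun e' => e (hinj hv hu e')) (t1 κ ha.2.1)
    have d4 : DegE F a (c u₀) η := fun α h1 h2 =>
      (mul_le_mul_of_nonneg_right (hmin u hu) (Nat.cast_nonneg _)).trans (t3 _ _ d1 α h1 h2)
    obtain ⟨s1, s2⟩ := hν _ a (by omega) d4 h0 ha fun a' h1 h2 => (ih _ (hm ▸ h1) a' rfl h2).2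
    exact ⟨t6 d2, fun h => d3 (t4 s1) (t5 A s2) (t7 h)⟩

end Pool.Agent.P.MP_aef18a_nt.TW
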