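import Pool.Agent.P.MP_aef18a_nt.TW.Iface

namespace Pool.Agent.P.MP_aef18a_nt.TW

open Polynomial Matrix LaurentPolynomial OW

namespace Truncy

lemma l1c_eq (P : ℂ[X]) {s : Finset ℕ} (h : P.support ⊆ s) : l1c P = ∑ i ∈ s, ‖P.coeff i‖ :=
  Finset.sum_subset h fun i _ e => by rw [notMem_support_iff.1 e, norm_zero]

lemma l1c_nonneg (P : ℂ[X]) : 0 ≤ l1c P := Finset.sum_nonneg fun _ _ => norm_nonneg _

lemma l1c_add (P Q : ℂ[X]) : l1c (P + Q) ≤ l1c P + l1c Q := by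
  rw [l1c_eq _ support_add, l1c_eq P Finset.subset_union_left,
    l1c_eq Q Finset.subset_union_right, ← Finset.sum_add_distrib]
  exact Finset.sum_le_sum fun i _ => by rw [coeff_add]; exact norm_add_le _ _

lemma l1c_monomial (n : ℕ) (c : ℂ) : l1c (monomial n c) = ‖c‖ := by
  rw [l1c_eq _ (support_monomial_subset n c)]
  simp

lemma l1c_sum {ι : Type*} (s : Finset ι) (P : ι → ℂ[X]) :
    l1c (∑ i ∈ s, P i) ≤ ∑ i ∈ s, l1c (P i) := by
  classical
  induction s using Finset.induction_on with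
  | empty => simp [l1c]
  | insert i s hi ih =>
    rw [Finset.sum_insert hi, Finset.sum_insert hi]
    exact (l1c_add _ _).trans (by linarith)

lemma l1c_mul (P Q : ℂ[X]) : l1c (P * Q) ≤ l1c P * l1c Q := by
  rw [mul_eq_sum_sum]
  refine (l1c_sum _ _).trans ?_
  rw [l1c, Finset.sum_mul]
  refine Finset.sum_le_sum fun i _ => (l1c_sum _ _).trans ?_
  rw [l1c, Finset.mul_sum]
  exact Finset.sum_le_sum fun j _ => by rw [l1c_monomial, norm_mul]

lemma l1c_one : l1c 1 = 1 := by simpa using l1c_monomial 0 1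

lemma l1c_pow (P : ℂ[X]) (n : ℕ) : l1c (P ^ n) ≤ l1c P ^ n := by
  induction n with
  | zero => simp [l1c_one]
  | succ n ih =>
    rw [pow_succ, pow_succ]
    exact (l1c_mul _ _).trans (mul_le_mul_of_nonneg_right ih (l1c_nonneg _))

lemma l1c_smul (c : ℂ) (P : ℂ[X]) : l1c (c • P) ≤ ‖c‖ * l1c P := by
  rw [Polynomial.smul_eq_C_mul, ← l1c_monomial 0 c]
  exact l1c_mul _ _

lemma tele {A : Type} [CommRing A] [Algebra ℂ A] (y : A) (c : ℂ) (n : ℕ) :
    (∑ i ∈ Finset.range n, (1 - i * c) • y ^ i) * (1 - y) =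
      1 + (-c) • ∑ i ∈ Finset.range n, y ^ (i + 1) - (1 - n * c) • y ^ n := by
  induction n with
  | zero => simp
  | succ n ih =>
    rw [Finset.sum_range_succ, Finset.sum_range_succ, add_mul, ih]
    simp only [Algebra.smul_def, map_sub, map_mul, map_neg, map_one, map_natCast, Nat.cast_succ,
      map_add]
    ring

variable {k : ℕ} {a : Fin k → ℤ}

lemma fej_eq (B : ℕ) (v : Fin k → ℤ) : fej B v = ∑ i ∈ Finset.range B,
    (1 - i * (B : ℂ)⁻¹) • (AddMonoidAlgebra.single v 1 : LQ ℂ k) ^ i := by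
  refine Finset.sum_congr rfl fun i _ => ?_
  rw [AddMonoidAlgebra.single_pow, AddMonoidAlgebra.smul_single, natCast_zsmul, one_pow,
    smul_eq_mul, mul_one, div_eq_mul_inv]

lemma ng_single {v : Fin k → ℤ} (h : v ⬝ᵥ a ≤ 0) : Ng a (AddMonoidAlgebra.single v 1 : LQ ℂ k) :=
  fun _ hz => mem_single hz ▸ h

lemma pl_single (v : Fin k → ℤ) :
    pl a (AddMonoidAlgebra.single v 1 : LQ ℂ k) = X ^ (-(v ⬝ᵥ a)).toNat := by
  simp [pl, X_pow_eq_monomial]

lemma ng_fej (B : ℕ) {v : Fin k → ℤ} (h : v ⬝ᵥ a ≤ 0) : Ng a (fej B v) := by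
  rw [fej_eq]
  exact Ng.sum fun i _ => ((ng_single h).pow i).smul _

lemma one_factor {B : ℕ} (hB : 0 < B) {v : Fin k → ℤ} (h : v ⬝ᵥ a ≤ 0) :
    Ng a (fej B v * (1 - AddMonoidAlgebra.single v 1)) ∧
    l1c (pl a (fej B v * (1 - AddMonoidAlgebra.single v 1))) ≤ 2 ∧
    (pl a (fej B v * (1 - AddMonoidAlgebra.single v 1))).natDegree ≤ B * (-(v ⬝ᵥ a)).toNat := by
  have hB' : (B : ℂ) ≠ 0 := by exact_mod_cast hB.ne'
  have n1 : ∀ i ∈ Finset.range B, Ng a ((AddMonoidAlgebra.single v 1 : LQ ℂ k) ^ (i + 1)) :=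
    fun i _ => (ng_single h).pow _
  rw [fej_eq, tele, mul_inv_cancel₀ hB', sub_self, zero_smul, sub_zero,
    pl_add (Ng.one a) ((Ng.sum n1).smul _), pl_one, pl_smul, pl_sum n1]
  simp only [pl_pow (ng_single h), pl_single, ← pow_mul]
  refine ⟨(Ng.one a).add ((Ng.sum n1).smul _), (l1c_add _ _).trans ?_,
    (natDegree_add_le _ _).trans (max_le (by simp) ((natDegree_smul_le _ _).trans
      (natDegree_sum_le_of_forall_le _ _ fun i hi => ?_)))⟩
  · have := (l1c_smul (-(B : ℂ)⁻¹) _).trans (mul_le_mul_of_nonneg_left (l1c_sum (Finset.range B)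
      fun i => X ^ ((-(v ⬝ᵥ a)).toNat * (i + 1))) (norm_nonneg _))
    simp only [X_pow_eq_monomial, l1c_monomial, norm_one, Finset.sum_const, Finset.card_range,
      nsmul_eq_mul, mul_one, norm_neg, norm_inv, Complex.norm_natCast] at this
    rw [inv_mul_cancel₀ (by exact_mod_cast hB.ne')] at this
    simp only [X_pow_eq_monomial, l1c_one]
    linarith
  · rw [natDegree_X_pow, mul_comm]
    exact Nat.mul_le_mul_right _ (Finset.mem_range.1 hi)

lemma all_factor {B : ℕ} (hB : 0 < B) {V : Multiset (Fin k → ℤ)} (h : ∀ v ∈ V, v ⬝ᵥ a ≤ 0) :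
    Ng a (V.map (fej B)).prod ∧ l1c (pl a ((V.map (fej B)).prod * bin ℂ V)) ≤ 2 ^ V.card ∧
      (pl a ((V.map (fej B)).prod * bin ℂ V)).natDegree ≤ B * (sg V a).sum := by
  induction V using Multiset.induction_on with
  | empty => simp [bin_zero, pl_one, l1c_one, Ng.one]
  | cons v V ih =>
    have hV : ∀ v' ∈ V, v' ⬝ᵥ a ≤ 0 := fun v' hv' => h v' (Multiset.mem_cons_of_mem hv')
    have hv := h v (Multiset.mem_cons_self _ _)
    obtain ⟨a1, a2, a3⟩ := ih hV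
    obtain ⟨b1, b2, b3⟩ := one_factor hB hv
    rw [Multiset.map_cons, Multiset.prod_cons, bin_cons, mul_mul_mul_comm,
      pl_mul b1 (a1.mul (ng_bin hV)), Multiset.card_cons, pow_succ', sg, Multiset.map_cons,
      Multiset.sum_cons, mul_add]
    exact ⟨(ng_fej B hv).mul a1, (l1c_mul _ _).trans
      (mul_le_mul b2 a2 (l1c_nonneg _) zero_le_two), natDegree_mul_le.trans (add_le_add b3 a3)⟩

lemma dvd_pl {A : LQ ℂ k} {g : ℕ} (h : ∀ u ∈ A.coeff.support, u ⬝ᵥ a + g ≤ 0) :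
    X ^ g ∣ pl a A := by
  refine X_pow_dvd_iff.2 fun d hd => ?_
  rw [pl_coeff]
  refine Finset.sum_eq_zero fun u hu => ?_
  obtain ⟨h1, h2⟩ := Finset.mem_filter.1 hu
  have := h u h1
  omega

lemma ng_toC {A : LQ ℤ k} (h : Ng a A) : Ng a (toC A) := h.subset (support_toC A).subset

end Truncy

open Truncy in
theorem p_Trunc : S_Trunc := by
  intro k F D a J g w B R ψ hF hT hB hψ
  have hV : ∀ v ∈ D.V, v ⬝ᵥ a ≤ 0 := fun v hv => (hT.Vneg v hv).le
  obtain ⟨a1, a2, a3⟩ := all_factor hB hV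
  have gap : ∀ u ∈ (-(D.W * D.T)).coeff.support, u ⬝ᵥ a + g ≤ 0 := fun z hz => by
    rw [AddMonoidAlgebra.coeff_neg, Finsupp.support_neg] at hz
    obtain ⟨u, hu, v, hv, rfl⟩ := mem_mul hz
    have := hT.gap u hu
    have := hT.Tng v hv
    rw [add_dotProduct]
    omega
  have nΩ : Ng a (-(D.W * D.T)) := ng_of_gap fun u hu _ => gap u hu
  have nΦ : Ng a (D.d • bin ℤ D.V) := (ng_bin hV).smul _
  have nt : Ng a (toC (D.T * TR D R)) :=
    ng_toC (hT.Tng.mul (Ng.sum fun i _ => (nΩ.pow _).mul (nΦ.pow _)))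
  have nF := ng_toC hT.top.ng
  have nδ : Ng a (dv (cv ℂ a) (toC F)) := nF.subset (support_dv _ _)
  have e1 : F * (D.T * TR D R) + (-(D.W * D.T)) ^ R = (D.d • bin ℤ D.V) ^ R := by
    have := geom_sum₂_mul (-(D.W * D.T)) (D.d • bin ℤ D.V) R
    rw [hF.add, TR]
    rw [← hF.mul] at this ⊢
    linear_combination -this
  have e2 := congrArg (fun A => pl a (toC A)) e1
  simp only [map_add, map_pow] at e2
  rw [map_mul toC F, pl_add (nF.mul nt) ((ng_toC nΩ).pow R), pl_mul nF nt, pl_pow (ng_toC nΩ),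
    pl_pow (ng_toC nΦ)] at e2
  have e3 : toC (D.d • bin ℤ D.V) = (D.d : ℂ) • bin ℂ D.V := by
    rw [map_zsmul, toC_bin, Int.cast_smul_eq_zsmul]
  have e4 : pl a (D.V.map (fej B)).prod * pl a (toC (D.d • bin ℤ D.V)) =
      (D.d : ℂ) • pl a ((D.V.map (fej B)).prod * bin ℂ D.V) := by
    rw [e3, pl_smul, pl_mul a1 (ng_bin hV), mul_smul_comm]
  refine ⟨(pl a (D.V.map (fej B)).prod * pl a (toC (D.d • bin ℤ D.V))) ^ R, ?_, ?_, fun m hm => ?_⟩
  · refine (l1c_pow _ _).trans (pow_le_pow_left₀ (l1c_nonneg _) ?_ R)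
    rw [e4, mul_comm (2 ^ _ : ℝ)]
    refine (l1c_smul _ _).trans ?_
    rw [Complex.norm_intCast]
    exact mul_le_mul_of_nonneg_left a2 (abs_nonneg _)
  · rw [e4, mul_assoc]
    exact natDegree_pow_le.trans (Nat.mul_le_mul_left _ ((natDegree_smul_le _ _).trans
      (a3.trans (Nat.mul_le_mul_left _ hT.Vsum))))
  · have e5 : (fun i => (((a i : ℤ) : ℝ) : ℂ)) = cv ℂ a := funext fun i => by simp [cv]
    obtain ⟨q, hq⟩ := dvd_pl (A := toC (-(D.W * D.T))) fun u hu =>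
      gap u (by rwa [support_toC] at hu)
    rw [MM, e5, HH, pl_mul (a1.pow R) ((nδ.pow 2).mul nt), pl_pow a1, pl_mul (nδ.pow 2) nt,
      pl_pow nδ, mul_pow, ← e2, hq, ← Polynomial.coeff_coe]
    have e6 : ((pl a (D.V.map (fej B)).prod ^ R * (pl a (toC F) * pl a (toC (D.T * TR D R)) +
        (X ^ g * q) ^ R) : ℂ[X]) : PowerSeries ℂ) * ψ =
        ((pl a (D.V.map (fej B)).prod ^ R * (pl a (dv (cv ℂ a) (toC F)) ^ 2 *
          pl a (toC (D.T * TR D R))) : ℂ[X]) : PowerSeries ℂ) + PowerSeries.X ^ (R * g) *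
          (((pl a (D.V.map (fej B)).prod * q : ℂ[X]) : PowerSeries ℂ) ^ R * ψ) := by
      push_cast
      rw [← hψ]
      ring
    rw [e6, map_add, PowerSeries.coeff_X_pow_mul', if_neg (by omega), add_zero]

end Pool.Agent.P.MP_aef18a_nt.TW
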