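import Pool.Agent.P.MP_aef18a_nt.OW.All
import Pool.Agent.P.MP_aef18a_nt.TW.Big
import Pool.Agent.P.MP_aef18a_nt.TW.Cfg
import Pool.Agent.P.MP_aef18a_nt.TW.Cone3
import Pool.Agent.P.MP_aef18a_nt.TW.Cop2
import Pool.Agent.P.MP_aef18a_nt.TW.Core3
import Pool.Agent.P.MP_aef18a_nt.TW.Cov
import Pool.Agent.P.MP_aef18a_nt.TW.DatU
import Pool.Agent.P.MP_aef18a_nt.TW.DegT
import Pool.Agent.P.MP_aef18a_nt.TW.En2
import Pool.Agent.P.MP_aef18a_nt.TW.ExT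
import Pool.Agent.P.MP_aef18a_nt.TW.Faces
import Pool.Agent.P.MP_aef18a_nt.TW.Fej
import Pool.Agent.P.MP_aef18a_nt.TW.FejEv
import Pool.Agent.P.MP_aef18a_nt.TW.Fin3
import Pool.Agent.P.MP_aef18a_nt.TW.First
import Pool.Agent.P.MP_aef18a_nt.TW.FlatAll2
import Pool.Agent.P.MP_aef18a_nt.TW.GFlat
import Pool.Agent.P.MP_aef18a_nt.TW.Grow2
import Pool.Agent.P.MP_aef18a_nt.TW.HV
import Pool.Agent.P.MP_aef18a_nt.TW.Loc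
import Pool.Agent.P.MP_aef18a_nt.TW.Mt2
import Pool.Agent.P.MP_aef18a_nt.TW.NoTwo2
import Pool.Agent.P.MP_aef18a_nt.TW.Norm2
import Pool.Agent.P.MP_aef18a_nt.TW.Num
import Pool.Agent.P.MP_aef18a_nt.TW.One
import Pool.Agent.P.MP_aef18a_nt.TW.One12
import Pool.Agent.P.MP_aef18a_nt.TW.PX
import Pool.Agent.P.MP_aef18a_nt.TW.PoleBig
import Pool.Agent.P.MP_aef18a_nt.TW.PoleEx
import Pool.Agent.P.MP_aef18a_nt.TW.Pt
import Pool.Agent.P.MP_aef18a_nt.TW.Red2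
import Pool.Agent.P.MP_aef18a_nt.TW.Setup2
import Pool.Agent.P.MP_aef18a_nt.TW.StepV
import Pool.Agent.P.MP_aef18a_nt.TW.TFlat
import Pool.Agent.P.MP_aef18a_nt.TW.TRoot
import Pool.Agent.P.MP_aef18a_nt.TW.Tra
import Pool.Agent.P.MP_aef18a_nt.TW.Trunc

namespace Pool.Agent.P.MP_aef18a_nt.TW

open OW

theorem t_TLink : S_TLink := p_TLink p_Link
theorem t_H0 : S_H0 := p_H0 p_NS
theorem t_Small : S_Small := p_Small p_Proj p_FaceDiv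
theorem t_DegT : S_DegT := p_DegT (deg gap dobT)
theorem t_Lev2 : S_Lev2 := p_Lev2 p_Link p_Lac p_Mann t_CycP t_CntA t_NtrN

theorem t_FlatAll2 : S_FlatAll2 :=
  p_FlatAll2 p_Link t_TLink
    (p_TFlat p_TRoot (p_Red2 p_TRoot) (p_GFlat (p_Core2 (p_Core p_Fc1 p_Fc2 p_Avg))))

theorem t_One : S_One :=
  p_One (p_Num p_Div) p_Setup2 (p_One1 p_TRoot p_TwB p_TwSum (p_En2 p_Nrm) (p_Raw p_Fej))
    (p_One2 p_TRoot p_TwSum) (p_Vser p_NS (p_Neck p_NS))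
    (p_First p_NS p_CycMu t_H0 (p_PhiMu p_NS p_CycMu)) (p_ExT (p_H1 p_NS t_H0)) p_Big p_TRoot

theorem t_Grow2 : S_Grow2 :=
  p_Grow2 p_Link
    (p_Cov (p_PoleEx (p_Cop2 t_Cpx) (p_Qex p_Ebz1) (p_Pt (p_CntB t_Ebz) t_Ebz p_Half) p_Loc
      (p_PX1 p_Dvr)) (p_PoleBig p_Loc p_FejEv) p_MMb p_Loc) p_MMb p_FejEv p_Trunc (p_Qc2 p_NS)

theorem t_StepV : S_StepV :=
  p_StepV p_Link p_Two t_DegM t_FlatAll p_Setup
    (p_Levels p_Link p_Lac p_Mann t_CycP t_CntA t_NtrN) t_Unit t_Grow t_Exact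
    (p_NonU p_Link (p_Trans p_Tr1) (p_Q0 p_Q0a p_Q0b p_Tr1)) p_Lac

theorem t_CoreAll : S_CoreAll :=
  p_CoreAll (p_Cfg p_Proj (p_DatU p_FaceDiv t_Small) p_Pig2) t_DegT t_Lev2 t_StepV
    (p_Core3 t_TLink t_FlatAll2 t_Lev2 t_DegT t_One t_Grow2 p_End p_TRoot p_Two p_Link)

theorem t_Step2 : S_Step2 :=
  p_Step2 p_Tra t_CoreAll
    (p_StarAll2 (p_Proc p_Rmove)
      (p_NoTwo2 t_K p_AbsMod p_Inj p_Ker p_Half p_Gap2 p_NtrC t_NtrN) (p_Star1 t_Ebz)) p_Gq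

theorem t_Fin3 : S_Fin3 :=
  p_Fin3 czT t_K p_Lat (p_AbsF t_K1) (p_Mt2 p_Hull) (p_Norm2 t_Step2 t_Small) p_StarIrr

end Pool.Agent.P.MP_aef18a_nt.TW
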