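import Pool.Agent.P.MP_aef18a_nt.TW.Defs

namespace Pool.Agent.P.MP_aef18a_nt.TW

open Polynomial Matrix LaurentPolynomial OW

section Gen

variable {𝕜 : Type} [CommRing 𝕜] {k r : ℕ}

lemma res_coeff (U : Finset (Fin k → ℤ)) (A : LQ 𝕜 k) (u : Fin k → ℤ) :
    (res U A).coeff u = if u ∈ U then A.coeff u else 0 := by
  classical
  simp [res, Finsupp.finsetSum_apply, Finsupp.single_apply]

lemma mem_res {U : Finset (Fin k → ℤ)} {A : LQ 𝕜 k} {u : Fin k → ℤ} :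
    u ∈ (res U A).coeff.support ↔ u ∈ U ∧ u ∈ A.coeff.support := by
  rw [Finsupp.mem_support_iff, Finsupp.mem_support_iff, res_coeff]
  split_ifs with h <;> simp [h]

lemma mem_sub_res {U : Finset (Fin k → ℤ)} {A : LQ 𝕜 k} {u : Fin k → ℤ} :
    u ∈ (A - res U A).coeff.support ↔ u ∉ U ∧ u ∈ A.coeff.support := by
  rw [Finsupp.mem_support_iff, Finsupp.mem_support_iff, AddMonoidAlgebra.coeff_sub,
    Finsupp.sub_apply, res_coeff]
  split_ifs with h <;> simp [h]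

lemma mem_lev {ω : (Fin k → ℤ) → ℝ} {m : ℝ} {A : LQ 𝕜 k} {u : Fin k → ℤ} :
    u ∈ (lev ω m A).coeff.support ↔ u ∈ A.coeff.support ∧ ω u = m := by
  rw [Finsupp.mem_support_iff, Finsupp.mem_support_iff, lev_coeff]
  split_ifs with h <;> simp [h]

lemma res_lev (ω : (Fin k → ℤ) → ℝ) (m : ℝ) (A : LQ 𝕜 k) :
    res (lev ω m A).coeff.support A = lev ω m A := by
  ext u
  rw [res_coeff]
  split_ifs with h
  · rw [lev_coeff, if_pos (mem_lev.1 h).2]
  · exact (Finsupp.notMem_support_iff.1 h).symm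

lemma res_toQ (U : Finset (Fin k → ℤ)) (F : LQ ℤ k) : (toQ (res U F) : LP k) = res U (toQ F) := by
  ext u
  rw [toQ_coeff, res_coeff, res_coeff, toQ_coeff]
  split_ifs <;> simp

lemma tr_coeff (u : Fin k → ℤ) (A : LQ 𝕜 k) (z : Fin k → ℤ) : (tr u A).coeff z = A.coeff (z + u) := by
  rw [tr, AddMonoidAlgebra.coeff_single_mul_apply, one_mul, neg_neg, add_comm]

lemma bin_zero : bin 𝕜 (0 : Multiset (Fin k → ℤ)) = 1 := by simp [bin]

lemma bin_cons (v : Fin k → ℤ) (V : Multiset (Fin k → ℤ)) :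
    bin 𝕜 (v ::ₘ V) = (1 - AddMonoidAlgebra.single v 1) * bin 𝕜 V := by simp [bin]

lemma bin_add (V V' : Multiset (Fin k → ℤ)) : bin 𝕜 (V + V') = bin 𝕜 V * bin 𝕜 V' := by
  simp [bin]

lemma one_sub_single_ne_zero [Nontrivial 𝕜] {v : Fin k → ℤ} (hv : v ≠ 0) :
    (1 - AddMonoidAlgebra.single v 1 : LQ 𝕜 k) ≠ 0 := by
  intro e
  have := congrArg (fun A : LQ 𝕜 k => A.coeff 0) e
  simp [AddMonoidAlgebra.one_def, hv] at this

lemma bin_ne_zero [IsDomain 𝕜] {V : Multiset (Fin k → ℤ)} (h : ∀ v ∈ V, v ≠ 0) : bin 𝕜 V ≠ 0 := by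
  refine Multiset.prod_ne_zero fun e => ?_
  obtain ⟨v, hv, e⟩ := Multiset.mem_map.1 e
  exact one_sub_single_ne_zero (h v hv) e

lemma map_bin {𝕜' : Type} [CommRing 𝕜'] (f : LQ 𝕜 k →+* LQ 𝕜' r) (φ : (Fin k → ℤ) → Fin r → ℤ)
    (h : ∀ v, f (AddMonoidAlgebra.single v 1) = AddMonoidAlgebra.single (φ v) 1)
    (V : Multiset (Fin k → ℤ)) : f (bin 𝕜 V) = bin 𝕜' (V.map φ) := by
  simp [bin, map_multiset_prod, Multiset.map_map, h]

lemma toQ_bin (V : Multiset (Fin k → ℤ)) : (toQ (bin ℤ V) : LP k) = bin ℚ V := by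
  simpa using map_bin (toQ : LQ ℤ k →+* LP k) id (fun v => by simp [toQ_single]) V

lemma toC_bin [Algebra 𝕜 ℂ] (V : Multiset (Fin k → ℤ)) : toC (bin 𝕜 V) = bin ℂ V := by
  simpa using map_bin (toC : LQ 𝕜 k →+* LQ ℂ k) id (fun v => by simp [toC]) V

lemma evc_bin [Algebra 𝕜 ℂ] (b : Fin k → ℤ) (α : ℂˣ) (V : Multiset (Fin k → ℤ)) :
    evc b α (bin 𝕜 V) = (V.map fun v => 1 - (α : ℂ) ^ (v ⬝ᵥ b)).prod := by
  simp [bin, map_multiset_prod, Multiset.map_map, evc_single]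

/-- a root of a product of binomials is a root of unity -/
lemma tors_of_bin [Algebra 𝕜 ℂ] {b : Fin k → ℤ} {α : ℂˣ} {V : Multiset (Fin k → ℤ)}
    (hV : ∀ v ∈ V, v ⬝ᵥ b ≠ 0) (h : evc b α (bin 𝕜 V) = 0) : ∃ m, 0 < m ∧ (α : ℂ) ^ m = 1 := by
  rw [evc_bin, Multiset.prod_eq_zero_iff] at h
  obtain ⟨v, hv, e⟩ := Multiset.mem_map.1 h
  refine ⟨(v ⬝ᵥ b).natAbs, Int.natAbs_pos.2 (hV v hv), ?_⟩
  have e1 : (α : ℂ) ^ (v ⬝ᵥ b) = 1 := (sub_eq_zero.1 e).symm
  rcases Int.natAbs_eq (v ⬝ᵥ b) with a | a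
  · rw [a, zpow_natCast] at e1
    exact e1
  · rw [a, _root_.zpow_neg, inv_eq_one, zpow_natCast] at e1
    exact e1

lemma bd_bin (ω : (Fin k → ℤ) →+ ℝ) {p : ℝ} (hp : 0 ≤ p) {V : Multiset (Fin k → ℤ)}
    (h : ∀ v ∈ V, ω v ≤ p) : Bd ω (V.card * p) (bin 𝕜 V) := by
  induction V using Multiset.induction_on with
  | empty =>
    intro z hz
    rw [bin_zero, AddMonoidAlgebra.one_def] at hz
    simp [mem_single hz]
  | cons v V ih =>
    rw [bin_cons, Multiset.card_cons, Nat.cast_succ, add_one_mul, add_comm]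
    refine bd_mul ω (bd_sub (fun z hz => ?_) fun z hz => ?_)
      (ih fun v' hv' => h v' (Multiset.mem_cons_of_mem hv'))
    · rw [AddMonoidAlgebra.one_def] at hz
      simpa [mem_single hz] using hp
    · rw [mem_single hz]
      exact h v (Multiset.mem_cons_self _ _)

lemma ng_bin {a : Fin k → ℤ} {V : Multiset (Fin k → ℤ)} (h : ∀ v ∈ V, v ⬝ᵥ a ≤ 0) :
    Ng a (bin 𝕜 V) := fun u hu => by
  have := bd_bin (𝕜 := 𝕜) (dotR a) le_rfl (fun v hv => by
    rw [dotR_apply]; exact_mod_cast h v hv) u hu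
  rw [mul_zero, dotR_apply] at this
  exact_mod_cast this

lemma Tp.of_dvd {A B : LP k} (h : Tp B) (hd : A ∣ B) : Tp A := by
  obtain ⟨V, h1, h2⟩ := h
  exact ⟨V, h1, hd.trans h2⟩

lemma Tp.ne_zero {A : LP k} (h : Tp A) : A ≠ 0 := by
  obtain ⟨V, h1, h2⟩ := h
  exact ne_zero_of_dvd_ne_zero (bin_ne_zero h1) h2

end Gen

section Face

variable {k : ℕ} {F : LQ ℤ k} {D : FDat k} {a : Fin k → ℤ} {J g w : ℕ}

lemma Fc.coeff_φ (h : Fc F D) {u : Fin k → ℤ} (hu : u ∈ D.φ.coeff.support) :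
    F.coeff u = D.φ.coeff u := by
  have : D.W.coeff u = 0 := by
    by_contra e
    exact (h.W0 u (Finsupp.mem_support_iff.2 e)).ne (h.φ0 u hu)
  rw [h.add, AddMonoidAlgebra.coeff_add, Finsupp.add_apply, this, add_zero]

lemma Fc.coeff_W (h : Fc F D) {u : Fin k → ℤ} (hu : u ∈ D.W.coeff.support) :
    F.coeff u = D.W.coeff u := by
  have : D.φ.coeff u = 0 := by
    by_contra e
    exact (h.W0 u hu).ne (h.φ0 u (Finsupp.mem_support_iff.2 e))
  rw [h.add, AddMonoidAlgebra.coeff_add, Finsupp.add_apply, this, zero_add]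

lemma Fc.mem (h : Fc F D) {u : Fin k → ℤ} :
    u ∈ F.coeff.support ↔ u ∈ D.φ.coeff.support ∨ u ∈ D.W.coeff.support := by
  refine ⟨fun hu => ?_, fun hu => hu.elim (fun e => ?_) fun e => ?_⟩
  · by_contra hn
    simp only [Finsupp.mem_support_iff, not_or, not_not] at hu hn
    exact hu (by rw [h.add, AddMonoidAlgebra.coeff_add, Finsupp.add_apply, hn.1, hn.2, add_zero])
  · rw [Finsupp.mem_support_iff, h.coeff_φ e]
    exact Finsupp.mem_support_iff.1 e
  · rw [Finsupp.mem_support_iff, h.coeff_W e]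
    exact Finsupp.mem_support_iff.1 e

lemma Fc.coeff_zero (h : Fc F D) : D.φ.coeff 0 = F.coeff 0 := by
  have : D.W.coeff 0 = 0 := by
    by_contra e
    simpa using h.W0 0 (Finsupp.mem_support_iff.2 e)
  rw [h.add, AddMonoidAlgebra.coeff_add, Finsupp.add_apply, this, add_zero]

lemma Fc.T_ne (h : Fc F D) : D.T ≠ 0 := fun e => by
  have := h.mul
  rw [e, mul_zero, eq_comm, smul_eq_zero] at this
  exact this.elim h.d0 (bin_ne_zero h.Vne)

lemma Fc.a₀_ne (h : Fc F D) : D.a₀ ≠ 0 := fun e => by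
  obtain ⟨u, hu⟩ := support_nonempty h.Wne
  simpa [e] using h.W0 u hu

lemma Fc.ng (h : Fc F D) : Ng D.a₀ F := fun u hu =>
  (h.mem.1 hu).elim (fun e => (h.φ0 u e).le) fun e => (h.W0 u e).le

lemma Top.ng (h : Top F a) : Ng a F := fun u hu => by
  by_cases e : u = 0
  · simp [e]
  · exact (h u hu e).le

/-- the trivial gap `1`, to feed `S_Link` -/
lemma Top.gp (h : Top F a) {n : ℕ} (h1 : nu a ≤ n) (h2 : ∀ u ∈ F.coeff.support, -(u ⬝ᵥ a) ≤ n) :
    Gp F a n 1 :=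
  ⟨le_rfl, fun u hu e => by have := h u hu e; omega, by omega, fun u hu => by
    simpa using h2 u hu⟩

lemma TG.gp (h : TG F D a J g w) : Gp F a (J * g) 1 :=
  h.top.gp h.nu fun u hu => by exact_mod_cast h.wid u hu

end Face

section One

lemma Ph_zero : Ph 0 = 1 := by simp [Ph]

lemma Ph_cons (s : ℕ) (σ : Multiset ℕ) : Ph (s ::ₘ σ) = (1 - X ^ s) * Ph σ := by simp [Ph]

lemma Ph_add (σ τ : Multiset ℕ) : Ph (σ + τ) = Ph σ * Ph τ := by simp [Ph]

lemma Ph_coeff_zero {σ : Multiset ℕ} (h : ∀ s ∈ σ, 1 ≤ s) : (Ph σ).coeff 0 = 1 := by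
  induction σ using Multiset.induction_on with
  | empty => simp [Ph_zero]
  | cons s σ ih =>
    have := h s (Multiset.mem_cons_self _ _)
    rw [Ph_cons, mul_coeff_zero, ih fun t ht => h t (Multiset.mem_cons_of_mem ht), coeff_sub,
      coeff_X_pow, if_neg (by omega)]
    simp

lemma mem_Ph {σ : Multiset ℕ} {l : ℕ} (h : l ∈ (Ph σ).support) : ∃ τ ≤ σ, τ.sum = l := by
  induction σ using Multiset.induction_on generalizing l with
  | empty =>
    refine ⟨0, le_rfl, ?_⟩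
    by_contra e
    rw [Ph_zero, mem_support_iff, coeff_one, if_neg (fun a => e (by simp [a]))] at h
    exact h rfl
  | cons s σ ih =>
    rw [Ph_cons, sub_mul, one_mul, mem_support_iff, coeff_sub, coeff_X_pow_mul'] at h
    by_cases e : (Ph σ).coeff l = 0
    · split_ifs at h with a
      · obtain ⟨τ, h1, h2⟩ := ih (l := l - s) (mem_support_iff.2 fun b => h (by rw [e, b, sub_zero]))
        exact ⟨s ::ₘ τ, Multiset.cons_le_cons s h1, by rw [Multiset.sum_cons, h2]; omega⟩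
      · exact absurd (by rw [e, sub_zero]) h
    · obtain ⟨τ, h1, h2⟩ := ih (mem_support_iff.2 e)
      exact ⟨τ, h1.trans (Multiset.le_cons_self σ s), h2⟩

lemma natDegree_Ph (σ : Multiset ℕ) : (Ph σ).natDegree ≤ σ.sum := by
  refine natDegree_le_iff_coeff_eq_zero.2 fun l hl => ?_
  by_contra e
  obtain ⟨τ, h1, h2⟩ := mem_Ph (mem_support_iff.2 e)
  obtain ⟨ρ, rfl⟩ := Multiset.le_iff_exists_add.1 h1
  rw [Multiset.sum_add] at hl
  omega

lemma aeval_Ph (σ : Multiset ℕ) (z : ℂ) : aeval z (Ph σ) = (σ.map fun s => 1 - z ^ s).prod := by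
  simp [Ph, map_multiset_prod, Multiset.map_map]

lemma l1p_eq (P : ℤ[X]) {s : Finset ℕ} (h : P.support ⊆ s) :
    l1p P = ∑ i ∈ s, (P.coeff i).natAbs :=
  Finset.sum_subset h fun i _ e => by rw [notMem_support_iff.1 e, Int.natAbs_zero]

lemma l1p_add (P Q : ℤ[X]) : l1p (P + Q) ≤ l1p P + l1p Q := by
  rw [l1p_eq _ support_add, l1p_eq P Finset.subset_union_left,
    l1p_eq Q Finset.subset_union_right, ← Finset.sum_add_distrib]
  exact Finset.sum_le_sum fun i _ => by rw [coeff_add]; exact Int.natAbs_add_le _ _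

lemma l1p_neg (P : ℤ[X]) : l1p (-P) = l1p P := by simp [l1p]

lemma l1p_monomial (n : ℕ) (c : ℤ) : l1p (monomial n c) = c.natAbs := by
  rw [l1p_eq _ (support_monomial_subset n c)]
  simp

lemma l1p_sum {ι : Type*} (s : Finset ι) (P : ι → ℤ[X]) :
    l1p (∑ i ∈ s, P i) ≤ ∑ i ∈ s, l1p (P i) := by
  classical
  induction s using Finset.induction_on with
  | empty => simp [l1p]
  | insert i s hi ih =>
    rw [Finset.sum_insert hi, Finset.sum_insert hi]
    exact (l1p_add _ _).trans (by omega)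

lemma l1p_mul (P Q : ℤ[X]) : l1p (P * Q) ≤ l1p P * l1p Q := by
  rw [mul_eq_sum_sum]
  refine (l1p_sum _ _).trans ?_
  rw [l1p, Finset.sum_mul]
  refine Finset.sum_le_sum fun i _ => (l1p_sum _ _).trans ?_
  rw [l1p, Finset.mul_sum]
  exact Finset.sum_le_sum fun j _ => by rw [l1p_monomial, Int.natAbs_mul]

lemma l1p_one : l1p 1 = 1 := by simpa using l1p_monomial 0 1

lemma l1p_pow (P : ℤ[X]) (n : ℕ) : l1p (P ^ n) ≤ l1p P ^ n := by
  induction n with
  | zero => simp [l1p_one]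
  | succ n ih => rw [pow_succ, pow_succ]; exact (l1p_mul _ _).trans (Nat.mul_le_mul_right _ ih)

lemma l1p_Ph (σ : Multiset ℕ) : l1p (Ph σ) ≤ 2 ^ σ.card := by
  induction σ using Multiset.induction_on with
  | empty => simp [Ph_zero, l1p_one]
  | cons s σ ih =>
    rw [Ph_cons, Multiset.card_cons, pow_succ']
    refine (l1p_mul _ _).trans (Nat.mul_le_mul ?_ ih)
    rw [sub_eq_add_neg]
    refine (l1p_add _ _).trans ?_
    rw [l1p_neg, l1p_one, X_pow_eq_monomial, l1p_monomial]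
    rfl

lemma norm_aeval_le (P : ℤ[X]) {z : ℂ} (hz : ‖z‖ ≤ 1) : ‖aeval z P‖ ≤ l1p P := by
  rw [aeval_def, eval₂_eq_sum, Polynomial.sum_def, l1p, Nat.cast_sum]
  refine (norm_sum_le _ _).trans (Finset.sum_le_sum fun i _ => ?_)
  rw [norm_mul, norm_pow, eq_intCast, Complex.norm_intCast, Nat.cast_natAbs, Int.cast_abs]
  exact mul_le_of_le_one_right (abs_nonneg _) (pow_le_one₀ (norm_nonneg _) hz)

lemma tws_eq (P : ℤ[X]) (x : ℕ → ℂ) (j : ℕ) :
    tws P x j = ∑ i ∈ Finset.range j, (P.coeff i : ℂ) * x (j - i) := by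
  rw [tws, PowerSeries.coeff_mul, Finset.Nat.sum_antidiagonal_eq_sum_range_succ
    (fun i l => PowerSeries.coeff i ((P.map (Int.castRingHom ℂ) : ℂ[X]) : PowerSeries ℂ) *
      PowerSeries.coeff l (ser x)), Finset.sum_range_succ]
  simp only [ser, PowerSeries.coeff_mk, Nat.sub_self, if_true, mul_zero, add_zero,
    Polynomial.coeff_coe, coeff_map, eq_intCast]
  exact Finset.sum_congr rfl fun i hi => by
    rw [if_neg (by have := Finset.mem_range.1 hi; omega)]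

lemma norm_tws_le (P : ℤ[X]) {x : ℕ → ℂ} {j : ℕ} {C : ℝ} (hC : 0 ≤ C)
    (h : ∀ i, 1 ≤ i → i ≤ j → ‖x i‖ ≤ C) : ‖tws P x j‖ ≤ l1p P * C := by
  rw [tws_eq, l1p_eq P (s := P.support ∪ Finset.range j) Finset.subset_union_left, Nat.cast_sum,
    Finset.sum_mul]
  refine (norm_sum_le _ _).trans (le_trans (Finset.sum_le_sum fun i hi => ?_)
    (Finset.sum_le_sum_of_subset_of_nonneg Finset.subset_union_right fun _ _ _ => by positivity))
  have := Finset.mem_range.1 hi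
  rw [norm_mul, Complex.norm_intCast, Nat.cast_natAbs, Int.cast_abs]
  exact mul_le_mul_of_nonneg_left (h _ (by omega) (by omega)) (abs_nonneg _)

lemma hi_eq_zero (x : ℕ → ℂ) {M j : ℕ} (h1 : 1 ≤ j) (h2 : j < M) : hi x M j = 0 := by
  rw [hi, Finset.filter_true_of_mem fun d hd => (Nat.divisor_le hd).trans_lt h2, sum_mu x h1,
    sub_self]

lemma ps_eq_sf {𝕜 : Type} [CommRing 𝕜] [IsDomain 𝕜] [Algebra 𝕜 ℂ] (g : 𝕜[X]) (j : ℕ) :
    ps g j = sf g (· ^ j) := rfl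

end One

end Pool.Agent.P.MP_aef18a_nt.TW
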