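import Pool.Agent.P.MP_aef18a_nt.OW.Iface

namespace Pool.Agent.P.MP_aef18a_nt.TW

open Polynomial Matrix LaurentPolynomial OW

section Gen

variable {𝕜 : Type} [CommRing 𝕜] {k : ℕ}

/-- the product of the binomials `1 - x^v` -/
noncomputable def bin (𝕜 : Type) [CommRing 𝕜] {k : ℕ} (V : Multiset (Fin k → ℤ)) : LQ 𝕜 k :=
  (V.map fun v => 1 - AddMonoidAlgebra.single v 1).prod

/-- the terms with exponent in `U` -/
noncomputable def res (U : Finset (Fin k → ℤ)) (A : LQ 𝕜 k) : LQ 𝕜 k :=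
  ∑ u ∈ U, AddMonoidAlgebra.single u (A.coeff u)

/-- translation of the support by `-u` -/
noncomputable def tr (u : Fin k → ℤ) (A : LQ 𝕜 k) : LQ 𝕜 k := AddMonoidAlgebra.single (-u) 1 * A

/-- the sum of `ψ` over the complex roots -/
noncomputable def sf [Algebra 𝕜 ℂ] (g : 𝕜[X]) (ψ : ℂ → ℂ) : ℂ := ((g.aroots ℂ).map ψ).sum

end Gen

/-- a divisor of a product of binomials -/
def Tp {k : ℕ} (A : LP k) : Prop :=
  ∃ V : Multiset (Fin k → ℤ), (∀ v ∈ V, v ≠ 0) ∧ A ∣ bin ℚ V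

/-- the width controls the sup norm -/
def Sp {k : ℕ} (C : ℕ) (F : LQ ℤ k) : Prop :=
  ∀ a : Fin k → ℤ, ∃ u ∈ F.coeff.support, ∃ u' ∈ F.coeff.support,
    (nu a : ℤ) ≤ C * ((u - u') ⬝ᵥ a)

/-- `0` is the unique top exponent -/
def Top {k : ℕ} (F : LQ ℤ k) (a : Fin k → ℤ) : Prop := ∀ u ∈ F.coeff.support, u ≠ 0 → u ⬝ᵥ a < 0

/-- the exponents outside `U` are below the top by `κ` times the width -/
def Mg {k : ℕ} (κ : ℝ) (F : LP k) (U : Finset (Fin k → ℤ)) (a : Fin k → ℤ) : Prop :=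
  ∀ u ∈ F.coeff.support, u ∉ U → ∃ u' ∈ F.coeff.support,
    ∀ v ∈ F.coeff.support, ∀ w ∈ F.coeff.support,
      κ * (((v - w) ⬝ᵥ a : ℤ) : ℝ) ≤ (((u' - u) ⬝ᵥ a : ℤ) : ℝ)

/-- the same, in a form that survives halving -/
def Gq {k : ℕ} (κ : ℝ) (F : LQ ℤ k) (U : Finset (Fin k → ℤ)) (a : Fin k → ℤ) : Prop :=
  ∀ u ∈ F.coeff.support, u ∉ U → ∃ u' ∈ F.coeff.support,
    κ * nu a - 10 * √(nu a : ℝ) ≤ (((u' - u) ⬝ᵥ a : ℤ) : ℝ)

/-- a property that survives halving -/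
def Hv {k : ℕ} (Gd : (Fin k → ℤ) → Prop) (C : ℕ) : Prop :=
  ∀ (e : ℕ) (a a' : Fin k → ℤ), 16 ≤ nu a → (C : ℝ) * e ≤ √(nu a : ℝ) →
    (∀ i, |2 * a' i - a i| ≤ e) → Gd a → Gd a'

def Val {k : ℕ} (F : LQ ℤ k) (Gd : (Fin k → ℤ) → Prop) (B : ℕ) (a : Fin k → ℤ) : Prop :=
  NoRel B a ∧ Gd a ∧ Abs (toQ F) a

/-- the induction hypothesis -/
def IHg {k : ℕ} (F : LQ ℤ k) (Gd : (Fin k → ℤ) → Prop) (B : ℕ) (a : Fin k → ℤ) : Prop :=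
  ∀ a' : Fin k → ℤ, nu a' < nu a → Val F Gd B a' → ¬ TwoL (spec a' (toQ F))

/-- the roots which are not roots of unity have almost full degree -/
def DegE {k : ℕ} (F : LQ ℤ k) (a : Fin k → ℤ) (c η : ℝ) : Prop :=
  ∀ α : ℂˣ, NonTors α → evc a α (toQ F) = 0 →
    c * nu a ≤ ((minpoly ℚ (α : ℂ)).natDegree : ℝ) ^ (1 + η)

/-- small lacunary relations of all shapes do not separate the roots -/
def StA {k : ℕ} (F : LQ ℤ k) (a : Fin k → ℤ) (A : ℕ) : Prop :=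
  ∀ X j : ℕ, X ^ A ≤ nu a → j ≤ nu a * X → St F a X j

/-- the data attached to a face -/
structure FDat (k : ℕ) where
  φ : LQ ℤ k
  W : LQ ℤ k
  T : LQ ℤ k
  d : ℤ
  V : Multiset (Fin k → ℤ)
  a₀ : Fin k → ℤ

/-- `φ` is the face of `F` in the direction `a₀`, and divides a product of binomials -/
structure Fc {k : ℕ} (F : LQ ℤ k) (D : FDat k) : Prop where
  add : F = D.φ + D.W
  mul : D.φ * D.T = D.d • bin ℤ D.V
  d0 : D.d ≠ 0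
  φ0 : ∀ u ∈ D.φ.coeff.support, u ⬝ᵥ D.a₀ = 0
  T0 : ∀ u ∈ D.T.coeff.support, u ⬝ᵥ D.a₀ = 0
  V0 : ∀ v ∈ D.V, v ⬝ᵥ D.a₀ = 0
  Vne : ∀ v ∈ D.V, v ≠ 0
  W0 : ∀ u ∈ D.W.coeff.support, u ⬝ᵥ D.a₀ < 0
  Wne : D.W ≠ 0

/-- the exponents of the specialized binomials -/
def sg {k : ℕ} (V : Multiset (Fin k → ℤ)) (a : Fin k → ℤ) : Multiset ℕ :=
  V.map fun v => (-(v ⬝ᵥ a)).toNat

/-- the face has size at most `w`, the rest is below by `g`, and everything is at most `J g` -/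
structure TG {k : ℕ} (F : LQ ℤ k) (D : FDat k) (a : Fin k → ℤ) (J g w : ℕ) : Prop where
  g1 : 1 ≤ g
  top : Top F a
  Vneg : ∀ v ∈ D.V, v ⬝ᵥ a < 0
  Vsum : (sg D.V a).sum ≤ w
  Tng : Ng a D.T
  Tw : ∀ u ∈ D.T.coeff.support, -(u ⬝ᵥ a) ≤ w
  φw : ∀ u ∈ D.φ.coeff.support, -(u ⬝ᵥ a) ≤ w
  gap : ∀ u ∈ D.W.coeff.support, u ⬝ᵥ a + g ≤ 0
  nu : nu a ≤ J * g
  wid : ∀ u ∈ F.coeff.support, -(u ⬝ᵥ a) ≤ J * g

/-- the length constant -/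
noncomputable def LL {k : ℕ} (F : LQ ℤ k) (D : FDat k) : ℕ :=
  l1 F + l1 (D.W * D.T) + D.d.natAbs + D.V.card + 2

/-! ### One variable -/

/-- the length of an integer polynomial -/
def l1p (P : ℤ[X]) : ℕ := ∑ i ∈ P.support, (P.coeff i).natAbs

/-- the length of a complex polynomial -/
noncomputable def l1c (P : ℂ[X]) : ℝ := ∑ i ∈ P.support, ‖P.coeff i‖

/-- `∏ (1 - X^s)` -/
noncomputable def Ph (σ : Multiset ℕ) : ℤ[X] := (σ.map fun s => 1 - X ^ s).prod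

/-- the twisted test function -/
noncomputable def tw (σ : Multiset ℕ) (R j : ℕ) (β : ℂ) : ℂ := β ^ j * aeval β⁻¹ (Ph σ) ^ R

/-- the mean of `ψ` over the conjugates -/
noncomputable def tauf (α : ℂ) (ψ : ℂ → ℂ) : ℂ := sf (minpoly ℚ α) ψ / (minpoly ℚ α).natDegree

/-- the generating series of a sequence, without the term of index `0` -/
noncomputable def ser (x : ℕ → ℂ) : PowerSeries ℂ := PowerSeries.mk fun j => if j = 0 then 0 else x j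

/-- the twisted sequence `∑ P_i x_(j - i)` -/
noncomputable def tws (P : ℤ[X]) (x : ℕ → ℂ) (j : ℕ) : ℂ :=
  PowerSeries.coeff j (((P.map (Int.castRingHom ℂ) : ℂ[X]) : PowerSeries ℂ) * ser x)

/-- the part of a sequence coming from the levels at least `M` -/
noncomputable def hi (x : ℕ → ℂ) (M j : ℕ) : ℂ :=
  x j - ∑ d ∈ j.divisors.filter (· < M), mu x d

/-- the difference of the power sums -/
noncomputable def ee (g St : ℤ[X]) (j : ℕ) : ℂ :=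
  ps g j - (g.natDegree : ℂ) / St.natDegree * ps St j

/-- the top of `S` is `φ`, a divisor of `d ∏ (1 - X^s)`, followed by a gap -/
structure TL (L g w : ℕ) (σ : Multiset ℕ) (d : ℤ) (S φ T W : ℤ[X]) : Prop where
  L2 : 2 ≤ L
  c0 : S.coeff 0 ≠ 0
  len : l1p S ≤ L
  lenW : l1p W ≤ L
  d0 : d ≠ 0
  dL : d.natAbs ≤ L
  card : σ.card ≤ L
  pos : ∀ s ∈ σ, 1 ≤ s
  sum : σ.sum ≤ w
  wg : w < g
  gN : g ≤ S.natDegree
  degT : T.natDegree ≤ w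
  mul : φ * T = Polynomial.C d * Ph σ
  gap : X ^ g ∣ S.reverse - φ
  rel : S.reverse * T = Polynomial.C d * Ph σ + X ^ g * W

/-- the means of `ψ` over the Galois orbits agree up to `η` -/
def Fl (S : ℤ[X]) (ψ : ℂ → ℂ) (η : ℝ) : Prop :=
  ∀ α α' : ℂˣ, NonTors α → NonTors α' → aeval (α : ℂ) S = 0 → aeval (α' : ℂ) S = 0 →
    ‖tauf α ψ - tauf α' ψ‖ ≤ η

/-- twisted flatness -/
def TF (S : ℤ[X]) (σ : Multiset ℕ) (g x : ℕ) : Prop :=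
  ∀ σ' ≤ σ, ∀ R n s₀ j : ℕ, (R + n) ^ 2 ≤ x → R * σ'.sum ≤ j → j ≤ R * g →
    (∀ s ∈ σ - σ', s₀ ≤ s) → j ≤ n * s₀ → (∀ β : ℂ, aeval β S = 0 → ‖tw σ' R j β‖ ≤ x) →
    Fl S (tw σ' R j) (9 / x)

/-- flatness passes to the factor `g` -/
def FS (S g St : ℤ[X]) : Prop :=
  ∀ (ψ : ℂ → ℂ) (η : ℝ), Fl S ψ η →
    ‖sf g ψ - (g.natDegree : ℂ) / St.natDegree * sf St ψ‖ ≤ S.natDegree * η

/-- the numerical side conditions -/
structure Nm (L J g w N u M R₀ : ℕ) (ρ : ℝ) : Prop where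
  u4 : 4 ^ L ≤ u
  uL : L ^ L ≤ u
  uN : u ≤ N
  ρ1 : 1 ≤ ρ
  ρg : (3 * L * (g + 1) ^ L : ℝ) ≤ ρ ^ g
  ρM : ρ ^ M ≤ u
  en : 8 * (2 + Real.log N + N * Real.log ρ + (J + 1) * Real.log L) ≤ (u : ℝ) ^ 2
  ML : M * L ≤ g
  NM : N ≤ M * u
  wM : 2 * w ≤ M
  wg : 4 * w ≤ g
  NJ : N ≤ J * g
  JR : J ≤ R₀
  lo : (2 ^ L * L) ^ R₀ ≤ u
  up : u < (2 ^ L * L) ^ (R₀ + 1)
  div : ∀ m, 1 ≤ m → m ≤ R₀ * g → m.divisors.card ≤ u

/-- `c V` is integral and `x` is the sequence of Newton sums of `V` -/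
def Iv (c : ℤ) (x : ℕ → ℂ) : Prop :=
  ∃ (V : PowerSeries ℂ) (Y : PowerSeries ℤ),
    PowerSeries.C (c : ℂ) * V = PowerSeries.map (Int.castRingHom ℂ) Y ∧
      PowerSeries.coeff 0 V = 1 ∧ IsNS V x

/-- the derivative is tiny at the large roots -/
def Tiny (S : ℤ[X]) (L K : ℕ) : Prop :=
  ∀ β : ℂ, aeval β S = 0 → 1 < ‖β‖ →
    ‖β‖ ^ K * ‖β * aeval β (derivative S)‖ ≤ L * (S.natDegree : ℝ) ^ 2 * ‖β‖ ^ S.natDegree

/-- the twisted weighted power sum -/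
noncomputable def tq (G : ℂ[X]) (S : ℤ[X]) (m : ℕ) : ℂ :=
  ∑ i ∈ Finset.range m, G.coeff i * Qs S (m - i)

/-! ### Poles along the face -/

/-- the Fejer kernel in `x^v` -/
noncomputable def fej {k : ℕ} (B : ℕ) (v : Fin k → ℤ) : LQ ℂ k :=
  ∑ i ∈ Finset.range B, AddMonoidAlgebra.single ((i : ℤ) • v) (1 - (i : ℂ) / B)

noncomputable def HH {k : ℕ} (V : Multiset (Fin k → ℤ)) (B R : ℕ) : LQ ℂ k :=
  (V.map (fej B)).prod ^ R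

/-- the truncation of `(d Φ)^R / (d Φ + W T)` -/
noncomputable def TR {k : ℕ} (D : FDat k) (R : ℕ) : LQ ℤ k :=
  ∑ i ∈ Finset.range R, (-(D.W * D.T)) ^ i * (D.d • bin ℤ D.V) ^ (R - 1 - i)

/-- the truncation of `(d Φ)^R (∂_θ F)^2 / F` -/
noncomputable def MM {k : ℕ} (F : LQ ℤ k) (D : FDat k) (θ : Fin k → ℝ) (R : ℕ) : LQ ℂ k :=
  dv (fun i => (θ i : ℂ)) (toC F) ^ 2 * toC (D.T * TR D R)

/-- the expansion of `t^(⟨u, b⟩)` at `t = t₀ exp X` -/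
noncomputable def ch {k : ℕ} (b : Fin k → ℤ) (t₀ : ℂˣ) (u : Fin k → ℤ) : PowerSeries ℂ :=
  PowerSeries.C ((t₀ : ℂ) ^ (u ⬝ᵥ b)) *
    PowerSeries.rescale ((u ⬝ᵥ b : ℤ) : ℂ) (PowerSeries.exp ℂ)

/-- `A(t^b y^(-a₀))` as a polynomial in `y`, expanded at `t = t₀ exp X` -/
noncomputable def py {k : ℕ} (b : Fin k → ℤ) (t₀ : ℂˣ) (a₀ : Fin k → ℤ) (A : LQ ℂ k) :
    (PowerSeries ℂ)[X] :=
  ∑ u ∈ A.coeff.support, monomial (-(u ⬝ᵥ a₀)).toNat (PowerSeries.C (A.coeff u) * ch b t₀ u)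

open Classical in
/-- the number of binomials that vanish at `t₀^b` -/
noncomputable def ord {k : ℕ} (b : Fin k → ℤ) (t₀ : ℂˣ) (V : Multiset (Fin k → ℤ)) : ℕ :=
  (V.filter fun v => (t₀ : ℂ) ^ (v ⬝ᵥ b) = 1).card

end Pool.Agent.P.MP_aef18a_nt.TW
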