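import Pool.Agent.P.MP_aef18a_nt.TW.Iface

namespace Pool.Agent.P.MP_aef18a_nt.TW

open Polynomial Matrix LaurentPolynomial OW

namespace ExTy

/-- the part of a sequence coming from the levels below `M` -/
noncomputable def lo (x : ℕ → ℂ) (M j : ℕ) : ℂ := ∑ d ∈ j.divisors.filter (· < M), mu x d

lemma hi_eq (x : ℕ → ℂ) (M j : ℕ) : hi x M j = x j - lo x M j := rfl

lemma lo_lin (x y : ℕ → ℂ) (δ : ℂ) (M j : ℕ) :
    lo (fun i => x i - δ * y i) M j = lo x M j - δ * lo y M j := by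
  simp only [lo, mu_sub x (fun i => δ * y i), mu_mul, Finset.sum_sub_distrib, Finset.mul_sum]

lemma norm_lo {f : ℕ → ℂ} {M K t j : ℕ} {C : ℝ} (hC : 0 ≤ C)
    (ht : ∀ m, 1 ≤ m → m ≤ K → m.divisors.card ≤ t) (hf : ∀ i, 1 ≤ i → i < M → ‖f i‖ ≤ C)
    (h1 : 1 ≤ j) (h2 : j ≤ K) : ‖lo f M j‖ ≤ t ^ 2 * C := by
  have key : ∀ d ∈ j.divisors.filter (· < M), ‖mu f d‖ ≤ t * C := by
    intro d hd
    obtain ⟨a, b⟩ := Finset.mem_filter.1 hd
    refine (norm_mu_le_card (C := C) fun e e1 e2 => hf e e1 (e2.trans_lt b)).trans ?_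
    exact mul_le_mul_of_nonneg_right (by
      exact_mod_cast ht d (Nat.pos_of_mem_divisors a) ((Nat.divisor_le a).trans h2)) hC
  refine (norm_sum_le _ _).trans ((Finset.sum_le_card_nsmul _ _ _ key).trans ?_)
  have : ((j.divisors.filter (· < M)).card : ℝ) ≤ t := by
    exact_mod_cast (Finset.card_filter_le _ _).trans (ht j h1 h2)
  rw [nsmul_eq_mul, pow_two, mul_assoc]
  exact mul_le_mul_of_nonneg_right this (by positivity)

lemma tws_lin (P : ℤ[X]) (f g : ℕ → ℂ) (a b : ℂ) (j : ℕ) :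
    tws P (fun i => a * f i - b * g i) j = a * tws P f j - b * tws P g j := by
  simp only [tws_eq, Finset.mul_sum, ← Finset.sum_sub_distrib]
  exact Finset.sum_congr rfl fun _ _ => by ring

lemma tws_first {P : ℤ[X]} (hP : P.coeff 0 = 1) {f : ℕ → ℂ} {j : ℕ} (h1 : 1 ≤ j)
    (hf : ∀ i, 1 ≤ i → i < j → f i = 0) : tws P f j = f j := by
  rw [tws_eq, Finset.sum_eq_single 0]
  · simp [hP]
  · intro i hi h0
    have := Finset.mem_range.1 hi
    rw [hf _ (by omega) (by omega), mul_zero]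
  · intro h0
    exact absurd (Finset.mem_range.2 h1) h0

lemma norm_tws_hi {P : ℤ[X]} {f : ℕ → ℂ} {M K t j : ℕ} {C Λ : ℝ} (hC : 0 ≤ C)
    (ht : ∀ m, 1 ≤ m → m ≤ K → m.divisors.card ≤ t) (hf : ∀ i, 1 ≤ i → i < M → ‖f i‖ ≤ C)
    (h2 : j ≤ K) (hP : (l1p P : ℝ) ≤ Λ) (h : ‖tws P f j‖ ≤ C) :
    ‖tws P (hi f M) j‖ ≤ C * (1 + Λ * t ^ 2) := by
  have e : hi f M = fun i => 1 * f i - 1 * lo f M i := by
    funext i
    rw [hi_eq, one_mul, one_mul]
  have b := norm_tws_le P (x := lo f M) (j := j) (C := t ^ 2 * C) (by positivity)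
    fun i a b => norm_lo hC ht hf a (b.trans h2)
  have b2 : (l1p P : ℝ) * (t ^ 2 * C) ≤ Λ * (t ^ 2 * C) :=
    mul_le_mul_of_nonneg_right hP (by positivity)
  rw [e, tws_lin, one_mul, one_mul]
  refine (norm_sub_le _ _).trans ?_
  linarith

lemma zero_of {c z : ℤ} {w : ℂ} {s j M : ℕ} {A B : ℝ} (hc : c ≠ 0)
    (hA : |(c : ℝ)| ^ s ≤ A) (e : (c : ℂ) ^ s * w = j * z) (hw : ‖w‖ ≤ B) (hB : A * B < M)
    (hj : M ≤ j) : w = 0 := by
  have n1 := congrArg norm e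
  rw [norm_mul, norm_mul, norm_pow, Complex.norm_intCast, Complex.norm_intCast,
    Complex.norm_natCast] at n1
  have n2 : |(c : ℝ)| ^ s * ‖w‖ ≤ A * B :=
    mul_le_mul hA hw (norm_nonneg _) ((by positivity : (0 : ℝ) ≤ |(c : ℝ)| ^ s).trans hA)
  have hj' : (M : ℝ) ≤ j := by exact_mod_cast hj
  have hz : z = 0 := by
    by_contra hz
    have h1 : (1 : ℝ) ≤ |(z : ℝ)| := by exact_mod_cast Int.one_le_abs hz
    have h2 : (j : ℝ) ≤ j * |(z : ℝ)| := le_mul_of_one_le_right (Nat.cast_nonneg _) h1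
    linarith
  rw [hz, Int.cast_zero, mul_zero] at e
  exact (mul_eq_zero.1 e).resolve_left (pow_ne_zero _ (Int.cast_ne_zero.2 hc))

end ExTy

open ExTy in
theorem p_ExT (h : S_H1) : S_ExT := by
  intro x y c z₁ L M K t j₁ δ γ η Y Λ hc hcL hM hMj hjK hz₁ hzL hΛ hη hY hy0 hy1 ix iy ht hlo hhi
    hγ1 hγ2 n1 n2
  set e2 := η * (1 + Λ * t ^ 2) with he2
  set Y2 := Y * (1 + Λ * t ^ 2) with hY2
  have ht2 : (0 : ℝ) ≤ (t : ℝ) ^ 2 := by positivity
  have hΛt : (t : ℝ) ^ 2 ≤ 1 + Λ * t ^ 2 := by nlinarith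
  have e20 : 0 ≤ e2 := mul_nonneg hη (ht2.trans hΛt)
  have Y20 : 0 ≤ Y2 := mul_nonneg hY (ht2.trans hΛt)
  have hcL' : |(c : ℝ)| ≤ L := by
    rw [← Int.cast_abs, ← Nat.cast_natAbs]; exact_mod_cast hcL
  have hL1 : (1 : ℝ) ≤ L := le_trans (by exact_mod_cast Int.one_le_abs hc) hcL'
  have hM' : (1 : ℝ) ≤ M := by exact_mod_cast hM
  have hM0 : (0 : ℝ) < M := by linarith
  have hγM : γ * M < M := by nlinarith
  have hE : hi (fun i => x i - δ * y i) M = fun i => 1 * hi x M i - δ * hi y M i := by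
    funext i
    rw [hi_eq, hi_eq, hi_eq, lo_lin]; ring
  have hP : ∀ j, M ≤ j → j ≤ K → ∃ P : ℤ[X], P.coeff 0 = 1 ∧
      ‖tws P (fun i => 1 * hi x M i - δ * hi y M i) j‖ ≤ e2 ∧ ‖tws P (hi y M) j‖ ≤ Y2 := by
    intro j a b
    obtain ⟨P, p0, p1, p2, p3⟩ := hhi j a b
    refine ⟨P, p0, ?_, norm_tws_hi hY ht (fun i u v => (hlo i u v).2) b p1 p3⟩
    rw [← hE]
    exact norm_tws_hi hη ht (fun i u v => (hlo i u v).1) b p1 p2
  have hI : ∀ j, 1 ≤ j → (∀ i, 1 ≤ i → i < j → hi x M i = 0) →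
      ∃ z : ℤ, (c : ℂ) ^ 1 * hi x M j = j * z := by
    intro j a b
    obtain ⟨z, hz⟩ := h c _ _ 1 0 j ix iy (by norm_num) a fun i u v => by simp [b i u v]
    exact ⟨z, by simpa using hz⟩
  have s1 : ∀ j, 1 ≤ j → j < j₁ → hi x M j = 0 := by
    intro j
    induction j using Nat.strong_induction_on with
    | _ j ih =>
      intro a b
      by_cases hj : j < M
      · exact hi_eq_zero x a hj
      have hb : ∀ i, 1 ≤ i → i < j → hi x M i = 0 := fun i u v => ih i v u (v.trans b)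
      obtain ⟨z, hz⟩ := hI j a hb
      obtain ⟨P, p0, p1, -⟩ := hP j (not_lt.1 hj) (b.le.trans hjK)
      rw [tws_first p0 a fun i u v => by rw [hb i u v, hy0 i u (v.trans b)]; simp, hy0 j a b,
        mul_zero, sub_zero, one_mul] at p1
      exact zero_of hc (A := L) (by simpa using hcL') hz p1 (n1.trans hγM) (not_lt.1 hj)
  have hj1 : 1 ≤ j₁ := hM.trans hMj
  obtain ⟨z, hz⟩ := hI j₁ hj1 s1
  set ξ := L * e2 / M with hξ
  have hξγ : ξ < γ := by rw [hξ, div_lt_iff₀ hM0]; exact n1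
  have hξ0 : 0 ≤ ξ := by positivity
  have a2 : |(z : ℝ) - δ * z₁| ≤ ξ := by
    obtain ⟨P, p0, p1, -⟩ := hP j₁ hMj hjK
    rw [tws_first p0 hj1 fun i u v => by rw [s1 i u v, hy0 i u v]; simp] at p1
    have e : (c : ℂ) * (1 * hi x M j₁ - δ * hi y M j₁) = j₁ * (((z : ℝ) - δ * z₁ : ℝ) : ℂ) := by
      push_cast
      linear_combination hz - δ * hy1
    have := congrArg norm e
    rw [norm_mul, norm_mul, Complex.norm_intCast, Complex.norm_real, Complex.norm_natCast,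
      Real.norm_eq_abs] at this
    have b1 := mul_le_mul hcL' p1 (norm_nonneg _) (by linarith)
    have b2 : (M : ℝ) * |(z : ℝ) - δ * z₁| ≤ j₁ * |(z : ℝ) - δ * z₁| :=
      mul_le_mul_of_nonneg_right (by exact_mod_cast hMj) (abs_nonneg _)
    rw [hξ, le_div_iff₀ hM0]
    linarith
  have hσ1 : (1 : ℝ) ≤ |(z₁ : ℝ)| := by exact_mod_cast Int.one_le_abs hz₁
  have hσ' : (z₁ : ℝ) ≠ 0 := by exact_mod_cast hz₁
  set δ' : ℝ := z / z₁ with hδ'
  have hv : (z : ℝ) = δ' * z₁ := by rw [hδ']; field_simp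
  rw [hv, ← sub_mul, abs_mul] at a2
  have a4 := abs_le.1 ((le_mul_of_one_le_right (abs_nonneg _) hσ1).trans a2)
  have b0 : 0 < δ' := by linarith [a4.1]
  have b1 : δ' < 1 := by linarith [a4.2]
  have c0 : ((z₁.natAbs : ℕ) : ℝ) = |(z₁ : ℝ)| := by rw [Nat.cast_natAbs, Int.cast_abs]
  have c1 : ((z.natAbs : ℕ) : ℝ) = δ' * z₁.natAbs := by
    rw [Nat.cast_natAbs, Int.cast_abs, hv, abs_mul, abs_of_pos b0, c0]
  have r0 : 0 < z.natAbs := by
    have : (0 : ℝ) < (z.natAbs : ℕ) := by rw [c1, c0]; positivity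
    exact_mod_cast this
  have rs : z.natAbs < z₁.natAbs := by
    have : ((z.natAbs : ℕ) : ℝ) < (z₁.natAbs : ℕ) := by rw [c1, c0]; nlinarith
    exact_mod_cast this
  rw [← c0] at a2
  generalize z₁.natAbs = s at *
  generalize z.natAbs = r at *
  have c2 : (r : ℂ) = (δ' : ℂ) * s := by exact_mod_cast congrArg Complex.ofReal c1
  have hsL : (s : ℝ) ≤ L := by exact_mod_cast hzL
  have bd : ∀ u v : ℂ, ‖u‖ ≤ e2 → ‖v‖ ≤ Y2 →
      ‖s * u - ((δ' - δ : ℝ) : ℂ) * s * v‖ ≤ L * e2 * (1 + Y2 / M) := by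
    intro u v hu hv
    refine (norm_sub_le _ _).trans ?_
    rw [norm_mul, norm_mul, norm_mul, Complex.norm_natCast, Complex.norm_real, Real.norm_eq_abs]
    have d1 := mul_le_mul hsL hu (norm_nonneg _) (by linarith)
    have d2 := mul_le_mul a2 hv (norm_nonneg _) hξ0
    have d3 : L * e2 * (1 + Y2 / M) = L * e2 + ξ * Y2 := by rw [hξ]; ring
    linarith
  have s3 : ∀ j, 1 ≤ j → j ≤ K → s * hi x M j = r * hi y M j := by
    intro j
    induction j using Nat.strong_induction_on with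
    | _ j ih =>
      intro a b
      by_cases hj : j < M
      · rw [hi_eq_zero x a hj, hi_eq_zero y a hj, mul_zero, mul_zero]
      have hb : ∀ i, 1 ≤ i → i < j → s * hi x M i = r * hi y M i :=
        fun i u v => ih i v u (v.le.trans b)
      obtain ⟨z', hz'⟩ := h c _ _ s r j ix iy rs.le a hb
      obtain ⟨P, p0, p1, p2⟩ := hP j (not_lt.1 hj) b
      have e := tws_first (f := fun i => s * hi x M i - r * hi y M i) p0 a
        fun i u v => sub_eq_zero.2 (hb i u v)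
      have b3 := bd _ _ p1 p2
      have e3 : s * tws P (fun i => 1 * hi x M i - δ * hi y M i) j -
          ((δ' - δ : ℝ) : ℂ) * s * tws P (hi y M) j = s * hi x M j - r * hi y M j := by
        rw [← e, tws_lin, tws_lin, c2]
        push_cast
        ring
      rw [e3] at b3
      refine sub_eq_zero.1 (zero_of hc (A := (L : ℝ) ^ L) ?_ hz' b3 n2 (not_lt.1 hj))
      exact (pow_le_pow_left₀ (abs_nonneg _) hcL' s).trans (pow_le_pow_right₀ hL1 hzL)
  refine ⟨r, s, r0, rs, fun j a b => ?_⟩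
  have l1 := norm_lo hη ht (fun i u v => (hlo i u v).1) a b
  have l2 := norm_lo hY ht (fun i u v => (hlo i u v).2) a b
  have b3 := bd _ _ (l1.trans (by rw [mul_comm]; exact mul_le_mul_of_nonneg_left hΛt hη))
    (l2.trans (by rw [mul_comm]; exact mul_le_mul_of_nonneg_left hΛt hY))
  have e3 : s * lo (fun i => x i - δ * y i) M j - ((δ' - δ : ℝ) : ℂ) * s * lo y M j =
      s * x j - r * y j := by
    have := s3 j a b
    rw [hi_eq, hi_eq, c2] at this
    rw [lo_lin, c2]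
    push_cast
    linear_combination -this
  rw [e3] at b3
  have b4 : L * e2 * (1 + Y2 / M) ≤ (L : ℝ) ^ L * (L * e2 * (1 + Y2 / M)) :=
    le_mul_of_one_le_left (by positivity) (one_le_pow₀ hL1)
  linarith

end Pool.Agent.P.MP_aef18a_nt.TW
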