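import Pool.Agent.P.MP_aef18a_nt.TW.Basic

namespace Pool.Agent.P.MP_aef18a_nt.TW

open Polynomial Matrix LaurentPolynomial OW

/-! ### One variable: roots and reduction -/

def S_TRoot : Prop :=
  ∀ (L g w : ℕ) (σ : Multiset ℕ) (d : ℤ) (S φ T W : ℤ[X]), TL L g w σ d S φ T W →
    ∀ β : ℂ, aeval β S = 0 → β ≠ 0 ∧ (d : ℂ) * aeval β⁻¹ (Ph σ) = -(β⁻¹ ^ g * aeval β⁻¹ W) ∧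
      ‖β‖ ^ g ≤ 3 * L * (g + 1 : ℝ) ^ L ∧
      (∀ J e : ℕ, e ≤ J * g → IsIntegral ℤ ((d : ℂ) ^ J * β ^ e)) ∧
      ∀ R j : ℕ, R * σ.sum ≤ j → j ≤ R * g → ‖tw σ R j β‖ ≤ (2 ^ L * L : ℝ) ^ R

def S_TwB : Prop :=
  ∀ (σ : Multiset ℕ) (j : ℕ) (β : ℂ), β ≠ 0 → σ.sum ≤ j →
    ‖tw σ 1 j β‖ ≤ 2 ^ σ.card * max 1 ‖β‖ ^ j

def S_TwSum : Prop :=
  ∀ (f P : ℤ[X]) (j : ℕ), (∀ β ∈ f.aroots ℂ, β ≠ 0) → P.natDegree < j →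
    sf f (fun β => β ^ j * aeval β⁻¹ P) = tws P (ps f) j

def S_Red2 : Prop :=
  ∀ (L g w : ℕ) (σ σ' : Multiset ℕ) (d : ℤ) (S φ T W : ℤ[X]) (B : ℕ → Finset ℤ) (Nw s₀ : ℕ),
    TL L g w σ d S φ T W → σ' ≤ σ → (∀ s ∈ σ - σ', s₀ ≤ s) → Monotone B →
    (∀ i, ∀ e ∈ B i, (∀ τ ≤ σ, e - (τ.sum : ℕ) ∈ B (i + 1)) ∧
      ∀ l ∈ W.support, e - (g + l : ℕ) ∈ B (i + 1)) →
    ∀ R n i m : ℕ, S.natDegree + w + R * w ≤ Nw → R * σ'.sum ≤ m → m < Nw + R * g →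
      m < Nw + n * s₀ → (m : ℤ) ∈ B i → ∃ lam : ℕ → ℂ, ∀ β : ℂ, aeval β S = 0 →
        tw σ' R m β = ∑ e ∈ (Finset.range Nw).filter (fun e : ℕ => (e : ℤ) ∈ B (i + R + n)),
          lam e * β ^ e

def S_GFlat : Prop :=
  ∀ (Nw x : ℕ) (S : ℤ[X]) (B : ℕ → Finset ℤ) (ψ : ℂ → ℂ) (c : ℤ) (C : ℝ), S ≠ 0 → 0 < Nw →
    2 ≤ x → c ≠ 0 → 1 ≤ C → 0 ∈ B 0 → Monotone B →
    (∀ β : ℂ, aeval β S = 0 → ‖ψ β‖ ≤ x ∧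
      ∀ e < Nw, IsIntegral ℤ ((c : ℂ) * β ^ e) ∧ ‖β ^ e‖ ≤ C) →
    (∀ i e : ℕ, e < Nw → (e : ℤ) ∈ B i → ∃ lam : ℕ → ℂ, ∀ β : ℂ, aeval β S = 0 →
      ψ β * β ^ e = ∑ e' ∈ (Finset.range Nw).filter (fun e : ℕ => (e : ℤ) ∈ B (i + x)),
        lam e' * β ^ e') →
    2 * ((B (x ^ 10)).card : ℝ) * C * |(c : ℝ)| ≤ 2 ^ x →
    ∀ α α' : ℂ, aeval α S = 0 → aeval α' S = 0 →
      (∀ (E : Finset ℕ) (z : ℕ → ℚ), (∀ e ∈ E, (e : ℤ) ∈ B (x ^ 10)) →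
        (∑ e ∈ E, (z e : ℂ) * α ^ e = 0 ↔ ∑ e ∈ E, (z e : ℂ) * α' ^ e = 0)) →
      ‖tauf α ψ - tauf α' ψ‖ ≤ 9 / x

def S_TFlat : Prop :=
  ∀ (L J g w : ℕ) (σ σ' : Multiset ℕ) (d : ℤ) (S φ T W : ℤ[X]) (B : ℕ → Finset ℤ)
    (R n s₀ j x : ℕ), TL L g w σ d S φ T W → S.natDegree ≤ J * g → σ' ≤ σ →
    (∀ s ∈ σ - σ', s₀ ≤ s) → 2 ≤ x → R + n + 1 ≤ x → R * σ'.sum ≤ j → j ≤ R * g → j ≤ n * s₀ →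
    (∀ β : ℂ, aeval β S = 0 → ‖tw σ' R j β‖ ≤ x) → 0 ∈ B 0 → Monotone B →
    (∀ i, ∀ e ∈ B i, e + j ∈ B (i + 1) ∧ (∀ τ ≤ σ, e - (τ.sum : ℕ) ∈ B (i + 1)) ∧
      ∀ l ∈ W.support, e - (g + l : ℕ) ∈ B (i + 1)) →
    2 * (B (x ^ 10)).card * (3 * L ^ 2 * (g + 1) ^ L) ^ (J + 1 + R) ≤ 2 ^ x →
    ∀ α α' : ℂ, aeval α S = 0 → aeval α' S = 0 →
      (∀ (E : Finset ℕ) (z : ℕ → ℚ), (∀ e ∈ E, (e : ℤ) ∈ B (x ^ 10)) →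
        (∑ e ∈ E, (z e : ℂ) * α ^ e = 0 ↔ ∑ e ∈ E, (z e : ℂ) * α' ^ e = 0)) →
      ‖tauf α (tw σ' R j) - tauf α' (tw σ' R j)‖ ≤ 9 / x

def S_Setup2 : Prop :=
  ∀ (S : ℤ[X]) (y : ℝ), S.coeff 0 ≠ 0 → Simple S → Two S → DegLB S y →
    ∃ (g h St : ℤ[X]) (c : Multiset ℕ), Setup S g h St c y 0 0 ∧ FS S g St

/-! ### One variable: energy and untwisting -/

def S_En2 : Prop :=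
  ∀ (f : ℤ[X]) (N M : ℕ) (D : ℤ) (ρ : ℝ), f ≠ 0 → 1 ≤ N → f.natDegree ≤ N → M ≤ N → D ≠ 0 →
    1 ≤ ρ → (f.aroots ℂ).Nodup →
    (∀ β ∈ f.aroots ℂ, ‖β‖ ≤ ρ ∧ ∀ e ≤ N, IsIntegral ℤ ((D : ℂ) * β ^ e)) →
    ∑ j ∈ Finset.Icc 1 M, ‖ps f j‖ ^ 2 ≤ M * (ρ ^ M) ^ 2 * N * (8 * (2 + Real.log N +
      N * Real.log ρ + Real.log |(D : ℝ)| + Real.log |(f.leadingCoeff : ℝ)|))

def S_Fej : Prop :=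
  ∀ (σ : Multiset ℕ) (B j : ℕ) (e : ℕ → ℂ) (η E : ℝ), (∀ s ∈ σ, 1 ≤ s) → 0 < B → 0 ≤ E →
    B * σ.sum < j → (∀ i ≤ (B - 1) * σ.sum, ‖tws (Ph σ) e (j - i)‖ ≤ η) →
    ∑ i ∈ Finset.Icc 1 j, ‖e i‖ ^ 2 ≤ E ^ 2 →
    ‖e j‖ ≤ (B : ℝ) ^ σ.card * η + 2 ^ σ.card * (E / √(B : ℝ))

def S_Raw : Prop :=
  ∀ (L M N u : ℕ) (σ : Multiset ℕ) (e : ℕ → ℂ), 2 ≤ L → σ.card ≤ L → (∀ s ∈ σ, 1 ≤ s) →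
    4 ^ L ≤ u →
    (∀ σ' ≤ σ, ∀ s₀ j : ℕ, σ'.sum < j → j < M → (∀ s ∈ σ - σ', s₀ ≤ s) →
      j ≤ 2 * u ^ 40 * L * s₀ → ‖tws (Ph σ') e j‖ ≤ N * (9 / (u : ℝ) ^ (80 * L))) →
    ∑ i ∈ Finset.Icc 1 M, ‖e i‖ ^ 2 ≤ 4 * (N : ℝ) ^ 2 * (u : ℝ) ^ 4 →
    ∀ j, 1 ≤ j → j < M → ‖e j‖ ≤ N / (u : ℝ) ^ 16

/-! ### One variable: exactness -/

def S_H0 : Prop :=
  ∀ (u v : PowerSeries ℂ) (x y : ℕ → ℂ) (j : ℕ), PowerSeries.coeff 0 u = 1 →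
    PowerSeries.coeff 0 v = 1 → IsNS u x → IsNS v y → 1 ≤ j →
    (∀ i, 1 ≤ i → i < j → x i = y i) →
    x j - y j = -(j * (PowerSeries.coeff j u - PowerSeries.coeff j v))

def S_H1 : Prop :=
  ∀ (c : ℤ) (x y : ℕ → ℂ) (s r j : ℕ), Iv c x → Iv c y → r ≤ s → 1 ≤ j →
    (∀ i, 1 ≤ i → i < j → s * x i = r * y i) →
    ∃ z : ℤ, (c : ℂ) ^ s * (s * x j - r * y j) = j * z

def S_Vser : Prop :=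
  ∀ (S f h : ℤ[X]) (d : ℤ) (L g M : ℕ), S ≠ 0 → S = f * h → d ≠ 0 → d.natAbs ≤ L → 1 ≤ g →
    M * L ≤ g → (∀ β ∈ f.aroots ℂ, IsIntegral ℤ ((d : ℂ) * β ^ g)) →
    Iv S.leadingCoeff (hi (ps f) M)

def S_PhiMu : Prop :=
  ∀ (φ T : ℤ[X]) (d : ℤ) (σ : Multiset ℕ), d ≠ 0 → (∀ s ∈ σ, 1 ≤ s) →
    φ * T = Polynomial.C d * Ph σ → ∃ x : ℕ → ℂ,
      IsNS (PowerSeries.C ((φ.coeff 0 : ℂ)⁻¹) *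
        ((φ.map (Int.castRingHom ℂ) : ℂ[X]) : PowerSeries ℂ)) x ∧
      ∀ m, σ.sum < m → mu x m = 0

def S_First : Prop :=
  ∀ (L g w M : ℕ) (σ : Multiset ℕ) (d : ℤ) (S φ T W St : ℤ[X]) (c : Multiset ℕ),
    TL L g w σ d S φ T W → S = St * (c.map fun l => cyclotomic l ℤ).prod →
    (∀ l ∈ c, 0 < l ∧ l < M) → w < M → M ≤ g →
    ∃ (j₁ : ℕ) (z : ℤ), g ≤ j₁ ∧ j₁ ≤ S.natDegree ∧ z ≠ 0 ∧ z.natAbs ≤ L ∧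
      (∀ j, 1 ≤ j → j < j₁ → hi (ps St) M j = 0) ∧
      (S.leadingCoeff : ℂ) * hi (ps St) M j₁ = j₁ * z

def S_ExT : Prop :=
  ∀ (x y : ℕ → ℂ) (c z₁ : ℤ) (L M K t j₁ : ℕ) (δ γ η Y Λ : ℝ), c ≠ 0 → c.natAbs ≤ L → 1 ≤ M →
    M ≤ j₁ → j₁ ≤ K → z₁ ≠ 0 → z₁.natAbs ≤ L → 1 ≤ Λ → 0 ≤ η → 0 ≤ Y →
    (∀ j, 1 ≤ j → j < j₁ → hi y M j = 0) → (c : ℂ) * hi y M j₁ = j₁ * z₁ →
    Iv c (hi x M) → Iv c (hi y M) → (∀ m, 1 ≤ m → m ≤ K → m.divisors.card ≤ t) →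
    (∀ j, 1 ≤ j → j < M → ‖x j - δ * y j‖ ≤ η ∧ ‖y j‖ ≤ Y) →
    (∀ j, M ≤ j → j ≤ K → ∃ P : ℤ[X], P.coeff 0 = 1 ∧ (l1p P : ℝ) ≤ Λ ∧
      ‖tws P (fun i => x i - δ * y i) j‖ ≤ η ∧ ‖tws P y j‖ ≤ Y) →
    γ ≤ δ → δ ≤ 1 - γ → L * (η * (1 + Λ * t ^ 2)) < γ * M →
    (L : ℝ) ^ L * (L * (η * (1 + Λ * t ^ 2)) * (1 + Y * (1 + Λ * t ^ 2) / M)) < M →
    ∃ r s : ℕ, 0 < r ∧ r < s ∧ ∀ j, 1 ≤ j → j ≤ K → ‖s * x j - r * y j‖ ≤ M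

def S_Big : Prop :=
  ∀ (S g St : ℤ[X]) (L K r s : ℕ) (Bd : ℝ), S ≠ 0 → l1p S ≤ L → St ∣ S →
    g.aroots ℂ ≤ St.aroots ℂ → (St.aroots ℂ).Nodup → 0 < r → r < s → S.natDegree ≤ K →
    (∀ j, 1 ≤ j → j ≤ K → ‖s * ps g j - r * ps St j‖ ≤ Bd) →
    ∀ β ∈ St.aroots ℂ, 1 ≤ ‖β‖ →
      ‖β‖ ^ K * ‖β * aeval β (derivative S)‖ ≤ L * S.natDegree * Bd * ‖β‖ ^ S.natDegree

def S_Num : Prop :=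
  ∀ L J Q : ℕ, 2 ≤ L → ∃ Y u₀ : ℕ, ∀ g w N u : ℕ, u₀ ≤ u → u ≤ N → N ≤ u ^ Q → N ≤ J * g →
    g ≤ N → Y * w ≤ g → ∃ (M R₀ : ℕ) (ρ : ℝ), Nm L J g w N u M R₀ ρ ∧
      ∀ l, 0 < l → l * Y ≤ g → l < M

def S_One1 : Prop :=
  ∀ (L J g w u M R₀ : ℕ) (ρ y : ℝ) (σ : Multiset ℕ) (d : ℤ) (S φ T W g₁ h St : ℤ[X])
    (c : Multiset ℕ), TL L g w σ d S φ T W → Nm L J g w S.natDegree u M R₀ ρ →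
    Setup S g₁ h St c y 0 0 → FS S g₁ St → TF S σ g (u ^ (80 * L)) →
    ∀ j, 1 ≤ j → j < M →
      ‖ee g₁ St j‖ ≤ S.natDegree / (u : ℝ) ^ 16 ∧ ‖ps St j‖ ≤ S.natDegree * u

def S_One2 : Prop :=
  ∀ (L J g w u M R₀ : ℕ) (ρ y : ℝ) (σ : Multiset ℕ) (d : ℤ) (S φ T W g₁ h St : ℤ[X])
    (c : Multiset ℕ), TL L g w σ d S φ T W → Nm L J g w S.natDegree u M R₀ ρ →
    Setup S g₁ h St c y 0 0 → FS S g₁ St → TF S σ g (u ^ (80 * L)) →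
    ∀ j, M ≤ j → j ≤ R₀ * g → ∃ P : ℤ[X], P.coeff 0 = 1 ∧ (l1p P : ℝ) ≤ u ∧
      ‖tws P (ee g₁ St) j‖ ≤ S.natDegree / (u : ℝ) ^ 16 ∧ ‖tws P (ps St) j‖ ≤ S.natDegree * u

def S_One : Prop :=
  ∀ L J Q : ℕ, ∃ Y u₀ : ℕ, ∀ (g w u : ℕ) (σ : Multiset ℕ) (d : ℤ) (S φ T W : ℤ[X]),
    TL L g w σ d S φ T W → S.natDegree ≤ J * g → Y * w ≤ g → u₀ ≤ u → u ≤ S.natDegree →
    S.natDegree ≤ u ^ Q → TF S σ g (u ^ (80 * L)) → Simple S → Two S →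
    DegLB S (S.natDegree / u) → (∀ l, 0 < l → cyclotomic l ℤ ∣ S → l * Y ≤ g) →
    ∃ R₀ : ℕ, J ≤ R₀ ∧ u < (2 ^ L * L) ^ (R₀ + 1) ∧ Tiny S L (R₀ * g)

def S_End : Prop :=
  ∀ L J E T₀ : ℕ, ∃ Θ : ℝ, ∀ (S : ℤ[X]) (g u R₀ m : ℕ) (G : ℂ[X]), 1 ≤ L → l1p S ≤ L →
    1 ≤ S.natDegree → S.natDegree ≤ J * g → S.natDegree ≤ u ^ E → J ≤ R₀ →
    u < (2 ^ L * L) ^ (R₀ + 1) → (∀ β : ℂ, aeval β S = 0 → ‖β‖ ^ g ≤ (u : ℝ) ^ E) →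
    Tiny S L (R₀ * g) → l1c G ≤ 1 → m ≤ T₀ * S.natDegree →
    ‖tq G S m‖ < Θ * (S.natDegree : ℝ) ^ 2

def S_Qc2 : Prop :=
  ∀ (S : ℤ[X]) (ψ : PowerSeries ℂ) (G : ℂ[X]) (m : ℕ), S ≠ 0 →
    ((S.reverse.map (Int.castRingHom ℂ) : ℂ[X]) : PowerSeries ℂ) * ψ =
      ((X * derivative (S.reverse.map (Int.castRingHom ℂ)) : ℂ[X]) : PowerSeries ℂ) ^ 2 →
    G.natDegree < m → tq G S m = PowerSeries.coeff (m + S.natDegree) ((G : PowerSeries ℂ) * ψ)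

/-! ### Poles along the face -/

def S_Cop2 : Prop :=
  ∀ (k : ℕ) (P : LP k) (θ : Fin k → ℝ), Irreducible P → P.coeff 0 ≠ 0 →
    (∃ u ∈ P.coeff.support, lin θ u ≠ 0) →
    dv (fun i => (θ i : ℂ)) (toC P) ≠ 0 ∧ IsRelPrime (toC P) (dv (fun i => (θ i : ℂ)) (toC P))

def S_Qex : Prop :=
  ∀ (k : ℕ) (A A' : LQ ℂ k) (a₀ : Fin k → ℤ), a₀ ≠ 0 → A ≠ 0 → A' ≠ 0 → IsRelPrime A A' →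
    ∃ (P P' Q : LQ ℂ k) (c : ℕ), Ng a₀ P ∧ Ng a₀ P' ∧ Q ≠ 0 ∧ P * A + P' * A' = Q ∧
      ∀ u ∈ Q.coeff.support, -(u ⬝ᵥ a₀) = c

def S_Pt : Prop :=
  ∀ (k : ℕ) (F : LQ ℤ k) (D : FDat k) (E : ℕ), Dat F → Fc F D →
    (∃ u ∈ D.φ.coeff.support, u ≠ 0) → ∃ (b : Fin k → ℤ) (t₀ : ℂˣ) (m₀ : ℕ), NoRel E b ∧
      (∀ v ∈ D.V, v ⬝ᵥ b ≠ 0) ∧ 0 < m₀ ∧ (t₀ : ℂ) ^ m₀ = 1 ∧ evc b t₀ D.φ = 0 ∧ evc b t₀ F ≠ 0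

def S_Loc : Prop :=
  ∀ (k : ℕ) (b : Fin k → ℤ) (t₀ : ℂˣ) (a₀ : Fin k → ℤ),
    (∀ A A' : LQ ℂ k, py b t₀ a₀ (A + A') = py b t₀ a₀ A + py b t₀ a₀ A') ∧
    (∀ (z : ℂ) (A : LQ ℂ k), py b t₀ a₀ (z • A) = z • py b t₀ a₀ A) ∧
    py b t₀ a₀ 1 = 1 ∧
    (∀ A A' : LQ ℂ k, Ng a₀ A → Ng a₀ A' → py b t₀ a₀ (A * A') = py b t₀ a₀ A * py b t₀ a₀ A') ∧
    (∀ (A : LQ ℂ k) (m j : ℕ), Ng a₀ A → (j.factorial : ℂ) *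
      PowerSeries.coeff j ((py b t₀ a₀ A).coeff m) =
        ∑ u ∈ A.coeff.support.filter (fun u => -(u ⬝ᵥ a₀) = m),
          A.coeff u * (t₀ : ℂ) ^ (u ⬝ᵥ b) * ((u ⬝ᵥ b : ℤ) : ℂ) ^ j) ∧
    (∀ (A : LQ ℂ k) (c : ℕ), (∀ u ∈ A.coeff.support, -(u ⬝ᵥ a₀) = c) →
      ∃ q, py b t₀ a₀ A = monomial c q ∧ PowerSeries.constantCoeff q = evc b t₀ A ∧
        (A ≠ 0 → Set.InjOn (· ⬝ᵥ b) A.coeff.support → q ≠ 0)) ∧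
    ∀ V : Multiset (Fin k → ℤ), (∀ v ∈ V, v ⬝ᵥ a₀ = 0 ∧ v ⬝ᵥ b ≠ 0) →
      ∃ ε, IsUnit ε ∧ py b t₀ a₀ (bin ℂ V) = Polynomial.C (PowerSeries.X ^ ord b t₀ V * ε)

def S_Dvr : Prop :=
  ∀ (p Z : PowerSeries (PowerSeries ℂ)) (q : PowerSeries ℂ) (c : ℕ), PowerSeries.coeff 0 p ≠ 0 →
    PowerSeries.constantCoeff (PowerSeries.coeff 0 p) = 0 →
    (∃ m, PowerSeries.constantCoeff (PowerSeries.coeff m p) ≠ 0) → q ≠ 0 →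
    p * Z ≠ PowerSeries.monomial c q

def S_PX1 : Prop :=
  ∀ (p A w P P' : (PowerSeries ℂ)[X]) (τ ε q : PowerSeries ℂ) (e c ω k₁ : ℕ), τ ≠ 0 → IsUnit ε →
    q ≠ 0 → p * Polynomial.C τ = Polynomial.C (PowerSeries.X ^ e * ε) + w → w.coeff 0 = 0 →
    PowerSeries.constantCoeff (p.coeff 0) = 0 →
    (∃ m, PowerSeries.constantCoeff (p.coeff m) ≠ 0) → P * p + P' * A = monomial c q →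
    ∃ n, k₁ ≤ n ∧ ∀ R, n < R → ∃ j, j + ω < e * R ∧
      PowerSeries.coeff j ((A * (Polynomial.C τ * ∑ i ∈ Finset.range R,
        (-w) ^ i * Polynomial.C (PowerSeries.X ^ e * ε) ^ (R - 1 - i))).coeff n) ≠ 0

def S_PoleEx : Prop :=
  ∀ (k : ℕ) (F : LQ ℤ k) (D : FDat k) (θ : Fin k → ℝ) (k₁ : ℕ), Dat F → Fc F D →
    (∃ u ∈ D.φ.coeff.support, u ≠ 0) → (∃ u ∈ F.coeff.support, lin θ u ≠ 0) →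
    ∃ (b : Fin k → ℤ) (t₀ : ℂˣ) (m₀ n : ℕ), 0 < m₀ ∧ (t₀ : ℂ) ^ m₀ = 1 ∧ k₁ ≤ n ∧
      ∀ R, n < R → ∃ j, j + k < ord b t₀ D.V * R ∧
        PowerSeries.coeff j ((py b t₀ D.a₀ (MM F D θ R)).coeff n) ≠ 0

def S_FejEv : Prop :=
  ∀ (k : ℕ) (V : Multiset (Fin k → ℤ)) (b : Fin k → ℤ) (t₀ : ℂˣ) (m₀ B R : ℕ), 0 < B → m₀ ∣ B →
    (t₀ : ℂ) ^ m₀ = 1 →
    (B : ℝ) ^ (ord b t₀ V * R) ≤ 2 ^ (V.card * R) * ‖evc b t₀ (HH V B R)‖ ∧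
      ∀ (ω : (Fin k → ℤ) →+ ℝ) (p : ℝ), 0 ≤ p → (∀ v ∈ V, ω v ≤ p) →
        Bd ω (R * V.card * B * p) (HH V B R)

def S_PoleBig : Prop :=
  ∀ (k : ℕ) (V : Multiset (Fin k → ℤ)) (a₀ b : Fin k → ℤ) (t₀ : ℂˣ) (m₀ n R j : ℕ) (A : LQ ℂ k),
    (∀ v ∈ V, v ⬝ᵥ a₀ = 0) → Ng a₀ A → 0 < m₀ → (t₀ : ℂ) ^ m₀ = 1 → j + k < ord b t₀ V * R →
    PowerSeries.coeff j ((py b t₀ a₀ A).coeff n) ≠ 0 →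
    ∀ Θ : ℝ, ∃ (B : ℕ) (z : Fin k → ℤ), 0 < B ∧ -(z ⬝ᵥ a₀) = n ∧ Θ < ‖(HH V B R * A).coeff z‖

def S_MMb : Prop :=
  ∀ (k : ℕ) (F : LQ ℤ k) (D : FDat k) (R : ℕ), Fc F D →
    (∀ (θ : Fin k → ℝ) (ω : (Fin k → ℤ) →+ ℝ) (p : ℝ), 0 ≤ p →
      (∀ u ∈ F.coeff.support, ω u ≤ p) → (∀ u ∈ D.T.coeff.support, ω u ≤ p) →
      (∀ v ∈ D.V, ω v ≤ p) → Bd ω ((R * (D.V.card + 2) + 3) * p) (MM F D θ R)) ∧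
    (∀ θ : Fin k → ℝ, Ng D.a₀ (MM F D θ R)) ∧
    ∃ N : Fin k → Fin k → LQ ℂ k, ∀ θ : Fin k → ℝ,
      MM F D θ R = ∑ i, ∑ i', ((θ i : ℂ) * θ i') • N i i'

def S_Trunc : Prop :=
  ∀ (k : ℕ) (F : LQ ℤ k) (D : FDat k) (a : Fin k → ℤ) (J g w B R : ℕ) (ψ : PowerSeries ℂ),
    Fc F D → TG F D a J g w → 0 < B →
    (pl a (toC F) : PowerSeries ℂ) * ψ = (pl a (dv (cv ℂ a) (toC F)) : PowerSeries ℂ) ^ 2 →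
    ∃ G : ℂ[X], l1c G ≤ (2 ^ D.V.card * |(D.d : ℝ)|) ^ R ∧ G.natDegree ≤ R * B * w ∧
      ∀ m < R * g, PowerSeries.coeff m ((G : PowerSeries ℂ) * ψ) =
        (pl a (HH D.V B R * MM F D (fun i => (a i : ℝ)) R)).coeff m

def S_Cov : Prop :=
  ∀ (k : ℕ) (F : LQ ℤ k) (D : FDat k) (J k₁ : ℕ) (κ : ℝ), Dat F → Fc F D →
    (∃ u ∈ D.φ.coeff.support, u ≠ 0) → 0 < κ → ∃ k₀ : ℕ, ∀ Θ : ℝ,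
      ∃ t : Finset (ℕ × ℕ × (Fin k → ℤ)), ∀ θ : Fin k → ℝ, (∀ i, |θ i| ≤ 1) →
        (∀ u ∈ D.W.coeff.support, lin θ u ≤ -κ) → ∃ q ∈ t, k₁ ≤ q.1 ∧ q.1 ≤ k₀ ∧ 0 < q.2.1 ∧
          -(q.2.2 ⬝ᵥ D.a₀) = q.1 ∧ Θ < ‖(HH D.V q.2.1 ((q.1 + 1) * J + q.1 + 1) *
            MM F D θ ((q.1 + 1) * J + q.1 + 1)).coeff q.2.2‖

def S_Grow2 : Prop :=
  ∀ (k : ℕ) (F : LQ ℤ k) (D : FDat k) (J : ℕ), Dat F → Fc F D →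
    (∃ u ∈ D.φ.coeff.support, u ≠ 0) → ∃ T₀ : ℕ, ∀ Θ : ℝ, ∃ B Y : ℕ,
      ∀ (a : Fin k → ℤ) (g w : ℕ), NoRel B a → TG F D a J g w → Y * w ≤ g →
        ∃ (G : ℂ[X]) (m : ℕ), l1c G ≤ 1 ∧ m ≤ T₀ * (SS F a).natDegree ∧
          Θ * ((SS F a).natDegree : ℝ) ^ 2 ≤ ‖tq G (SS F a) m‖

/-! ### From several variables to one -/

def S_TLink : Prop :=
  ∀ (k : ℕ) (F : LQ ℤ k) (D : FDat k) (a : Fin k → ℤ) (J g w : ℕ), F.coeff 0 ≠ 0 → Fc F D →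
    TG F D a J g w → w < g → Set.InjOn (· ⬝ᵥ a) F.coeff.support →
    ∃ W : ℤ[X], TL (LL F D) g w (sg D.V a) D.d (SS F a) (pl a D.φ) (pl a D.T) W ∧
      (SS F a).natDegree ≤ J * g ∧
      ∀ l ∈ W.support, ∃ u ∈ (D.W * D.T).coeff.support, ((g + l : ℕ) : ℤ) = -(u ⬝ᵥ a)

def S_FlatAll2 : Prop :=
  ∀ (k : ℕ) (F : LQ ℤ k) (D : FDat k) (J A : ℕ), F.coeff 0 ≠ 0 → Fc F D → 0 < A →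
    ∃ x₀ : ℕ, ∀ (a : Fin k → ℤ) (g w x : ℕ), TG F D a J g w → w < g →
      Set.InjOn (· ⬝ᵥ a) F.coeff.support → x₀ ≤ x → x ^ (11 * A) ≤ nu a →
      nu a ≤ x ^ (22 * A) → StA F a A → TF (SS F a) (sg D.V a) g x

def S_DegT : Prop :=
  ∀ (k : ℕ) (F : LQ ℤ k) (D : FDat k) (J : ℕ) (η : ℝ), Fc F D → 0 < η → ∃ c : ℝ, 0 < c ∧
    ∀ (a : Fin k → ℤ) (g w : ℕ), TG F D a J g w → 2 * w ≤ g → DegE F a c η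

def S_Lev2 : Prop :=
  ∀ (k : ℕ) (F : LQ ℤ k) (D : FDat k) (J Y : ℕ), Dat F → Fc F D → ∃ B : ℕ,
    ∀ (a : Fin k → ℤ) (g w : ℕ), NoRel B a → TG F D a J g w →
      Set.InjOn (· ⬝ᵥ a) F.coeff.support ∧
      (∀ l, 0 < l → cyclotomic l ℤ ∣ SS F a → l * Y ≤ g) ∧ HasL (spec a (toQ F))

def S_StepV : Prop :=
  ∀ (k : ℕ) (F : LQ ℤ k) (J A : ℕ), Dat F → 0 < A → ∃ B : ℕ, ∀ (a : Fin k → ℤ) (s : ℕ),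
    NoRel B a → Gp F a J s → Sim F a → StA F a A → ¬ TwoL (spec a (toQ F))

def S_Core3 : Prop :=
  ∀ (k : ℕ) (F : LQ ℤ k) (D : FDat k) (J A : ℕ), Dat F → Fc F D →
    (∃ u ∈ D.φ.coeff.support, u ≠ 0) → 0 < A → ∃ B Y : ℕ, ∀ (a : Fin k → ℤ) (g w : ℕ),
      NoRel B a → TG F D a J g w → Y * w ≤ g → Sim F a → StA F a A → ¬ TwoL (spec a (toQ F))

/-! ### Faces -/

def S_Proj : Prop :=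
  ∀ (k : ℕ) (U : Finset (Fin k → ℤ)), ∃ (n : ℕ) (f : (Fin k → ℤ) → Fin k → ℤ), 0 < n ∧
    ∀ a : Fin k → ℤ, ∀ u' ∈ U, u' ⬝ᵥ ((n : ℤ) • a - ∑ u ∈ U, (u ⬝ᵥ a) • f u) = 0

def S_FaceDiv : Prop :=
  ∀ (k : ℕ) (A : LP k) (V : Multiset (Fin k → ℤ)) (ω : (Fin k → ℤ) →+ ℝ) (m : ℝ),
    (∀ v ∈ V, v ≠ 0) → A ∣ bin ℚ V → Bd ω m A → lev ω m A ≠ 0 →
    ∃ V' ≤ V, (∀ v ∈ V', ω v = 0) ∧ lev ω m A ∣ bin ℚ V'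

def S_Small : Prop :=
  ∀ (k : ℕ) (A : LP k) (U : Finset (Fin k → ℤ)), A.coeff.support ⊆ U → Tp A →
    ∃ V : Multiset (Fin k → ℤ),
      (∀ v ∈ V, v ≠ 0 ∧ v ∈ AddSubgroup.closure (U : Set (Fin k → ℤ))) ∧ A ∣ bin ℚ V

def S_DatU : Prop :=
  ∀ (k : ℕ) (F : LQ ℤ k) (U₀ U : Finset (Fin k → ℤ)) (a₀ : Fin k → ℤ), F.coeff 0 ≠ 0 →
    Tp (toQ (res U₀ F)) → 0 ∈ U → U ⊆ U₀ → (∀ u ∈ U, u ⬝ᵥ a₀ = 0) →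
    (∀ u ∈ F.coeff.support, u ∉ U → u ⬝ᵥ a₀ < 0) → (∃ u ∈ F.coeff.support, u ∉ U) →
    ∃ (𝒟 : Finset (FDat k)) (C B : ℕ), (∀ D ∈ 𝒟, Fc F D ∧ D.φ = res U F ∧ D.W = F - res U F) ∧
      ∀ (a : Fin k → ℤ) (X : ℕ), NoRel B a → Top F a → (∀ u ∈ U, |u ⬝ᵥ a| ≤ X) →
        ∃ D ∈ 𝒟, (∀ v ∈ D.V, v ⬝ᵥ a < 0) ∧ (sg D.V a).sum ≤ C * X ∧ Ng a D.T ∧
          ∀ u ∈ D.T.coeff.support, -(u ⬝ᵥ a) ≤ (C * X : ℕ)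

def S_Pig2 : Prop :=
  ∀ (n₀ J₀ : ℕ) (Yf : ℕ → ℕ), ∃ Jm : ℕ, ∀ (ι : Type) (s : Finset ι) (γ : ι → ℕ) (n : ℕ),
    s.card ≤ n₀ → ∃ J, J₀ ≤ J ∧ J ≤ Jm ∧ ∀ u ∈ s, J * Yf J * γ u ≤ n ∨ n ≤ J * γ u

def S_Cfg : Prop :=
  ∀ (k : ℕ) (F : LQ ℤ k) (U₀ : Finset (Fin k → ℤ)) (κ : ℝ) (C : ℕ), Dat F →
    Tp (toQ (res U₀ F)) → 0 < κ → Sp C F → ∃ 𝒟 : Finset (FDat k), (∀ D ∈ 𝒟, Fc F D) ∧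
      ∀ Yf : ℕ → ℕ, ∃ Jm B : ℕ, ∀ a : Fin k → ℤ, NoRel B a → Top F a → Gq κ F U₀ a →
        ∃ D ∈ 𝒟, ∃ J g w : ℕ, J ≤ Jm ∧ TG F D a J g w ∧ Yf J * w ≤ g

def S_CoreAll : Prop :=
  ∀ (k : ℕ) (F : LQ ℤ k) (U : Finset (Fin k → ℤ)) (κ η : ℝ) (C A : ℕ), Dat F →
    Tp (toQ (res U F)) → 0 < κ → 0 < η → Sp C F → 0 < A → ∃ (c : ℝ) (B : ℕ), 0 < c ∧
      ∀ a : Fin k → ℤ, NoRel B a → Top F a → Gq κ F U a → DegE F a c η ∧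
        HasL (spec a (toQ F)) ∧ (Sim F a → StA F a A → ¬ TwoL (spec a (toQ F)))

/-! ### The induction -/

def S_Gq : Prop :=
  ∀ (k : ℕ) (F : LQ ℤ k) (U : Finset (Fin k → ℤ)) (κ : ℝ), 0 < κ → ∃ C, Hv (Gq κ F U) C

def S_NoTwo2 : Prop :=
  ∀ (n : ℕ) (F : LQ ℤ n) (Gd : (Fin n → ℤ) → Prop) (C : ℕ), Dat F → Hv Gd C → ∃ A H₀ : ℕ,
    ∀ (B H r : ℕ) (a : Fin n → ℤ) (M : Matrix (Fin n) (Fin r) ℤ) (b : Fin r → ℤ), H₀ ≤ H →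
      H ^ A ≤ nu a → Val F Gd B a → IHg F Gd B a → Pr a H M b → DegH F a H →
      spec a (toQ F) ≠ 0 → NoTwo F M b

def S_StarAll2 : Prop :=
  ∀ (n : ℕ) (F : LQ ℤ n) (Gd : (Fin n → ℤ) → Prop) (C : ℕ), Dat F → Hv Gd C →
    ∃ (A : ℕ) (η : ℝ), 0 < A ∧ 0 < η ∧ ∀ c : ℝ, 0 < c → ∃ ν₀ : ℕ,
      ∀ (B : ℕ) (a : Fin n → ℤ), ν₀ ≤ nu a → DegE F a c η → spec a (toQ F) ≠ 0 →
        Val F Gd B a → IHg F Gd B a → Sim F a ∧ StA F a A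

def S_Tra : Prop :=
  ∀ (k : ℕ) (F : LQ ℤ k) (u : Fin k → ℤ) (U : Finset (Fin k → ℤ)), u ∈ F.coeff.support →
    (Dat F → Dat (tr u F)) ∧
    (Tp (toQ (res U F)) → Tp (toQ (res (U.image (· - u)) (tr u F)))) ∧
    (∀ C, Sp C F → Sp C (tr u F)) ∧ ∀ a : Fin k → ℤ,
      (∀ κ, Gq κ F U a → Gq κ (tr u F) (U.image (· - u)) a) ∧
      ((∀ v ∈ F.coeff.support, v ≠ u → v ⬝ᵥ a < u ⬝ᵥ a) → Top (tr u F) a) ∧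
      (∀ c η, DegE (tr u F) a c η → DegE F a c η) ∧ (Sim F a → Sim (tr u F) a) ∧
      (∀ A, StA F a A → StA (tr u F) a A) ∧
      (HasL (spec a (toQ (tr u F))) → HasL (spec a (toQ F))) ∧
      (TwoL (spec a (toQ F)) → TwoL (spec a (toQ (tr u F))))

def S_Step2 : Prop :=
  ∀ (k : ℕ) (F : LQ ℤ k) (U : Finset (Fin k → ℤ)) (κ : ℝ) (C : ℕ), Dat F →
    Tp (toQ (res U F)) → 0 < κ → Sp C F → ∃ B : ℕ, ∀ a : Fin k → ℤ, Val F (Gq κ F U) B a →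
      HasL (spec a (toQ F)) ∧ ¬ TwoL (spec a (toQ F))

def S_Norm2 : Prop :=
  ∀ (n : ℕ) (P : LP n) (κ : ℝ), Irreducible P → NonCol P → 0 < κ →
    ∃ Γ : Finset (Fin n → ℤ), 0 ∉ Γ ∧ ∀ (b : Fin n → ℤ) (U : Finset (Fin n → ℤ)),
      (∀ c ∈ Γ, c ⬝ᵥ b ≠ 0) → Tp (res U P) → Mg κ P U b → Abs P b →
      spec b P ≠ 0 ∧ HasL (spec b P) ∧ ¬ TwoL (spec b P)

def S_Hull : Prop :=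
  ∀ (n : ℕ) (P Q : LP n), ∀ u ∈ P.coeff.support, ∀ q ∈ Q.coeff.support,
    ∃ la : (Fin n → ℤ) → ℝ, (∀ v, 0 ≤ la v) ∧ ∑ v ∈ (P * Q).coeff.support, la v = 1 ∧
      ∀ ω : (Fin n → ℤ) →+ ℝ, ∑ v ∈ (P * Q).coeff.support, la v * ω v = ω (u + q)

def S_Mt2 : Prop :=
  ∀ (n : ℕ) (G P : LP n), G ≠ 0 → P ∣ G → ∃ C : ℝ, 0 < C ∧
    ∀ (κ m : ℝ) (b : Fin n → ℤ) (ω : (Fin n → ℤ) →+ ℝ), 0 < κ → Bd ω m G → Tp (lev ω m G) →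
      Mg κ G (lev ω m G).coeff.support b → ∃ U, Tp (res U P) ∧ Mg (κ / C) P U b

def S_Fin3 : Prop :=
  ∀ (n : ℕ) (F : LP n), Irreducible F → NonCol F →
    ∃ Ω : Finset (Matrix (Fin n) (Fin n) ℤ), (∀ M ∈ Ω, M.det ≠ 0) ∧
      ∀ κ : ℝ, 0 < κ → ∃ Γ : Finset (Fin n → ℤ), 0 ∉ Γ ∧
        ∀ (a : Fin n → ℤ) (m : ℝ) (ω : (Fin n → ℤ) →+ ℝ), Bd ω m F → Tp (lev ω m F) →
          Mg κ F (lev ω m F).coeff.support a → (∃ c ∈ Γ, c ⬝ᵥ a = 0) ∨ Alt F Ω a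

end Pool.Agent.P.MP_aef18a_nt.TW
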