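import Pool.Agent.P.MP_aef18a_nt.TW.Iface

namespace Pool.Agent.P.MP_aef18a_nt.TW

open Polynomial Matrix LaurentPolynomial OW

namespace Locy

variable {k : ℕ} (b : Fin k → ℤ) (t₀ : ℂˣ) (a₀ : Fin k → ℤ)

lemma py_eq (A : LQ ℂ k) {s : Finset (Fin k → ℤ)} (h : A.coeff.support ⊆ s) :
    py b t₀ a₀ A =
      ∑ u ∈ s, monomial (-(u ⬝ᵥ a₀)).toNat (PowerSeries.C (A.coeff u) * ch b t₀ u) :=
  Finset.sum_subset h fun u _ hu => by
    rw [Finsupp.notMem_support_iff.1 hu, map_zero, zero_mul, monomial_zero_right]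

lemma py_add (A A' : LQ ℂ k) : py b t₀ a₀ (A + A') = py b t₀ a₀ A + py b t₀ a₀ A' := by
  classical
  rw [py_eq b t₀ a₀ (A + A') (s := A.coeff.support ∪ A'.coeff.support)
      (by rw [AddMonoidAlgebra.coeff_add]; exact Finsupp.support_add),
    py_eq b t₀ a₀ A Finset.subset_union_left, py_eq b t₀ a₀ A' Finset.subset_union_right,
    ← Finset.sum_add_distrib]
  refine Finset.sum_congr rfl fun u _ => ?_
  rw [AddMonoidAlgebra.coeff_add, Finsupp.add_apply, map_add, add_mul, map_add]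

lemma py_zero : py b t₀ a₀ 0 = 0 := by simp [py]

lemma py_smul (z : ℂ) (A : LQ ℂ k) : py b t₀ a₀ (z • A) = z • py b t₀ a₀ A := by
  rw [py_eq b t₀ a₀ (z • A) (s := A.coeff.support)
      (by rw [AddMonoidAlgebra.coeff_smul]; exact Finsupp.support_smul), py, Finset.smul_sum]
  refine Finset.sum_congr rfl fun u _ => ?_
  rw [AddMonoidAlgebra.coeff_smul, Finsupp.smul_apply, smul_eq_mul, smul_monomial,
    map_mul PowerSeries.C, mul_assoc, PowerSeries.smul_eq_C_mul]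

lemma py_sum {ι : Type*} (s : Finset ι) (A : ι → LQ ℂ k) :
    py b t₀ a₀ (∑ i ∈ s, A i) = ∑ i ∈ s, py b t₀ a₀ (A i) := by
  classical
  induction s using Finset.induction_on with
  | empty => simpa using py_zero b t₀ a₀
  | insert i s hi ih => rw [Finset.sum_insert hi, Finset.sum_insert hi, py_add, ih]

lemma py_single (u : Fin k → ℤ) (c : ℂ) : py b t₀ a₀ (AddMonoidAlgebra.single u c) =
    monomial (-(u ⬝ᵥ a₀)).toNat (PowerSeries.C c * ch b t₀ u) := by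
  rw [py_eq b t₀ a₀ _ (s := {u}) fun z hz => Finset.mem_singleton.2 (mem_single hz),
    Finset.sum_singleton, AddMonoidAlgebra.coeff_single, Finsupp.single_eq_same]

lemma ch_add (u u' : Fin k → ℤ) : ch b t₀ (u + u') = ch b t₀ u * ch b t₀ u' := by
  rw [ch, ch, ch, add_dotProduct, zpow_add₀ t₀.ne_zero, map_mul, Int.cast_add,
    ← PowerSeries.exp_mul_exp_eq_exp_add]
  ring

lemma ch_zero : ch b t₀ 0 = 1 := by simp [ch]

lemma py_one : py b t₀ a₀ 1 = 1 := by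
  rw [AddMonoidAlgebra.one_def, py_single, ch_zero]
  simp

lemma py_mul {A A' : LQ ℂ k} (h : Ng a₀ A) (h' : Ng a₀ A') :
    py b t₀ a₀ (A * A') = py b t₀ a₀ A * py b t₀ a₀ A' := by
  conv_lhs => rw [eq_sum_single A, eq_sum_single A', Finset.sum_mul_sum, py_sum]
  rw [py, py, Finset.sum_mul_sum]
  refine Finset.sum_congr rfl fun u hu => ?_
  rw [py_sum]
  refine Finset.sum_congr rfl fun u' hu' => ?_
  have h1 := h u hu
  have h2 := h' u' hu'
  rw [AddMonoidAlgebra.single_mul_single, py_single, monomial_mul_monomial, ch_add,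
    add_dotProduct, map_mul PowerSeries.C, show (-(u ⬝ᵥ a₀ + u' ⬝ᵥ a₀)).toNat =
      (-(u ⬝ᵥ a₀)).toNat + (-(u' ⬝ᵥ a₀)).toNat by omega]
  congr 1
  ring

lemma coeff_ch (u : Fin k → ℤ) (j : ℕ) : (j.factorial : ℂ) * PowerSeries.coeff j (ch b t₀ u) =
    (t₀ : ℂ) ^ (u ⬝ᵥ b) * ((u ⬝ᵥ b : ℤ) : ℂ) ^ j := by
  have : (j.factorial : ℂ) ≠ 0 := by exact_mod_cast j.factorial_ne_zero
  rw [ch, PowerSeries.coeff_C_mul, PowerSeries.coeff_rescale, PowerSeries.coeff_exp]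
  simp only [one_div, map_inv₀, map_natCast]
  field_simp

lemma coeff_sum (A : LQ ℂ k) (s : Finset (Fin k → ℤ)) (j : ℕ) :
    (j.factorial : ℂ) * PowerSeries.coeff j (∑ u ∈ s, PowerSeries.C (A.coeff u) * ch b t₀ u) =
      ∑ u ∈ s, A.coeff u * (t₀ : ℂ) ^ (u ⬝ᵥ b) * ((u ⬝ᵥ b : ℤ) : ℂ) ^ j := by
  rw [map_sum, Finset.mul_sum]
  refine Finset.sum_congr rfl fun u _ => ?_
  rw [PowerSeries.coeff_C_mul, mul_left_comm, coeff_ch, mul_assoc]

lemma coeff_py {A : LQ ℂ k} (h : Ng a₀ A) (m : ℕ) : (py b t₀ a₀ A).coeff m =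
    ∑ u ∈ A.coeff.support.filter (fun u => -(u ⬝ᵥ a₀) = m),
      PowerSeries.C (A.coeff u) * ch b t₀ u := by
  rw [py, finsetSum_coeff, Finset.sum_filter]
  refine Finset.sum_congr rfl fun u hu => ?_
  have := h u hu
  rw [coeff_monomial]
  exact if_congr (by omega) rfl rfl

lemma vand {ι : Type*} (s : Finset ι) (c y : ι → ℂ) (hy : Set.InjOn y s)
    (h : ∀ j : ℕ, ∑ u ∈ s, c u * y u ^ j = 0) {u : ι} (hu : u ∈ s) : c u = 0 := by
  classical
  have h1 : ∀ p : ℂ[X], ∑ u ∈ s, c u * p.eval (y u) = 0 := fun p => by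
    simp only [eval_eq_sum_range, Finset.mul_sum]
    rw [Finset.sum_comm]
    refine Finset.sum_eq_zero fun j _ => ?_
    have := congrArg (p.coeff j * ·) (h j)
    simp only [Finset.mul_sum, mul_zero] at this
    rw [← this]
    exact Finset.sum_congr rfl fun _ _ => by ring
  have h2 := h1 (∏ v ∈ s.erase u, (X - Polynomial.C (y v)))
  rw [Finset.sum_eq_single u (fun v hv hne => ?_) (fun e => absurd hu e)] at h2
  · refine (mul_eq_zero.1 h2).resolve_right ?_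
    rw [eval_prod]
    refine Finset.prod_ne_zero_iff.2 fun v hv => ?_
    rw [eval_sub, eval_X, eval_C, sub_ne_zero]
    exact fun e => (Finset.ne_of_mem_erase hv) (hy hu (Finset.mem_of_mem_erase hv) e).symm
  · rw [eval_prod, Finset.prod_eq_zero (Finset.mem_erase.2 ⟨hne, hv⟩) (by simp), mul_zero]

lemma const_ch (u : Fin k → ℤ) :
    PowerSeries.constantCoeff (ch b t₀ u) = (t₀ : ℂ) ^ (u ⬝ᵥ b) := by
  have := coeff_ch b t₀ u 0
  simpa using this

lemma level (A : LQ ℂ k) (c : ℕ) (h : ∀ u ∈ A.coeff.support, -(u ⬝ᵥ a₀) = c) :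
    ∃ q, py b t₀ a₀ A = monomial c q ∧ PowerSeries.constantCoeff q = evc b t₀ A ∧
      (A ≠ 0 → Set.InjOn (· ⬝ᵥ b) A.coeff.support → q ≠ 0) := by
  refine ⟨∑ u ∈ A.coeff.support, PowerSeries.C (A.coeff u) * ch b t₀ u, ?_, ?_, ?_⟩
  · rw [py, map_sum]
    exact Finset.sum_congr rfl fun u hu => by rw [h u hu, Int.toNat_natCast]
  · rw [map_sum, evc_eq_sum]
    exact Finset.sum_congr rfl fun u _ => by
      rw [map_mul, PowerSeries.constantCoeff_C, const_ch]; rfl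
  · intro hA hi e
    obtain ⟨u, hu⟩ := support_nonempty hA
    have := vand A.coeff.support (fun u => A.coeff u * (t₀ : ℂ) ^ (u ⬝ᵥ b))
      (fun u => ((u ⬝ᵥ b : ℤ) : ℂ)) (fun v hv w hw e => hi hv hw (Int.cast_injective (α := ℂ) e))
      (fun j => by rw [← coeff_sum, e, map_zero, mul_zero]) hu
    exact mul_ne_zero (Finsupp.mem_support_iff.1 hu) (zpow_ne_zero _ t₀.ne_zero) this

lemma py_binom {v : Fin k → ℤ} (hv : v ⬝ᵥ a₀ = 0) :
    py b t₀ a₀ (1 - AddMonoidAlgebra.single v 1) = Polynomial.C (1 - ch b t₀ v) := by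
  rw [sub_eq_add_neg, ← neg_one_smul ℂ (AddMonoidAlgebra.single v (1 : ℂ)), py_add, py_smul,
    py_one, py_single, hv]
  simp [sub_eq_add_neg]

lemma ng_binom {v : Fin k → ℤ} (hv : v ⬝ᵥ a₀ = 0) :
    Ng a₀ (1 - AddMonoidAlgebra.single v 1 : LQ ℂ k) := by
  have := ng_bin (𝕜 := ℂ) (a := a₀) (V := {v}) (by simp [hv])
  simpa [bin] using this

lemma one_sub_ch {v : Fin k → ℤ} (hb : v ⬝ᵥ b ≠ 0) (h : (t₀ : ℂ) ^ (v ⬝ᵥ b) = 1) :
    ∃ ε, IsUnit ε ∧ 1 - ch b t₀ v = PowerSeries.X * ε := by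
  obtain ⟨ε, e⟩ : PowerSeries.X ∣ 1 - ch b t₀ v := by
    rw [PowerSeries.X_dvd_iff, map_sub, map_one, const_ch, h, sub_self]
  refine ⟨ε, ?_, e⟩
  have h1 := congrArg (PowerSeries.coeff 1) e
  have h2 := coeff_ch b t₀ v 1
  rw [PowerSeries.coeff_succ_X_mul, map_sub, PowerSeries.coeff_one, if_neg one_ne_zero] at h1
  rw [h, Nat.factorial_one, Nat.cast_one, one_mul, one_mul, pow_one] at h2
  rw [PowerSeries.isUnit_iff_constantCoeff, ← PowerSeries.coeff_zero_eq_constantCoeff_apply, ← h1,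
    h2, zero_sub, isUnit_iff_ne_zero, neg_ne_zero]
  exact_mod_cast hb

lemma py_bin (V : Multiset (Fin k → ℤ)) (h : ∀ v ∈ V, v ⬝ᵥ a₀ = 0 ∧ v ⬝ᵥ b ≠ 0) :
    ∃ ε, IsUnit ε ∧ py b t₀ a₀ (bin ℂ V) = Polynomial.C (PowerSeries.X ^ ord b t₀ V * ε) := by
  classical
  induction V using Multiset.induction_on with
  | empty => exact ⟨1, isUnit_one, by rw [bin_zero, py_one]; simp [ord]⟩
  | cons v V ih =>
    have hv := h v (Multiset.mem_cons_self _ _)
    have hV : ∀ w ∈ V, w ⬝ᵥ a₀ = 0 ∧ w ⬝ᵥ b ≠ 0 := fun w hw => h w (Multiset.mem_cons_of_mem hw)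
    obtain ⟨ε, h1, h2⟩ := ih hV
    rw [bin_cons, py_mul b t₀ a₀ (ng_binom a₀ hv.1) (ng_bin fun w hw => (hV w hw).1.le),
      py_binom b t₀ a₀ hv.1, h2, ← map_mul]
    by_cases e : (t₀ : ℂ) ^ (v ⬝ᵥ b) = 1
    · obtain ⟨ε', h3, h4⟩ := one_sub_ch b t₀ hv.2 e
      refine ⟨ε' * ε, h3.mul h1, ?_⟩
      have : ord b t₀ (v ::ₘ V) = ord b t₀ V + 1 := by
        rw [ord, ord, Multiset.filter_cons_of_pos (p := fun v => (t₀ : ℂ) ^ (v ⬝ᵥ b) = 1) _ e,
          Multiset.card_cons]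
      rw [this, h4]
      congr 1
      ring
    · refine ⟨(1 - ch b t₀ v) * ε, IsUnit.mul ?_ h1, ?_⟩
      · rw [PowerSeries.isUnit_iff_constantCoeff, map_sub, map_one, const_ch, isUnit_iff_ne_zero]
        exact sub_ne_zero.2 (Ne.symm e)
      · have : ord b t₀ (v ::ₘ V) = ord b t₀ V := by
          rw [ord, ord, Multiset.filter_cons_of_neg (p := fun v => (t₀ : ℂ) ^ (v ⬝ᵥ b) = 1) _ e]
        rw [this]
        congr 1
        ring

end Locy

open Locy in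
theorem p_Loc : S_Loc := fun _ b t₀ a₀ =>
  ⟨py_add b t₀ a₀, py_smul b t₀ a₀, py_one b t₀ a₀, fun _ _ => py_mul b t₀ a₀,
    fun A m j h => by rw [coeff_py b t₀ a₀ h, coeff_sum], level b t₀ a₀, py_bin b t₀ a₀⟩

end Pool.Agent.P.MP_aef18a_nt.TW
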