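import Pool.Agent.P.MP_aef18a_nt.TW.Iface

namespace Pool.Agent.P.MP_aef18a_nt.TW

open Polynomial Matrix LaurentPolynomial OW

namespace Red2y

/-- combinations of the admissible powers on the roots of `S` -/
def Cb (S : ℤ[X]) (B : ℕ → Finset ℤ) (Nw i : ℕ) (f : ℂ → ℂ) : Prop :=
  ∃ lam : ℕ → ℂ, ∀ β : ℂ, aeval β S = 0 →
    f β = ∑ e ∈ (Finset.range Nw).filter (fun e : ℕ => (e : ℤ) ∈ B i), lam e * β ^ e

variable {S : ℤ[X]} {B : ℕ → Finset ℤ} {Nw i : ℕ}

lemma Cb.congr {f f' : ℂ → ℂ} (h : Cb S B Nw i f) (e : ∀ β, aeval β S = 0 → f' β = f β) :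
    Cb S B Nw i f' := by
  obtain ⟨lam, h⟩ := h
  exact ⟨lam, fun β hβ => (e β hβ).trans (h β hβ)⟩

lemma Cb.add {f f' : ℂ → ℂ} (h : Cb S B Nw i f) (h' : Cb S B Nw i f') :
    Cb S B Nw i fun β => f β + f' β := by
  obtain ⟨lam, h⟩ := h
  obtain ⟨lam', h'⟩ := h'
  exact ⟨fun e => lam e + lam' e, fun β hβ => by
    simp only [h β hβ, h' β hβ, add_mul, Finset.sum_add_distrib]⟩

lemma Cb.smul {f : ℂ → ℂ} (c : ℂ) (h : Cb S B Nw i f) : Cb S B Nw i fun β => c * f β := by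
  obtain ⟨lam, h⟩ := h
  exact ⟨fun e => c * lam e, fun β hβ => by simp only [h β hβ, Finset.mul_sum, mul_assoc]⟩

lemma Cb.sum {ι : Type} (s : Finset ι) (f : ι → ℂ → ℂ) (h : ∀ l ∈ s, Cb S B Nw i (f l)) :
    Cb S B Nw i fun β => ∑ l ∈ s, f l β := by
  choose! lam hl using h
  refine ⟨fun e => ∑ l ∈ s, lam l e, fun β hβ => ?_⟩
  simp only [Finset.sum_mul]
  rw [Finset.sum_comm]
  exact Finset.sum_congr rfl fun l hs => hl l hs β hβ

lemma Cb.mono (hB : Monotone B) {j : ℕ} (hij : i ≤ j) {f : ℂ → ℂ} (h : Cb S B Nw i f) :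
    Cb S B Nw j f := by
  obtain ⟨lam, h⟩ := h
  refine ⟨fun e => if (e : ℤ) ∈ B i then lam e else 0, fun β hβ => ?_⟩
  rw [h β hβ, Finset.sum_filter, Finset.sum_filter]
  refine Finset.sum_congr rfl fun e _ => ?_
  by_cases he : (e : ℤ) ∈ B i
  · simp only [he, hB hij he, if_true]
  · simp [he]

lemma cb_pow {m : ℕ} (h1 : m < Nw) (h2 : (m : ℤ) ∈ B i) : Cb S B Nw i fun β => β ^ m := by
  refine ⟨fun e => if e = m then 1 else 0, fun β _ => ?_⟩
  rw [Finset.sum_eq_single_of_mem m (Finset.mem_filter.2 ⟨Finset.mem_range.2 h1, h2⟩)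
    fun e _ he => by simp [he]]
  simp

lemma pow_inv {β : ℂ} (hβ : β ≠ 0) {m l : ℕ} (h : l ≤ m) : β ^ m * β⁻¹ ^ l = β ^ (m - l) := by
  rw [inv_pow, pow_sub₀ _ hβ h]

lemma expand (hne : ∀ β : ℂ, aeval β S = 0 → β ≠ 0) (P : ℤ[X]) (m : ℕ) (G : ℂ → ℂ)
    (h : ∀ l ∈ P.support, l ≤ m ∧ Cb S B Nw i fun β => β ^ (m - l) * G β) :
    Cb S B Nw i fun β => β ^ m * aeval β⁻¹ P * G β := by
  refine (Cb.sum P.support (fun l β => (P.coeff l : ℂ) * (β ^ (m - l) * G β))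
    fun l hl => (h l hl).2.smul _).congr fun β hβ => ?_
  rw [aeval_def, eval₂_eq_sum, Polynomial.sum_def, Finset.mul_sum, Finset.sum_mul]
  refine Finset.sum_congr rfl fun l hl => ?_
  rw [← pow_inv (hne β hβ) (h l hl).1, eq_intCast]
  ring

lemma sum_le {σ τ : Multiset ℕ} (h : τ ≤ σ) : τ.sum ≤ σ.sum := by
  obtain ⟨ρ, rfl⟩ := Multiset.le_iff_exists_add.1 h
  rw [Multiset.sum_add]
  omega

lemma low (hne : ∀ β : ℂ, aeval β S = 0 → β ≠ 0) {σ σ' : Multiset ℕ} (hσ : σ' ≤ σ)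
    (hs : ∀ i, ∀ e ∈ B i, ∀ τ ≤ σ, e - (τ.sum : ℕ) ∈ B (i + 1)) (R : ℕ) :
    ∀ i m : ℕ, R * σ'.sum ≤ m → m < Nw → (m : ℤ) ∈ B i → Cb S B Nw (i + R) (tw σ' R m) := by
  induction R with
  | zero => exact fun i m _ h1 h2 => (cb_pow h1 h2).congr fun β _ => by simp [tw]
  | succ R ih =>
    intro i m h0 h1 h2
    rw [Nat.succ_mul] at h0
    refine (expand hne (Ph σ') m (fun β => aeval β⁻¹ (Ph σ') ^ R) fun l hl => ?_).congr
      fun β _ => by rw [tw]; ring
    obtain ⟨τ, t1, rfl⟩ := mem_Ph hl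
    have t2 := sum_le t1
    have t3 : τ.sum ≤ m := by omega
    refine ⟨t3, ?_⟩
    rw [show i + (R + 1) = i + 1 + R by ring]
    exact ih (i + 1) (m - τ.sum) (by omega) (by omega)
      (by rw [Nat.cast_sub t3]; exact hs i _ h2 τ (t1.trans hσ))

lemma degW {L g w : ℕ} {σ : Multiset ℕ} {d : ℤ} {φ T W : ℤ[X]} (h : TL L g w σ d S φ T W)
    {l : ℕ} (hl : l ∈ W.support) : g + l ≤ S.natDegree + w := by
  have e : X ^ g * W = S.reverse * T - Polynomial.C d * Ph σ := by rw [h.rel]; ring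
  have h1 : (X ^ g * W).natDegree ≤ S.natDegree + w := by
    rw [e]
    refine (natDegree_sub_le _ _).trans (max_le (natDegree_mul_le.trans ?_)
      ((natDegree_C_mul_le _ _).trans ?_))
    · exact Nat.add_le_add (reverse_natDegree_le S) h.degT
    · exact ((natDegree_Ph σ).trans h.sum).trans (Nat.le_add_left _ _)
  refine le_trans (le_natDegree_of_ne_zero ?_) h1
  rw [add_comm, coeff_X_pow_mul]
  exact mem_support_iff.1 hl

lemma mem_one_sub {σ : Multiset ℕ} (hp : ∀ s ∈ σ, 1 ≤ s) {s₀ l : ℕ} (h : ∀ s ∈ σ, s₀ ≤ s)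
    (hl : l ∈ (1 - Ph σ).support) : s₀ ≤ l ∧ ∃ τ ≤ σ, τ.sum = l := by
  rw [mem_support_iff, coeff_sub] at hl
  have l0 : l ≠ 0 := by
    rintro rfl
    rw [Ph_coeff_zero hp, coeff_one_zero, sub_self] at hl
    exact hl rfl
  rw [coeff_one, if_neg l0, zero_sub, neg_ne_zero] at hl
  obtain ⟨τ, t1, t2⟩ := mem_Ph (mem_support_iff.2 hl)
  refine ⟨?_, τ, t1, t2⟩
  obtain ⟨s, hs⟩ := Multiset.exists_mem_of_ne_zero (s := τ) (by
    rintro rfl
    exact l0 t2.symm)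
  exact (h s (Multiset.mem_of_le t1 hs)).trans (t2 ▸ Multiset.le_sum_of_mem hs)

end Red2y

open Red2y in
theorem p_Red2 (h : S_TRoot) : S_Red2 := by
  intro L g w σ σ' d S φ T W B Nw s₀ hT hσ h0 hB hs
  have hr := h L g w σ d S φ T W hT
  have hne : ∀ β : ℂ, aeval β S = 0 → β ≠ 0 := fun β hβ => (hr β hβ).1
  have base : ∀ R n i m : ℕ, R * σ'.sum ≤ m → m < Nw → (m : ℤ) ∈ B i →
      Cb S B Nw (i + R + n) (tw σ' R m) := fun R n i m h1 h2 h3 =>
    (low hne hσ (fun i e he => (hs i e he).1) R i m h1 h2 h3).mono hB (Nat.le_add_right _ _)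
  have hw : σ'.sum ≤ w := (sum_le hσ).trans hT.sum
  have hsplit : Ph σ = Ph σ' * Ph (σ - σ') := by
    rw [← Ph_add, add_tsub_cancel_of_le hσ]
  have hd : (d : ℂ) ≠ 0 := Int.cast_ne_zero.2 hT.d0
  have hg := hT.gN
  change ∀ R n i m : ℕ, _ → _ → _ → _ → _ → Cb S B Nw (i + R + n) (tw σ' R m)
  intro R
  induction R with
  | zero => exact fun n i m _ h2 h3 _ h5 => base 0 n i m h2 (by omega) h5
  | succ R ihR =>
    intro n
    induction n with
    | zero => exact fun i m _ h2 _ h4 h5 => base _ 0 i m h2 (by omega) h5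
    | succ n ihn =>
      intro i m h1 h2 h3 h4 h5
      rcases lt_or_ge m Nw with a | a
      · exact base _ _ i m h2 a h5
      have b1 : (R + 1) * σ'.sum ≤ (R + 1) * w := Nat.mul_le_mul_left _ hw
      have b2 : R * σ'.sum ≤ R * w := Nat.mul_le_mul_left _ hw
      have b3 : (R + 1) * w = R * w + w := Nat.succ_mul _ _
      have b4 : (R + 1) * g = R * g + g := Nat.succ_mul _ _
      have b5 : (n + 1) * s₀ = n * s₀ + s₀ := Nat.succ_mul _ _
      have k1 := expand (B := B) (Nw := Nw) (i := i + (R + 1) + (n + 1)) hne (1 - Ph (σ - σ')) m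
        (fun β => aeval β⁻¹ (Ph σ') ^ (R + 1)) fun l hl => by
          obtain ⟨c1, τ, t1, rfl⟩ := mem_one_sub
            (fun s hs => hT.pos s (Multiset.mem_of_le tsub_le_self hs)) h0 hl
          have t2 : τ ≤ σ := t1.trans tsub_le_self
          have t3 := (sum_le t2).trans hT.sum
          have t4 : τ.sum ≤ m := by omega
          refine ⟨t4, ?_⟩
          rw [show i + (R + 1) + (n + 1) = i + 1 + (R + 1) + n by ring]
          exact ihn (i + 1) (m - τ.sum) h1 (by omega) (by omega) (by omega)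
            (by rw [Nat.cast_sub t4]; exact (hs i _ h5).1 τ t2)
      have k2 := expand (B := B) (Nw := Nw) (i := i + (R + 1) + (n + 1)) hne W (m - g)
        (fun β => aeval β⁻¹ (Ph σ') ^ R) fun l hl => by
          have t1 := degW hT hl
          have t4 : g + l ≤ m := by omega
          refine ⟨by omega, ?_⟩
          rw [show i + (R + 1) + (n + 1) = i + 1 + R + (n + 1) by ring, Nat.sub_sub]
          exact ihR (n + 1) (i + 1) (m - (g + l)) (by omega) (by omega) (by omega) (by omega)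
            (by rw [Nat.cast_sub t4]; exact (hs i _ h5).2 l hl)
      refine (k1.add (k2.smul (-(d : ℂ)⁻¹))).congr fun β hβ => ?_
      have e1 := (hr β hβ).2.1
      rw [hsplit, map_mul] at e1
      have e2 : aeval β⁻¹ (Ph σ') * aeval β⁻¹ (Ph (σ - σ')) =
          -(d : ℂ)⁻¹ * (β⁻¹ ^ g * aeval β⁻¹ W) := by
        rw [neg_mul, ← mul_neg, ← e1, inv_mul_cancel_left₀ hd]
      rw [← pow_inv (hne β hβ) (show g ≤ m by omega), tw, map_sub, map_one]
      linear_combination β ^ m * aeval β⁻¹ (Ph σ') ^ R * e2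

end Pool.Agent.P.MP_aef18a_nt.TW
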